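import Pool.Agent.Run7.h955.F1

set_option autoImplicit false

/-!
# No other line is parallel to a self-crossing axis for a long time
-/

open Pointwise

namespace Run7.h955

variable {π : Type*} [Group π]

namespace Split

variable (S : Split π)

/-- elements of the form `f t` -/
def Ft (x : π) : Prop := ∃ f ∈ S.F, x = f * S.t

variable {S} {x : π} (hx : S.Ft x)

include hx

lemma Ft.infOrd : InfOrd x := by
  obtain ⟨f, hf, rfl⟩ := hx; exact S.infOrd_ft hf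

lemma Ft.τ_ne : S.τ x ≠ 1 := by
  obtain ⟨f, hf, rfl⟩ := hx; exact S.τ_ft_ne hf

lemma Ft.exists_ins (h1 : OneEnded π) (hE : HasHS π) {u : π}
    (hu : InfOrd u) (hux : u ∉ Subgroup.zpowers x) {J : ℤ}
    (hi : ∀ j : ℤ, J ≤ |j| → Ind u (S.wj x j)) :
    ∃ K : ℤ, 0 ≤ K ∧ ∀ k, K ≤ k → Ins u (S.hj x (-k)) ∧ Ins u (S.hj x k)ᶜ := by
  obtain ⟨f, hf, rfl⟩ := hx; exact S.exists_ins h1 hE hf hu hux hi

lemma Ft.exists_inside {u g : π}
    (hu : ∀ j : ℤ, Thru u (g • S.hj x j)) {B : Set π} (hB : S.Wall B) (hi : Ins u B)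
    (hBc : Bᶜ.Nonempty) :
    ∃ K : ℤ, ∀ j, K ≤ j → g • S.hj x j ⊆ B ∧ (g • S.hj x (-j))ᶜ ⊆ B := by
  obtain ⟨f, hf, rfl⟩ := hx; exact S.exists_inside hf hu hB hi hBc

lemma Ft.thru_conj_hj (g : π) (j : ℤ) : Thru (g * x * g⁻¹) (g • S.hj x j) := by
  obtain ⟨f, hf, rfl⟩ := hx; exact S.thru_conj_hj hf g j

lemma Ft.hj_anti {m n : ℤ} (h : m ≤ n) : S.hj x n ⊆ S.hj x m := by
  obtain ⟨f, hf, rfl⟩ := hx; exact S.hj_anti hf h

lemma Ft.hj_inj {m n : ℤ} (h : S.hj x n = S.hj x m) : n = m := by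
  obtain ⟨f, hf, rfl⟩ := hx; exact S.ch_inj hf h

lemma Ft.wj_ne (h1 : OneEnded π) (hE : HasHS π) {i j : ℤ} (hij : i ≠ j) :
    Subgroup.zpowers (S.wj x i) ≠ Subgroup.zpowers (S.wj x j) := by
  obtain ⟨f, hf, rfl⟩ := hx; exact S.wj_ne h1 hE hf hij

lemma Ft.thru_hj (j : ℤ) : Thru x (S.hj x j) := by
  obtain ⟨f, hf, rfl⟩ := hx; exact S.thru_hj hf j

lemma Ft.step_min (B : Set π) (hB : S.Wall B) (k : ℤ)
    (h1 : S.hj x (k + 1) ⊆ B) (h2 : B ⊆ S.hj x k) : B = S.hj x (k + 1) ∨ B = S.hj x k := by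
  obtain ⟨f, hf, rfl⟩ := hx; exact S.step_min' hf B hB k h1 h2

lemma Ft.between {B : Set π} (hB : S.Wall B) {m n : ℤ} (hmn : n ≤ m)
    (h1 : S.hj x m ⊆ B) (h2 : B ⊆ S.hj x n)
    (hc : ∀ k, n ≤ k → k ≤ m → B ⊆ S.hj x k ∨ S.hj x k ⊆ B) :
    ∃ k, n ≤ k ∧ k ≤ m ∧ B = S.hj x k := by
  obtain ⟨f, hf, rfl⟩ := hx; exact S.between hf hB hmn h1 h2 hc

lemma Ft.shift_succ (h1 : OneEnded π) (hE : HasHS π) {u : π} {j k : ℤ}
    (h : u • S.hj x j = S.hj x k)
    (h' : u • S.hj x (j + 1) ⊆ S.hj x (k + 1) ∨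
      S.hj x (k + 1) ⊆ u • S.hj x (j + 1)) : u = x ^ (k - j) := by
  obtain ⟨f, hf, rfl⟩ := hx; exact S.shift_succ h1 hE hf h h'

lemma Ft.exists_level (p : π) : ∃ N : ℤ, ∀ n : ℤ, p ∈ S.hj x n ↔ n ≤ N := by
  obtain ⟨f, hf, rfl⟩ := hx; exact S.exists_level hf p

end Split

namespace LineSys

variable {S : Split π} {x : π} (Λ : LineSys S x)

lemma symm_smul {X V R : Set π} (h : π) (hfin : (symmDiff (X ∩ R) (V ∩ R)).Finite) :
    (symmDiff (h • X ∩ h • R) (h • V ∩ h • R)).Finite := by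
  have e : symmDiff (h • X ∩ h • R) (h • V ∩ h • R) = h • symmDiff (X ∩ R) (V ∩ R) := by
    ext p
    simp only [Set.mem_symmDiff, Set.mem_inter_iff, mem_smul']
  rw [e]
  exact hfin.smul_set

/-- P0 -/
theorem exists_P0 (h1 : OneEnded π) (hE : HasHS π) (hx : S.Ft x)
    (hself : ∃ γ, CrossEl (γ * x * γ⁻¹) x) :
    ∃ m : ℤ, 1 ≤ m ∧ ∀ v, Subgroup.zpowers v ∈ Λ.L →
      Subgroup.zpowers v ≠ Subgroup.zpowers x →
      ¬ (Thru v (S.hj x (-m)) ∧ Thru v (S.hj x m)) := by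
  obtain ⟨g, hg⟩ := hself
  have hxinf : InfOrd x := hx.infOrd
  have hxτ : S.τ x ≠ 1 := hx.τ_ne
  have hugL : Subgroup.zpowers (g * x * g⁻¹) ∈ Λ.L := Λ.conj_mem Λ.x_mem g
  have hugne : Subgroup.zpowers (g * x * g⁻¹) ≠ Subgroup.zpowers x := by
    intro h
    obtain ⟨X, hX, h2⟩ := hg
    have hmem : g * x * g⁻¹ ∈ Subgroup.zpowers x := by rw [← h]; exact Subgroup.mem_zpowers _
    rcases h2 with h2 | h2
    · exact not_thru_self hX hmem h2
    · exact not_thru_self hX (Subgroup.inv_mem _ hmem) h2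
  have hiug : Ind (g * x * g⁻¹) x := Λ.ind (hxinf.conj g) hxinf hugL Λ.x_mem hugne
  obtain ⟨K, hK0, hK⟩ := hx.exists_ins h1 hE (J := 0) (hxinf.conj g)
    (fun h => by
      obtain ⟨k, hk⟩ := Subgroup.mem_zpowers_iff.mp h
      have := (hiug 1 k (by rw [zpow_one]; exact hk.symm)).1
      omega)
    (fun j _ => S.ind_wj_of_τ _ _ (by rw [S.τ_conj]; exact hxτ) j)
  obtain ⟨K2, hK20, hK2⟩ := hx.exists_ins h1 hE (J := 0) (hxinf.conj g⁻¹)
    (fun h => by
      obtain ⟨k, hk⟩ := Subgroup.mem_zpowers_iff.mp h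
      have h3 : (g * x * g⁻¹) ^ k = x ^ (1 : ℤ) := by
        rw [conj_zpow, hk, zpow_one]; group
      have := (hiug k 1 h3).2
      omega)
    (fun j _ => S.ind_wj_of_τ _ _ (by rw [S.τ_conj]; exact hxτ) j)
  have hK2' : ∀ k, K2 ≤ k → Ins x (g • S.hj x (-k)) ∧ Ins x (g • S.hj x k)ᶜ := by
    intro k hk
    obtain ⟨h2, h3⟩ := hK2 k hk
    have e : g * (g⁻¹ * x * g⁻¹⁻¹) * g⁻¹ = x := by group
    constructor
    · have := (Ins.smul_iff g).mpr h2
      rwa [e] at this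
    · have := (Ins.smul_iff g).mpr h3
      rwa [e, smul_compl'] at this
  have hthrug : ∀ j : ℤ, Thru (g * x * g⁻¹) (g • S.hj x j) := fun j => hx.thru_conj_hj g j
  obtain ⟨K3, hK3⟩ := hx.exists_inside hthrug (S.wall_hj x (-K)) (hK K le_rfl).1
    (S.hs_hj x (-K)).compl.nonempty
  obtain ⟨K4, hK4⟩ := hx.exists_inside hthrug (Split.Wall.compl S (S.wall_hj x K)) (hK K le_rfl).2
    (by rw [compl_compl]; exact (S.hs_hj x K).nonempty)
  obtain ⟨I, hI⟩ := Λ.fin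
  set m : ℤ := 4 * K + K2 + |K3| + |K4| + I + 2 with hm
  have hK3' := le_abs_self K3
  have hK4' := le_abs_self K4
  have hK3'' := abs_nonneg K3
  have hK4'' := abs_nonneg K4
  have hI0 : 0 ≤ (I : ℤ) := Int.natCast_nonneg _
  refine ⟨m, by omega, ?_⟩
  rintro v hvL hvx ⟨hv1, hv2⟩
  have hvinf : InfOrd v := hv1.infOrd
  have hivx : Ind v x := Λ.ind hvinf hxinf hvL Λ.x_mem hvx
  have hthruv : ∀ j, -m ≤ j → j ≤ m → Thru v (S.hj x j) := fun j hj1 hj2 =>
    ⟨hv2.1.mono (hx.hj_anti hj2), hv1.2.mono (Set.compl_subset_compl.mpr (hx.hj_anti hj1))⟩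
  obtain ⟨V, hV⟩ := hE v hvinf
  obtain ⟨X0, hX0⟩ := hE x hxinf
  set R : Set π := ((S.hj x (-m))ᶜ ∪ S.hj x m)ᶜ with hR
  -- x and v are parallel
  have hpar : ∃ X, HS (Subgroup.zpowers x) X ∧ (symmDiff (X ∩ R) (V ∩ R)).Finite := by
    have hp := parallel h1 (S.hs_hj x (-m)).compl (S.hs_hj x m) hX0 hV
      (S.ind_wj_of_τ x x hxτ (-m)).symm (hv1.1.ind (S.hs_hj x (-m)) (S.infOrd_wj x (-m))).symm
      (S.ind_wj_of_τ x x hxτ m).symm (hv2.1.ind (S.hs_hj x m) (S.infOrd_wj x m)).symm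
      (Λ.ind (S.infOrd_wj x (-m)) (S.infOrd_wj x m) (Λ.conj_mem Λ.w_mem _)
        (Λ.conj_mem Λ.w_mem _) (hx.wj_ne h1 hE (by omega)))
      (by
        rw [Set.disjoint_left]
        intro p hp hp'
        exact hp (hx.hj_anti (by omega) hp'))
      ⟨(hx.thru_hj m).1, (hx.thru_hj (-m)).2⟩ ⟨hv2.1, hv1.2⟩
    rcases hp with hp | hp
    · exact ⟨X0, hX0, hp⟩
    · exact ⟨X0ᶜ, hX0.compl, hp⟩
  obtain ⟨X, hX, hXV⟩ := hpar
  -- the translates z i
  have hz : ∀ i : ℕ, i ≤ I → (Thru ((g * x ^ (i : ℤ)) * v * (g * x ^ (i : ℤ))⁻¹) V ∨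
      Thru ((g * x ^ (i : ℤ)) * v * (g * x ^ (i : ℤ))⁻¹)⁻¹ V) ∧
      Ins ((g * x ^ (i : ℤ)) * v * (g * x ^ (i : ℤ))⁻¹) (S.hj x (-K)) ∧
      Ins ((g * x ^ (i : ℤ)) * v * (g * x ^ (i : ℤ))⁻¹) (S.hj x K)ᶜ := by
    intro i hi
    have hi' : (i : ℤ) ≤ I := by exact_mod_cast hi
    have hi0 : 0 ≤ (i : ℤ) := Int.natCast_nonneg _
    set h := g * x ^ (i : ℤ) with hh
    set z := h * v * h⁻¹ with hzdef
    have hzinf : InfOrd z := hvinf.conj h
    have hzL : Subgroup.zpowers z ∈ Λ.L := Λ.conj_mem hvL h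
    have hhx : h * x * h⁻¹ = g * x * g⁻¹ := by
      rw [hh]
      have : x ^ (i : ℤ) * x = x * x ^ (i : ℤ) := by rw [← zpow_add_one, ← zpow_one_add, add_comm]
      calc g * x ^ (i : ℤ) * x * (g * x ^ (i : ℤ))⁻¹
          = g * (x ^ (i : ℤ) * x) * (x ^ (i : ℤ))⁻¹ * g⁻¹ := by group
        _ = g * x * g⁻¹ := by rw [this]; group
    have hhj : ∀ j, h • S.hj x j = g • S.hj x (i + j) := by
      intro j
      rw [hh, mul_smul, S.smul_hj]
    have hU : HS (Subgroup.zpowers (g * x * g⁻¹)) (h • X) := by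
      have := hX.smul h
      rwa [cj_zpowers, hhx] at this
    have hZ : HS (Subgroup.zpowers z) (h • V) := by
      have := hV.smul h
      rwa [cj_zpowers] at this
    have hfin := symm_smul h hXV
    -- x crosses h X
    have hxU := (hg.symm h1 hE hiug).thru h1 hE hiug.symm hU
    have hxR : Ins x (h • R) := by
      have e : h • R = h • S.hj x (-m) ∩ (h • S.hj x m)ᶜ := by
        ext p
        simp only [hR, mem_smul', Set.mem_compl_iff, Set.mem_union, Set.mem_inter_iff]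
        tauto
      rw [e, hhj, hhj]
      have h2 := hK2' (m - i) (by omega)
      have h3 := hK2' (i + m) (by omega)
      have e2 : -(m - (i : ℤ)) = i + -m := by ring
      rw [e2] at h2
      exact ⟨h2.1.1.inter h3.2.1, h2.1.2.inter h3.2.2⟩
    have hxZ := transfer' hxinf hxR hfin hxU
    have hxz : Subgroup.zpowers x ≠ Subgroup.zpowers z := by
      intro h
      have hmem : x ∈ Subgroup.zpowers z := by rw [← h]; exact Subgroup.mem_zpowers x
      rcases hxZ with h2 | h2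
      · exact not_thru_self hZ hmem h2
      · exact not_thru_self hZ (Subgroup.inv_mem _ hmem) h2
    have hixz : Ind x z := Λ.ind hxinf hzinf Λ.x_mem hzL hxz
    have hzX := cross_symm h1 hX hZ hixz hxZ
    have ev1 : Ev z (g • S.hj x (i + m)) := by
      have := hv2.1.smul h
      rwa [hhj] at this
    have ev2 : Ev z⁻¹ (g • S.hj x (-(m - i)))ᶜ := by
      have h2 := (Ev.smul_iff h).mpr hv1.2
      have e : h * v⁻¹ * h⁻¹ = z⁻¹ := by rw [hzdef]; group
      rw [e, smul_compl', hhj] at h2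
      have e2 : (i : ℤ) + -m = -(m - i) := by ring
      rwa [e2] at h2
    have hz1 : Ins z (S.hj x (-K)) := ⟨ev1.mono (hK3 (i + m) (by omega)).1,
      ev2.mono (hK3 (m - i) (by omega)).2⟩
    have hz2 : Ins z (S.hj x K)ᶜ := ⟨ev1.mono (hK4 (i + m) (by omega)).1,
      ev2.mono (hK4 (m - i) (by omega)).2⟩
    refine ⟨?_, hz1, hz2⟩
    have hzR : Ins z R := by
      have hsub : S.hj x (-K) ∩ (S.hj x K)ᶜ ⊆ R := by
        rintro p ⟨hp1, hp2⟩
        simp only [hR, Set.mem_compl_iff, Set.mem_union, not_or, not_not]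
        exact ⟨hx.hj_anti (by omega) hp1, fun h => hp2 (hx.hj_anti (by omega) h)⟩
      exact ⟨(hz1.1.inter hz2.1).mono hsub, (hz1.2.inter hz2.2).mono hsub⟩
    exact transfer' hzinf hzR hXV hzX
  -- pigeonhole
  obtain ⟨T, hT, hT2⟩ := hI _ hvL
  have hex : ∀ i : ℕ, i ≤ I → ∃ k ∈ T, ∃ a b : ℤ, g * x ^ (i : ℤ) = v ^ a * k * v ^ b := by
    intro i hi
    obtain ⟨c, hc, k, hk, c', hc', e⟩ := hT2 (g * x ^ (i : ℤ)) ⟨_, v, cj_zpowers _ _, rfl, V, hV,
      (hz i hi).1⟩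
    obtain ⟨a, rfl⟩ := Subgroup.mem_zpowers_iff.mp hc
    obtain ⟨b, rfl⟩ := Subgroup.mem_zpowers_iff.mp hc'
    exact ⟨k, hk, a, b, e⟩
  classical
  choose! kk hkk1 hkk2 using hex
  obtain ⟨i1, hi1, i2, hi2, hne, heq⟩ := Finset.exists_ne_map_eq_of_card_lt_of_maps_to
    (s := Finset.range (I + 1)) (t := T) (f := kk) (by rw [Finset.card_range]; omega)
    (fun i hi => hkk1 i (by
      have := Finset.mem_range.mp hi
      omega))
  rw [Finset.mem_range] at hi1 hi2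
  obtain ⟨a1, b1, e1⟩ := hkk2 i1 (by omega)
  obtain ⟨a2, b2, e2⟩ := hkk2 i2 (by omega)
  rw [← heq] at e2
  set a := a2 - a1 with ha
  have e3 : g * x ^ (i2 : ℤ) = v ^ a * (g * x ^ (i1 : ℤ)) * v ^ (b2 - b1) := by
    rw [e1, e2, ha, zpow_sub, zpow_sub]
    have : v ^ (-b1) * v ^ b2 = v ^ b2 * v ^ (-b1) := by
      rw [← zpow_add, ← zpow_add, add_comm]
    calc v ^ a2 * kk i1 * v ^ b2 = v ^ a2 * kk i1 * (v ^ b2 * v ^ (-b1)) * v ^ b1 := by group
      _ = v ^ a2 * kk i1 * (v ^ (-b1) * v ^ b2) * v ^ b1 := by rw [this]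
      _ = v ^ a2 * (v ^ a1)⁻¹ * (v ^ a1 * kk i1 * v ^ b1) * (v ^ b2 * (v ^ b1)⁻¹) := by
          have h5 : v ^ (-b1) * v ^ b2 * v ^ b1 = v ^ b2 := by
            rw [this]; group
          have h6 : v ^ b1 * (v ^ b2 * (v ^ b1)⁻¹) = v ^ b2 := by
            rw [← mul_assoc, ← zpow_add, ← zpow_neg, ← zpow_add]
            congr 1; ring
          calc v ^ a2 * kk i1 * (v ^ (-b1) * v ^ b2) * v ^ b1
              = v ^ a2 * kk i1 * (v ^ (-b1) * v ^ b2 * v ^ b1) := by group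
            _ = v ^ a2 * kk i1 * v ^ b2 := by rw [h5]
            _ = v ^ a2 * (v ^ a1)⁻¹ * (v ^ a1 * kk i1) * (v ^ b1 * (v ^ b2 * (v ^ b1)⁻¹)) := by
                rw [h6]; group
            _ = _ := by group
  set z1 := (g * x ^ (i1 : ℤ)) * v * (g * x ^ (i1 : ℤ))⁻¹ with hz1
  have hz2 : (g * x ^ (i2 : ℤ)) * v * (g * x ^ (i2 : ℤ))⁻¹ = v ^ a * z1 * (v ^ a)⁻¹ := by
    rw [e3, hz1]
    group
  obtain ⟨-, hza, hzb⟩ := hz i1 (by omega)
  obtain ⟨-, hzc, hzd⟩ := hz i2 (by omega)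
  rw [hz2] at hzc hzd
  rw [← hz1] at hza hzb
  have hze := (Ins.smul_iff (v ^ a)).mpr hza
  have hzf := (Ins.smul_iff (v ^ a)).mpr hzb
  rw [smul_compl'] at hzf
  set z2 := v ^ a * z1 * (v ^ a)⁻¹ with hz2def
  have hthruva : ∀ j, -m ≤ j → j ≤ m → Thru v (v ^ a • S.hj x j) := fun j hj1 hj2 => by
    have := (Thru.smul_iff (v ^ a)).mpr (hthruv j hj1 hj2)
    have e : v ^ a * v * (v ^ a)⁻¹ = v := by
      rw [← zpow_add_one, ← zpow_neg, ← zpow_add]
      have : a + 1 + -a = 1 := by ring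
      rw [this, zpow_one]
    rwa [e] at this
  have hcomp : ∀ i j, -m ≤ i → i ≤ m → -m ≤ j → j ≤ m →
      v ^ a • S.hj x i ⊆ S.hj x j ∨ S.hj x j ⊆ v ^ a • S.hj x i := fun i j hi1 hi2 hj1 hj2 =>
    S.comparable (Split.Wall.smul S (S.wall_hj x i) _) (S.wall_hj x j) (hthruva i hi1 hi2)
      (hthruv j hj1 hj2)
  have c1 : v ^ a • S.hj x K ⊆ S.hj x (-K) := by
    refine (hcomp K (-K) (by omega) (by omega) (by omega) (by omega)).resolve_right fun h => ?_
    exact Ev.compl_not (hzc.1.mono h) hzf.1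
  have c2 : S.hj x K ⊆ v ^ a • S.hj x (-K) := by
    refine (hcomp (-K) K (by omega) (by omega) (by omega) (by omega)).resolve_left fun h => ?_
    exact Ev.compl_not (hze.1.mono h) hzd.1
  have hstep : ∀ s : ℕ, (s : ℤ) ≤ 2 * K → S.hj x (K + s) ⊆ v ^ a • S.hj x (-K + s) := by
    intro s
    induction s with
    | zero => intro _; simpa using c2
    | succ s ih =>
      intro hs
      push_cast at hs ⊢
      have ih' := ih (by omega)
      rcases hcomp (-K + (s + 1)) (K + (s + 1)) (by omega) (by omega) (by omega) (by omega) with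
        h | h
      · have h5 := hx.step_min ((v ^ a)⁻¹ • S.hj x (K + (s + 1)))
          (Split.Wall.smul S (S.wall_hj x _) _) (-K + s)
          (by
            rw [Set.subset_smul_set_iff, inv_inv]
            have e : -K + (s : ℤ) + 1 = -K + (s + 1) := by ring
            rw [e]; exact h)
          (by
            rw [Set.smul_set_subset_iff_subset_inv_smul_set, inv_inv]
            exact (hx.hj_anti (by omega)).trans ih')
        rcases h5 with h5 | h5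
        · have e : -K + (s : ℤ) + 1 = -K + (s + 1) := by ring
          rw [e] at h5
          have h6 : S.hj x (K + (s + 1)) = v ^ a • S.hj x (-K + (s + 1)) := by
            rw [← h5, smul_inv_smul]
          rw [h6]
        · exfalso
          have h6 : S.hj x (K + (s + 1)) = v ^ a • S.hj x (-K + s) := by
            rw [← h5, smul_inv_smul]
          rw [← h6] at ih'
          have h7 := hx.hj_inj (Set.Subset.antisymm ih' (hx.hj_anti (by omega)))
          omega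
      · exact h
  have c3 : S.hj x (3 * K) ⊆ v ^ a • S.hj x K := by
    have h5 := hstep (2 * K).toNat (by omega)
    rw [Int.toNat_of_nonneg (by omega)] at h5
    have e1 : K + 2 * K = 3 * K := by ring
    have e2 : -K + 2 * K = K := by ring
    rwa [e1, e2] at h5
  obtain ⟨k, hk1, hk2, hk3⟩ := hx.between (Split.Wall.smul S (S.wall_hj x K) (v ^ a))
    (m := 3 * K) (n := -K) (by omega) c3 c1 (fun k hk1 hk2 =>
      hcomp K k (by omega) (by omega) (by omega) (by omega))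
  have hfin := hx.shift_succ h1 hE (u := v ^ a) (j := K) (k := k) hk3
    (hcomp (K + 1) (k + 1) (by omega) (by omega) (by omega) (by omega))
  have ha0 := (hivx a (k - K) hfin).1
  rw [ha0, zpow_zero, one_mul] at e3
  have e5 : v ^ (b2 - b1) = x ^ ((i2 : ℤ) - i1) := by
    have : v ^ (b2 - b1) = (g * x ^ (i1 : ℤ))⁻¹ * (g * x ^ (i1 : ℤ) * v ^ (b2 - b1)) := by group
    rw [this, ← e3]
    group
  have := (hivx _ _ e5).2
  apply hne
  omega

end LineSys

end Run7.h955
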