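import Pool.Agent.Run7.h955.F2

set_option autoImplicit false

/-!
# The coordinate of a line
-/

open Pointwise

namespace Run7.h955

variable {π : Type*} [Group π]

/-- Both ends of the line are in `A`. -/
def SIn (C : Subgroup π) (A : Set π) : Prop := ∃ u, C = Subgroup.zpowers u ∧ Ins u A

lemma sIn_iff {u : π} (hu : InfOrd u) {A : Set π} : SIn (Subgroup.zpowers u) A ↔ Ins u A := by
  constructor
  · rintro ⟨v, hv, hi⟩
    rcases gen_eq hu hv with rfl | rfl
    · exact hi
    · have := hi.inv; rwa [inv_inv] at this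
  · intro h; exact ⟨u, rfl, h⟩

open Classical in
/-- The coordinate. -/
noncomputable def kap (S : Split π) (x : π) (C : Subgroup π) : ℤ :=
  if h : ∃ N : ℤ, ∀ j, SIn C (S.hj x j) ↔ j ≤ N then h.choose else 0

lemma kap_eq {S : Split π} {x : π} {C : Subgroup π} {N : ℤ}
    (h : ∀ j, SIn C (S.hj x j) ↔ j ≤ N) : kap S x C = N := by
  have hex : ∃ N : ℤ, ∀ j, SIn C (S.hj x j) ↔ j ≤ N := ⟨N, h⟩
  unfold kap
  rw [dif_pos hex]
  have h1 := hex.choose_spec
  have h2 := (h1 N).mp ((h N).mpr le_rfl)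
  have h3 := (h hex.choose).mp ((h1 _).mpr le_rfl)
  omega

namespace LineSys

variable {S : Split π} {x : π} (Λ : LineSys S x)

lemma infOrd_of_mem {u : π} (h : Subgroup.zpowers u ∈ Λ.L) : InfOrd u := by
  obtain ⟨v, hv, e⟩ := Λ.cyc _ h
  rcases gen_eq hv e.symm with rfl | rfl
  · exact hv
  · exact hv.inv

lemma cross_ne {u v : π} (hv : InfOrd v) (h : CrossEl u v) :
    Subgroup.zpowers u ≠ Subgroup.zpowers v := by
  intro h2
  obtain ⟨X, hX, h3⟩ := h
  have hmem : u ∈ Subgroup.zpowers v := by rw [← h2]; exact Subgroup.mem_zpowers _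
  rcases h3 with h3 | h3
  · exact not_thru_self hX hmem h3
  · exact not_thru_self hX (Subgroup.inv_mem _ hmem) h3

/-- the hypotheses which are used throughout -/
structure Hyp (m : ℤ) : Prop where
  h1 : OneEnded π
  hE : HasHS π
  hx : S.Ft x
  hm : 1 ≤ m
  hP0 : ∀ v, Subgroup.zpowers v ∈ Λ.L → Subgroup.zpowers v ≠ Subgroup.zpowers x →
      ¬ (Thru v (S.hj x (-m)) ∧ Thru v (S.hj x m))

variable {Λ} {m : ℤ} (H : Hyp Λ m)

include H

lemma Hyp.P0' {v : π} (hvL : Subgroup.zpowers v ∈ Λ.L)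
    (hvx : Subgroup.zpowers v ≠ Subgroup.zpowers x) (i : ℤ) :
    ¬ (Thru v (S.hj x i) ∧ Thru v (S.hj x (i + 2 * m))) := by
  rintro ⟨h2, h3⟩
  apply H.hP0 (x ^ (-(i + m)) * v * (x ^ (-(i + m)))⁻¹) (Λ.conj_mem hvL _)
  · intro h
    have hv := Λ.infOrd_of_mem hvL
    apply hvx
    have hmem : x ^ (-(i + m)) * v * (x ^ (-(i + m)))⁻¹ ∈ Subgroup.zpowers x := by
      rw [← h]; exact Subgroup.mem_zpowers _
    have hxm : ∀ k : ℤ, x ^ k ∈ Subgroup.zpowers x := fun k =>
      Subgroup.zpow_mem _ (Subgroup.mem_zpowers x) k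
    have hvm : v ∈ Subgroup.zpowers x := by
      have e : v = (x ^ (-(i + m)))⁻¹ * (x ^ (-(i + m)) * v * (x ^ (-(i + m)))⁻¹) *
        x ^ (-(i + m)) := by group
      rw [e]
      exact Subgroup.mul_mem _ (Subgroup.mul_mem _ (Subgroup.inv_mem _ (hxm _)) hmem) (hxm _)
    by_contra hne
    have hi := Λ.ind hv H.hx.infOrd hvL Λ.x_mem hne
    obtain ⟨k, hk⟩ := Subgroup.mem_zpowers_iff.mp hvm
    have := (hi 1 k (by rw [zpow_one]; exact hk.symm)).1
    omega
  · constructor
    · have := (Thru.smul_iff (x ^ (-(i + m)))).mpr h2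
      rw [S.smul_hj] at this
      have e : -(i + m) + i = -m := by ring
      rwa [e] at this
    · have := (Thru.smul_iff (x ^ (-(i + m)))).mpr h3
      rw [S.smul_hj] at this
      have e : -(i + m) + (i + 2 * m) = m := by ring
      rwa [e] at this

omit H in
lemma wj_mem (j : ℤ) : Subgroup.zpowers (S.wj x j) ∈ Λ.L := Λ.conj_mem Λ.w_mem _

lemma Hyp.pow_mem_hj (i j : ℤ) : x ^ j ∈ S.hj x i ↔ i ≤ j := by
  obtain ⟨N, hN⟩ := H.hx.exists_level (1 : π)
  have hN0 : N = 0 := by
    have h2 := (hN 0).mp (by unfold Split.hj; rw [zpow_zero, one_smul]; exact S.one_mem)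
    have h3 : ¬ (1 : ℤ) ≤ N := by
      intro h
      have := (hN 1).mpr h
      obtain ⟨f, hf, rfl⟩ := H.hx
      unfold Split.hj at this
      rw [zpow_one] at this
      exact S.one_not_mem_step hf this
    omega
  have h4 : x ^ j ∈ S.hj x i ↔ (1 : π) ∈ S.hj x (-j + i) := by
    rw [← S.smul_hj, mem_smul', mul_one, ← zpow_neg, neg_neg]
  rw [h4, hN, hN0]
  omega

/-- positions of the edge groups -/
lemma Hyp.ins_wj {i j : ℤ} (hij : i < j) : Ins (S.wj x j) (S.hj x i) := by
  have hi : Ind (S.wj x j) (S.wj x i) := Λ.ind (S.infOrd_wj x j) (S.infOrd_wj x i)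
    (wj_mem j) (wj_mem i) (H.hx.wj_ne H.h1 H.hE (by omega))
  constructor
  · refine (S.hs_hj x i).ev_of_freq hi (x ^ j) (Filter.Eventually.frequently ?_)
    refine Filter.Eventually.of_forall fun n => ?_
    have e : (S.wj x j) ^ n * x ^ j = x ^ j * S.w ^ (n : ℤ) := by
      unfold Split.wj
      rw [conj_pow, zpow_natCast]; group
    rw [e]
    have := S.right_g (x ^ i) (x ^ j) (S.w_zpow n)
    exact this.mpr ((H.pow_mem_hj i j).mpr (by omega))
  · refine (S.hs_hj x i).ev_of_freq hi.inv_left (x ^ j) (Filter.Eventually.frequently ?_)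
    refine Filter.Eventually.of_forall fun n => ?_
    have e : (S.wj x j)⁻¹ ^ n * x ^ j = x ^ j * S.w ^ (-(n : ℤ)) := by
      unfold Split.wj
      rw [inv_pow, conj_pow, zpow_neg, zpow_natCast]; group
    rw [e]
    have := S.right_g (x ^ i) (x ^ j) (S.w_zpow (-(n : ℤ)))
    exact this.mpr ((H.pow_mem_hj i j).mpr (by omega))

omit H in
lemma not_mem_of_ne {v : π} (hx : InfOrd x) (hvL : Subgroup.zpowers v ∈ Λ.L)
    (hvx : Subgroup.zpowers v ≠ Subgroup.zpowers x) : v ∉ Subgroup.zpowers x := by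
  intro h
  have hi := Λ.ind (Λ.infOrd_of_mem hvL) hx hvL Λ.x_mem hvx
  obtain ⟨k, hk⟩ := Subgroup.mem_zpowers_iff.mp h
  have := (hi 1 k (by rw [zpow_one]; exact hk.symm)).1
  omega

/-- the coordinate of a line -/
lemma Hyp.kap_spec {v : π} (hvL : Subgroup.zpowers v ∈ Λ.L)
    (hvx : Subgroup.zpowers v ≠ Subgroup.zpowers x) :
    (∀ j, Ins v (S.hj x j) ↔ j ≤ kap S x (Subgroup.zpowers v)) ∧
      ∀ j, kap S x (Subgroup.zpowers v) + (2 * m + 1) ≤ j → Ins v (S.hj x j)ᶜ := by
  have hv := Λ.infOrd_of_mem hvL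
  have hm := H.hm
  have hdown : ∀ i j, i ≤ j → Ins v (S.hj x j) → Ins v (S.hj x i) := fun i j hij h =>
    h.mono (H.hx.hj_anti hij)
  have hindne : ∀ j, Subgroup.zpowers v ≠ Subgroup.zpowers (S.wj x j) → Ind v (S.wj x j) :=
    fun j h => Λ.ind hv (S.infOrd_wj x j) hvL (wj_mem j) h
  have hJ : ∃ J : ℤ, ∀ j : ℤ, J ≤ |j| → Ind v (S.wj x j) := by
    by_cases h : ∃ j0, Subgroup.zpowers v = Subgroup.zpowers (S.wj x j0)
    · obtain ⟨j0, hj0⟩ := h
      refine ⟨|j0| + 1, fun j hj => hindne j ?_⟩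
      rw [hj0]
      apply H.hx.wj_ne H.h1 H.hE
      intro h
      rw [h] at hj
      omega
    · push Not at h
      exact ⟨0, fun j _ => hindne j (h j)⟩
  obtain ⟨J, hJ⟩ := hJ
  obtain ⟨K, hK0, hK⟩ := H.hx.exists_ins H.h1 H.hE hv (not_mem_of_ne H.hx.infOrd hvL hvx) hJ
  obtain ⟨N, hN1, hN2⟩ := Int.exists_greatest_of_bdd (P := fun j => Ins v (S.hj x j))
    ⟨K, fun z hz => by
      by_contra h
      exact Ev.compl_not hz.1 (hK z (by omega)).2.1⟩ ⟨-K, (hK K le_rfl).1⟩
  have hNiff : ∀ j, Ins v (S.hj x j) ↔ j ≤ N := fun j => ⟨hN2 j, fun h => hdown _ _ h hN1⟩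
  have hkap : kap S x (Subgroup.zpowers v) = N := kap_eq fun j => by
    rw [sIn_iff hv]; exact hNiff j
  rw [hkap]
  refine ⟨hNiff, fun j hj => ?_⟩
  have hnot : ∀ i, N < i → ¬ Ins v (S.hj x i) := fun i hi h => by
    have := (hNiff i).mp h
    omega
  -- v is not the edge group of level j
  have hne : Subgroup.zpowers v ≠ Subgroup.zpowers (S.wj x j) := by
    intro h
    apply hnot (j - 1)
    · omega
    · have h3 := H.ins_wj (i := j - 1) (j := j) (by omega)
      rw [← sIn_iff hv, h, sIn_iff (S.infOrd_wj x j)]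
      exact h3
  have hfin : ∀ v', (v' = v ∨ v' = v⁻¹) → ¬ Thru v' (S.hj x j) := by
    intro v' hv' h2
    have hv'z : Subgroup.zpowers v' = Subgroup.zpowers v := by
      rcases hv' with rfl | rfl
      · rfl
      · exact Subgroup.zpowers_inv
    have hv'L : Subgroup.zpowers v' ∈ Λ.L := by rw [hv'z]; exact hvL
    have hv'x : Subgroup.zpowers v' ≠ Subgroup.zpowers x := by rw [hv'z]; exact hvx
    have hv'inf := Λ.infOrd_of_mem hv'L
    by_cases h3 : Subgroup.zpowers v' = Subgroup.zpowers (S.wj x (N + 1))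
    · exact S.not_thru_w' _ _ h3 h2
    · have hi := Λ.ind hv'inf (S.infOrd_wj x (N + 1)) hv'L (wj_mem _) h3
      rcases (S.hs_hj x (N + 1)).cases hi with h4 | h4 | h4 | h4
      · apply hnot (N + 1) (by omega)
        rcases hv' with rfl | rfl
        · exact h4
        · have := h4.inv; rwa [inv_inv] at this
      · exact Ev.compl_not (h2.1.mono (H.hx.hj_anti (by omega))) h4.1
      · apply H.P0' hv'L hv'x (N + 1)
        refine ⟨h4, h2.1.mono (H.hx.hj_anti (by omega)), h4.2.mono ?_⟩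
        exact Set.compl_subset_compl.mpr (H.hx.hj_anti (by omega))
      · have h5 := h4.2
        rw [inv_inv] at h5
        exact Ev.compl_not (h2.1.mono (H.hx.hj_anti (by omega))) h5
  rcases (S.hs_hj x j).cases (hindne j hne) with h4 | h4 | h4 | h4
  · exact absurd h4 (hnot j (by omega))
  · exact h4
  · exact absurd h4 (hfin v (Or.inl rfl))
  · exact absurd h4 (hfin v⁻¹ (Or.inr rfl))

lemma Hyp.not_cross_of_sep {C D : Subgroup π} (hC : C ∈ Λ.L) (hD : D ∈ Λ.L) {j : ℤ}
    (h2 : SIn C (S.hj x j)) (h3 : SIn D (S.hj x j)ᶜ) : ¬ (Cross C D ∨ Cross D C) := by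
  obtain ⟨u, rfl, hu⟩ := h2
  obtain ⟨v, rfl, hv⟩ := h3
  have hui := Λ.infOrd_of_mem hC
  have hvi := Λ.infOrd_of_mem hD
  have hne : Subgroup.zpowers u ≠ Subgroup.zpowers v := by
    intro h
    have h4 : SIn (Subgroup.zpowers u) (S.hj x j)ᶜ := by rw [h]; exact ⟨v, rfl, hv⟩
    rw [sIn_iff hui] at h4
    exact Ev.compl_not hu.1 h4.1
  have hi := Λ.ind hui hvi hC hD hne
  have key : CrossEl u v → False := sep H.h1 H.hE (S.hs_hj x j)
    (hu.1.ind (S.hs_hj x j) (S.infOrd_wj x j)).symm hi hu hv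
  have key2 : CrossEl v u → False := fun h => key (h.symm H.h1 H.hE hi.symm)
  rintro (⟨u', v', hu', hv', hc⟩ | ⟨v', u', hv', hu', hc⟩)
  · rcases gen_eq hui hu' with rfl | rfl <;> rcases gen_eq hvi hv' with rfl | rfl
    · exact key hc
    · apply key; have := hc.inv_right; rwa [inv_inv] at this
    · apply key; have := hc.inv_left; rwa [inv_inv] at this
    · apply key; have := hc.inv_left.inv_right; rwa [inv_inv, inv_inv] at this
  · rcases gen_eq hui hu' with rfl | rfl <;> rcases gen_eq hvi hv' with rfl | rfl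
    · exact key2 hc
    · apply key2; have := hc.inv_left; rwa [inv_inv] at this
    · apply key2; have := hc.inv_right; rwa [inv_inv] at this
    · apply key2; have := hc.inv_left.inv_right; rwa [inv_inv, inv_inv] at this

lemma Hyp.sIn_iff_kap {C : Subgroup π} (hC : C ∈ Λ.L) (hCx : C ≠ Subgroup.zpowers x) (j : ℤ) :
    SIn C (S.hj x j) ↔ j ≤ kap S x C := by
  obtain ⟨u, hu, rfl⟩ := Λ.cyc _ hC
  rw [sIn_iff hu]
  exact (H.kap_spec hC hCx).1 j

lemma Hyp.sIn_compl {C : Subgroup π} (hC : C ∈ Λ.L) (hCx : C ≠ Subgroup.zpowers x) {j : ℤ}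
    (hj : kap S x C + (2 * m + 1) ≤ j) : SIn C (S.hj x j)ᶜ := by
  obtain ⟨u, hu, rfl⟩ := Λ.cyc _ hC
  rw [sIn_iff hu]
  exact (H.kap_spec hC hCx).2 j hj

/-- (A1) -/
theorem Hyp.A1 {C D : Subgroup π} (hC : C ∈ Λ.L) (hD : D ∈ Λ.L) (hCx : C ≠ Subgroup.zpowers x)
    (hDx : D ≠ Subgroup.zpowers x) (h : Cross C D ∨ Cross D C) :
    |kap S x C - kap S x D| ≤ 2 * m + 1 := by
  by_contra hcon
  push Not at hcon
  rcases abs_cases (kap S x C - kap S x D) with h2 | h2
  · have h3 := H.sIn_compl hD hDx (j := kap S x D + (2 * m + 1)) le_rfl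
    have h4 := (H.sIn_iff_kap hC hCx (kap S x D + (2 * m + 1))).mpr (by omega)
    exact H.not_cross_of_sep hC hD h4 h3 h
  · have h3 := H.sIn_compl hC hCx (j := kap S x C + (2 * m + 1)) le_rfl
    have h4 := (H.sIn_iff_kap hD hDx (kap S x C + (2 * m + 1))).mpr (by omega)
    exact H.not_cross_of_sep hD hC h4 h3 h.symm

/-- (A2) -/
theorem Hyp.A2 {C : Subgroup π} (hC : C ∈ Λ.L) (hCx : C ≠ Subgroup.zpowers x) :
    kap S x (cj x C) = kap S x C + 1 := by
  apply kap_eq
  intro j
  obtain ⟨u, hu, rfl⟩ := Λ.cyc _ hC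
  rw [cj_zpowers, sIn_iff (hu.conj x)]
  have e : S.hj x j = x • S.hj x (j - 1) := by
    have := S.smul_hj x 1 (j - 1)
    rw [zpow_one] at this
    rw [this]
    congr 1; ring
  rw [e, Ins.smul_iff, (H.kap_spec hC hCx).1]
  omega

omit H in
lemma dist_getVert_le {V : Type*} {Γ : SimpleGraph V} (hc : Γ.Connected) {u v : V}
    (p : Γ.Walk u v) (i k : ℕ) : Γ.dist (p.getVert i) (p.getVert (i + k)) ≤ k := by
  induction k with
  | zero => simp
  | succ k ih =>
    have h1 := hc.dist_triangle (u := p.getVert i) (v := p.getVert (i + k))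
      (w := p.getVert (i + (k + 1)))
    have h2 : Γ.dist (p.getVert (i + k)) (p.getVert (i + (k + 1))) ≤ 1 := by
      by_cases h : i + k < p.length
      · have := p.adj_getVert_succ h
        rw [add_assoc] at this
        exact (SimpleGraph.dist_eq_one_iff_adj.mpr this).le
      · rw [p.getVert_of_length_le (by omega), p.getVert_of_length_le (by omega)]
        simp
    omega

omit H in
lemma geod {V : Type*} {Γ : SimpleGraph V} (hc : Γ.Connected) {u v : V}
    (p : Γ.Walk u v) (hp : p.length = Γ.dist u v) (i k : ℕ) (hk : i + k ≤ p.length) :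
    k ≤ Γ.dist (p.getVert i) (p.getVert (i + k)) := by
  have h1 := dist_getVert_le hc p 0 i
  have h2 := dist_getVert_le hc p (i + k) (p.length - (i + k))
  rw [zero_add, p.getVert_zero] at h1
  have e : i + k + (p.length - (i + k)) = p.length := by omega
  rw [e, p.getVert_length] at h2
  have h3 := hc.dist_triangle (u := u) (v := p.getVert i) (w := v)
  have h4 := hc.dist_triangle (u := p.getVert i) (v := p.getVert (i + k)) (w := v)
  omega

omit H in
lemma exists_change {P : ℕ → Prop} {n : ℕ} (h0 : P 0) (hn : ¬ P n) :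
    ∃ i, i < n ∧ P i ∧ ¬ P (i + 1) := by
  induction n with
  | zero => exact absurd h0 hn
  | succ n ih =>
    by_cases h : P n
    · exact ⟨n, by omega, h, hn⟩
    · obtain ⟨i, hi, h1⟩ := ih h
      exact ⟨i, by omega, h1⟩

/-- lines which are neither inside nor outside are near the axis -/
lemma Hyp.near (hc : (crossGraph Λ.L).Connected) (D : Λ.L) {j : ℤ}
    (h2 : ¬ SIn (D : Subgroup π) (S.hj x j)) (h3 : ¬ SIn (D : Subgroup π) (S.hj x j)ᶜ) :
    (crossGraph Λ.L).dist D ⟨_, Λ.x_mem⟩ ≤ 2 := by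
  have hcel : CrossEl x (S.wj x j) := ⟨S.hj x j, S.hs_hj x j, Or.inl (H.hx.thru_hj j)⟩
  have hcr : Cross (Subgroup.zpowers x) (Subgroup.zpowers (S.wj x j)) := ⟨x, _, rfl, rfl, hcel⟩
  have hwx : (crossGraph Λ.L).Adj ⟨_, wj_mem j⟩ ⟨_, Λ.x_mem⟩ := by
    refine (SimpleGraph.fromRel_adj _ _ _).mpr ⟨?_, Or.inr hcr⟩
    intro h
    exact cross_ne (S.infOrd_wj x j) hcel (congrArg Subtype.val h).symm
  have hd1 := (SimpleGraph.dist_eq_one_iff_adj.mpr hwx).le
  obtain ⟨D, hD⟩ := D
  by_cases h4 : D = Subgroup.zpowers (S.wj x j)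
  · subst h4
    omega
  · obtain ⟨u, hu, rfl⟩ := Λ.cyc _ hD
    have hi := Λ.ind hu (S.infOrd_wj x j) hD (wj_mem j) h4
    have hadj : (crossGraph Λ.L).Adj ⟨_, hD⟩ ⟨_, wj_mem j⟩ := by
      refine (SimpleGraph.fromRel_adj _ _ _).mpr ⟨fun h => h4 (congrArg Subtype.val h), Or.inl ?_⟩
      refine ⟨u, _, rfl, rfl, S.hj x j, S.hs_hj x j, ?_⟩
      rcases (S.hs_hj x j).cases hi with h5 | h5 | h5 | h5
      · exact absurd ((sIn_iff hu).mpr h5) h2
      · exact absurd ((sIn_iff hu).mpr h5) h3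
      · exact Or.inl h5
      · exact Or.inr h5
    have hd2 := (SimpleGraph.dist_eq_one_iff_adj.mpr hadj).le
    have h5 := hc.dist_triangle (u := (⟨_, hD⟩ : Λ.L)) (v := ⟨_, wj_mem j⟩) (w := ⟨_, Λ.x_mem⟩)
    omega

lemma Hyp.B0 (hc : (crossGraph Λ.L).Connected) (C D : Λ.L)
    (hCx : (C : Subgroup π) ≠ Subgroup.zpowers x) (hDx : (D : Subgroup π) ≠ Subgroup.zpowers x)
    (hCD : kap S x C + 6 * (2 * m + 1) ≤ kap S x D) :
    (crossGraph Λ.L).dist C D = (crossGraph Λ.L).dist C ⟨_, Λ.x_mem⟩ +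
      (crossGraph Λ.L).dist ⟨_, Λ.x_mem⟩ D := by
  have hm := H.hm
  apply le_antisymm (hc.dist_triangle)
  obtain ⟨p, hp⟩ := hc.exists_walk_length_eq_dist C D
  by_cases hsupp : ∃ i, i ≤ p.length ∧ p.getVert i = ⟨_, Λ.x_mem⟩
  · obtain ⟨i, hi, hi2⟩ := hsupp
    have h1 := dist_getVert_le hc p 0 i
    have h2 := dist_getVert_le hc p i (p.length - i)
    rw [zero_add, p.getVert_zero, hi2] at h1
    have e : i + (p.length - i) = p.length := by omega
    rw [e, p.getVert_length, hi2] at h2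
    omega
  · exfalso
    push Not at hsupp
    have hnx : ∀ i, ((p.getVert i : Λ.L) : Subgroup π) ≠ Subgroup.zpowers x := by
      intro i h
      by_cases hi : i ≤ p.length
      · exact hsupp i hi (Subtype.ext h)
      · rw [p.getVert_of_length_le (by omega)] at h
        exact hDx h
    have hadj : ∀ i, i < p.length → Cross (p.getVert i : Subgroup π) (p.getVert (i + 1)) ∨
        Cross (p.getVert (i + 1) : Subgroup π) (p.getVert i) := fun i hi =>
      ((SimpleGraph.fromRel_adj _ _ _).mp (p.adj_getVert_succ hi)).2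
    have hlip : ∀ i k, i + k ≤ p.length → |kap S x (p.getVert i) - kap S x (p.getVert (i + k))| ≤
        k * (2 * m + 1) := by
      intro i k
      induction k with
      | zero => intro _; simp
      | succ k ih =>
        intro hk
        have h1 := ih (by omega)
        have h2 := H.A1 (p.getVert (i + k)).2 (p.getVert (i + k + 1)).2 (hnx _) (hnx _)
          (hadj (i + k) (by omega))
        have h3 := abs_sub_le (kap S x (p.getVert i)) (kap S x (p.getVert (i + k)))
          (kap S x (p.getVert (i + k + 1)))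
        rw [← add_assoc]
        push_cast
        linarith
    set j1 := kap S x C + (2 * m + 1) with hj1
    set j2 := kap S x D with hj2
    obtain ⟨a, ha, ha1, ha2⟩ := exists_change
      (P := fun i => SIn (p.getVert i : Subgroup π) (S.hj x j1)ᶜ) (n := p.length)
      (by rw [p.getVert_zero]; exact H.sIn_compl C.2 hCx le_rfl)
      (by
        rw [p.getVert_length]
        intro h
        have h2 := (H.sIn_iff_kap D.2 hDx j1).mpr (by omega)
        obtain ⟨v, hv, hvD⟩ := Λ.cyc _ D.2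
        rw [hvD, sIn_iff hv] at h h2
        exact Ev.compl_not h2.1 h.1)
    obtain ⟨b, hb, hb1, hb2⟩ := exists_change
      (P := fun i => ¬ SIn (p.getVert i : Subgroup π) (S.hj x j2)) (n := p.length)
      (by
        rw [p.getVert_zero]
        intro h
        have h2 := (H.sIn_iff_kap C.2 hCx j2).mp h
        omega)
      (by
        rw [p.getVert_length, not_not]
        exact (H.sIn_iff_kap D.2 hDx j2).mpr le_rfl)
    rw [not_not] at hb2
    -- the vertex a+1
    have hna : ¬ SIn (p.getVert (a + 1) : Subgroup π) (S.hj x j1) := fun h =>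
      H.not_cross_of_sep (p.getVert (a + 1)).2 (p.getVert a).2 h ha1 (hadj a ha).symm
    have hda := H.near hc (p.getVert (a + 1)) hna ha2
    have hka : kap S x (p.getVert (a + 1)) < j1 := by
      by_contra h
      exact hna ((H.sIn_iff_kap (p.getVert (a + 1)).2 (hnx _) j1).mpr (not_lt.mp h))
    -- the vertex b
    have hnb : ¬ SIn (p.getVert b : Subgroup π) (S.hj x j2)ᶜ := fun h =>
      H.not_cross_of_sep (p.getVert (b + 1)).2 (p.getVert b).2 hb2 h (hadj b hb).symm
    have hdb := H.near hc (p.getVert b) hb1 hnb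
    have hkb1 := (H.sIn_iff_kap (p.getVert (b + 1)).2 (hnx _) j2).mp hb2
    have hkb2 := H.A1 (p.getVert b).2 (p.getVert (b + 1)).2 (hnx _) (hnx _) (hadj b hb)
    rw [abs_le] at hkb2
    have hdist := hc.dist_triangle (u := p.getVert (a + 1)) (v := ⟨_, Λ.x_mem⟩)
      (w := p.getVert b)
    rw [(crossGraph Λ.L).dist_comm (u := ⟨_, Λ.x_mem⟩)] at hdist
    rcases le_total (a + 1) b with hab | hab
    · obtain ⟨k, rfl⟩ : ∃ k, b = a + 1 + k := ⟨b - (a + 1), by omega⟩
      have h1 := geod hc p hp (a + 1) k (by omega)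
      have h2 := hlip (a + 1) k (by omega)
      have h3 : (k : ℤ) ≤ 4 := by omega
      rw [abs_le] at h2
      nlinarith
    · obtain ⟨k, hk⟩ : ∃ k, a + 1 = b + k := ⟨a + 1 - b, by omega⟩
      have h1 := geod hc p hp b k (by omega)
      have h2 := hlip b k (by omega)
      rw [← hk] at h1 h2
      rw [(crossGraph Λ.L).dist_comm] at h1
      have h3 : (k : ℤ) ≤ 4 := by omega
      rw [abs_le] at h2
      nlinarith

/-- (B) -/
theorem Hyp.B (hc : (crossGraph Λ.L).Connected) (C D : Λ.L)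
    (hCx : (C : Subgroup π) ≠ Subgroup.zpowers x) (hDx : (D : Subgroup π) ≠ Subgroup.zpowers x)
    (hCD : 6 * (2 * m + 1) ≤ |kap S x C - kap S x D|) :
    (crossGraph Λ.L).dist C D = (crossGraph Λ.L).dist C ⟨_, Λ.x_mem⟩ +
      (crossGraph Λ.L).dist ⟨_, Λ.x_mem⟩ D := by
  rcases abs_cases (kap S x C - kap S x D) with h | h
  · have := H.B0 hc D C hDx hCx (by omega)
    rw [(crossGraph Λ.L).dist_comm, this, (crossGraph Λ.L).dist_comm (u := D),
      (crossGraph Λ.L).dist_comm (v := C)]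
    ring
  · exact H.B0 hc C D hCx hDx (by omega)

/-- almost inclusions between halfspaces crossed by the axis -/
lemma Hyp.almost1 {e : π} {E : Set π} (hE : HS (Subgroup.zpowers e) E) (hxE : Thru x E) {c : ℤ}
    (hi : Ins e (S.hj x c)) : (E \ S.hj x c).Finite := by
  have hind : Ind (S.wj x c) e := (hi.1.ind (S.hs_hj x c) (S.infOrd_wj x c)).symm
  have h2 := not_thru' H.h1 (S.hs_hj x c) hE (Or.inl hi)
  rcases hE.cases hind with h3 | h3 | h3 | h3
  · exfalso
    have h4 := nest H.h1 (S.hs_hj x c).compl hE.compl (by rw [compl_compl]; exact hi)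
      (by rw [compl_compl]; exact h3)
    have h5 := (H.hx.thru_hj c).2.inter hxE.2
    obtain ⟨n, hn⟩ := ((h5 1).and (H.hx.infOrd.inv.finite h4 1)).exists
    exact hn.2 hn.1
  · have h4 := nest H.h1 (S.hs_hj x c).compl hE (by rw [compl_compl]; exact hi) h3
    rw [Set.diff_eq, Set.inter_comm]; exact h4
  · exact absurd (Or.inl h3) h2
  · exact absurd (Or.inr h3) h2

lemma Hyp.almost2 {e : π} {E : Set π} (hE : HS (Subgroup.zpowers e) E) (hxE : Thru x E) {c : ℤ}
    (hi : Ins e (S.hj x c)ᶜ) : (S.hj x c \ E).Finite := by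
  have hind : Ind (S.wj x c) e :=
    (hi.1.ind (S.hs_hj x c).compl (S.infOrd_wj x c)).symm
  have h2 := not_thru' H.h1 (S.hs_hj x c) hE (Or.inr hi)
  rcases hE.cases hind with h3 | h3 | h3 | h3
  · have h4 := nest H.h1 (S.hs_hj x c) hE.compl hi (by rw [compl_compl]; exact h3)
    rw [Set.diff_eq]; exact h4
  · exfalso
    have h4 := nest H.h1 (S.hs_hj x c) hE hi h3
    have h5 := (H.hx.thru_hj c).1.inter hxE.1
    obtain ⟨n, hn⟩ := ((h5 1).and (H.hx.infOrd.finite h4 1)).exists
    exact hn.2 hn.1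
  · exact absurd (Or.inl h3) h2
  · exact absurd (Or.inr h3) h2

omit H in
lemma Ins.almost {u : π} {A B : Set π} (hu : InfOrd u) (h : Ins u A) (hAB : (A \ B).Finite) :
    Ins u B := ⟨h.1.almost hu hAB, h.2.almost hu.inv hAB⟩

omit H in
lemma Ins.map {u : π} {A : Set π} (h : Ins u A) (s : MulAut π) :
    Ins (s u) ((fun x => s x) '' A) := ⟨h.1.map s, by
  have := h.2.map s
  rwa [map_inv] at this⟩

omit H in
lemma image_compl' (s : MulAut π) (A : Set π) :
    (fun x => s x) '' Aᶜ = ((fun x => s x) '' A)ᶜ := by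
  ext y
  rw [mem_image', Set.mem_compl_iff, Set.mem_compl_iff, mem_image']

omit H in
lemma image_smul' (s : MulAut π) (g : π) (A : Set π) :
    (fun x => s x) '' (g • A) = s g • ((fun x => s x) '' A) := by
  ext y
  rw [mem_image', mem_smul', mem_smul', mem_image', map_mul, map_inv]
  have : s⁻¹ (s g) = g := MulAut.inv_apply_self π s g
  rw [this]

/-- (A3) -/
theorem Hyp.A3 (s : MulAut π) {ε : ℤ} (hε : ε = 1 ∨ ε = -1) (hs : s x = x ^ ε) :
    ∃ c : ℤ, ∀ C ∈ Λ.L, C ≠ Subgroup.zpowers x →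
      |kap S x (am s C) - (ε * kap S x C + c)| ≤ 2 * m + 1 := by
  have hm := H.hm
  have hW0L : Subgroup.zpowers (s S.w) ∈ Λ.L := Λ.map_mem Λ.w_mem s
  have hsx : am s (Subgroup.zpowers x) = Subgroup.zpowers x := by
    rw [am_zpowers, hs]
    rcases hε with rfl | rfl
    · rw [zpow_one]
    · rw [zpow_neg, zpow_one, Subgroup.zpowers_inv]
  have hinj : ∀ C : Subgroup π, C ≠ Subgroup.zpowers x → am s C ≠ Subgroup.zpowers x := by
    intro C hC h
    apply hC
    rw [← hsx] at h
    have := congrArg (am s⁻¹) h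
    rwa [am_inv_am, am_inv_am] at this
  have hwx : Subgroup.zpowers S.w ≠ Subgroup.zpowers x := by
    have hcel : CrossEl x (S.wj x 0) := ⟨S.hj x 0, S.hs_hj x 0, Or.inl (H.hx.thru_hj 0)⟩
    have := cross_ne (S.infOrd_wj x 0) hcel
    unfold Split.wj at this
    rw [zpow_zero, one_mul, inv_one, mul_one] at this
    exact this.symm
  have hswx : Subgroup.zpowers (s S.w) ≠ Subgroup.zpowers x := by
    rw [← am_zpowers]; exact hinj _ hwx
  have hswi : InfOrd (s S.w) := Λ.infOrd_of_mem hW0L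
  obtain ⟨hk1, hk2⟩ := H.kap_spec hW0L hswx
  set c := kap S x (Subgroup.zpowers (s S.w)) with hc
  set c' := c + (2 * m + 1) with hc'
  have hin1 : Ins (s S.w) (S.hj x c) := (hk1 c).mpr le_rfl
  have hin2 : Ins (s S.w) (S.hj x c')ᶜ := hk2 c' le_rfl
  -- translates
  have hin1' : ∀ j : ℤ, Ins (x ^ j * s S.w * (x ^ j)⁻¹) (S.hj x (j + c)) := fun j => by
    have := (Ins.smul_iff (x ^ j)).mpr hin1
    rwa [S.smul_hj] at this
  have hin2' : ∀ j : ℤ, Ins (x ^ j * s S.w * (x ^ j)⁻¹) (S.hj x (j + c'))ᶜ := fun j => by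
    have := (Ins.smul_iff (x ^ j)).mpr hin2
    rwa [smul_compl', S.smul_hj] at this
  rcases hε with rfl | rfl
  · rw [zpow_one] at hs
    refine ⟨c, ?_⟩
    have hEj : ∀ j : ℤ, HS (Subgroup.zpowers (x ^ j * s S.w * (x ^ j)⁻¹))
        ((fun x => s x) '' S.hj x j) := by
      intro j
      have := (S.hs_hj x j).image s
      rw [am_zpowers] at this
      unfold Split.wj at this
      rwa [map_mul, map_mul, map_inv, map_zpow, hs] at this
    have hTj : ∀ j : ℤ, Thru x ((fun x => s x) '' S.hj x j) := by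
      intro j
      have := (H.hx.thru_hj j).map s
      rwa [hs] at this
    intro C hC hCx
    obtain ⟨v, hv, rfl⟩ := Λ.cyc _ hC
    rw [am_zpowers]
    have hsvL : Subgroup.zpowers (s v) ∈ Λ.L := Λ.map_mem hC s
    have hsvx : Subgroup.zpowers (s v) ≠ Subgroup.zpowers x := by
      rw [← am_zpowers]; exact hinj _ hCx
    have hsvi := Λ.infOrd_of_mem hsvL
    obtain ⟨a1, a2⟩ := H.kap_spec hC hCx
    obtain ⟨b1, b2⟩ := H.kap_spec hsvL hsvx
    set κv := kap S x (Subgroup.zpowers v) with hκv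
    set κs := kap S x (Subgroup.zpowers (s v)) with hκs
    have l1 : κv + c ≤ κs := by
      rw [← b1]
      have h2 := Ins.map ((a1 κv).mpr le_rfl) s
      exact Ins.almost hsvi h2 (H.almost1 (hEj κv) (hTj κv) (hin1' κv))
    have l2 : κs ≤ κv + c' := by
      by_contra hcon
      have h3 : Ins (s v) (S.hj x (κv + 1 + c')) := (b1 _).mpr (by omega)
      have h4 := Ins.almost hsvi h3 (H.almost2 (hEj (κv + 1)) (hTj (κv + 1)) (hin2' (κv + 1)))
      have h5 := Ins.map h4 s⁻¹
      have e1 : s⁻¹ (s v) = v := MulAut.inv_apply_self π s v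
      have e2 : (fun x => s⁻¹ x) '' ((fun x => s x) '' S.hj x (κv + 1)) = S.hj x (κv + 1) := by
        ext y
        rw [mem_image', mem_image', inv_inv]
        have : s⁻¹ (s y) = y := MulAut.inv_apply_self π s y
        rw [this]
      rw [e1, e2] at h5
      have := (a1 _).mp h5
      omega
    rw [abs_le]
    constructor <;> linarith
  · rw [zpow_neg, zpow_one] at hs
    refine ⟨c, ?_⟩
    have hEj : ∀ j : ℤ, HS (Subgroup.zpowers (x ^ j * s S.w * (x ^ j)⁻¹))
        ((fun x => s x) '' S.hj x (-j))ᶜ := by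
      intro j
      have := ((S.hs_hj x (-j)).image s).compl
      rw [am_zpowers] at this
      unfold Split.wj at this
      rw [map_mul, map_mul, map_inv, map_zpow, hs, inv_zpow', neg_neg] at this
      exact this
    have hTj : ∀ j : ℤ, Thru x ((fun x => s x) '' S.hj x (-j))ᶜ := by
      intro j
      have := ((H.hx.thru_hj (-j)).map s).compl
      rwa [hs, inv_inv] at this
    intro C hC hCx
    obtain ⟨v, hv, rfl⟩ := Λ.cyc _ hC
    rw [am_zpowers]
    have hsvL : Subgroup.zpowers (s v) ∈ Λ.L := Λ.map_mem hC s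
    have hsvx : Subgroup.zpowers (s v) ≠ Subgroup.zpowers x := by
      rw [← am_zpowers]; exact hinj _ hCx
    have hsvi := Λ.infOrd_of_mem hsvL
    obtain ⟨a1, a2⟩ := H.kap_spec hC hCx
    obtain ⟨b1, b2⟩ := H.kap_spec hsvL hsvx
    set κv := kap S x (Subgroup.zpowers v) with hκv
    set κs := kap S x (Subgroup.zpowers (s v)) with hκs
    -- upper bound
    have l1 : κs < -κv + c' := by
      by_contra hcon
      have h2 := Ins.map ((a1 κv).mpr le_rfl) s
      have h3 : Ins (s v) (S.hj x (-κv + c')) := (b1 _).mpr (by omega)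
      have h4 := Ins.almost hsvi h3 (H.almost2 (hEj (-κv)) (hTj (-κv)) (hin2' (-κv)))
      rw [neg_neg] at h4
      exact Ev.compl_not h2.1 h4.1
    have l2 : -(κv + (2 * m + 1)) + c ≤ κs := by
      rw [← b1]
      have h2 := Ins.map (a2 (κv + (2 * m + 1)) le_rfl) s
      rw [image_compl'] at h2
      have h3 := H.almost1 (hEj (-(κv + (2 * m + 1)))) (hTj (-(κv + (2 * m + 1))))
        (hin1' (-(κv + (2 * m + 1))))
      rw [neg_neg] at h3
      exact Ins.almost hsvi h2 h3
    rw [abs_le]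
    constructor <;> linarith

end LineSys

end Run7.h955
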