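import Pool.Agent.Run7.h955.H4

set_option autoImplicit false

/-!
# Rotation systems: normalisation of paths and the main theorem
-/

namespace Run7.h955

namespace RotSys

variable {G V : Type*} [Group G] [MulAction G V] (R : RotSys G V)

lemma k_rep {g g' : G} (h : g • R.x0 = g' • R.x0) {p q : V} (hp : p ≠ g • R.x0)
    (hq : q ≠ g • R.x0) : |R.k g' p - R.k g' q| ≤ |R.k g p - R.k g q| + 2 * R.T := by
  obtain ⟨ε, hε, _, c, h1⟩ := R.k_A3 h
  have h2 := h1 p hp
  have h3 := h1 q hq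
  rw [abs_le] at h2 h3
  rcases hε with rfl | rfl <;>
  rcases abs_cases (R.k g' p - R.k g' q) with h4 | h4 <;>
  rcases abs_cases (R.k g p - R.k g q) with h5 | h5 <;> linarith

/-- coordinates of two fixed vertices differ by a bounded amount -/
lemma exists_bound (p q : V) : ∃ C : ℤ, ∀ g : G, p ≠ g • R.x0 → q ≠ g • R.x0 →
    |R.k g p - R.k g q| ≤ C := by
  obtain ⟨w, -⟩ := R.conn.exists_walk_length_eq_dist p q
  induction w with
  | nil => exact ⟨0, fun g _ _ => by simp⟩
  | @cons u v w h t ih =>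
    obtain ⟨C, hC⟩ := ih
    have hT := R.T_pos
    by_cases hv : ∃ g1 : G, v = g1 • R.x0
    · obtain ⟨g1, hg1⟩ := hv
      refine ⟨max (R.T + C) (|R.k g1 u - R.k g1 w| + 2 * R.T), fun g h1 h2 => ?_⟩
      by_cases h3 : v = g • R.x0
      · apply le_trans _ (le_max_right _ _)
        have h4 : g1 • R.x0 = g • R.x0 := by rw [← hg1, h3]
        exact R.k_rep h4 (by rw [h4]; exact h1) (by rw [h4]; exact h2)
      · apply le_trans _ (le_max_left _ _)
        have h4 := R.k_A1 h1 h3 h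
        have h5 := hC g h3 h2
        have h6 := abs_sub_le (R.k g u) (R.k g v) (R.k g w)
        linarith
    · refine ⟨R.T + C, fun g h1 h2 => ?_⟩
      have h3 : v ≠ g • R.x0 := fun h => hv ⟨g, h⟩
      have h4 := R.k_A1 h1 h3 h
      have h5 := hC g h3 h2
      have h6 := abs_sub_le (R.k g u) (R.k g v) (R.k g w)
      linarith

/-- path normalisation -/
lemma exists_norm (p q : V) : ∃ a ∈ R.P, R.d p (a • q) ≤ R.d p q ∧
    ∀ g : G, p ≠ g • R.x0 → a • q ≠ g • R.x0 →
      |R.k g p - R.k g (a • q)| ≤ 3 * R.T * R.d p q := by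
  have hT := R.T_pos
  have hP : R.P.Normal := R.Pn
  obtain ⟨w, hw⟩ := R.conn.exists_walk_length_eq_dist p q
  have key : ∃ a ∈ R.P, R.d p (a • q) ≤ w.length ∧
    ∀ g : G, p ≠ g • R.x0 → a • q ≠ g • R.x0 →
      |R.k g p - R.k g (a • q)| ≤ 3 * R.T * w.length := by
    clear hw
    induction w with
    | nil => exact ⟨1, R.P.one_mem, by simp [R.d_self], fun g _ _ => by simp⟩
    | @cons u v w h t ih =>
      obtain ⟨a, ha, h1, h2⟩ := ih
      have huv : R.d u v = 1 := by
        unfold d; rw [SimpleGraph.dist_eq_one_iff_adj.mpr h]; norm_num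
      rw [SimpleGraph.Walk.length_cons]
      by_cases hv : (∃ g1 : G, v = g1 • R.x0) ∧ a • w ≠ v
      · obtain ⟨⟨g1, hg1⟩, hne⟩ := hv
        rw [hg1] at hne
        have hune : u ≠ g1 • R.x0 := by rw [← hg1]; exact h.ne
        set e : ℤ := R.k g1 u - R.k g1 (a • w) with he
        set s : G := g1 * R.ρ ^ e * g1⁻¹ with hs
        have hsP : s ∈ R.P := hP.conj_mem _ (R.P.zpow_mem R.ρP e) g1
        have hsv : s • v = v := by rw [hg1, hs]; exact R.rot_fix g1 e
        refine ⟨s * a, R.P.mul_mem hsP ha, ?_, ?_⟩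
        · have h3 : R.d v ((s * a) • w) = R.d v (a • w) := by
            rw [mul_smul]
            conv_lhs => rw [← hsv]
            rw [R.d_smul]
          have h4 := R.d_tri u v ((s * a) • w)
          push_cast
          omega
        · intro g h3 h4
          rw [mul_smul] at h4 ⊢
          by_cases h5 : v = g • R.x0
          · have h6 : g1 • R.x0 = g • R.x0 := by rw [← hg1, h5]
            have h7 := R.k_rep h6 hune (R.rot_ne g1 e hne)
            have h8 := R.k_rot g1 e (a • w) hne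
            rw [h8] at h7
            have h9 : R.k g1 u - (R.k g1 (a • w) + e) = 0 := by rw [he]; ring
            rw [h9, abs_zero, zero_add] at h7
            push_cast
            have h10 : 0 ≤ (t.length : ℤ) := Int.natCast_nonneg _
            nlinarith
          · have h6 := R.k_A1 h3 h5 h
            have e1 : R.k g v = R.k (s⁻¹ * g) v := by
              conv_lhs => rw [← hsv]
              rw [R.k_smul']
            have e2 : R.k g (s • a • w) = R.k (s⁻¹ * g) (a • w) := R.k_smul' _ _ _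
            have h7 := h2 (s⁻¹ * g) (by
                intro h
                apply h5
                rw [← hsv, h, smul_smul, mul_inv_cancel_left]) (by
                intro h
                apply h4
                rw [h, smul_smul, mul_inv_cancel_left])
            rw [← e1, ← e2] at h7
            have h8 := abs_sub_le (R.k g u) (R.k g v) (R.k g (s • a • w))
            push_cast
            nlinarith
      · refine ⟨a, ha, ?_, ?_⟩
        · have h4 := R.d_tri u v (a • w)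
          push_cast
          omega
        · intro g h3 h4
          have h5 : v ≠ g • R.x0 := by
            intro h5
            apply hv
            refine ⟨⟨g, h5⟩, ?_⟩
            rw [h5]; exact h4
          have h6 := R.k_A1 h3 h5 h
          have h7 := h2 g h5 h4
          have h8 := abs_sub_le (R.k g u) (R.k g v) (R.k g (a • w))
          push_cast
          nlinarith
  obtain ⟨a, ha, h1, h2⟩ := key
  have e : R.d p q = w.length := by unfold d; rw [hw]
  exact ⟨a, ha, by rw [e]; exact h1, by rw [e]; exact h2⟩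

lemma b_last' : R.b (R.r - 1 + 1) = R.b 0 := by
  have := R.rpos
  have e : R.r - 1 + 1 = 0 + R.r := by omega
  rw [e, R.bper]

/-- normalised junctions -/
lemma exists_junction : ∃ C : ℤ, ∀ t : G, ∃ p ∈ R.P,
    (p * t) • R.b 0 • R.x0 ≠ R.b (R.r - 1) • R.x0 ∧
    R.κ ((R.b (R.r - 1))⁻¹ • (p * t) • R.b 0 • R.x0) = 0 ∧
    R.κ ((R.b 0)⁻¹ • (p * t)⁻¹ • R.b (R.r - 1) • R.x0) = 0 ∧
    (∀ g : G, R.b (R.r - 1) • R.x0 ≠ g • R.x0 → (p * t) • R.b 0 • R.x0 ≠ g • R.x0 →
      |R.k g (R.b (R.r - 1) • R.x0) - R.k g ((p * t) • R.b 0 • R.x0)| ≤ C) ∧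
    R.d (R.b (R.r - 1) • R.x0) ((p * t) • R.b 0 • R.x0) ≤ C := by
  have hT := R.T_pos
  have hP : R.P.Normal := R.Pn
  set v := R.b (R.r - 1) • R.x0 with hv
  set v0 := R.b 0 • R.x0 with hv0
  have hvv0 : v ≠ v0 := by
    have := R.bne (R.r - 1)
    rwa [R.b_last'] at this
  set ρ0 := R.b 0 * R.ρ ^ (1 : ℤ) * (R.b 0)⁻¹ with hρ0
  have hρ0P : ρ0 ∈ R.P := hP.conj_mem _ (R.P.zpow_mem R.ρP 1) _
  have hρv : ρ0 • v ≠ v := by
    intro h
    have := R.k_rot (R.b 0) 1 v hvv0
    rw [← hρ0, h] at this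
    omega
  obtain ⟨C1, hC1⟩ := R.exists_bound v (ρ0 • v)
  refine ⟨max (max (3 * R.T * R.C) R.C) (max C1 (R.d v (ρ0 • v))), fun t => ?_⟩
  obtain ⟨p1, hp1, hd1⟩ := R.J t
  have hd1' : R.d v ((p1 * t) • v0) ≤ R.C := by unfold d; exact_mod_cast hd1
  obtain ⟨a, ha, h1, h2⟩ := R.exists_norm v ((p1 * t) • v0)
  -- first: bounded junction, distinct endpoints
  have hstep : ∃ p ∈ R.P, (p * t) • v0 ≠ v ∧
      (∀ g : G, v ≠ g • R.x0 → (p * t) • v0 ≠ g • R.x0 →
        |R.k g v - R.k g ((p * t) • v0)| ≤ max (3 * R.T * R.C) C1) ∧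
      R.d v ((p * t) • v0) ≤ max (R.C : ℤ) (R.d v (ρ0 • v)) := by
    by_cases hc : a • (p1 * t) • v0 = v
    · refine ⟨ρ0 * a * p1, R.P.mul_mem (R.P.mul_mem hρ0P ha) hp1, ?_, ?_, ?_⟩
      · rw [mul_assoc, mul_assoc, mul_smul, mul_smul a, hc]; exact hρv
      · intro g h3 h4
        rw [mul_assoc, mul_assoc, mul_smul, mul_smul a, hc] at h4 ⊢
        exact le_trans (hC1 g h3 h4) (le_max_right _ _)
      · rw [mul_assoc, mul_assoc, mul_smul, mul_smul a, hc]; exact le_max_right _ _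
    · refine ⟨a * p1, R.P.mul_mem ha hp1, ?_, ?_, ?_⟩
      · rw [mul_assoc, mul_smul]; exact hc
      · intro g h3 h4
        rw [mul_assoc, mul_smul a] at h4 ⊢
        refine le_trans (h2 g h3 h4) (le_trans ?_ (le_max_left _ _))
        nlinarith [R.d_nonneg v ((p1 * t) • v0)]
      · rw [mul_assoc, mul_smul a]
        exact le_trans (le_trans h1 hd1') (le_max_left _ _)
  obtain ⟨p2, hp2, h3, h4, h5⟩ := hstep
  set t2 := p2 * t with ht2
  set e : ℤ := -R.κ ((R.b (R.r - 1))⁻¹ • t2 • v0) with he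
  set f : ℤ := R.κ ((R.b 0)⁻¹ • t2⁻¹ • v) with hf
  set s1 := R.b (R.r - 1) * R.ρ ^ e * (R.b (R.r - 1))⁻¹ with hs1
  set s2 := R.b 0 * R.ρ ^ f * (R.b 0)⁻¹ with hs2
  have hs1P : s1 ∈ R.P := hP.conj_mem _ (R.P.zpow_mem R.ρP e) _
  have hs2P : s2 ∈ R.P := hP.conj_mem _ (R.P.zpow_mem R.ρP f) _
  have hs1v : s1 • v = v := R.rot_fix _ _
  have hs2v : s2 • v0 = v0 := R.rot_fix _ _
  have hpt : (s1 * (t2 * s2 * t2⁻¹) * p2) * t = s1 * t2 * s2 := by rw [ht2]; group
  have hact : ((s1 * (t2 * s2 * t2⁻¹) * p2) * t) • v0 = s1 • t2 • v0 := by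
    rw [hpt, mul_smul, hs2v, mul_smul]
  refine ⟨s1 * (t2 * s2 * t2⁻¹) * p2, R.P.mul_mem (R.P.mul_mem hs1P (hP.conj_mem _ hs2P _)) hp2,
    ?_, ?_, ?_, ?_, ?_⟩
  · rw [hact]
    exact R.rot_ne _ _ h3
  · rw [hact]
    have h6 := R.k_rot (R.b (R.r - 1)) e (t2 • v0) h3
    unfold k at h6
    rw [hs1, h6, he]; ring
  · rw [hpt]
    have e1 : (s1 * t2 * s2)⁻¹ • v = s2⁻¹ • t2⁻¹ • v := by
      have hsinv : s1⁻¹ • v = v := by rw [inv_smul_eq_iff, hs1v]
      have e0 : (s1 * t2 * s2)⁻¹ = s2⁻¹ * (t2⁻¹ * s1⁻¹) := by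
        rw [mul_inv_rev (s1 * t2) s2, mul_inv_rev s1 t2]
      rw [e0, mul_smul s2⁻¹, mul_smul t2⁻¹, hsinv]
    rw [e1]
    have hne : t2⁻¹ • v ≠ R.b 0 • R.x0 := by
      intro h
      rw [inv_smul_eq_iff] at h
      exact h3 h.symm
    have h6 := R.k_rot (R.b 0) (-f) (t2⁻¹ • v) hne
    have e2 : s2⁻¹ = R.b 0 * R.ρ ^ (-f) * (R.b 0)⁻¹ := by rw [hs2]; group
    rw [← e2] at h6
    unfold k at h6
    rw [h6, hf]; ring
  · intro g h6 h7
    rw [hact] at h7 ⊢
    have e1 : R.k g v = R.k (s1⁻¹ * g) v := by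
      conv_lhs => rw [← hs1v]
      rw [R.k_smul']
    rw [e1, R.k_smul' s1 g]
    refine le_trans (h4 (s1⁻¹ * g) ?_ ?_) ?_
    · intro h
      apply h6
      rw [← hs1v, h, smul_smul, mul_inv_cancel_left]
    · intro h
      apply h7
      rw [h, smul_smul, mul_inv_cancel_left]
    · apply max_le
      · exact le_trans (le_max_left _ _) (le_max_left _ _)
      · exact le_trans (le_max_left _ _) (le_max_right _ _)
  · rw [hact]
    have e1 : R.d v (s1 • t2 • v0) = R.d v (t2 • v0) := by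
      conv_lhs => rw [← hs1v]
      rw [R.d_smul]
    rw [e1]
    refine le_trans h5 ?_
    apply max_le
    · exact le_trans (le_max_right _ _) (le_max_left _ _)
    · exact le_trans (le_max_right _ _) (le_max_right _ _)

lemma b_mod (i : ℕ) : R.b i = R.b (i % R.r) ∧ R.b (i + 1) = R.b (i % R.r + 1) := by
  have : ∀ n c : ℕ, R.b (c + R.r * n) = R.b c := by
    intro n c
    induction n with
    | zero => simp
    | succ n ih => rw [Nat.mul_succ, ← add_assoc, R.bper, ih]
  constructor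
  · conv_lhs => rw [← Nat.mod_add_div i R.r]
    exact this _ _
  · conv_lhs => rw [← Nat.mod_add_div i R.r]
    have e : i % R.r + R.r * (i / R.r) + 1 = (i % R.r + 1) + R.r * (i / R.r) := by ring
    rw [e]
    exact this _ _

/-- periodic families are bounded -/
lemma exists_unif (F : G → G → ℤ → Prop) (h : ∀ a b, ∃ C, F a b C)
    (hmono : ∀ a b C C', C ≤ C' → F a b C → F a b C') :
    ∃ C : ℤ, ∀ i, F (R.b i) (R.b (i + 1)) C := by
  choose c hc using fun i : ℕ => h (R.b i) (R.b (i + 1))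
  refine ⟨∑ i ∈ Finset.range R.r, |c i|, fun i => ?_⟩
  obtain ⟨e1, e2⟩ := R.b_mod i
  rw [e1, e2]
  refine hmono _ _ _ _ ?_ (hc (i % R.r))
  have h1 : i % R.r ∈ Finset.range R.r := Finset.mem_range.mpr (Nat.mod_lt _ R.rpos)
  exact le_trans (le_abs_self _) (Finset.single_le_sum (f := fun i => |c i|)
    (fun i _ => abs_nonneg _) h1)

theorem main [Countable G] (N : Subgroup G) (hN : N.Normal) (hPN : R.P ≤ N) :
    ∃ M : Subgroup G, M.Normal ∧ M ⊔ R.P = N ∧
      ∀ g : G, (∀ p ∈ R.P, g * p * g⁻¹ * p⁻¹ ∈ M) → g ∈ M := by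
  classical
  have hT := R.T_pos
  have hP : R.P.Normal := R.Pn
  obtain ⟨C1, hC1⟩ := R.exists_junction
  obtain ⟨C2, hC2⟩ := R.exists_unif (fun a b C => ∀ g : G, a • R.x0 ≠ g • R.x0 →
    b • R.x0 ≠ g • R.x0 → |R.k g (a • R.x0) - R.k g (b • R.x0)| ≤ C)
    (fun a b => R.exists_bound (a • R.x0) (b • R.x0))
    (fun a b C C' h h1 g h2 h3 => le_trans (h1 g h2 h3) h)
  obtain ⟨E1, hE1⟩ := R.exists_unif (fun a b C => |R.κ (a⁻¹ • b • R.x0)| ≤ C)
    (fun a b => ⟨_, le_rfl⟩) (fun a b C C' h h1 => le_trans h1 h)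
  obtain ⟨E2, hE2⟩ := R.exists_unif (fun a b C => |R.κ (b⁻¹ • a • R.x0)| ≤ C)
    (fun a b => ⟨_, le_rfl⟩) (fun a b C C' h h1 => le_trans h1 h)
  obtain ⟨D1, hD1⟩ := R.exists_unif (fun a b C => R.d (a • R.x0) (b • R.x0) ≤ C)
    (fun a b => ⟨_, le_rfl⟩) (fun a b C C' h h1 => le_trans h1 h)
  obtain ⟨L1, hL1⟩ := R.exists_unif (fun a b C => R.d (R.b 0 • R.x0) (a • R.x0) ≤ C)
    (fun a b => ⟨_, le_rfl⟩) (fun a b C C' h h1 => le_trans h1 h)
  obtain ⟨L2, hL2⟩ := R.exists_unif (fun a b C => R.d (R.b 0 • R.x0)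
      ((a * R.ρ ^ (R.T + 1) * a⁻¹) • b • R.x0) ≤ C)
    (fun a b => ⟨_, le_rfl⟩) (fun a b C C' h h1 => le_trans h1 h)
  have hE10 : 0 ≤ E1 := le_trans (abs_nonneg _) (hE1 0)
  have hE20 : 0 ≤ E2 := le_trans (abs_nonneg _) (hE2 0)
  have hD10 : 0 ≤ D1 := le_trans (R.d_nonneg _ _) (hD1 0)
  have hL10 : 0 ≤ L1 := le_trans (R.d_nonneg _ _) (hL1 0)
  have hL20 : 0 ≤ L2 := le_trans (R.d_nonneg _ _) (hL2 0)
  set C : ℤ := |C1| + |C2| with hC
  have hC0 : 0 ≤ C := by positivity
  have hCC1 : C1 ≤ C := by have := le_abs_self C1; have := abs_nonneg C2; omega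
  have hCC2 : C2 ≤ C := by have := le_abs_self C2; have := abs_nonneg C1; omega
  set E : ℤ := E1 + E2 with hE
  set D : ℤ := D1 + C with hD
  set K : ℤ := 6 * D + 30 with hK
  set L : ℤ := L1 + L2 with hL
  have hr := R.rpos
  have hr' : (1 : ℤ) ≤ R.r := by exact_mod_cast hr
  have hD0 : 0 ≤ D := by omega
  have hL0 : 0 ≤ L := by omega
  set M0 : ℤ := K * (2 * R.r + 8) + K * (2 * L + 1) + 3 * K * (D + 1) + 3 with hM0
  have hK20 : 20 ≤ K := by omega
  have hM0pos : 0 ≤ M0 := by positivity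
  set M : ℕ := M0.toNat + 1 with hM
  have hMM0 : (M : ℤ) = M0 + 1 := by rw [hM]; push_cast; omega
  set B : ℤ := C + 8 * R.T + 4 * E + 1 with hB
  have hB0 : 0 < B := by positivity
  obtain ⟨ι, hι⟩ := exists_injective_nat (↥N × ℕ)
  choose pj hpj1 hpj2 hpj3 hpj4 hpj5 hpj6 using hC1
  have hlast : R.b (R.r * M - 1) = R.b (R.r - 1) := by
    have e : R.r * M - 1 = (R.r - 1) + R.r * M0.toNat := by
      rw [hM, Nat.mul_succ]; omega
    rw [e]
    generalize M0.toNat = n
    induction n with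
    | zero => simp
    | succ n ih => rw [Nat.mul_succ, ← add_assoc, R.bper, ih]
  have hrM : (M : ℤ) ≤ ((R.r * M : ℕ) : ℤ) := by
    push_cast
    nlinarith
  let S : R.Sys ↥N :=
    { m := R.r * M
      M := M
      hm := rfl
      three := by
        have h1 : (3 : ℤ) ≤ (R.r * M : ℕ) := by nlinarith
        exact_mod_cast h1
      e := fun a j => 2 * B * ((ι (a, j) : ℤ) + 1)
      t := fun a => pj a * a
      C := C
      hC := hC0
      E := E
      hE := by omega
      D := D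
      big := by
        intro a j _
        have : 0 ≤ (ι (a, j) : ℤ) := Int.natCast_nonneg _
        nlinarith
      gap := by
        intro a a' j j' _ _ h
        by_contra hne
        have h1 : ι (a, j) ≠ ι (a', j') := by
          intro h2
          apply hne
          have h3 := hι h2
          simpa using h3
        have h2 : 1 ≤ |(ι (a, j) : ℤ) - ι (a', j')| := by
          apply Int.one_le_abs
          omega
        have h3 : 2 * B * ((ι (a, j) : ℤ) + 1) - 2 * B * ((ι (a', j') : ℤ) + 1) =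
          2 * B * ((ι (a, j) : ℤ) - ι (a', j')) := by ring
        rw [h3, abs_mul, abs_of_nonneg (by omega : 0 ≤ 2 * B)] at h
        nlinarith
      j1 := by
        intro a
        rw [hlast]
        exact hpj2 a
      j2 := by
        intro a
        rw [hlast, hpj3 a, abs_zero]
        omega
      j3 := by
        intro a
        rw [hlast, hpj4 a, abs_zero]
        omega
      j4 := by
        intro a g h1 h2
        rw [hlast] at h1 ⊢
        exact le_trans (hpj5 a g h1 h2) hCC1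
      j5 := by
        intro a
        rw [hlast]
        have := hpj6 a
        omega
      i1 := fun j => le_trans (hE1 j) (by omega)
      i2 := fun j => le_trans (hE2 j) (by omega)
      i4 := fun j g h1 h2 => le_trans (hC2 j g h1 h2) hCC2
      i5 := fun j => le_trans (hD1 j) (by omega) }
  have hSm : (S.m : ℤ) = ((R.r * M : ℕ) : ℤ) := rfl
  have hmM : M0 + 1 ≤ (S.m : ℤ) := by rw [hSm, ← hMM0]; exact hrM
  have hzP : ∀ (a : ↥N) (j : ℕ), S.z a j ∈ R.P := by
    intro a j
    induction j with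
    | zero => exact R.P.one_mem
    | succ j ih =>
      exact R.P.mul_mem ih (hP.conj_mem _ (R.P.zpow_mem R.ρP _) _)
  have hh : ∀ a : ↥N, ∃ p ∈ R.P, S.h a = p * a := by
    intro a
    refine ⟨S.z a S.m * pj a, R.P.mul_mem (hzP a _) (hpj1 a), ?_⟩
    change S.z a S.m * (pj a * a) = _
    rw [mul_assoc]
  refine ⟨S.Mg, S.Mg_normal, ?_, ?_⟩
  · apply le_antisymm
    · apply sup_le _ hPN
      apply iSup_le
      intro i
      unfold Sys.Hg
      rw [Subgroup.zpowers_le]
      obtain ⟨p, hp, e⟩ := hh i.a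
      rw [e]
      exact hN.conj_mem _ (N.mul_mem (hPN hp) i.a.2) _
    · intro a ha
      obtain ⟨p, hp, e⟩ := hh ⟨a, ha⟩
      have h1 := S.h_mem ⟨⟨a, ha⟩, 1⟩ 1
      rw [zpow_one, one_mul, inv_one, mul_one, e] at h1
      have h2 : a = p⁻¹ * (p * a) := by group
      rw [h2, sup_comm]
      exact Subgroup.mul_mem_sup (R.P.inv_mem hp) h1
  · intro g hg
    have h1 : K * (2 * R.r + 8) < S.m := by
      have : 0 ≤ K * (2 * L + 1) := by positivity
      have : 0 ≤ 3 * K * (D + 1) := by positivity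
      omega
    have h2 : K * (2 * L + 1) < S.m := by
      have : 0 ≤ K * (2 * (R.r : ℤ) + 8) := by positivity
      have : 0 ≤ 3 * K * (D + 1) := by positivity
      omega
    have h3 : 3 * K * (D + 1) < S.m := by
      have : 0 ≤ K * (2 * (R.r : ℤ) + 8) := by positivity
      have : 0 ≤ K * (2 * L + 1) := by positivity
      omega
    have hm0 : 0 < (S.m : ℤ) := S.mpos
    refine S.centr hK20 h1 ?_ (n := B) ?_ ?_ ?_ ?_ hg
    · change 6 * (S.m : ℤ) * D + 3 * K * D + 3 * K < (K - 6) * S.m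
      have e : (K - 6) * (S.m : ℤ) = 6 * S.m * D + 24 * S.m := by rw [hK]; ring
      rw [e]
      nlinarith
    · change C + 2 * R.T < B
      omega
    · intro a j _
      change 4 * R.T + 2 * E < |2 * B * ((ι (a, j) : ℤ) + 1) - B|
      apply lt_of_lt_of_le _ (le_abs_self _)
      have : 0 ≤ (ι (a, j) : ℤ) := Int.natCast_nonneg _
      nlinarith
    · intro j
      have h4 : R.d (R.b 0 • R.x0) (R.b j • R.x0) ≤ L := le_trans (hL1 j) (by omega)
      have h5 : K * (2 * R.d (R.b 0 • R.x0) (R.b j • R.x0) + 1) ≤ K * (2 * L + 1) :=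
        mul_le_mul_of_nonneg_left (by omega) (by omega)
      nlinarith
    · intro j
      have h4 := le_trans (hL2 j) (by omega : L2 ≤ L)
      have h5 := mul_le_mul_of_nonneg_left (by linarith : 2 * R.d (R.b 0 • R.x0)
        ((R.b j * R.ρ ^ (R.T + 1) * (R.b j)⁻¹) • R.b (j + 1) • R.x0) + 1 ≤ 2 * L + 1)
        (by omega : 0 ≤ K)
      nlinarith

end RotSys

end Run7.h955
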