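import Pool.Agent.Run7.h955.G5
import Pool.Agent.Run7.h955.F2
import Pool.Agent.Run7.h955.F3
import Pool.Agent.Run7.h955.H5

set_option autoImplicit false

/-!
# The rotation system of the surface group
-/

open Pointwise commutatorElement

namespace Run7.h955

theorem ofAdd_one_ne : (Multiplicative.ofAdd (1 : ℤ)) ≠ 1 := by
  intro h
  exact absurd (congrArg Multiplicative.toAdd h) (by simp)

theorem center_SG (n : ℕ) (c : SG (n + 2)) (hc : ∀ x, c * x = x * c) : c = 1 := by
  obtain ⟨S, hSt, hSw, hSa, hSb⟩ := exists_split n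
  have h1 := S.root (oneEnded_SG _) (hasHS_SG _) (one_mem S.F) (b := 1) one_ne_zero (u := c)
    (hc _)
  have h2 := S.root (oneEnded_SG _) (hasHS_SG _) (hSb 0 (zero_ne_last n)) (b := 1) one_ne_zero
    (u := c) (hc _)
  obtain ⟨m, hm⟩ := Subgroup.mem_zpowers_iff.mp h1
  obtain ⟨l, hl⟩ := Subgroup.mem_zpowers_iff.mp h2
  rw [one_mul] at hm
  obtain ⟨χ, hχ⟩ := exists_count (g := n + 2) (0, true)
  have e1 : χ S.t = 1 := by
    rw [hSt]
    exact (hχ _).trans (if_neg (fun h => zero_ne_last n (Prod.mk.inj h).1.symm))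
  have e2 : χ (gb 0) = Multiplicative.ofAdd 1 := (hχ _).trans (if_pos rfl)
  have h3 := congrArg χ hm
  have h4 := congrArg χ hl
  rw [map_zpow, e1, one_zpow] at h3
  rw [map_zpow, map_mul, e1, e2, mul_one, ← h3] at h4
  have h5 := congrArg Multiplicative.toAdd h4
  simp at h5
  rw [h5, zpow_zero] at hl
  exact hl.symm

section act

variable {π : Type*} [Group π]

theorem am_one (C : Subgroup π) : am 1 C = C := Subgroup.map_id C

theorem am_mul (f g : MulAut π) (C : Subgroup π) : am (f * g) C = am f (am g C) := by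
  unfold am
  rw [Subgroup.map_map]
  rfl

/-- The action of the automorphism group on a system of lines. -/
@[reducible] def LineSys.act {S : Split π} {x : π} (Λ : LineSys S x) :
    MulAction (MulAut π) Λ.L where
  smul f C := ⟨am f C, Λ.aut f _ C.2⟩
  one_smul _ := Subtype.ext (am_one _)
  mul_smul f g _ := Subtype.ext (am_mul f g _)

theorem Cross.am {C D : Subgroup π} (h : Cross C D) (f : MulAut π) :
    Cross (Run7.h955.am f C) (Run7.h955.am f D) := by
  obtain ⟨u, v, rfl, rfl, h⟩ := h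
  exact ⟨_, _, am_zpowers f u, am_zpowers f v, h.map f⟩

theorem am_inj {f : MulAut π} {C D : Subgroup π} (h : Run7.h955.am f C = Run7.h955.am f D) :
    C = D := by
  rw [← am_inv_am f C, h, am_inv_am]

theorem conj_map (f : MulAut π) (y : π) : f * MulAut.conj y * f⁻¹ = MulAut.conj (f y) := by
  ext z
  simp [MulAut.mul_apply, MulAut.conj_apply]

end act

theorem exists_rotSys (n : ℕ) : ∃ (V : Type) (_ : MulAction (MulAut (SG (n + 2))) V)
    (R : RotSys (MulAut (SG (n + 2))) V),
    R.P = (MulAut.conj : SG (n + 2) →* MulAut (SG (n + 2))).range := by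
  obtain ⟨S, hSt, hSw, hSa, hSb⟩ := exists_split n
  obtain ⟨k, Λ, hself, hconn, ⟨C0, hC0⟩, r, hr, b, hper, hne, hcl⟩ :=
    exists_lines n S hSt hSw hSa hSb
  have hxe : xk n k = (gb 0 * ga 0 ^ k * gb 0) * S.t := by rw [hSt]; rfl
  have h0 := zero_ne_last n
  have hf : gb 0 * ga 0 ^ k * gb 0 ∈ S.F :=
    mul_mem (mul_mem (hSb 0 h0) (pow_mem (hSa 0) k)) (hSb 0 h0)
  have hFt : S.Ft ((gb 0 * ga 0 ^ k * gb 0) * S.t) := ⟨_, hf, rfl⟩
  generalize (gb 0 * ga 0 ^ k * gb 0) * S.t = x at Λ hconn hC0 hxe hFt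
  rw [hxe] at hself hne hcl
  have h1 := oneEnded_SG (n + 2)
  have hE := hasHS_SG (n + 2)
  obtain ⟨m, hm, hP0⟩ := Λ.exists_P0 h1 hE hFt hself
  have H : LineSys.Hyp Λ m := ⟨h1, hE, hFt, hm, hP0⟩
  have hxi : InfOrd x := hFt.infOrd
  letI := Λ.act
  have hsm : ∀ (f : MulAut (SG (n + 2))) (C : Λ.L), ((f • C : Λ.L) : Subgroup (SG (n + 2))) =
      am f C := fun _ _ => rfl
  have hconj : ∀ y : SG (n + 2), MulAut.conj y ∈
      (MulAut.conj : SG (n + 2) →* MulAut (SG (n + 2))).range := fun y => ⟨y, rfl⟩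
  refine ⟨Λ.L, Λ.act,
    { gr := crossGraph Λ.L
      gr_smul := ?_
      conn := hconn
      P := (MulAut.conj : SG (n + 2) →* MulAut (SG (n + 2))).range
      Pn := ?_
      x0 := ⟨_, Λ.x_mem⟩
      ρ := MulAut.conj x
      ρP := hconj x
      ρx := ?_
      κ := fun C => kap S x C
      θ := 2 * m + 1
      Θ := 6 * (2 * m + 1)
      A1 := ?_
      A2 := ?_
      B := ?_
      A3 := ?_
      r := r
      rpos := hr
      b := b
      bper := hper
      bne := ?_
      F := ?_
      C := (crossGraph Λ.L).dist (b (r - 1) • ⟨_, Λ.x_mem⟩) ⟨_, Λ.x_mem⟩ + C0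
      J := ?_ }, rfl⟩
  · intro g p q hpq
    have h2 := (SimpleGraph.fromRel_adj _ _ _).mp hpq
    refine (SimpleGraph.fromRel_adj _ _ _).mpr ⟨?_, ?_⟩
    · intro h
      apply h2.1
      exact Subtype.ext (am_inj (congrArg Subtype.val h))
    · exact h2.2.imp (fun h => h.am g) (fun h => h.am g)
  · refine ⟨?_⟩
    rintro _ ⟨y, rfl⟩ f
    exact ⟨f y, (conj_map f y).symm⟩
  · apply Subtype.ext
    rw [hsm, am_zpowers, MulAut.conj_apply, mul_inv_cancel_right]
  · intro p q hp hq hpq
    have h2 := (SimpleGraph.fromRel_adj _ _ _).mp hpq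
    exact H.A1 p.2 q.2 (fun h => hp (Subtype.ext h)) (fun h => hq (Subtype.ext h)) h2.2
  · intro p hp
    exact H.A2 p.2 (fun h => hp (Subtype.ext h))
  · intro p q hp hq hpq
    exact H.B hconn p q (fun h => hp (Subtype.ext h)) (fun h => hq (Subtype.ext h)) hpq
  · intro s hs
    have h2 : Subgroup.zpowers x = Subgroup.zpowers (s x) := by
      have := congrArg Subtype.val hs
      rw [hsm, am_zpowers] at this
      exact this.symm
    obtain ⟨ε, hε, hsx⟩ : ∃ ε : ℤ, (ε = 1 ∨ ε = -1) ∧ s x = x ^ ε := by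
      rcases gen_eq hxi h2 with h3 | h3
      · exact ⟨1, Or.inl rfl, by rw [h3, zpow_one]⟩
      · exact ⟨-1, Or.inr rfl, by rw [h3, zpow_neg_one]⟩
    refine ⟨ε, hε, ?_, ?_⟩
    · rw [conj_map, hsx, map_zpow]
    · obtain ⟨c, hc⟩ := H.A3 s hε hsx
      exact ⟨c, fun p hp => hc p p.2 (fun h => hp (Subtype.ext h))⟩
  · intro i h
    exact hne i (congrArg Subtype.val h)
  · intro s hs
    have h2 : ∀ i, s (b i x) = b i x := by
      intro i
      have h3 := hs i
      rw [conj_map] at h3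
      have h4 : MulAut.conj (s (b i x)) = MulAut.conj (b i x) := by
        rw [← conj_map s, h3, mul_inv_cancel_right]
      have h5 : (b i x)⁻¹ * s (b i x) = 1 := by
        apply center_SG
        intro z
        have h6 := DFunLike.congr_fun h4 z
        rw [MulAut.conj_apply, MulAut.conj_apply] at h6
        have h7 : s (b i x) * z = b i x * z * (b i x)⁻¹ * s (b i x) := by
          rw [← h6]; group
        rw [mul_assoc, h7]
        group
      exact (inv_mul_eq_one.mp h5).symm
    have h3 : Subgroup.closure (Set.range fun i => b i x) ≤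
        MonoidHom.eqLocus (s : SG (n + 2) ≃* SG (n + 2)).toMonoidHom (MonoidHom.id _) := by
      rw [Subgroup.closure_le]
      rintro _ ⟨i, rfl⟩
      exact h2 i
    rw [hcl] at h3
    ext z
    exact h3 (Subgroup.mem_top z)
  · intro t
    obtain ⟨p, D, hD, hd⟩ := hC0 (t • (b 0 • ⟨_, Λ.x_mem⟩))
    refine ⟨MulAut.conj p, hconj p, ?_⟩
    have h2 : (MulAut.conj p * t) • (b 0 • (⟨_, Λ.x_mem⟩ : Λ.L)) = D := by
      rw [mul_smul]
      exact Subtype.ext hD.symm
    rw [h2]
    have h3 := hconn.dist_triangle (u := b (r - 1) • (⟨_, Λ.x_mem⟩ : Λ.L)) (v := ⟨_, Λ.x_mem⟩)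
      (w := D)
    rw [(crossGraph Λ.L).dist_comm (u := D)] at hd
    omega

instance countable_SG (g : ℕ) : Countable (SG g) := by
  have h1 : Countable (FreeGroup (Fin g × Bool)) := by
    have : Function.Surjective (FreeGroup.mk : List ((Fin g × Bool) × Bool) → _) :=
      Quot.mk_surjective
    exact this.countable
  exact (QuotientGroup.mk'_surjective _).countable

instance countable_aut (g : ℕ) : Countable (MulAut (SG g)) := by
  have : Function.Injective (fun (φ : MulAut (SG g)) (i : Fin g × Bool) =>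
      φ (PresentedGroup.of i)) := by
    intro φ ψ h
    have h2 : (φ : SG g ≃* SG g).toMonoidHom = (ψ : SG g ≃* SG g).toMonoidHom :=
      hom_ext fun i => congrFun h i
    ext x
    exact DFunLike.congr_fun h2 x
  exact this.countable

/-- the main theorem about automorphisms of the surface group -/
theorem main_SG (n : ℕ) (N : Subgroup (MulAut (SG (n + 2)))) (hN : N.Normal)
    (hP : (MulAut.conj : SG (n + 2) →* MulAut (SG (n + 2))).range ≤ N) :
    ∃ M : Subgroup (MulAut (SG (n + 2))), M.Normal ∧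
      M ⊔ (MulAut.conj : SG (n + 2) →* MulAut (SG (n + 2))).range = N ∧
      ∀ f : MulAut (SG (n + 2)), (∀ z, MulAut.conj (f z * z⁻¹) ∈ M) → f ∈ M := by
  obtain ⟨V, hV, R, hR⟩ := exists_rotSys n
  obtain ⟨M, hM, h1, h2⟩ := R.main N hN (by rw [hR]; exact hP)
  rw [hR] at h1
  refine ⟨M, hM, h1, fun f hf => h2 f ?_⟩
  intro p hp
  rw [hR] at hp
  obtain ⟨z, rfl⟩ := hp
  rw [conj_map, ← map_inv, ← map_mul]
  exact hf z

end Run7.h955
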