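import Pool.Agent.Run7.h955.B

set_option autoImplicit false

/-!
# Duality for the standard presentation of the surface group, first part

Closed cochains have primitives, and dually.
-/

open Pointwise commutatorElement

namespace Run7.h955

section Pf

variable {M N : Type*} [Monoid M] [Monoid N] {g : ℕ}

/-- The product of the first `k` elements of a finite sequence. -/
def Pf (f : Fin g → M) (k : ℕ) : M := ((List.ofFn f).take k).prod

theorem Pf_zero (f : Fin g → M) : Pf f 0 = 1 := by simp [Pf]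

theorem Pf_succ (f : Fin g → M) (l : Fin g) : Pf f (l + 1) = Pf f l * f l := by
  unfold Pf
  rw [List.prod_take_succ _ _ (by simp)]
  simp

theorem Pf_all (f : Fin g → M) : Pf f g = (List.ofFn f).prod := by
  unfold Pf
  rw [List.take_of_length_le (by simp)]

theorem map_Pf (φ : M →* N) (f : Fin g → M) (k : ℕ) :
    φ (Pf f k) = Pf (fun l => φ (f l)) k := by
  unfold Pf
  rw [map_list_prod, List.map_take, List.map_ofFn]
  rfl

/-- induction up to `g` -/
theorem fin_ind {P : ℕ → Prop} (h0 : P 0) (hs : ∀ l : Fin g, P l → P (l + 1)) :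
    ∀ k, k ≤ g → P k := by
  intro k
  induction k with
  | zero => intro _; exact h0
  | succ k ih =>
    intro hk
    exact hs ⟨k, hk⟩ (ih (by omega))

end Pf

theorem tele {A : Type*} [AddCommGroup A] {g : ℕ} (h : ℕ → A) (s : Fin g → A)
    (hs : ∀ l : Fin g, h (l + 1) - h l = s l) : ∑ l, s l = h g - h 0 := by
  rw [← Finset.sum_range_sub h g, ← Fin.sum_univ_eq_sum_range (fun k => h (k + 1) - h k) g]
  exact Finset.sum_congr rfl fun l _ => (hs l).symm

/-- Restricted wreath type product `k ^ Q ⋊ Q`. -/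
@[ext] structure Wr (Q k : Type*) where
  f : Q → k
  q : Q

namespace Wr

variable {Q k : Type*} [Group Q] [AddCommGroup k]

instance : Mul (Wr Q k) := ⟨fun x y => ⟨fun p => x.f p + y.f (p * x.q), x.q * y.q⟩⟩
instance : One (Wr Q k) := ⟨⟨fun _ => 0, 1⟩⟩
instance : Inv (Wr Q k) := ⟨fun x => ⟨fun p => - x.f (p * x.q⁻¹), x.q⁻¹⟩⟩

@[simp] theorem mul_f (x y : Wr Q k) (p : Q) : (x * y).f p = x.f p + y.f (p * x.q) := rfl
@[simp] theorem mul_q (x y : Wr Q k) : (x * y).q = x.q * y.q := rfl
@[simp] theorem one_f (p : Q) : (1 : Wr Q k).f p = 0 := rfl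
@[simp] theorem one_q : (1 : Wr Q k).q = 1 := rfl
@[simp] theorem inv_f (x : Wr Q k) (p : Q) : (x⁻¹).f p = - x.f (p * x.q⁻¹) := rfl
@[simp] theorem inv_q (x : Wr Q k) : (x⁻¹).q = x.q⁻¹ := rfl

instance : Group (Wr Q k) := Group.ofLeftAxioms
  (by
    intro a b c
    ext p
    · simp [add_assoc, mul_assoc]
    · simp [mul_assoc])
  (by
    intro a
    ext p
    · simp
    · simp)
  (by
    intro a
    ext p
    · simp
    · simp)

/-- the projection -/
def pr : Wr Q k →* Q where
  toFun := Wr.q
  map_one' := rfl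
  map_mul' _ _ := rfl

@[simp] theorem pr_apply (x : Wr Q k) : pr x = x.q := rfl

theorem comm_f (a b : Wr Q k) (p : Q) : (⁅a, b⁆).f p = a.f p + b.f (p * a.q)
    - a.f (p * a.q * b.q * a.q⁻¹) - b.f (p * a.q * b.q * a.q⁻¹ * b.q⁻¹) := by
  rw [commutatorElement_def]
  simp only [mul_f, inv_f, mul_q, inv_q]
  simp only [mul_assoc]
  abel

theorem Pf_q {g : ℕ} (F : Fin g → Wr Q k) (l : ℕ) : (Pf F l).q = Pf (fun i => (F i).q) l :=
  map_Pf (pr : Wr Q k →* Q) F l

theorem Pf_f {g : ℕ} (F : Fin g → Wr Q k) (p : Q) :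
    (Pf F g).f p = ∑ l : Fin g, (F l).f (p * Pf (fun i => (F i).q) l) := by
  rw [tele (fun l => (Pf F l).f p)]
  · simp [Pf_zero]
  · intro l
    simp only [Pf_succ, mul_f, Pf_q]
    abel

end Wr

section

variable {g : ℕ}

/-- The product of the first `k` commutators. -/
def R (g k : ℕ) : SG g := Pf (fun l : Fin g => ⁅ga l, gb l⁆) k

theorem R_zero : R g 0 = 1 := Pf_zero _

theorem R_succ (l : Fin g) : R g (l + 1) = R g l * ⁅ga l, gb l⁆ := Pf_succ _ l

theorem lift_rel {H : Type*} [Group H] (T : Fin g × Bool → H) :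
    FreeGroup.lift T (rel g) = Pf (fun l => ⁅T (l, false), T (l, true)⁆) g := by
  unfold rel
  rw [← Pf_all, map_Pf]
  simp [map_commutatorElement]

theorem R_all : R g g = 1 := by
  have h : (PresentedGroup.mk ({rel g} : Set (FreeGroup (Fin g × Bool)))) (rel g) = 1 :=
    PresentedGroup.one_of_mem (rels := ({rel g} : Set (FreeGroup (Fin g × Bool))))
      (x := rel g) rfl
  have h2 : rel g = Pf (fun l : Fin g => ⁅FreeGroup.of (l, false), FreeGroup.of (l, true)⁆) g :=
    (Pf_all _).symm
  have h3 := (congrArg (PresentedGroup.mk ({rel g} : Set (FreeGroup (Fin g × Bool)))) h2).trans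
    (map_Pf (PresentedGroup.mk ({rel g} : Set (FreeGroup (Fin g × Bool)))) _ g)
  exact h3.symm.trans h

/-- homomorphisms from the surface group -/
theorem exists_hom {H : Type*} [Group H] (T : Fin g × Bool → H)
    (hT : Pf (fun l => ⁅T (l, false), T (l, true)⁆) g = 1) :
    ∃ Φ : SG g →* H, ∀ i, Φ (PresentedGroup.of i) = T i := by
  refine ⟨PresentedGroup.toGroup (f := T) ?_, fun i => ?_⟩
  · intro r hr
    rw [Set.mem_singleton_iff] at hr
    rw [hr, lift_rel, hT]
  · exact PresentedGroup.toGroup.of _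

theorem hom_ext {H : Type*} [Group H] {Φ Ψ : SG g →* H}
    (h : ∀ i, Φ (PresentedGroup.of i) = Ψ (PresentedGroup.of i)) : Φ = Ψ :=
  PresentedGroup.ext h

/-- to commutative groups -/
theorem exists_hom_comm {H : Type*} [CommGroup H] (T : Fin g × Bool → H) :
    ∃ Φ : SG g →* H, ∀ i, Φ (PresentedGroup.of i) = T i := by
  apply exists_hom
  have : ∀ k, Pf (fun l : Fin g => ⁅T (l, false), T (l, true)⁆) k = 1 := by
    intro k
    unfold Pf
    apply List.prod_eq_one
    intro x hx
    have := List.mem_of_mem_take hx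
    rw [List.mem_ofFn] at this
    obtain ⟨l, hl⟩ := this
    rw [← hl, commutatorElement_eq_one_iff_mul_comm, mul_comm]
  exact this g

theorem closure_gen : Subgroup.closure (Set.range (PresentedGroup.of :
    Fin g × Bool → SG g)) = ⊤ := PresentedGroup.closure_range_of _

/-- first faces -/
def al : Fin g × Bool → SG g
  | (l, false) => R g l
  | (l, true) => R g l * ga l

/-- second faces -/
def be : Fin g × Bool → SG g
  | (l, false) => R g l * ga l * gb l * (ga l)⁻¹
  | (l, true) => R g (l + 1)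

/-- boundary of faces -/
def dv {k : Type*} [AddCommGroup k] (m : SG g → Fin g × Bool → k) (p : SG g) : k :=
  ∑ i, (m (p * al i) i - m (p * be i) i)

theorem dv_eq {k : Type*} [AddCommGroup k] (m : SG g → Fin g × Bool → k) (p : SG g) :
    dv m p = ∑ l : Fin g, (m (p * R g l) (l, false) + m (p * R g l * ga l) (l, true)
      - m (p * R g l * ga l * gb l * (ga l)⁻¹) (l, false) - m (p * R g (l + 1)) (l, true)) := by
  unfold dv
  rw [Fintype.sum_prod_type]
  refine Finset.sum_congr rfl fun l _ => ?_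
  rw [Fintype.sum_bool]
  simp only [al, be, mul_assoc]
  abel

/-- P1: closed cochains have primitives -/
theorem P1 {k : Type*} [AddCommGroup k] (m : SG g → Fin g × Bool → k)
    (hm : ∀ p, dv m p = 0) :
    ∃ φ : SG g → k, ∀ q i, φ (q * PresentedGroup.of i) - φ q = m q i := by
  obtain ⟨Φ, hΦ⟩ := exists_hom (fun i => (⟨fun q => m q i, PresentedGroup.of i⟩ : Wr (SG g) k)) (by
    ext p
    · rw [Wr.Pf_f]
      rw [Wr.one_f, ← hm p, dv_eq]
      refine Finset.sum_congr rfl fun l _ => ?_
      rw [Wr.comm_f]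
      simp only
      have e1 : Pf (fun i : Fin g => (⁅(⟨fun q => m q (i, false), PresentedGroup.of (i, false)⟩ :
          Wr (SG g) k), (⟨fun q => m q (i, true), PresentedGroup.of (i, true)⟩ : Wr (SG g) k)⁆).q) l
          = R g l := rfl
      rw [e1]
      have e2 : R g (l + 1) = R g l * (ga l * gb l * (ga l)⁻¹ * (gb l)⁻¹) := R_succ l
      rw [e2]
      simp only [ga, gb, mul_assoc]
    · rw [Wr.Pf_q]
      exact R_all)
  have hq : ∀ q, (Φ q).q = q := by
    have : (Wr.pr : Wr (SG g) k →* SG g).comp Φ = MonoidHom.id _ := hom_ext fun i => by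
      simp [hΦ]
    intro q
    exact DFunLike.congr_fun this q
  refine ⟨fun q => (Φ q).f 1, fun q i => ?_⟩
  simp only [map_mul, hΦ, Wr.mul_f, one_mul, hq]
  abel

theorem dv_d {k : Type*} [AddCommGroup k] (χ : SG g → k) (p : SG g) :
    dv (fun q i => χ (q * PresentedGroup.of i) - χ q) p = 0 := by
  rw [dv_eq, tele (fun l => χ (p * R g l))]
  · simp [R_zero, R_all]
  · intro l
    have e2 : R g (l + 1) = R g l * (ga l * gb l * (ga l)⁻¹ * (gb l)⁻¹) := R_succ l
    have e3 : p * R g (l + 1) * PresentedGroup.of (l, true) =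
        p * R g l * ga l * gb l * (ga l)⁻¹ := by
      rw [e2]; unfold gb; group
    have e4 : p * R g l * ga l * gb l * (ga l)⁻¹ * PresentedGroup.of (l, false) =
        p * R g l * ga l * gb l := by
      unfold ga; group
    simp only [e3, e4]
    have e5 : p * R g l * PresentedGroup.of (l, false) = p * R g l * ga l := rfl
    have e6 : p * R g l * ga l * PresentedGroup.of (l, true) = p * R g l * ga l * gb l := rfl
    rw [e5, e6]
    abel

end

end Run7.h955
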