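import Pool.Agent.Run7.h955.A1

set_option autoImplicit false

/-!
# Duality for the standard presentation of the surface group, second part

The dual statement, the pairing, and one-endedness.
-/

open Pointwise commutatorElement

namespace Run7.h955

section

variable {g : ℕ}

/-- the dual generators -/
def cc (i : Fin g × Bool) : SG g := al i * (be i)⁻¹

theorem cc_false (l : Fin g) : cc (l, false) = R g l * ga l * (gb l)⁻¹ * (ga l)⁻¹ * (R g l)⁻¹ := by
  unfold cc al be
  group

theorem cc_true (l : Fin g) : cc (l, true) =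
    R g l * ga l * gb l * ga l * (gb l)⁻¹ * (ga l)⁻¹ * (R g l)⁻¹ := by
  have e2 : R g (l + 1) = R g l * (ga l * gb l * (ga l)⁻¹ * (gb l)⁻¹) := R_succ l
  unfold cc al be
  simp only [e2]
  group

/-- P2: cocycles are dual coboundaries -/
theorem P2 {k : Type*} [AddCommGroup k] (ψ : SG g → Fin g × Bool → k)
    (hψ : ∀ p, ∑ i, (ψ p i - ψ (p * (PresentedGroup.of i)⁻¹) i) = 0) :
    ∃ lam : SG g → k, ∀ q i, ψ q i = lam (q * (be i)⁻¹) - lam (q * (al i)⁻¹) := by
  let T : Fin g × Bool → Wr (SG g) k := fun i => ⟨fun p => ψ (p * al i) i, cc i⟩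
  have hTf : ∀ i p, (T i).f p = ψ (p * al i) i := fun _ _ => rfl
  have hTq : ∀ i, (T i).q = cc i := fun _ => rfl
  let S : ℕ → Wr (SG g) k := fun n => Pf (fun l : Fin g => ⁅T (l, false), (T (l, true))⁻¹⁆) n
  have hS0 : S 0 = 1 := Pf_zero _
  have hS : ∀ l : Fin g, S (l + 1) = S l * ⁅T (l, false), (T (l, true))⁻¹⁆ := fun l => Pf_succ _ l
  have hSq : ∀ n, n ≤ g → (S n).q = (R g n)⁻¹ := by
    apply fin_ind
    · rw [hS0, R_zero]; simp
    · intro l hl
      have e2 : R g (l + 1) = R g l * (ga l * gb l * (ga l)⁻¹ * (gb l)⁻¹) := R_succ l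
      rw [hS, Wr.mul_q, hl, e2]
      have : (⁅T (l, false), (T (l, true))⁻¹⁆).q = ⁅cc (l, false), (cc (l, true))⁻¹⁆ := rfl
      rw [this, commutatorElement_def, cc_false, cc_true]
      group
  have hSg : S g = 1 := by
    ext p
    · change (Pf (fun l : Fin g => ⁅T (l, false), (T (l, true))⁻¹⁆) g).f p = _
      rw [Wr.Pf_f, Wr.one_f, ← hψ p, Fintype.sum_prod_type]
      refine Finset.sum_congr rfl fun l _ => ?_
      have e1 : Pf (fun i => (⁅T (i, false), (T (i, true))⁻¹⁆).q) l = (R g l)⁻¹ := by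
        rw [← Wr.Pf_q]; exact hSq l l.2.le
      rw [e1, Wr.comm_f, Fintype.sum_bool]
      simp only [Wr.inv_f, Wr.inv_q, hTf, hTq]
      have a1 : p * (R g l)⁻¹ * al (l, false) = p := by unfold al; group
      have a2 : p * (R g l)⁻¹ * cc (l, false) * (cc (l, true))⁻¹ * al (l, true) =
          p * (gb l)⁻¹ := by rw [cc_false, cc_true]; unfold al; group
      have a3 : p * (R g l)⁻¹ * cc (l, false) * (cc (l, true))⁻¹ * (cc (l, false))⁻¹ *
          al (l, false) = p * (ga l)⁻¹ := by rw [cc_false, cc_true]; unfold al; group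
      have a4 : p * (R g l)⁻¹ * cc (l, false) * (cc (l, true))⁻¹ * (cc (l, false))⁻¹ *
          (cc (l, true))⁻¹⁻¹ * (cc (l, true))⁻¹ * al (l, true) = p := by
        rw [cc_false, cc_true]; unfold al; group
      rw [a1, a2, a3, a4]
      unfold ga gb
      abel
    · rw [hSq g le_rfl, R_all]; simp
  let U : Fin g × Bool → Wr (SG g) k := fun i =>
    match i with
    | (l, false) => S l * (T (l, false) * T (l, true) * (T (l, false))⁻¹) * (S l)⁻¹
    | (l, true) => S l * (T (l, false) * (T (l, true))⁻¹ * (T (l, false))⁻¹ * T (l, true) *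
        (T (l, false))⁻¹) * (S l)⁻¹
  have hU0 : ∀ l, U (l, false) = S l * (T (l, false) * T (l, true) * (T (l, false))⁻¹) * (S l)⁻¹ :=
    fun _ => rfl
  have hU1 : ∀ l, U (l, true) = S l * (T (l, false) * (T (l, true))⁻¹ * (T (l, false))⁻¹ *
      T (l, true) * (T (l, false))⁻¹) * (S l)⁻¹ := fun _ => rfl
  have hcom : ∀ n, n ≤ g → Pf (fun l => ⁅U (l, false), U (l, true)⁆) n = (S n)⁻¹ := by
    apply fin_ind
    · rw [hS0, Pf_zero]; simp
    · intro l hl
      rw [Pf_succ, hl, hS, commutatorElement_def, commutatorElement_def, hU0, hU1]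
      group
  obtain ⟨Φ, hΦ⟩ := exists_hom U (by rw [hcom g le_rfl, hSg]; simp)
  have hΦR : ∀ n, n ≤ g → Φ (R g n) = (S n)⁻¹ := by
    intro n hn
    rw [← hcom n hn]
    unfold R
    rw [map_Pf]
    congr 1
    funext l
    rw [map_commutatorElement]
    unfold ga gb
    rw [hΦ, hΦ]
  have hΦa : ∀ l, Φ (ga l) = U (l, false) := fun l => hΦ _
  have hΦb : ∀ l, Φ (gb l) = U (l, true) := fun l => hΦ _
  have hΦc : ∀ i, Φ (cc i) = T i := by
    rintro ⟨l, b⟩
    cases b
    · rw [cc_false]
      simp only [map_mul, map_inv, hΦa, hΦb, hU0, hU1, hΦR l l.2.le]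
      group
    · rw [cc_true]
      simp only [map_mul, map_inv, hΦa, hΦb, hU0, hU1, hΦR l l.2.le]
      group
  have hq : ∀ q, (Φ q).q = q := by
    have : (Wr.pr : Wr (SG g) k →* SG g).comp Φ = MonoidHom.id _ := hom_ext fun i => by
      obtain ⟨l, b⟩ := i
      cases b
      · simp only [MonoidHom.comp_apply, Wr.pr_apply, MonoidHom.id_apply, hΦ, hU0, Wr.mul_q,
          Wr.inv_q, hTq, hSq l l.2.le, cc_false, cc_true]
        change _ = ga l
        group
      · simp only [MonoidHom.comp_apply, Wr.pr_apply, MonoidHom.id_apply, hΦ, hU1, Wr.mul_q,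
          Wr.inv_q, hTq, hSq l l.2.le, cc_false, cc_true]
        change _ = gb l
        group
    intro q
    exact DFunLike.congr_fun this q
  refine ⟨fun q => (Φ q).f 1, fun q i => ?_⟩
  have e : q * (be i)⁻¹ = (q * (al i)⁻¹) * cc i := by unfold cc; group
  have h3 : (Φ (q * (al i)⁻¹ * cc i)).f 1 = (Φ (q * (al i)⁻¹)).f 1 + ψ q i := by
    rw [map_mul Φ (q * (al i)⁻¹) (cc i), hΦc, Wr.mul_f, one_mul, hq, hTf, inv_mul_cancel_right]
  change ψ q i = (Φ (q * (be i)⁻¹)).f 1 - (Φ (q * (al i)⁻¹)).f 1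
  rw [e, h3]
  abel

/-- the set of `s` such that `f (q * s) = f q` is everything if it contains the generators -/
theorem gen_ind {P : SG g → Prop} (h1 : P 1) (hg : ∀ q i, P q → P (q * PresentedGroup.of i))
    (hi : ∀ q i, P q → P (q * (PresentedGroup.of i)⁻¹)) (q : SG g) : P q := by
  have hq : q ∈ Subgroup.closure (Set.range (PresentedGroup.of : Fin g × Bool → SG g)) := by
    rw [closure_gen]; trivial
  refine Subgroup.closure_induction_right (p := fun x _ => P x) h1 ?_ ?_ hq
  · rintro x _ y ⟨i, rfl⟩ hx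
    exact hg x i hx
  · rintro x _ y ⟨i, rfl⟩ hx
    exact hi x i hx

theorem const_of {α : Type*} (f : SG g → α) (h : ∀ q i, f (q * PresentedGroup.of i) = f q)
    (q : SG g) : f q = f 1 := by
  refine gen_ind (P := fun q => f q = f 1) rfl ?_ ?_ q
  · intro q i hq
    rw [h, hq]
  · intro q i hq
    rw [← hq, ← h (q * (PresentedGroup.of i)⁻¹) i, inv_mul_cancel_right]

end

section pairing

variable {g : ℕ} {k : Type*} [CommRing k]

/-- shift by first faces -/
def eqv (a : Fin g × Bool → SG g) : SG g × (Fin g × Bool) ≃ SG g × (Fin g × Bool) where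
  toFun e := (e.1 * a e.2, e.2)
  invFun e := (e.1 * (a e.2)⁻¹, e.2)
  left_inv e := by simp
  right_inv e := by simp

theorem pair_one (a : Fin g × Bool → SG g) (ψ : SG g → Fin g × Bool → k)
    (lam : SG g → k) : ∑ᶠ e : SG g × (Fin g × Bool), ψ e.1 e.2 * lam (e.1 * (a e.2)⁻¹) =
      ∑ᶠ e : SG g × (Fin g × Bool), lam e.1 * ψ (e.1 * a e.2) e.2 := by
  rw [← finsum_comp_equiv (eqv a)]
  refine finsum_congr fun e => ?_
  simp [eqv, mul_comm]

theorem pair (ψ : SG g → Fin g × Bool → k)
    (hψ : {e : SG g × (Fin g × Bool) | ψ e.1 e.2 ≠ 0}.Finite) (lam : SG g → k) :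
    ∑ᶠ e : SG g × (Fin g × Bool), ψ e.1 e.2 * (lam (e.1 * (be e.2)⁻¹) - lam (e.1 * (al e.2)⁻¹)) =
      - ∑ᶠ p, lam p * dv ψ p := by
  have hfin : ∀ a : Fin g × Bool → SG g, (Function.support fun e : SG g × (Fin g × Bool) =>
      lam e.1 * ψ (e.1 * a e.2) e.2).Finite := by
    intro a
    refine (hψ.preimage (f := eqv a) (eqv a).injective.injOn).subset ?_
    intro e he h0
    apply he
    change ψ (e.1 * a e.2) e.2 = 0 at h0
    simp only [h0, mul_zero]
  have hfin' : ∀ a : Fin g × Bool → SG g, (Function.support fun e : SG g × (Fin g × Bool) =>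
      ψ e.1 e.2 * lam (e.1 * (a e.2)⁻¹)).Finite := by
    intro a
    refine hψ.subset ?_
    intro e he h0
    apply he
    simp only [h0, zero_mul]
  have e1 : ∑ᶠ e : SG g × (Fin g × Bool), ψ e.1 e.2 *
      (lam (e.1 * (be e.2)⁻¹) - lam (e.1 * (al e.2)⁻¹)) =
      ∑ᶠ e : SG g × (Fin g × Bool), lam e.1 * ψ (e.1 * be e.2) e.2 -
      ∑ᶠ e : SG g × (Fin g × Bool), lam e.1 * ψ (e.1 * al e.2) e.2 := by
    rw [← pair_one, ← pair_one, ← finsum_sub_distrib (hfin' be) (hfin' al)]
    exact finsum_congr fun e => by ring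
  rw [e1, ← finsum_sub_distrib (hfin be) (hfin al), finsum_curry, ← finsum_neg_distrib]
  · refine finsum_congr fun p => ?_
    rw [finsum_eq_sum_of_fintype]
    unfold dv
    rw [Finset.mul_sum, ← Finset.sum_neg_distrib]
    exact Finset.sum_congr rfl fun i _ => by ring
  · exact ((hfin be).union (hfin al)).subset fun e he => by
      by_contra hcon
      apply he
      simp only [Set.mem_union, Function.mem_support, not_or, not_not] at hcon
      simp only [hcon.1, hcon.2, sub_zero]

end pairing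

section one

variable {g : ℕ}

/-- the set of good right translations is everything if it contains the generators -/
theorem cob_gen {P : Set (SG g) → Prop} (hmono : ∀ X Y : Set (SG g), X ⊆ Y → P Y → P X)
    (hunion : ∀ X Y : Set (SG g), P X → P Y → P (X ∪ Y)) (h0 : P ∅)
    (hr : ∀ (X : Set (SG g)) (s : SG g), P X → P {x | x * s ∈ X}) {α : Type*} (f : SG g → α)
    (h : ∀ i, P {x | f (x * PresentedGroup.of i) ≠ f x}) (s : SG g) :
    P {x | f (x * s) ≠ f x} := by
  refine gen_ind (P := fun s => P {x | f (x * s) ≠ f x}) ?_ ?_ ?_ s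
  · refine hmono _ _ ?_ h0
    intro x hx
    exact (hx (by rw [mul_one])).elim
  · intro q i hq
    refine hmono _ _ ?_ (hunion _ _ hq (hr _ q (h i)))
    intro x hx
    by_contra hcon
    simp only [Set.mem_union, Set.mem_ofPred_eq, not_or, ne_eq, not_not] at hcon
    apply hx
    rw [← mul_assoc, hcon.2, hcon.1]
  · intro q i hq
    refine hmono _ _ ?_ (hunion _ _ hq (hr _ (q * (PresentedGroup.of i)⁻¹) (h i)))
    intro x hx
    by_contra hcon
    simp only [Set.mem_union, Set.mem_ofPred_eq, not_or, ne_eq, not_not] at hcon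
    apply hx
    rw [← hcon.1, ← hcon.2, mul_assoc, mul_assoc, inv_mul_cancel, mul_one]

theorem cob_gen_finite {α : Type*} (f : SG g → α)
    (h : ∀ i, {x | f (x * PresentedGroup.of i) ≠ f x}.Finite) (s : SG g) :
    {x | f (x * s) ≠ f x}.Finite := by
  refine cob_gen (P := Set.Finite) (fun X Y h hY => hY.subset h) (fun X Y => Set.Finite.union)
    Set.finite_empty ?_ f h s
  intro X s hX
  exact hX.preimage (mul_left_injective s).injOn

/-- the coboundary of a vertex -/
noncomputable def dd (p : SG g) : (SG g × (Fin g × Bool)) →₀ ℚ :=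
  ∑ i, (Finsupp.single (p * (PresentedGroup.of i)⁻¹, i) 1 - Finsupp.single (p, i) 1)

open Classical in
theorem dd_apply (p q : SG g) (i : Fin g × Bool) : dd p (q, i) =
    (if q * PresentedGroup.of i = p then 1 else 0) - (if q = p then 1 else 0) := by
  unfold dd
  rw [Finsupp.finsetSum_apply]
  rw [Finset.sum_eq_single i]
  · rw [Finsupp.sub_apply, Finsupp.single_apply, Finsupp.single_apply]
    have h1 : ((p * (PresentedGroup.of i)⁻¹, i) = (q, i)) = (q * PresentedGroup.of i = p) := by
      rw [eq_iff_iff, Prod.mk.injEq, and_iff_left rfl]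
      constructor
      · rintro rfl; rw [inv_mul_cancel_right]
      · rintro rfl; rw [mul_inv_cancel_right]
    have h2 : ((p, i) = (q, i)) = (q = p) := by
      rw [eq_iff_iff, Prod.mk.injEq, and_iff_left rfl, eq_comm]
    simp only [h1, h2]
  · intro j _ hj
    rw [Finsupp.sub_apply, Finsupp.single_apply, Finsupp.single_apply, if_neg, if_neg, sub_zero]
    · rintro ⟨⟩; exact hj rfl
    · intro h; exact hj (Prod.mk.inj h).2
  · intro h; exact (h (Finset.mem_univ _)).elim

theorem oneEnded_SG (g : ℕ) : OneEnded (SG g) := by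
  classical
  intro D hD
  let χ : SG g → ℚ := fun x => if x ∈ D then 1 else 0
  let ψ : SG g → Fin g × Bool → ℚ := fun q i => χ (q * PresentedGroup.of i) - χ q
  have hψfin : {e : SG g × (Fin g × Bool) | ψ e.1 e.2 ≠ 0}.Finite := by
    have : {e : SG g × (Fin g × Bool) | ψ e.1 e.2 ≠ 0} ⊆
        ⋃ i, (fun q => (q, i)) '' {x | ¬ (x * PresentedGroup.of i ∈ D ↔ x ∈ D)} := by
      rintro ⟨q, i⟩ he
      rw [Set.mem_iUnion]
      refine ⟨i, q, ?_, rfl⟩
      intro h
      apply he
      simp only [ψ, χ]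
      by_cases hq : q ∈ D
      · rw [if_pos hq, if_pos (h.2 hq), sub_self]
      · rw [if_neg hq, if_neg (fun h' => hq (h.1 h')), sub_self]
    exact (Set.finite_iUnion fun i => (hD _).image _).subset this
  let ψ' : (SG g × (Fin g × Bool)) →₀ ℚ := Finsupp.ofSupportFinite (fun e => ψ e.1 e.2) hψfin
  have hψ' : ∀ e, ψ' e = ψ e.1 e.2 := fun e => rfl
  have key : ψ' ∈ Submodule.span ℚ (Set.range (dd : SG g → _)) := by
    by_contra hnot
    obtain ⟨Λ, hΛ, hker⟩ := Submodule.exists_le_ker_of_notMem hnot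
    have hv : ∀ p, ∑ i, (Λ (Finsupp.single (p, i) 1) -
        Λ (Finsupp.single (p * (PresentedGroup.of i)⁻¹, i) 1)) = 0 := by
      intro p
      have : Λ (dd p) = 0 := hker (Submodule.subset_span ⟨p, rfl⟩)
      unfold dd at this
      rw [map_sum] at this
      rw [← neg_eq_zero, ← Finset.sum_neg_distrib, ← this]
      exact Finset.sum_congr rfl fun i _ => by rw [map_sub]; ring
    obtain ⟨lam, hlam⟩ := P2 (fun q i => Λ (Finsupp.single (q, i) 1)) hv
    apply hΛ
    have h1 : Λ ψ' = ∑ᶠ e : SG g × (Fin g × Bool), ψ e.1 e.2 *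
        (lam (e.1 * (be e.2)⁻¹) - lam (e.1 * (al e.2)⁻¹)) := by
      have h2 : Λ ψ' = ψ'.sum fun e c => Λ (Finsupp.single e c) := by
        conv_lhs => rw [← Finsupp.sum_single ψ']
        rw [map_finsuppSum]
      rw [h2, Finsupp.sum, ← finsum_eq_sum_of_support_subset]
      · refine finsum_congr fun e => ?_
        rw [← hlam, ← hψ' e]
        have : (Finsupp.single e (ψ' e) : (SG g × (Fin g × Bool)) →₀ ℚ) =
            ψ' e • Finsupp.single e 1 := by simp
        rw [this, map_smul, smul_eq_mul]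
      · intro e he
        rw [Finset.mem_coe, Finsupp.mem_support_iff]
        intro h0
        apply he
        simp only
        rw [h0, Finsupp.single_zero, map_zero]
    rw [h1, pair ψ hψfin]
    have h3 : ∀ p, dv ψ p = 0 := fun p => dv_d χ p
    simp [h3]
  obtain ⟨φ, hφ, hd⟩ : ∃ φ : SG g → ℚ, {x | φ x ≠ 0}.Finite ∧
      ∀ q i, ψ' (q, i) = φ (q * PresentedGroup.of i) - φ q := by
    refine Submodule.span_induction (p := fun v _ => ∃ φ : SG g → ℚ, {x | φ x ≠ 0}.Finite ∧
      ∀ q i, v (q, i) = φ (q * PresentedGroup.of i) - φ q) ?_ ?_ ?_ ?_ key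
    · rintro _ ⟨p, rfl⟩
      refine ⟨fun q => if q = p then 1 else 0, ?_, fun q i => dd_apply p q i⟩
      refine (Set.finite_singleton p).subset ?_
      intro x hx
      by_contra hne
      exact hx (if_neg hne)
    · exact ⟨fun _ => 0, by simp, by simp⟩
    · rintro x y _ _ ⟨φ, h1, h2⟩ ⟨φ', h1', h2'⟩
      refine ⟨φ + φ', ?_, ?_⟩
      · refine (h1.union h1').subset ?_
        intro x hx
        by_contra hcon
        simp only [Set.mem_union, Set.mem_ofPred_eq, not_or, not_not] at hcon
        apply hx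
        rw [Pi.add_apply, hcon.1, hcon.2, add_zero]
      · intro q i
        rw [Finsupp.add_apply, h2, h2', Pi.add_apply, Pi.add_apply]
        ring
    · rintro a x _ ⟨φ, h1, h2⟩
      refine ⟨a • φ, ?_, ?_⟩
      · refine h1.subset ?_
        intro x hx h0
        apply hx
        rw [Pi.smul_apply, h0, smul_zero]
      · intro q i
        rw [Finsupp.smul_apply, h2, Pi.smul_apply, Pi.smul_apply]
        simp only [smul_eq_mul]
        ring
  have hc := const_of (fun q => χ q - φ q) (fun q i => by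
    have := hd q i
    rw [hψ'] at this
    simp only [ψ] at this
    linarith)
  by_cases hc1 : χ 1 - φ 1 = 1
  · right
    refine hφ.subset ?_
    intro x hx h0
    have := hc x
    rw [h0, hc1] at this
    have hx' : χ x = 0 := if_neg hx
    rw [hx'] at this
    norm_num at this
  · left
    refine hφ.subset ?_
    intro x hx h0
    have := hc x
    rw [h0] at this
    have hx' : χ x = 1 := if_pos hx
    rw [hx', sub_zero] at this
    exact hc1 this.symm

end one

end Run7.h955
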