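import Pool.Agent.Run7.h955.A2

set_option autoImplicit false

/-!
# Duality for the standard presentation of the surface group, third part

Every element of infinite order has a halfspace.
-/

open Pointwise commutatorElement

namespace Run7.h955

section lam

variable {π : Type*} [Group π]

/-- A coordinate along the cosets of an infinite cyclic subgroup. -/
theorem exists_lam {v : π} (hv : InfOrd v) :
    ∃ lam : π → ℤ, ∀ (k : ℤ) p, lam (v ^ k * p) = lam p + k := by
  let s := QuotientGroup.rightRel (Subgroup.zpowers v)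
  have h1 : ∀ p : π, ∃ k : ℤ, v ^ k = p * (Quotient.out (Quotient.mk s p))⁻¹ := by
    intro p
    have : s (Quotient.out (Quotient.mk s p)) p := Quotient.exact (Quotient.out_eq _)
    rw [QuotientGroup.rightRel_apply] at this
    exact Subgroup.mem_zpowers_iff.mp this
  choose lam hlam using h1
  refine ⟨lam, fun k p => ?_⟩
  have h2 : Quotient.mk s (v ^ k * p) = Quotient.mk s p := by
    apply Quotient.sound
    change s (v ^ k * p) p
    rw [QuotientGroup.rightRel_apply]
    refine Subgroup.mem_zpowers_iff.mpr ⟨-k, ?_⟩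
    group
  have h3 := hlam (v ^ k * p)
  rw [h2, mul_assoc, ← hlam p, ← zpow_add] at h3
  have h4 : v ^ (lam (v ^ k * p) - (k + lam p)) = 1 := by
    rw [zpow_sub, h3]; group
  have := hv _ h4
  omega

theorem InfOrd.inj {v : π} (hv : InfOrd v) : Function.Injective fun k : ℤ => v ^ k := by
  intro a b hab
  have h4 : v ^ (a - b) = 1 := by
    rw [zpow_sub]; simp only at hab; rw [hab]; group
  have := hv _ h4
  omega

theorem InfOrd.inj_mul {v : π} (hv : InfOrd v) (q : π) :
    Function.Injective fun k : ℤ => v ^ k * q := by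
  intro a b hab
  exact hv.inj (mul_right_cancel hab)

/-- finite support along a line -/
theorem InfOrd.line_fin {A : Type*} [Zero A] {v : π} (hv : InfOrd v) {f : π → A}
    (hf : {q | f q ≠ 0}.Finite) (q : π) : (Function.support fun k : ℤ => f (v ^ k * q)).Finite :=
  hf.preimage (f := fun k : ℤ => v ^ k * q) (hv.inj_mul q).injOn

theorem finsum_shift {A : Type*} [AddCommMonoid A] (F : ℤ → A) (c : ℤ) :
    ∑ᶠ k, F (k + c) = ∑ᶠ k, F k :=
  finsum_comp_equiv (Equiv.addRight c)

end lam

section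

variable {g : ℕ}

theorem dv_add {k : Type*} [AddCommGroup k] (m m' : SG g → Fin g × Bool → k) (p : SG g) :
    dv (fun q i => m q i + m' q i) p = dv m p + dv m' p := by
  unfold dv
  rw [← Finset.sum_add_distrib]
  exact Finset.sum_congr rfl fun i _ => by beta_reduce; abel

theorem dv_neg {k : Type*} [AddCommGroup k] (m : SG g → Fin g × Bool → k) (p : SG g) :
    dv (fun q i => - m q i) p = - dv m p := by
  unfold dv
  rw [← Finset.sum_neg_distrib]
  exact Finset.sum_congr rfl fun i _ => by beta_reduce; abel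

theorem dv_sub {k : Type*} [AddCommGroup k] (m m' : SG g → Fin g × Bool → k) (p : SG g) :
    dv (fun q i => m q i - m' q i) p = dv m p - dv m' p := by
  unfold dv
  rw [← Finset.sum_sub_distrib]
  exact Finset.sum_congr rfl fun i _ => by beta_reduce; abel

theorem dv_shift {k : Type*} [AddCommGroup k] (m : SG g → Fin g × Bool → k) (u p : SG g) :
    dv (fun q i => m (u * q) i) p = dv m (u * p) := by
  unfold dv
  exact Finset.sum_congr rfl fun i _ => by rw [mul_assoc, mul_assoc]

/-- finitely supported on edges -/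
def FS (ψ : SG g → Fin g × Bool → ℤ) : Prop := {e : SG g × (Fin g × Bool) | ψ e.1 e.2 ≠ 0}.Finite

theorem FS.at {ψ : SG g → Fin g × Bool → ℤ} (h : FS ψ) (i : Fin g × Bool) :
    {q | ψ q i ≠ 0}.Finite :=
  h.preimage (f := fun q => (q, i)) (fun _ _ _ _ hab => (Prod.mk.inj hab).1)

theorem FS.add {ψ ψ' : SG g → Fin g × Bool → ℤ} (h : FS ψ) (h' : FS ψ') :
    FS (fun q i => ψ q i + ψ' q i) := by
  refine (Set.Finite.union h h').subset ?_
  intro e he
  by_contra hcon
  simp only [Set.mem_union, Set.mem_ofPred_eq, not_or, not_not] at hcon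
  apply he
  simp only [hcon.1, hcon.2, add_zero]

theorem FS.neg {ψ : SG g → Fin g × Bool → ℤ} (h : FS ψ) : FS (fun q i => - ψ q i) := by
  refine Set.Finite.subset h ?_
  intro e he h0
  apply he
  simp only [h0, neg_zero]

theorem FS.shift {ψ : SG g → Fin g × Bool → ℤ} (h : FS ψ) (u : SG g) :
    FS (fun q i => ψ (u * q) i) := by
  refine Set.Finite.preimage (f := fun e : SG g × (Fin g × Bool) => (u * e.1, e.2)) ?_ h
  rintro ⟨a, b⟩ _ ⟨c, d⟩ _ hab
  simp only [Prod.mk.injEq, mul_right_inj] at hab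
  rw [hab.1, hab.2]

open Classical in
/-- the elements which are endpoints of dual paths -/
def dualSub (g : ℕ) : Subgroup (SG g) where
  carrier := {v | ∃ ψ : SG g → Fin g × Bool → ℤ, FS ψ ∧
    ∀ p, dv ψ p = (if p = 1 then 1 else 0) - (if p = v then 1 else 0)}
  one_mem' := ⟨fun _ _ => 0, by simp [FS], fun p => by simp [dv]⟩
  mul_mem' := by
    rintro u v ⟨ψ, h1, h2⟩ ⟨ψ', h1', h2'⟩
    refine ⟨_, h1.add (h1'.shift u⁻¹), fun p => ?_⟩
    rw [dv_add, dv_shift, h2, h2']
    have e1 : (u⁻¹ * p = 1) = (p = u) := by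
      rw [eq_iff_iff, inv_mul_eq_one, eq_comm]
    have e2 : (u⁻¹ * p = v) = (p = u * v) := by
      rw [eq_iff_iff, inv_mul_eq_iff_eq_mul]
    simp only [e1, e2]
    ring
  inv_mem' := by
    rintro v ⟨ψ, h1, h2⟩
    refine ⟨_, (h1.shift v).neg, fun p => ?_⟩
    rw [dv_neg, dv_shift, h2]
    have e1 : (v * p = 1) = (p = v⁻¹) := by
      rw [eq_iff_iff, mul_eq_one_iff_inv_eq, eq_comm]
    have e2 : (v * p = v) = (p = 1) := by
      rw [eq_iff_iff, mul_eq_left]
    simp only [e1, e2]
    ring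

theorem cc_mem (i : Fin g × Bool) : cc i ∈ dualSub g := by
  classical
  refine ⟨fun q j => if q = al i ∧ j = i then 1 else 0, ?_, ?_⟩
  · refine (Set.finite_singleton ((al i, i) : SG g × (Fin g × Bool))).subset ?_
    rintro ⟨q, j⟩ he
    by_contra hne
    apply he
    apply if_neg
    rintro ⟨h1, h2⟩
    apply hne
    simp only at h1 h2
    rw [Set.mem_singleton_iff, h1, h2]
  · intro p
    unfold dv
    rw [Finset.sum_eq_single i]
    · simp only [and_true]
      have e1 : (p * al i = al i) = (p = 1) := by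
        rw [eq_iff_iff, mul_eq_right]
      have e2 : (p * be i = al i) = (p = cc i) := by
        rw [eq_iff_iff]; unfold cc
        rw [eq_mul_inv_iff_mul_eq]
      simp only [e1, e2]
    · intro j _ hj
      beta_reduce
      rw [if_neg (fun h => hj h.2), if_neg (fun h => hj h.2), sub_zero]
    · intro h; exact (h (Finset.mem_univ _)).elim

theorem dualSub_top : dualSub g = ⊤ := by
  have hA : ∀ l : Fin g, R g l * ga l * (R g l)⁻¹ ∈ dualSub g := by
    intro l
    have : R g l * ga l * (R g l)⁻¹ = cc (l, false) * cc (l, true) * (cc (l, false))⁻¹ := by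
      rw [cc_false, cc_true]; group
    rw [this]
    exact mul_mem (mul_mem (cc_mem _) (cc_mem _)) (inv_mem (cc_mem _))
  have hB : ∀ l : Fin g, R g l * gb l * (R g l)⁻¹ ∈ dualSub g := by
    intro l
    have : R g l * gb l * (R g l)⁻¹ = cc (l, false) * (cc (l, true))⁻¹ * (cc (l, false))⁻¹ *
        cc (l, true) * (cc (l, false))⁻¹ := by
      rw [cc_false, cc_true]; group
    rw [this]
    exact mul_mem (mul_mem (mul_mem (mul_mem (cc_mem _) (inv_mem (cc_mem _)))
      (inv_mem (cc_mem _))) (cc_mem _)) (inv_mem (cc_mem _))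
  have hR : ∀ n, n ≤ g → R g n ∈ dualSub g := by
    apply fin_ind
    · rw [R_zero]; exact one_mem _
    · intro l hl
      have : R g (l + 1) = (R g l * ga l * (R g l)⁻¹) * (R g l * gb l * (R g l)⁻¹) *
          (R g l * ga l * (R g l)⁻¹)⁻¹ * (R g l * gb l * (R g l)⁻¹)⁻¹ * R g l := by
        have e2 : R g (l + 1) = R g l * (ga l * gb l * (ga l)⁻¹ * (gb l)⁻¹) := R_succ l
        rw [e2]; group
      rw [this]
      exact mul_mem (mul_mem (mul_mem (mul_mem (hA l) (hB l)) (inv_mem (hA l)))
        (inv_mem (hB l))) hl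
  rw [eq_top_iff, ← closure_gen, Subgroup.closure_le]
  rintro _ ⟨⟨l, b⟩, rfl⟩
  rw [SetLike.mem_coe]
  cases b
  · have : (PresentedGroup.of (l, false) : SG g) =
        (R g l)⁻¹ * (R g l * ga l * (R g l)⁻¹) * R g l := by
      change ga l = _
      group
    rw [this]
    exact mul_mem (mul_mem (inv_mem (hR l l.2.le)) (hA l)) (hR l l.2.le)
  · have : (PresentedGroup.of (l, true) : SG g) =
        (R g l)⁻¹ * (R g l * gb l * (R g l)⁻¹) * R g l := by
      change gb l = _
      group
    rw [this]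
    exact mul_mem (mul_mem (inv_mem (hR l l.2.le)) (hB l)) (hR l l.2.le)

/-- line sums -/
noncomputable def ls (v : SG g) (ψ : SG g → Fin g × Bool → ℤ) (q : SG g) (i : Fin g × Bool) : ℤ :=
  ∑ᶠ k : ℤ, ψ (v ^ k * q) i

theorem ls_inv (v : SG g) (ψ : SG g → Fin g × Bool → ℤ) (q : SG g) (i : Fin g × Bool) :
    ls v ψ (v * q) i = ls v ψ q i := by
  unfold ls
  rw [← finsum_shift (fun k => ψ (v ^ k * q) i) 1]
  refine finsum_congr fun k => ?_
  rw [zpow_add, zpow_one, mul_assoc]

theorem ls_zpow (v : SG g) (ψ : SG g → Fin g × Bool → ℤ) (n : ℤ) (q : SG g)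
    (i : Fin g × Bool) : ls v ψ (v ^ n * q) i = ls v ψ q i := by
  unfold ls
  rw [← finsum_shift (fun k => ψ (v ^ k * q) i) n]
  refine finsum_congr fun k => ?_
  rw [zpow_add, mul_assoc]

theorem dv_ls {v : SG g} (hv : InfOrd v) {ψ : SG g → Fin g × Bool → ℤ} (hψ : FS ψ) (p : SG g) :
    dv (ls v ψ) p = ∑ᶠ k : ℤ, dv ψ (v ^ k * p) := by
  have h1 : ∀ i, ls v ψ (p * al i) i - ls v ψ (p * be i) i =
      ∑ᶠ k : ℤ, (ψ (v ^ k * p * al i) i - ψ (v ^ k * p * be i) i) := by
    intro i
    unfold ls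
    rw [← finsum_sub_distrib (hv.line_fin (f := fun q => ψ q i) (hψ.at i) _)
      (hv.line_fin (f := fun q => ψ q i) (hψ.at i) _)]
    exact finsum_congr fun k => by rw [mul_assoc, mul_assoc]
  unfold dv
  rw [finsum_sum_comm]
  · exact Finset.sum_congr rfl fun i _ => h1 i
  · intro i _
    refine ((hv.line_fin (f := fun q => ψ q i) (hψ.at i) (p * al i)).union
      (hv.line_fin (f := fun q => ψ q i) (hψ.at i) (p * be i))).subset ?_
    intro k hk
    by_contra hcon
    simp only [Set.mem_union, Function.mem_support, not_or, not_not] at hcon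
    apply hk
    simp only [mul_assoc, hcon.1, hcon.2, sub_zero]

theorem ls_d {v : SG g} (hv : InfOrd v) {φ : SG g → ℤ} (hφ : {q | φ q ≠ 0}.Finite) (q : SG g)
    (i : Fin g × Bool) : ls v (fun q i => φ (q * PresentedGroup.of i) - φ q) q i =
      ∑ᶠ k : ℤ, φ (v ^ k * (q * PresentedGroup.of i)) - ∑ᶠ k : ℤ, φ (v ^ k * q) := by
  unfold ls
  rw [← finsum_sub_distrib (hv.line_fin hφ _) (hv.line_fin hφ _)]
  exact finsum_congr fun k => by beta_reduce; rw [mul_assoc]

/-- sums over a fundamental domain -/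
theorem finsum_fund {v : SG g} {ψ : SG g → Fin g × Bool → ℤ} (hψ : FS ψ)
    (h0 : ∀ q i, ls v ψ q i = 0) {μ : SG g → Fin g × Bool → ℤ}
    (hμ : ∀ (k : ℤ) q i, μ (v ^ k * q) i = μ q i) {lam : SG g → ℤ}
    (hlam : ∀ (k : ℤ) p, lam (v ^ k * p) = lam p + k) :
    ∑ᶠ e : SG g × (Fin g × Bool), ψ e.1 e.2 * μ e.1 e.2 = 0 := by
  let E : ({q : SG g // lam q = 0} × (Fin g × Bool)) × ℤ ≃ SG g × (Fin g × Bool) :=
    { toFun := fun e => (v ^ e.2 * e.1.1.1, e.1.2)
      invFun := fun e => ((⟨v ^ (-lam e.1) * e.1, by rw [hlam]; ring⟩, e.2), lam e.1)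
      left_inv := by
        rintro ⟨⟨⟨q, hq⟩, i⟩, k⟩
        have e1 : lam (v ^ k * q) = k := by rw [hlam, hq, zero_add]
        simp only [e1, Prod.mk.injEq, Subtype.mk.injEq, and_true]
        group
      right_inv := by
        rintro ⟨q, i⟩
        simp only [Prod.mk.injEq, and_true]
        group }
  rw [← finsum_comp_equiv E, finsum_curry]
  · have : ∀ a : {q : SG g // lam q = 0} × (Fin g × Bool),
        ∑ᶠ k : ℤ, ψ (E (a, k)).1 (E (a, k)).2 * μ (E (a, k)).1 (E (a, k)).2 = 0 := by
      intro a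
      have h1 : ∀ k : ℤ, ψ (E (a, k)).1 (E (a, k)).2 * μ (E (a, k)).1 (E (a, k)).2 =
          ψ (v ^ k * a.1.1) a.2 * μ a.1.1 a.2 := by
        intro k
        change ψ (v ^ k * a.1.1) a.2 * μ (v ^ k * a.1.1) a.2 = _
        rw [hμ]
      rw [finsum_congr h1, ← finsum_mul]
      have := h0 a.1.1 a.2
      unfold ls at this
      rw [this, zero_mul]
    rw [finsum_congr this, finsum_zero]
  · refine (Set.Finite.preimage (f := E) E.injective.injOn hψ).subset ?_
    intro e he h1
    apply he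
    change ψ (E e).1 (E e).2 = 0 at h1
    simp only [h1, zero_mul]

theorem cob_gen_CFin {C : Subgroup (SG g)} {α : Type*} (f : SG g → α)
    (h : ∀ i, CFin C {x | f (x * PresentedGroup.of i) ≠ f x}) (s : SG g) :
    CFin C {x | f (x * s) ≠ f x} :=
  cob_gen (P := CFin C) (fun _ _ h hY => hY.mono h) (fun _ _ => CFin.union)
    (CFin.of_finite Set.finite_empty) (fun _ s hX => hX.mul_right s) f h s

end

end Run7.h955
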