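import Pool.Agent.Run7.h955.A3

set_option autoImplicit false

/-!
# Every element of infinite order of a surface group has a halfspace
-/

open Pointwise commutatorElement

namespace Run7.h955

theorem add_zpow {π : Type*} [Group π] {v : π} {f : π → ℤ} {c : ℤ}
    (h : ∀ q, f (v * q) = f q + c) (n : ℤ) : ∀ q, f (v ^ n * q) = f q + n * c := by
  induction n with
  | zero => intro q; simp
  | succ n ih =>
    intro q
    rw [add_comm, zpow_add, zpow_one, mul_assoc, h, ih]
    ring
  | pred n ih =>
    intro q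
    have h1 := h (v⁻¹ * (v ^ (-(n : ℤ)) * q))
    rw [mul_inv_cancel_left, ih] at h1
    have e : v ^ (-(n : ℤ) - 1) * q = v⁻¹ * (v ^ (-(n : ℤ)) * q) := by
      rw [sub_eq_add_neg, add_comm, zpow_add, zpow_neg_one, mul_assoc]
    rw [e]
    linarith

variable {g : ℕ}

theorem ls_supp {v : SG g} {ψ : SG g → Fin g × Bool → ℤ} {q : SG g} {i : Fin g × Bool}
    (h : ls v ψ q i ≠ 0) : ∃ (n : ℤ) (q0 : SG g), ψ q0 i ≠ 0 ∧ q = v ^ n * q0 := by
  by_contra hcon
  apply h
  have : ∀ k : ℤ, ψ (v ^ k * q) i = 0 := by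
    intro k
    by_contra hk
    exact hcon ⟨-k, v ^ k * q, hk, by group⟩
  unfold ls
  rw [finsum_congr this, finsum_zero]

/-- no nontrivial translation number -/
theorem shift_zero {v : SG g} (hv : InfOrd v) {ψ : SG g → Fin g × Bool → ℤ} (hψ : FS ψ)
    {φ : SG g → ℤ} (hφ : ∀ q i, φ (q * PresentedGroup.of i) - φ q = ls v ψ q i) {c : ℤ}
    (hc : ∀ q, φ (v * q) = φ q + c) : c = 0 := by
  classical
  by_contra hc0
  have hz := add_zpow hc
  have hS : ∀ i q, ls v ψ q i ≠ 0 → ∃ (n : ℤ) (q0 : SG g), ψ q0 i ≠ 0 ∧ q = v ^ n * q0 := by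
    intro i q h
    exact ls_supp h
  have hfin : ∀ i, {x | (0 ≤ φ (x * PresentedGroup.of i)) ≠ (0 ≤ φ x)}.Finite := by
    intro i
    have : {x | (0 ≤ φ (x * PresentedGroup.of i)) ≠ (0 ≤ φ x)} ⊆
        ⋃ q0 ∈ {q | ψ q i ≠ 0}, (fun n : ℤ => v ^ n * q0) ''
          Set.Icc (-(|ls v ψ q0 i| + |φ q0|)) (|ls v ψ q0 i| + |φ q0|) := by
      intro x hx
      have hne : ls v ψ x i ≠ 0 := by
        intro h0
        apply hx
        have := hφ x i
        rw [h0] at this
        have : φ (x * PresentedGroup.of i) = φ x := by omega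
        rw [this]
      obtain ⟨n, q0, hq0, rfl⟩ := hS i x hne
      rw [Set.mem_iUnion₂]
      refine ⟨q0, hq0, n, ?_, rfl⟩
      have h1 := hφ (v ^ n * q0) i
      rw [ls_zpow] at h1
      have h2 : |φ (v ^ n * q0)| ≤ |ls v ψ q0 i| := by
        by_contra hcon
        apply hx
        rw [eq_iff_iff]
        constructor <;> intro h3 <;> by_contra h4 <;> apply hcon <;> rw [abs_le] <;>
          have h5 := le_abs_self (ls v ψ q0 i) <;> have h6 := neg_abs_le (ls v ψ q0 i) <;>
          constructor <;> omega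
      rw [hz] at h2
      have h3 : |(n : ℤ) * c| ≤ |ls v ψ q0 i| + |φ q0| := by
        have := abs_sub_abs_le_abs_sub (n * c) (-φ q0)
        rw [abs_neg, sub_neg_eq_add, add_comm (n * c) (φ q0)] at this
        omega
      have h4 : |n| ≤ |n * c| := by
        rw [abs_mul]
        have : 1 ≤ |c| := Int.one_le_abs hc0
        nlinarith [abs_nonneg n]
      rw [Set.mem_Icc, ← abs_le]
      exact h4.trans h3
    refine Set.Finite.subset ?_ this
    exact (hψ.at i).biUnion fun q0 _ => (Set.finite_Icc _ _).image _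
  have hcob := cob_gen_finite (fun x => (0 ≤ φ x)) hfin
  have h1 := oneEnded_SG g {x | 0 ≤ φ x} (fun s => by
    refine (hcob s).subset ?_
    intro x hx h0
    apply hx
    exact iff_of_eq h0)
  have hinj : ∀ e : ℤ, e ≠ 0 → Function.Injective fun j : ℕ => v ^ (e * ((j : ℤ) + 1 + |φ 1|)) := by
    intro e he a b hab
    have h2 := hv.inj hab
    have h3 := mul_left_cancel₀ he h2
    omega
  rcases h1 with h1 | h1
  · refine (Set.infinite_of_injective_forall_mem (hinj c hc0) ?_) h1
    intro j
    change 0 ≤ φ (v ^ (c * ((j : ℤ) + 1 + |φ 1|)))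
    have := hz (c * ((j : ℤ) + 1 + |φ 1|)) 1
    rw [mul_one] at this
    rw [this]
    have h2 : 1 ≤ c * c := by
      have : 0 < c * c := mul_self_pos.mpr hc0
      omega
    have h3 : c * ((j : ℤ) + 1 + |φ 1|) * c = (c * c) * ((j : ℤ) + 1 + |φ 1|) := by ring
    rw [h3]
    have h4 := neg_abs_le (φ 1)
    nlinarith [abs_nonneg (φ 1)]
  · refine (Set.infinite_of_injective_forall_mem (hinj (-c) (by omega)) ?_) h1
    intro j
    change ¬ (0 ≤ φ (v ^ (-c * ((j : ℤ) + 1 + |φ 1|))))
    have := hz (-c * ((j : ℤ) + 1 + |φ 1|)) 1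
    rw [mul_one] at this
    rw [this]
    have h2 : 1 ≤ c * c := by
      have : 0 < c * c := mul_self_pos.mpr hc0
      omega
    have h3 : -c * ((j : ℤ) + 1 + |φ 1|) * c = -((c * c) * ((j : ℤ) + 1 + |φ 1|)) := by ring
    rw [h3]
    have h4 := le_abs_self (φ 1)
    nlinarith [abs_nonneg (φ 1)]

/-- a line sum is not the coboundary of a function which is almost constant -/
theorem not_small {v : SG g} (hv : InfOrd v) {ψ : SG g → Fin g × Bool → ℤ} (hψ : FS ψ)
    {lam : SG g → ℤ} (hlam : ∀ (k : ℤ) p, lam (v ^ k * p) = lam p + k)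
    (hdv : ∑ᶠ p, lam p * dv ψ p = -1)
    {φ : SG g → ℤ} (hφ : ∀ q i, φ (q * PresentedGroup.of i) - φ q = ls v ψ q i)
    (hinv : ∀ (n : ℤ) q, φ (v ^ n * q) = φ q)
    (hsm : CFin (Subgroup.zpowers v) {q | φ q ≠ 0}) : False := by
  classical
  let φ1 : SG g → ℤ := fun q => if lam q = 0 then φ q else 0
  have h1 : {q | φ1 q ≠ 0}.Finite := by
    obtain ⟨F, hF, hF2⟩ := hsm
    refine (hF.image fun f => v ^ (-lam f) * f).subset ?_
    intro x hx
    have hx0 : lam x = 0 := by
      by_contra hne
      exact hx (if_neg hne)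
    have hx1 : φ x ≠ 0 := by
      intro h0
      apply hx
      simp only [φ1, h0, ite_self]
    obtain ⟨f, hf, hxf⟩ := hF2 x hx1
    obtain ⟨n, hn⟩ := Subgroup.mem_zpowers_iff.mp hxf
    refine ⟨f, hf, ?_⟩
    have e : x = v ^ n * f := by rw [hn]; group
    have h2 : lam f + n = 0 := by rw [← hlam, ← e, hx0]
    have h3 : -lam f = n := by omega
    simp only [h3, e]
  have h2 : ∀ q, ∑ᶠ k : ℤ, φ1 (v ^ k * q) = φ q := by
    intro q
    rw [finsum_eq_single _ (-lam q)]
    · simp only [φ1]
      rw [if_pos (by rw [hlam]; ring), hinv]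
    · intro k hk
      simp only [φ1]
      rw [if_neg]
      rw [hlam]
      intro h; apply hk; omega
  let ψ1 : SG g → Fin g × Bool → ℤ := fun q i => ψ q i - (φ1 (q * PresentedGroup.of i) - φ1 q)
  have hfs : FS (fun q i => φ1 (q * PresentedGroup.of i) - φ1 q) := by
    refine ((Set.finite_iUnion fun i : Fin g × Bool =>
      ((h1.preimage (f := fun q => q * (PresentedGroup.of i : SG g))
        (mul_left_injective _).injOn).image (fun q => (q, i)))).union
      (Set.finite_iUnion fun i : Fin g × Bool => h1.image (fun q => (q, i)))).subset ?_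
    rintro ⟨q, i⟩ he
    by_contra hcon
    simp only [Set.mem_union, Set.mem_iUnion, not_or, not_exists] at hcon
    apply he
    have a1 : φ1 (q * PresentedGroup.of i) = 0 := by
      by_contra hne
      exact hcon.1 i ⟨q, hne, rfl⟩
    have a2 : φ1 q = 0 := by
      by_contra hne
      exact hcon.2 i ⟨q, hne, rfl⟩
    simp only [a1, a2, sub_zero]
  have hψ1 : FS ψ1 := by
    have := hψ.add hfs.neg
    refine Set.Finite.subset this ?_
    intro e he
    simpa [ψ1, sub_eq_add_neg] using he
  have h3 : ∀ q i, ls v ψ1 q i = 0 := by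
    intro q i
    have e1 : ls v ψ1 q i = ls v ψ q i -
        ls v (fun q i => φ1 (q * PresentedGroup.of i) - φ1 q) q i := by
      unfold ls
      rw [← finsum_sub_distrib (hv.line_fin (f := fun q => ψ q i) (hψ.at i) _)
        (hv.line_fin (f := fun q => φ1 (q * PresentedGroup.of i) - φ1 q) (hfs.at i) _)]
    rw [e1, ls_d hv h1, h2, h2, ← hφ]
    ring
  have h4 := pair ψ1 hψ1 lam
  have h5 := finsum_fund hψ1 h3 (μ := fun q i => lam (q * (be i)⁻¹) - lam (q * (al i)⁻¹))
    (fun k q i => by
      beta_reduce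
      rw [mul_assoc, mul_assoc, hlam, hlam]; ring) hlam
  rw [h5] at h4
  have h6 : ∀ p, dv ψ1 p = dv ψ p := by
    intro p
    have := dv_sub ψ (fun q i => φ1 (q * PresentedGroup.of i) - φ1 q) p
    rw [dv_d, sub_zero] at this
    exact this
  simp only [h6, hdv] at h4
  omega

theorem hasHS_SG (g : ℕ) : HasHS (SG g) := by
  classical
  intro v hv
  obtain ⟨ψ, hψ, hdv⟩ : v ∈ dualSub g := by rw [dualSub_top]; trivial
  obtain ⟨lam, hlam⟩ := exists_lam hv
  have hm : ∀ p, dv (ls v ψ) p = 0 := by
    intro p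
    rw [dv_ls hv hψ]
    let F : ℤ → ℤ := fun k => if v ^ k * p = 1 then 1 else 0
    have hF : (Function.support F).Finite :=
      hv.line_fin (f := fun q : SG g => if q = 1 then (1 : ℤ) else 0)
        ((Set.finite_singleton (1 : SG g)).subset fun x hx => by
          by_contra hne
          exact hx (if_neg hne)) p
    have h1 : ∀ k : ℤ, dv ψ (v ^ k * p) = F k - F (k + (-1)) := by
      intro k
      rw [hdv]
      have e : (v ^ k * p = v) = (v ^ (k + (-1)) * p = 1) := by
        rw [eq_iff_iff, add_comm, zpow_add, zpow_neg_one, mul_assoc, inv_mul_eq_one, eq_comm]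
      simp only [F, e]
    have hF' : (Function.support fun k => F (k + (-1))).Finite :=
      hF.preimage (f := fun k : ℤ => k + (-1)) (add_left_injective _).injOn
    rw [finsum_congr h1, finsum_sub_distrib hF hF', finsum_shift F (-1), sub_self]
  obtain ⟨φ, hφ⟩ := P1 (ls v ψ) hm
  have hsum : ∑ᶠ p, lam p * dv ψ p = -1 := by
    have e1 : ∀ p, lam p * dv ψ p = (if p = 1 then lam 1 else 0) - (if p = v then lam v else 0) := by
      intro p
      rw [hdv]
      by_cases h1 : p = 1 <;> by_cases h2 : p = v <;> simp [h1, h2] <;> aesop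
    have f1 : (Function.support fun p : SG g => if p = 1 then lam 1 else 0).Finite :=
      (Set.finite_singleton (1 : SG g)).subset fun x hx => by
        by_contra hne
        exact hx (if_neg hne)
    have f2 : (Function.support fun p : SG g => if p = v then lam v else 0).Finite :=
      (Set.finite_singleton v).subset fun x hx => by
        by_contra hne
        exact hx (if_neg hne)
    rw [finsum_congr e1, finsum_sub_distrib f1 f2,
      finsum_eq_single _ (1 : SG g) (fun x hx => if_neg hx),
      finsum_eq_single _ v (fun x hx => if_neg hx), if_pos rfl, if_pos rfl]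
    have := hlam 1 1
    rw [zpow_one, mul_one] at this
    omega
  have hconst := const_of (fun q => φ (v * q) - φ q) (fun q i => by
    have h1 := hφ (v * q) i
    have h2 := hφ q i
    rw [ls_inv, mul_assoc] at h1
    beta_reduce
    omega)
  have hc0 : φ (v * 1) - φ 1 = 0 := by
    refine shift_zero hv hψ hφ (c := φ (v * 1) - φ 1) ?_
    intro q
    have := hconst q
    omega
  have hinv : ∀ (n : ℤ) q, φ (v ^ n * q) = φ q := by
    intro n q
    have := add_zpow (f := φ) (v := v) (c := 0) (fun q => by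
      have := hconst q
      omega) n q
    omega
  have hS : ∀ i q, ls v ψ q i ≠ 0 → ∃ (n : ℤ) (q0 : SG g), ψ q0 i ≠ 0 ∧ q = v ^ n * q0 := by
    intro i q h
    exact ls_supp h
  have hcob : ∀ s, CFin (Subgroup.zpowers v) {x | φ (x * s) ≠ φ x} := by
    apply cob_gen_CFin
    intro i
    refine ⟨{q | ψ q i ≠ 0}, hψ.at i, ?_⟩
    intro x hx
    have : ls v ψ x i ≠ 0 := by
      rw [← hφ]
      intro h
      apply hx
      omega
    obtain ⟨n, q0, hq0, rfl⟩ := hS i x this
    exact ⟨q0, hq0, Subgroup.mem_zpowers_iff.mpr ⟨n, by group⟩⟩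
  -- finitely many values
  obtain ⟨M, hM⟩ : ∃ M : ℤ, ∀ q, |φ q| ≤ M := by
    have hfin : (({φ 1} : Set ℤ) ∪ ⋃ i : Fin g × Bool, (φ '' {q | ψ q i ≠ 0} ∪
        (fun q => φ (q * PresentedGroup.of i)) '' {q | ψ q i ≠ 0})).Finite :=
      (Set.finite_singleton _).union (Set.finite_iUnion fun i =>
        ((hψ.at i).image _).union ((hψ.at i).image _))
    have hval : ∀ q, φ q ∈ (({φ 1} : Set ℤ) ∪ ⋃ i : Fin g × Bool, (φ '' {q | ψ q i ≠ 0} ∪
        (fun q => φ (q * PresentedGroup.of i)) '' {q | ψ q i ≠ 0})) := by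
      intro q
      refine gen_ind (P := fun q => φ q ∈ (({φ 1} : Set ℤ) ∪ ⋃ i : Fin g × Bool,
        (φ '' {q | ψ q i ≠ 0} ∪
        (fun q => φ (q * PresentedGroup.of i)) '' {q | ψ q i ≠ 0}))) ?_ ?_ ?_ q
      · exact Or.inl rfl
      · intro q i hq
        by_cases h0 : ls v ψ q i = 0
        · have := hφ q i
          have e : φ (q * PresentedGroup.of i) = φ q := by omega
          rw [e]; exact hq
        · obtain ⟨n, q0, hq0, rfl⟩ := hS i q h0
          right
          rw [Set.mem_iUnion]
          refine ⟨i, Or.inr ⟨q0, hq0, ?_⟩⟩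
          beta_reduce
          rw [mul_assoc, hinv]
      · intro q i hq
        by_cases h0 : ls v ψ (q * (PresentedGroup.of i)⁻¹) i = 0
        · have := hφ (q * (PresentedGroup.of i)⁻¹) i
          rw [inv_mul_cancel_right] at this
          have e : φ (q * (PresentedGroup.of i)⁻¹) = φ q := by omega
          rw [e]; exact hq
        · obtain ⟨n, q0, hq0, h1⟩ := hS i _ h0
          right
          rw [Set.mem_iUnion]
          refine ⟨i, Or.inl ⟨q0, hq0, ?_⟩⟩
          rw [h1, hinv]
    obtain ⟨B, hB⟩ := (hfin.image (fun z : ℤ => |z|)).bddAbove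
    exact ⟨B, fun q => hB ⟨φ q, hval q, rfl⟩⟩
  by_contra hno
  have hcase : ∀ c : ℤ, CFin (Subgroup.zpowers v) {x | c ≤ φ x} ∨
      CFin (Subgroup.zpowers v) {x | c ≤ φ x}ᶜ := by
    intro c
    by_contra hcon
    rw [not_or] at hcon
    apply hno
    refine ⟨{x | c ≤ φ x}, ?_, ?_, hcon.1, hcon.2⟩
    · intro z hz x
      obtain ⟨n, rfl⟩ := Subgroup.mem_zpowers_iff.mp hz
      rw [Set.mem_ofPred_eq, Set.mem_ofPred_eq, hinv]
    · intro s
      refine (hcob s).mono ?_
      intro x hx h0
      apply hx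
      rw [Set.mem_ofPred_eq, Set.mem_ofPred_eq, h0]
  obtain ⟨c, hc⟩ : ∃ c : ℤ, CFin (Subgroup.zpowers v) {x | φ x ≠ c} := by
    by_cases hall : CFin (Subgroup.zpowers v) {x | M + 1 ≤ φ x}ᶜ
    · refine ⟨0, hall.mono ?_⟩
      intro x _ hx
      rw [Set.mem_ofPred_eq] at hx
      have := hM x
      have := le_abs_self (φ x)
      omega
    · by_contra hcon
      rw [not_exists] at hcon
      apply hall
      have hstep : ∀ c : ℤ, CFin (Subgroup.zpowers v) {x | c ≤ φ x}ᶜ →
          CFin (Subgroup.zpowers v) {x | c + 1 ≤ φ x}ᶜ := by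
        intro c h1
        rcases hcase (c + 1) with h2 | h2
        · exfalso
          apply hcon c
          refine (h1.union h2).mono ?_
          intro x hx
          rcases lt_or_gt_of_ne hx with h | h
          · left; intro h3; rw [Set.mem_ofPred_eq] at h3; omega
          · right; rw [Set.mem_ofPred_eq]; omega
        · exact h2
      have hbase : CFin (Subgroup.zpowers v) {x | -M ≤ φ x}ᶜ := by
        refine (CFin.of_finite Set.finite_empty).mono ?_
        intro x hx
        apply hx
        rw [Set.mem_ofPred_eq]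
        have := hM x
        have := neg_abs_le (φ x)
        omega
      have hall2 : ∀ n : ℕ, CFin (Subgroup.zpowers v) {x | -M + n ≤ φ x}ᶜ := by
        intro n
        induction n with
        | zero => simpa using hbase
        | succ n ih =>
          have := hstep _ ih
          have e : -M + (n : ℤ) + 1 = -M + ((n + 1 : ℕ) : ℤ) := by push_cast; ring
          rw [e] at this
          exact this
      have hM0 : 0 ≤ M := (abs_nonneg _).trans (hM 1)
      have := hall2 (2 * M + 1).toNat
      have e : -M + (((2 * M + 1).toNat : ℕ) : ℤ) = M + 1 := by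
        rw [Int.toNat_of_nonneg (by omega)]; ring
      rw [e] at this
      exact this
  refine not_small hv hψ hlam hsum (φ := fun q => φ q - c) ?_ ?_ ?_
  · intro q i
    have := hφ q i
    omega
  · intro n q
    beta_reduce
    rw [hinv]
  · refine hc.mono ?_
    intro x hx h0
    apply hx
    beta_reduce
    omega

end Run7.h955
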