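import Pool.Agent.Run7.h955.Defs

set_option autoImplicit false

/-!
# Calculus of halfspaces
-/

open Pointwise

namespace Run7.h955

variable {π : Type*} [Group π]

/-! ## Sets contained in finitely many cosets -/

theorem CFin.mono {C : Subgroup π} {X Y : Set π} (h : CFin C Y) (hXY : X ⊆ Y) : CFin C X := by
  obtain ⟨F, hF, h1⟩ := h
  exact ⟨F, hF, fun x hx => h1 x (hXY hx)⟩

theorem CFin.union {C : Subgroup π} {X Y : Set π} (h : CFin C X) (h' : CFin C Y) :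
    CFin C (X ∪ Y) := by
  obtain ⟨F, hF, h1⟩ := h
  obtain ⟨F', hF', h1'⟩ := h'
  refine ⟨F ∪ F', hF.union hF', ?_⟩
  rintro x (hx | hx)
  · obtain ⟨f, hf, h2⟩ := h1 x hx
    exact ⟨f, Or.inl hf, h2⟩
  · obtain ⟨f, hf, h2⟩ := h1' x hx
    exact ⟨f, Or.inr hf, h2⟩

theorem CFin.of_finite {C : Subgroup π} {X : Set π} (h : X.Finite) : CFin C X :=
  ⟨X, h, fun x hx => ⟨x, hx, by rw [mul_inv_cancel]; exact C.one_mem⟩⟩

theorem CFin.mul_right {C : Subgroup π} {X : Set π} (h : CFin C X) (s : π) :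
    CFin C {x | x * s ∈ X} := by
  obtain ⟨F, hF, h1⟩ := h
  refine ⟨(fun f => f * s⁻¹) '' F, hF.image _, ?_⟩
  intro x hx
  obtain ⟨f, hf, h2⟩ := h1 _ hx
  refine ⟨f * s⁻¹, ⟨f, hf, rfl⟩, ?_⟩
  have e : x * (f * s⁻¹)⁻¹ = x * s * f⁻¹ := by group
  rw [e]; exact h2

theorem CFin.mono_left {C C' : Subgroup π} {X : Set π} (h : CFin C X) (hC : C ≤ C') :
    CFin C' X := by
  obtain ⟨F, hF, h1⟩ := h
  exact ⟨F, hF, fun x hx => by
    obtain ⟨f, hf, h2⟩ := h1 x hx
    exact ⟨f, hf, hC h2⟩⟩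

theorem CFin.sat {C : Subgroup π} {X : Set π} (h : CFin C X) :
    CFin C {x | ∃ c ∈ C, c * x ∈ X} := by
  obtain ⟨F, hF, h1⟩ := h
  refine ⟨F, hF, ?_⟩
  rintro x ⟨c, hc, hx⟩
  obtain ⟨f, hf, h2⟩ := h1 _ hx
  refine ⟨f, hf, ?_⟩
  have e : x * f⁻¹ = c⁻¹ * (c * x * f⁻¹) := by group
  rw [e]; exact C.mul_mem (C.inv_mem hc) h2

theorem CFin.zpow {u : π} {X : Set π} (h : CFin (Subgroup.zpowers u) X) {n : ℤ} (hn : n ≠ 0) :
    CFin (Subgroup.zpowers (u ^ n)) X := by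
  obtain ⟨F, hF, h1⟩ := h
  refine ⟨(fun p : ℤ × π => u ^ p.1 * p.2) '' ((Set.Icc 0 |n|) ×ˢ F),
    ((Set.finite_Icc _ _).prod hF).image _, ?_⟩
  intro x hx
  obtain ⟨f, hf, h2⟩ := h1 _ hx
  obtain ⟨k, hk⟩ := Subgroup.mem_zpowers_iff.mp h2
  refine ⟨u ^ (k % n) * f, ⟨(k % n, f), ⟨⟨Int.emod_nonneg _ hn, (Int.emod_lt_abs _ hn).le⟩, hf⟩,
    rfl⟩, ?_⟩
  refine Subgroup.mem_zpowers_iff.mpr ⟨k / n, ?_⟩
  have e : x * (u ^ (k % n) * f)⁻¹ = (x * f⁻¹) * u ^ (-(k % n)) := by group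
  rw [e, ← hk, ← zpow_add, ← zpow_mul]
  congr 1
  have := Int.mul_ediv_add_emod k n
  linarith

theorem mem_cj {C : Subgroup π} {g x : π} : x ∈ cj g C ↔ g⁻¹ * x * g ∈ C := by
  unfold cj
  rw [Subgroup.mem_map]
  constructor
  · rintro ⟨y, hy, rfl⟩
    have : g⁻¹ * (MulAut.conj g).toMonoidHom y * g = y := by
      change g⁻¹ * (g * y * g⁻¹) * g = y
      group
    rw [this]; exact hy
  · intro h
    refine ⟨_, h, ?_⟩
    change g * (g⁻¹ * x * g) * g⁻¹ = x
    group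

theorem cj_inv_cj (g : π) (C : Subgroup π) : cj g⁻¹ (cj g C) = C := by
  ext x
  rw [mem_cj, mem_cj]
  have : g⁻¹ * (g⁻¹⁻¹ * x * g⁻¹) * g = x := by group
  rw [this]

theorem cj_zpowers (g u : π) : cj g (Subgroup.zpowers u) = Subgroup.zpowers (g * u * g⁻¹) := by
  unfold cj
  rw [MonoidHom.map_zpowers]
  rfl

theorem am_zpowers (f : MulAut π) (u : π) :
    am f (Subgroup.zpowers u) = Subgroup.zpowers (f u) := by
  unfold am
  rw [MonoidHom.map_zpowers]
  rfl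

theorem CFin.smul {C : Subgroup π} {X : Set π} (h : CFin C X) (g : π) :
    CFin (cj g C) (g • X) := by
  obtain ⟨F, hF, h1⟩ := h
  refine ⟨(fun f => g * f) '' F, hF.image _, ?_⟩
  intro x hx
  rw [Set.mem_smul_set_iff_inv_smul_mem, smul_eq_mul] at hx
  obtain ⟨f, hf, h2⟩ := h1 _ hx
  refine ⟨g * f, ⟨f, hf, rfl⟩, ?_⟩
  rw [mem_cj]
  have e : g⁻¹ * (x * (g * f)⁻¹) * g = g⁻¹ * x * f⁻¹ := by group
  rw [e]; exact h2

theorem CFin.image {C : Subgroup π} {X : Set π} (h : CFin C X) (f : MulAut π) :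
    CFin (am f C) ((fun x => f x) '' X) := by
  obtain ⟨F, hF, h1⟩ := h
  refine ⟨(fun x => f x) '' F, hF.image _, ?_⟩
  rintro _ ⟨x, hx, rfl⟩
  obtain ⟨y, hy, h2⟩ := h1 _ hx
  refine ⟨f y, ⟨y, hy, rfl⟩, ?_⟩
  unfold am
  refine ⟨x * y⁻¹, h2, ?_⟩
  change f (x * y⁻¹) = f x * (f y)⁻¹
  rw [map_mul, map_inv]

theorem am_inv_am (f : MulAut π) (C : Subgroup π) : am f⁻¹ (am f C) = C := by
  unfold am
  rw [Subgroup.map_map]
  ext x
  constructor
  · rintro ⟨y, hy, rfl⟩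
    have : (MonoidHom.comp (f⁻¹ : MulAut π).toMonoidHom (f : π ≃* π).toMonoidHom) y = y := by
      change (f⁻¹ : MulAut π) (f y) = y
      exact MulAut.inv_apply_self π f y
    rw [this]; exact hy
  · intro hx
    refine ⟨x, hx, ?_⟩
    change (f⁻¹ : MulAut π) (f x) = x
    exact MulAut.inv_apply_self π f x

/-! ## Halfspaces -/

theorem HS.compl {C : Subgroup π} {A : Set π} (h : HS C A) : HS C Aᶜ where
  inv c hc x := by
    rw [Set.mem_compl_iff, Set.mem_compl_iff, h.inv c hc x]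
  cob s := by
    refine (h.cob s).mono ?_
    intro x hx hx'
    apply hx
    rw [Set.mem_compl_iff, Set.mem_compl_iff, hx']
  inf := h.infc
  infc := by rw [compl_compl]; exact h.inf

/-- finite index change of the cyclic group -/
theorem HS.zpow {u : π} {A : Set π} (h : HS (Subgroup.zpowers u) A) (n : ℤ) (hn : n ≠ 0) :
    HS (Subgroup.zpowers (u ^ n)) A := by
  have hle : Subgroup.zpowers (u ^ n) ≤ Subgroup.zpowers u := by
    rw [Subgroup.zpowers_le]
    exact Subgroup.zpow_mem _ (Subgroup.mem_zpowers u) n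
  exact
    { inv := fun c hc x => h.inv c (hle hc) x
      cob := fun s => (h.cob s).zpow hn
      inf := fun h1 => h.inf (h1.mono_left hle)
      infc := fun h1 => h.infc (h1.mono_left hle) }

theorem HS.inv_gen {u : π} {A : Set π} (h : HS (Subgroup.zpowers u) A) :
    HS (Subgroup.zpowers u⁻¹) A := by
  rw [Subgroup.zpowers_inv]; exact h

theorem smul_compl' (g : π) (A : Set π) : g • Aᶜ = (g • A)ᶜ := by
  ext x
  rw [Set.mem_smul_set_iff_inv_smul_mem, Set.mem_compl_iff, Set.mem_compl_iff,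
    Set.mem_smul_set_iff_inv_smul_mem]

theorem mem_smul' {g x : π} {A : Set π} : x ∈ g • A ↔ g⁻¹ * x ∈ A := by
  rw [Set.mem_smul_set_iff_inv_smul_mem, smul_eq_mul]

theorem HS.smul {C : Subgroup π} {A : Set π} (h : HS C A) (g : π) : HS (cj g C) (g • A) where
  inv c hc x := by
    rw [mem_cj] at hc
    rw [mem_smul', mem_smul', ← h.inv _ hc (g⁻¹ * x)]
    have e : g⁻¹ * c * g * (g⁻¹ * x) = g⁻¹ * (c * x) := by group
    rw [e]
  cob s := by
    refine ((h.cob s).smul g).mono ?_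
    intro x hx
    rw [mem_smul']
    intro h1
    apply hx
    rw [mem_smul', mem_smul', ← h1, mul_assoc]
  inf h1 := by
    have := h1.smul g⁻¹
    rw [cj_inv_cj, inv_smul_smul] at this
    exact h.inf this
  infc h1 := by
    rw [← smul_compl'] at h1
    have := h1.smul g⁻¹
    rw [cj_inv_cj, inv_smul_smul] at this
    exact h.infc this

theorem mem_image' {f : MulAut π} {A : Set π} {x : π} :
    x ∈ (fun x => f x) '' A ↔ f⁻¹ x ∈ A := by
  constructor
  · rintro ⟨y, hy, rfl⟩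
    have : f⁻¹ ((fun x => f x) y) = y := MulAut.inv_apply_self π f y
    rw [this]; exact hy
  · intro h
    exact ⟨_, h, MulAut.apply_inv_self π f x⟩

theorem HS.image {C : Subgroup π} {A : Set π} (h : HS C A) (f : MulAut π) :
    HS (am f C) ((fun x => f x) '' A) where
  inv c hc x := by
    obtain ⟨c', hc', rfl⟩ := hc
    rw [mem_image', mem_image', map_mul, ← h.inv c' hc' (f⁻¹ x)]
    have : f⁻¹ ((f : π ≃* π).toMonoidHom c') = c' := MulAut.inv_apply_self π f c'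
    rw [this]
  cob s := by
    refine ((h.cob (f⁻¹ s)).image f).mono ?_
    intro x hx
    rw [mem_image']
    intro h1
    apply hx
    rw [mem_image', mem_image', ← h1, map_mul]
  inf h1 := by
    have := h1.image f⁻¹
    rw [am_inv_am] at this
    refine h.inf (this.mono ?_)
    intro x hx
    exact ⟨f x, ⟨x, hx, rfl⟩, MulAut.inv_apply_self π f x⟩
  infc h1 := by
    have := h1.image f⁻¹
    rw [am_inv_am] at this
    refine h.infc (this.mono ?_)
    intro x hx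
    refine ⟨f x, ?_, MulAut.inv_apply_self π f x⟩
    rw [Set.mem_compl_iff, mem_image']
    have : f⁻¹ (f x) = x := MulAut.inv_apply_self π f x
    rw [this]; exact hx

/-! ## Independence -/

theorem Ind.symm {u v : π} (h : Ind u v) : Ind v u := fun m n e =>
  ⟨(h n m e.symm).2, (h n m e.symm).1⟩

theorem Ind.inv_left {u v : π} (h : Ind u v) : Ind u⁻¹ v := fun m n e => by
  have := h (-m) n (by rw [← e]; group)
  omega

theorem Ind.inv_right {u v : π} (h : Ind u v) : Ind u v⁻¹ := h.symm.inv_left.symm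

theorem Ind.infOrd {u v : π} (h : Ind u v) : InfOrd u := fun n e =>
  (h n 0 (by rw [e, zpow_zero])).1

theorem InfOrd.inv {u : π} (h : InfOrd u) : InfOrd u⁻¹ := fun n e => by
  have := h (-n) (by rw [← e]; group)
  omega

theorem InfOrd.conj {u : π} (h : InfOrd u) (g : π) : InfOrd (g * u * g⁻¹) := fun n e => by
  apply h n
  rw [conj_zpow] at e
  have : u ^ n = g⁻¹ * (g * u ^ n * g⁻¹) * g := by group
  rw [this, e]; group

theorem Ind.conj {u v : π} (h : Ind u v) (g : π) : Ind (g * u * g⁻¹) (g * v * g⁻¹) := by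
  intro m n e
  apply h m n
  rw [conj_zpow, conj_zpow] at e
  exact mul_left_cancel (mul_right_cancel e)

theorem Ind.map {u v : π} (h : Ind u v) (f : MulAut π) : Ind (f u) (f v) := by
  intro m n e
  apply h m n
  rw [← map_zpow, ← map_zpow] at e
  exact f.injective e

theorem Ind.finite {u c : π} (hi : Ind u c) {X : Set π} (hX : CFin (Subgroup.zpowers c) X)
    (z : π) : {n : ℤ | u ^ n * z ∈ X}.Finite := by
  obtain ⟨F, hF, h1⟩ := hX
  have h2 : {n : ℤ | u ^ n * z ∈ X} ⊆ ⋃ f ∈ F, {n : ℤ | u ^ n * z * f⁻¹ ∈ Subgroup.zpowers c} := by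
    intro n hn
    obtain ⟨f, hf, h3⟩ := h1 _ hn
    exact Set.mem_biUnion hf h3
  refine (hF.biUnion fun f _ => ?_).subset h2
  apply Set.Subsingleton.finite
  intro n hn m hm
  obtain ⟨k, hk⟩ := Subgroup.mem_zpowers_iff.mp hn
  obtain ⟨l, hl⟩ := Subgroup.mem_zpowers_iff.mp hm
  have h3 : u ^ (n - m) = c ^ (k - l) := by
    rw [zpow_sub c, hk, hl, zpow_sub]
    group
  have := (hi _ _ h3).1
  omega

/-! ## Rays -/

theorem Ev.mono {u : π} {A B : Set π} (h : Ev u A) (hAB : A ⊆ B) : Ev u B := fun z =>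
  (h z).mono fun _ hn => hAB hn

theorem Ev.inter {u : π} {A B : Set π} (h : Ev u A) (h' : Ev u B) : Ev u (A ∩ B) := fun z =>
  (h z).and (h' z)

theorem Ev.compl_not {u : π} {A : Set π} (h : Ev u A) (h' : Ev u Aᶜ) : False := by
  obtain ⟨n, hn⟩ := ((h 1).and (h' 1)).exists
  exact hn.2 hn.1

theorem Ev.smul {u : π} {A : Set π} (h : Ev u A) (g : π) : Ev (g * u * g⁻¹) (g • A) := by
  intro z
  refine (h (g⁻¹ * z)).mono fun n hn => ?_
  rw [mem_smul']
  have e : g⁻¹ * ((g * u * g⁻¹) ^ n * z) = u ^ n * (g⁻¹ * z) := by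
    rw [conj_pow]; group
  rw [e]; exact hn

theorem Ev.smul_iff {u : π} {A : Set π} (g : π) : Ev (g * u * g⁻¹) (g • A) ↔ Ev u A := by
  constructor
  · intro h
    have := h.smul g⁻¹
    rw [inv_smul_smul] at this
    have e : g⁻¹ * (g * u * g⁻¹) * g⁻¹⁻¹ = u := by group
    rwa [e] at this
  · intro h; exact h.smul g

theorem Ev.map {u : π} {A : Set π} (h : Ev u A) (f : MulAut π) :
    Ev (f u) ((fun x => f x) '' A) := by
  intro z
  refine (h (f⁻¹ z)).mono fun n hn => ?_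
  rw [mem_image', map_mul, map_pow]
  have : f⁻¹ (f u) = u := MulAut.inv_apply_self π f u
  rw [this]; exact hn

theorem Ev.pow {u : π} {A : Set π} (h : Ev u A) (n : ℕ) (hn : 0 < n) : Ev (u ^ n) A := by
  intro z
  have h1 : Filter.Tendsto (fun k : ℕ => n * k) Filter.atTop Filter.atTop :=
    Filter.tendsto_id.const_mul_atTop' hn
  refine (h1.eventually (h z)).mono fun k hk => ?_
  rw [← pow_mul]; exact hk

/-- an end of a power is an end -/
theorem Ev.self_mul {u : π} {A : Set π} (h : Ev u A) (s : π) : Ev u {x | x * s ∈ A} := by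
  intro z
  refine (h (z * s)).mono fun n hn => ?_
  rw [Set.mem_setOf_eq, mul_assoc]; exact hn

theorem HS.ev_iff {c u : π} {A : Set π} (hA : HS (Subgroup.zpowers c) A) (hi : Ind u c)
    (z z' : π) : ∀ᶠ n : ℕ in Filter.atTop, (u ^ n * z ∈ A ↔ u ^ n * z' ∈ A) := by
  have h1 := hi.finite (hA.cob (z'⁻¹ * z)) z'
  have h2 : {n : ℕ | ¬ (u ^ n * z ∈ A ↔ u ^ n * z' ∈ A)}.Finite := by
    refine Set.Finite.subset (h1.preimage (f := fun n : ℕ => (n : ℤ))
      (Nat.cast_injective.injOn)) ?_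
    intro n hn
    simp only [Set.mem_preimage, Set.mem_setOf_eq, zpow_natCast] at hn ⊢
    intro h3
    apply hn
    rw [← h3]
    have e : u ^ n * z' * (z'⁻¹ * z) = u ^ n * z := by group
    rw [e]
  have h3 := h2.eventually_cofinite_notMem
  rw [Nat.cofinite_eq_atTop] at h3
  refine h3.mono fun n hn => ?_
  simpa using hn

theorem HS.ev_of_freq {c u : π} {A : Set π} (hA : HS (Subgroup.zpowers c) A) (hi : Ind u c)
    (z : π) (h : ∃ᶠ n : ℕ in Filter.atTop, u ^ n * z ∈ A) : Ev u A := by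
  have h1 := hA.ev_iff hi (u * z) z
  obtain ⟨N, hN⟩ := Filter.eventually_atTop.mp h1
  obtain ⟨m, hm, hm2⟩ := Filter.frequently_atTop.mp h N
  have h2 : ∀ n, m ≤ n → u ^ n * z ∈ A := by
    intro n hn
    induction n, hn using Nat.le_induction with
    | base => exact hm2
    | succ n hn ih =>
      have h3 := (hN n (by omega)).mpr ih
      have e : u ^ (n + 1) * z = u ^ n * (u * z) := by rw [pow_succ, mul_assoc]
      rw [e]; exact h3
  intro z'
  filter_upwards [hA.ev_iff hi z' z, Filter.eventually_ge_atTop m] with n h3 h4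
  exact h3.mpr (h2 n h4)

theorem HS.ev_or {c u : π} {A : Set π} (hA : HS (Subgroup.zpowers c) A) (hi : Ind u c) :
    Ev u A ∨ Ev u Aᶜ := by
  by_cases h : ∃ᶠ n : ℕ in Filter.atTop, u ^ n * 1 ∈ A
  · exact Or.inl (hA.ev_of_freq hi 1 h)
  · right
    rw [Filter.not_frequently] at h
    exact hA.compl.ev_of_freq hi 1 (Filter.Eventually.frequently h)

theorem InfOrd.finite {u : π} (hu : InfOrd u) {X : Set π} (hX : X.Finite) (z : π) :
    ∀ᶠ n : ℕ in Filter.atTop, u ^ n * z ∉ X := by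
  have h1 : {n : ℕ | u ^ n * z ∈ X}.Finite := by
    refine hX.preimage (f := fun n : ℕ => u ^ n * z) ?_
    intro a _ b _ hab
    have h2 : u ^ a = u ^ b := mul_right_cancel hab
    have h3 : u ^ ((a : ℤ) - b) = 1 := by
      rw [zpow_sub, zpow_natCast, zpow_natCast, h2, mul_inv_cancel]
    have := hu _ h3
    omega
  have h3 := h1.eventually_cofinite_notMem
  rw [Nat.cofinite_eq_atTop] at h3
  exact h3

/-- rays and almost inclusions -/
theorem Ev.almost {u : π} {A B : Set π} (hu : InfOrd u) (h : Ev u A) (hAB : (A \ B).Finite) :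
    Ev u B := by
  intro z
  filter_upwards [h z, hu.finite hAB z] with n h1 h2
  by_contra h3
  exact h2 ⟨h1, h3⟩

/-- eventually in both directions implies all but finitely many -/
theorem finite_of_ev {P : ℤ → Prop} (h1 : ∀ᶠ n : ℕ in Filter.atTop, P n)
    (h2 : ∀ᶠ n : ℕ in Filter.atTop, P (-(n : ℤ))) : {n : ℤ | ¬ P n}.Finite := by
  obtain ⟨N, hN⟩ := Filter.eventually_atTop.mp h1
  obtain ⟨M, hM⟩ := Filter.eventually_atTop.mp h2
  refine (Set.finite_Icc (-(M : ℤ)) N).subset ?_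
  intro n hn
  rw [Set.mem_setOf_eq] at hn
  constructor
  · by_contra h
    apply hn
    have := hM (-n).toNat (by omega)
    rwa [Int.toNat_of_nonneg (by omega), neg_neg] at this
  · by_contra h
    apply hn
    have := hN n.toNat (by omega)
    rwa [Int.toNat_of_nonneg (by omega)] at this

theorem Ins.finite {d : π} {X : Set π} (h : Ins d Xᶜ) (z : π) :
    {n : ℤ | d ^ n * z ∈ X}.Finite := by
  have := finite_of_ev (P := fun n => d ^ n * z ∉ X)
    ((h.1 z).mono fun n hn => by rw [zpow_natCast]; exact hn)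
    ((h.2 z).mono fun n hn => by rw [zpow_neg, zpow_natCast, ← inv_pow]; exact hn)
  simpa using this

theorem Ins.finite_inter {d : π} {X Y : Set π} (h : Ins d Xᶜ)
    (hY : CFin (Subgroup.zpowers d) Y) : (Y ∩ X).Finite := by
  obtain ⟨F, hF, h1⟩ := hY
  have h2 : Y ∩ X ⊆ ⋃ f ∈ F, (fun n : ℤ => d ^ n * f) '' {n : ℤ | d ^ n * f ∈ X} := by
    rintro x ⟨hx, hx'⟩
    obtain ⟨f, hf, h3⟩ := h1 _ hx
    obtain ⟨k, hk⟩ := Subgroup.mem_zpowers_iff.mp h3
    have e : d ^ k * f = x := by rw [hk]; group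
    exact Set.mem_biUnion hf ⟨k, by rw [Set.mem_setOf_eq, e]; exact hx', e⟩
  exact (hF.biUnion fun f _ => (h.finite f).image _).subset h2

/-- a step of a change -/
theorem exists_step {P : ℤ → Prop} {a b : ℤ} (hab : a ≤ b) (ha : ¬ P a) (hb : P b) :
    ∃ n, ¬ P n ∧ P (n + 1) := by
  obtain ⟨k, rfl⟩ : ∃ k : ℕ, b = a + k := ⟨(b - a).toNat, by omega⟩
  induction k with
  | zero => simp at hb; exact absurd hb ha
  | succ k ih =>
    by_cases h : P (a + k)
    · exact ih (by omega) h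
    · exact ⟨a + k, h, by convert hb using 1; push_cast; ring⟩

/-- HL: the half-line lemma. -/
theorem halfLine (h1 : OneEnded π) {c : π} {A X : Set π} (hA : HS (Subgroup.zpowers c) A)
    (hX : ∀ s, CFin (Subgroup.zpowers c) {x | ¬ (x * s ∈ X ↔ x ∈ X)})
    (hp : ∀ z, ∀ᶠ n : ℕ in Filter.atTop, (c ^ n * z ∈ X ↔ c ^ n * z ∈ A))
    (hm : ∀ z, ∀ᶠ n : ℕ in Filter.atTop, c⁻¹ ^ n * z ∉ X) : False := by
  set E : Set π := {x | ¬ (c * x ∈ X ↔ x ∈ X)} with hE
  have hcA : ∀ x, c * x ∈ A ↔ x ∈ A := hA.inv c (Subgroup.mem_zpowers c)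
  have hpE : ∀ z, ∀ᶠ n : ℕ in Filter.atTop, c ^ n * z ∉ E := by
    intro z
    filter_upwards [hp z, hp (c * z)] with n h2 h3
    intro h4
    apply h4
    have e : c * (c ^ n * z) = c ^ n * (c * z) := by
      rw [← mul_assoc, ← mul_assoc, ← pow_succ', ← pow_succ]
    rw [e, h3, h2, ← e, hcA]
  have hmE : ∀ z, ∀ᶠ n : ℕ in Filter.atTop, c⁻¹ ^ n * z ∉ E := by
    intro z
    filter_upwards [hm z, hm (c * z)] with n h2 h3
    intro h4
    apply h4
    have e : c * (c⁻¹ ^ n * z) = c⁻¹ ^ n * (c * z) := by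
      rw [← mul_assoc, ← mul_assoc]
      congr 1
      rw [inv_pow]
      exact ((Commute.refl c).pow_right n).inv_right.eq
    rw [e]
    exact ⟨fun h => absurd h h3, fun h => absurd h h2⟩
  have hfinE : ∀ s, {x | ¬ (x * s ∈ E ↔ x ∈ E)}.Finite := by
    intro s
    have hins : Ins c {x | ¬ (x * s ∈ E ↔ x ∈ E)}ᶜ := by
      constructor
      · intro z
        filter_upwards [hpE z, hpE (z * s)] with n h2 h3
        simp only [Set.mem_compl_iff, Set.mem_setOf_eq, not_not]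
        rw [mul_assoc]
        exact ⟨fun h => absurd h h3, fun h => absurd h h2⟩
      · intro z
        filter_upwards [hmE z, hmE (z * s)] with n h2 h3
        simp only [Set.mem_compl_iff, Set.mem_setOf_eq, not_not]
        rw [mul_assoc]
        exact ⟨fun h => absurd h h3, fun h => absurd h h2⟩
    have hY : CFin (Subgroup.zpowers c) ({x | ¬ (x * s ∈ X ↔ x ∈ X)} ∪
        {x | c * x ∈ {x | ¬ (x * s ∈ X ↔ x ∈ X)}}) := by
      apply (hX s).union
      exact (hX s).sat.mono fun x hx => ⟨c, Subgroup.mem_zpowers c, hx⟩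
    refine (hins.finite_inter hY).subset ?_
    intro x hx
    refine ⟨?_, hx⟩
    by_contra h2
    rw [Set.mem_union, not_or] at h2
    obtain ⟨h3, h4⟩ := h2
    simp only [Set.mem_setOf_eq, not_not] at h3 h4
    apply hx
    change ¬ (c * (x * s) ∈ X ↔ x * s ∈ X) ↔ ¬ (c * x ∈ X ↔ x ∈ X)
    rw [← mul_assoc, h3, h4]
  rcases h1 E hfinE with h2 | h2
  · apply hA.inf
    refine (CFin.of_finite (C := Subgroup.zpowers c) h2).sat.mono ?_
    intro x hx
    -- the coset of x meets E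
    obtain ⟨N, hN⟩ := (hp x).exists
    have hxN : c ^ N * x ∈ X := by
      rw [hN]
      exact (hA.inv (c ^ N) (Subgroup.pow_mem _ (Subgroup.mem_zpowers c) N) x).mpr hx
    obtain ⟨M, hM⟩ := (hm x).exists
    obtain ⟨n, hn1, hn2⟩ := exists_step (P := fun n : ℤ => c ^ n * x ∈ X) (a := -(M : ℤ)) (b := N)
      (by omega) (by rw [zpow_neg, zpow_natCast, ← inv_pow]; exact hM)
      (by rw [zpow_natCast]; exact hxN)
    refine ⟨c ^ n, Subgroup.zpow_mem _ (Subgroup.mem_zpowers c) n, ?_⟩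
    intro h3
    apply hn1
    rw [← h3, ← mul_assoc, ← zpow_one_add, add_comm]
    exact hn2
  · apply hA.inf
    refine (CFin.of_finite (C := Subgroup.zpowers c) h2).sat.mono ?_
    intro x _
    obtain ⟨n, hn⟩ := (hpE x).exists
    exact ⟨c ^ n, Subgroup.pow_mem _ (Subgroup.mem_zpowers c) n, hn⟩

theorem cob_fin {u : π} {P X : Set π}
    (hP : ∀ s, CFin (Subgroup.zpowers u) {x | ¬ (x * s ∈ P ↔ x ∈ P)}) (h : Ins u Xᶜ) (s : π) :
    {x | ¬ (x * s ∈ P ↔ x ∈ P) ∧ (x ∈ X ∨ x * s ∈ X)}.Finite := by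
  have h1 := h.finite_inter (hP s)
  have h2 := h.finite_inter ((hP s).mul_right s⁻¹)
  have h3 := h2.preimage (f := fun x => x * s) (fun a _ b _ hab => mul_right_cancel hab)
  refine (h1.union h3).subset ?_
  rintro x ⟨hx, hx' | hx'⟩
  · exact Or.inl ⟨hx, hx'⟩
  · right
    refine ⟨?_, hx'⟩
    change ¬ (x * s * s⁻¹ * s ∈ P ↔ x * s * s⁻¹ ∈ P)
    rw [mul_inv_cancel_right]; exact hx

/-- Sym -/
theorem not_thru (h1 : OneEnded π) {c d : π} {A B : Set π} (hA : HS (Subgroup.zpowers c) A)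
    (hB : HS (Subgroup.zpowers d) B) (hd : Ins d Aᶜ) : ¬ Thru c B := by
  rintro ⟨hc1, hc2⟩
  have hd' : Ins d (A ∩ B)ᶜ := ⟨hd.1.mono (Set.compl_subset_compl.mpr Set.inter_subset_left),
    hd.2.mono (Set.compl_subset_compl.mpr Set.inter_subset_left)⟩
  refine halfLine h1 (A := A) (X := A ∩ B) hA ?_ ?_ ?_
  · intro s
    refine ((hA.cob s).union (CFin.of_finite (cob_fin hB.cob hd' s))).mono ?_
    intro x hx
    by_cases h2 : x * s ∈ A ↔ x ∈ A
    · right
      rw [Set.mem_setOf_eq] at hx ⊢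
      constructor
      · intro h3
        apply hx
        rw [Set.mem_inter_iff, Set.mem_inter_iff, h2, h3]
      · by_contra h3
        push Not at h3
        exact hx ⟨fun h => absurd h h3.2, fun h => absurd h h3.1⟩
    · exact Or.inl h2
  · intro z
    filter_upwards [hc1 z] with n hn
    exact ⟨fun h => h.1, fun h => ⟨h, hn⟩⟩
  · intro z
    filter_upwards [hc2 z] with n hn
    exact fun h => hn h.2

/-- Nest -/
theorem nest (h1 : OneEnded π) {c d : π} {A B : Set π} (hA : HS (Subgroup.zpowers c) A)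
    (hB : HS (Subgroup.zpowers d) B) (hd : Ins d Aᶜ) (hc : Ins c Bᶜ) : (A ∩ B).Finite := by
  have hd' : Ins d (A ∩ B)ᶜ := ⟨hd.1.mono (Set.compl_subset_compl.mpr Set.inter_subset_left),
    hd.2.mono (Set.compl_subset_compl.mpr Set.inter_subset_left)⟩
  have hc' : Ins c (A ∩ B)ᶜ := ⟨hc.1.mono (Set.compl_subset_compl.mpr Set.inter_subset_right),
    hc.2.mono (Set.compl_subset_compl.mpr Set.inter_subset_right)⟩
  have h2 : ∀ s, {x | ¬ (x * s ∈ A ∩ B ↔ x ∈ A ∩ B)}.Finite := by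
    intro s
    refine ((cob_fin hA.cob hc' s).union (cob_fin hB.cob hd' s)).subset ?_
    intro x hx
    rw [Set.mem_setOf_eq] at hx
    have h3 : x ∈ A ∩ B ∨ x * s ∈ A ∩ B := by
      by_contra h3
      push Not at h3
      exact hx ⟨fun h => absurd h h3.2, fun h => absurd h h3.1⟩
    by_cases h4 : x * s ∈ A ↔ x ∈ A
    · right
      refine ⟨fun h5 => hx ?_, h3⟩
      rw [Set.mem_inter_iff, Set.mem_inter_iff, h4, h5]
    · exact Or.inl ⟨h4, h3⟩
  rcases h1 _ h2 with h3 | h3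
  · exact h3
  · exfalso
    apply hA.infc
    exact (CFin.of_finite h3).mono (Set.compl_subset_compl.mpr Set.inter_subset_left)

theorem Thru.smul_iff {u : π} {A : Set π} (g : π) : Thru (g * u * g⁻¹) (g • A) ↔ Thru u A := by
  unfold Thru
  rw [Ev.smul_iff]
  have e : (g * u * g⁻¹)⁻¹ = g * u⁻¹ * g⁻¹ := by group
  rw [e, ← smul_compl', Ev.smul_iff]

theorem Ins.smul_iff {u : π} {A : Set π} (g : π) : Ins (g * u * g⁻¹) (g • A) ↔ Ins u A := by
  unfold Ins
  rw [Ev.smul_iff]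
  have e : (g * u * g⁻¹)⁻¹ = g * u⁻¹ * g⁻¹ := by group
  rw [e, Ev.smul_iff]

theorem Ins.mono {u : π} {A B : Set π} (h : Ins u A) (hAB : A ⊆ B) : Ins u B :=
  ⟨h.1.mono hAB, h.2.mono hAB⟩

theorem Ins.inv {u : π} {A : Set π} (h : Ins u A) : Ins u⁻¹ A :=
  ⟨h.2, by rw [inv_inv]; exact h.1⟩

theorem Thru.compl {u : π} {A : Set π} (h : Thru u A) : Thru u⁻¹ Aᶜ :=
  ⟨h.2, by rw [inv_inv, compl_compl]; exact h.1⟩

/-- four cases for a line and a halfspace -/
theorem HS.cases {c u : π} {A : Set π} (hA : HS (Subgroup.zpowers c) A) (hi : Ind u c) :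
    Ins u A ∨ Ins u Aᶜ ∨ Thru u A ∨ Thru u⁻¹ A := by
  rcases hA.ev_or hi with h | h <;> rcases hA.ev_or hi.inv_left with h' | h'
  · exact Or.inl ⟨h, h'⟩
  · exact Or.inr (Or.inr (Or.inl ⟨h, h'⟩))
  · exact Or.inr (Or.inr (Or.inr ⟨h', by rw [inv_inv]; exact h⟩))
  · exact Or.inr (Or.inl ⟨h, h'⟩)

theorem not_thru' (h1 : OneEnded π) {c d : π} {A B : Set π} (hA : HS (Subgroup.zpowers c) A)
    (hB : HS (Subgroup.zpowers d) B) (hd : Ins d A ∨ Ins d Aᶜ) : ¬ (Thru c B ∨ Thru c⁻¹ B) := by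
  rintro (h | h) <;> rcases hd with hd | hd
  · exact not_thru h1 hA.compl hB (by rw [compl_compl]; exact hd) h
  · exact not_thru h1 hA hB hd h
  · exact not_thru h1 hA.compl.inv_gen hB (by rw [compl_compl]; exact hd) h
  · exact not_thru h1 hA.inv_gen hB hd h

/-- symmetry of crossing -/
theorem cross_symm (h1 : OneEnded π) {c d : π} {A B : Set π} (hA : HS (Subgroup.zpowers c) A)
    (hB : HS (Subgroup.zpowers d) B) (hi : Ind c d) (h : Thru c B ∨ Thru c⁻¹ B) :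
    Thru d A ∨ Thru d⁻¹ A := by
  rcases hA.cases hi.symm with h2 | h2 | h2 | h2
  · exact absurd h (not_thru' h1 hA hB (Or.inl h2))
  · exact absurd h (not_thru' h1 hA hB (Or.inr h2))
  · exact Or.inl h2
  · exact Or.inr h2

theorem CrossEl.symm (h1 : OneEnded π) (hE : HasHS π) {c d : π} (hi : Ind c d)
    (h : CrossEl c d) : CrossEl d c := by
  obtain ⟨B, hB, h2⟩ := h
  obtain ⟨A, hA⟩ := hE c hi.infOrd
  exact ⟨A, hA, cross_symm h1 hA hB hi h2⟩

/-- crossing does not depend on the halfspace -/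
theorem CrossEl.thru (h1 : OneEnded π) (hE : HasHS π) {c d : π} {B : Set π} (hi : Ind c d)
    (h : CrossEl c d) (hB : HS (Subgroup.zpowers d) B) : Thru c B ∨ Thru c⁻¹ B := by
  obtain ⟨A, hA, h2⟩ := h.symm h1 hE hi
  exact cross_symm h1 hB hA hi.symm h2

theorem Thru.map {u : π} {A : Set π} (h : Thru u A) (f : MulAut π) :
    Thru (f u) ((fun x => f x) '' A) := by
  refine ⟨h.1.map f, ?_⟩
  have := h.2.map f
  rw [map_inv] at this
  refine this.mono ?_
  rintro _ ⟨x, hx, rfl⟩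
  rw [Set.mem_compl_iff, mem_image']
  have : f⁻¹ ((fun x => f x) x) = x := MulAut.inv_apply_self π f x
  rw [this]; exact hx

theorem CrossEl.map {c d : π} (h : CrossEl c d) (f : MulAut π) : CrossEl (f c) (f d) := by
  obtain ⟨A, hA, h2⟩ := h
  refine ⟨(fun x => f x) '' A, ?_, ?_⟩
  · have := hA.image f
    rw [am_zpowers] at this
    exact this
  · rcases h2 with h2 | h2
    · exact Or.inl (h2.map f)
    · right
      have := h2.map f
      rwa [map_inv] at this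

theorem CrossEl.inv_left {c d : π} (h : CrossEl c d) : CrossEl c⁻¹ d := by
  obtain ⟨A, hA, h2⟩ := h
  refine ⟨A, hA, ?_⟩
  rw [inv_inv]; exact h2.symm

theorem CrossEl.inv_right {c d : π} (h : CrossEl c d) : CrossEl c d⁻¹ := by
  obtain ⟨A, hA, h2⟩ := h
  exact ⟨A, hA.inv_gen, h2⟩

/-- Sep: lines on opposite sides of a halfspace do not cross. -/
theorem sep (h1 : OneEnded π) (hE : HasHS π) {a u v : π} {A : Set π}
    (hA : HS (Subgroup.zpowers a) A) (hau : Ind a u) (huv : Ind u v)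
    (hu : Ins u A) (hv : Ins v Aᶜ) : ¬ CrossEl u v := by
  intro h
  obtain ⟨U, hU⟩ := hE u huv.infOrd
  have h2 := (h.symm h1 hE huv).thru h1 hE huv.symm hU
  have key : ∀ U : Set π, HS (Subgroup.zpowers u) U → Ins a Uᶜ → ¬ (Thru v U ∨ Thru v⁻¹ U) := by
    intro U hU ha
    have h3 := nest h1 hA.compl hU (by rw [compl_compl]; exact hu) ha
    have h4 : Ins v Uᶜ := by
      constructor
      · exact (hv.1.almost huv.symm.infOrd (by rwa [Set.diff_compl]))
      · exact (hv.2.almost huv.symm.infOrd.inv (by rwa [Set.diff_compl]))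
    rintro (h5 | h5)
    · exact h5.1.compl_not h4.1
    · exact h5.1.compl_not h4.2
  rcases hU.cases hau with h3 | h3 | h3 | h3
  · apply key Uᶜ hU.compl (by rw [compl_compl]; exact h3)
    rcases h2 with h2 | h2
    · exact Or.inr h2.compl
    · left
      have := h2.compl
      rwa [inv_inv] at this
  · exact key U hU h3 h2
  · exact not_thru' h1 hA hU (Or.inl hu) (Or.inl h3)
  · exact not_thru' h1 hA hU (Or.inl hu) (Or.inr h3)

/-- A set cut out by four almost invariant sets, all of whose lines leave the set. -/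
theorem four (h1 : OneEnded π) {a b u v : π} {A B U V : Set π}
    (hA : ∀ s, CFin (Subgroup.zpowers a) {x | ¬ (x * s ∈ A ↔ x ∈ A)})
    (hB : ∀ s, CFin (Subgroup.zpowers b) {x | ¬ (x * s ∈ B ↔ x ∈ B)})
    (hU : ∀ s, CFin (Subgroup.zpowers u) {x | ¬ (x * s ∈ U ↔ x ∈ U)})
    (hV : ∀ s, CFin (Subgroup.zpowers v) {x | ¬ (x * s ∈ V ↔ x ∈ V)})
    (ia : Ins a (U ∩ V ∩ A ∩ B)ᶜ) (ib : Ins b (U ∩ V ∩ A ∩ B)ᶜ)
    (iu : Ins u (U ∩ V ∩ A ∩ B)ᶜ) (iv : Ins v (U ∩ V ∩ A ∩ B)ᶜ) :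
    (U ∩ V ∩ A ∩ B).Finite ∨ (U ∩ V ∩ A ∩ B)ᶜ.Finite := by
  apply h1
  intro s
  refine (((cob_fin hA ia s).union (cob_fin hB ib s)).union
    ((cob_fin hU iu s).union (cob_fin hV iv s))).subset ?_
  intro x hx
  have h3 : x ∈ U ∩ V ∩ A ∩ B ∨ x * s ∈ U ∩ V ∩ A ∩ B := by
    by_contra h3
    push Not at h3
    exact hx ⟨fun h => absurd h h3.2, fun h => absurd h h3.1⟩
  by_cases e1 : x * s ∈ A ↔ x ∈ A
  · by_cases e2 : x * s ∈ B ↔ x ∈ B
    · by_cases e3 : x * s ∈ U ↔ x ∈ U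
      · by_cases e4 : x * s ∈ V ↔ x ∈ V
        · exfalso
          apply hx
          simp only [Set.mem_inter_iff, e1, e2, e3, e4]
        · exact Or.inr (Or.inr ⟨e4, h3⟩)
      · exact Or.inr (Or.inl ⟨e3, h3⟩)
    · exact Or.inl (Or.inr ⟨e2, h3⟩)
  · exact Or.inl (Or.inl ⟨e1, h3⟩)

theorem cob_compl {C : Subgroup π} {A : Set π} (h : ∀ s, CFin C {x | ¬ (x * s ∈ A ↔ x ∈ A)}) :
    ∀ s, CFin C {x | ¬ (x * s ∈ Aᶜ ↔ x ∈ Aᶜ)} := by
  intro s
  refine (h s).mono ?_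
  intro x hx hx'
  apply hx
  rw [Set.mem_compl_iff, Set.mem_compl_iff, hx']

theorem HS.nonempty {C : Subgroup π} {A : Set π} (h : HS C A) : A.Nonempty := by
  by_contra h2
  rw [Set.not_nonempty_iff_eq_empty] at h2
  apply h.inf
  rw [h2]
  exact CFin.of_finite Set.finite_empty

theorem HS.pow_mem {c : π} {A : Set π} (h : HS (Subgroup.zpowers c) A) (n : ℕ) (x : π) :
    c ^ n * x ∈ A ↔ x ∈ A := h.inv _ (Subgroup.pow_mem _ (Subgroup.mem_zpowers c) n) x

theorem HS.ins_of_disjoint {a b : π} {A B : Set π} (hA : HS (Subgroup.zpowers a) A)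
    (hB : HS (Subgroup.zpowers b) B) (hab : Ind a b) (h : Disjoint A B) : Ins a Bᶜ := by
  obtain ⟨z, hz⟩ := hA.nonempty
  constructor
  · rcases hB.ev_or hab with h2 | h2
    · exfalso
      obtain ⟨n, hn⟩ := (h2 z).exists
      exact Set.disjoint_left.mp h ((hA.pow_mem n z).mpr hz) hn
    · exact h2
  · rcases hB.ev_or hab.inv_left with h2 | h2
    · exfalso
      obtain ⟨n, hn⟩ := (h2 z).exists
      exact Set.disjoint_left.mp h ((hA.inv_gen.pow_mem n z).mpr hz) hn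
    · exact h2

theorem parallel_aux (h1 : OneEnded π) {a b u v : π} {A B U V : Set π}
    (hA : HS (Subgroup.zpowers a) A) (hB : HS (Subgroup.zpowers b) B)
    (hU : HS (Subgroup.zpowers u) U) (hV : HS (Subgroup.zpowers v) V)
    (hbu : Ind b u) (hbv : Ind b v)
    (hab : Ind a b) (hAB : Disjoint A B)
    (hu : Ev u B ∧ Ev u⁻¹ A) (hv : Ev v B ∧ Ev v⁻¹ A) (haU : Thru a U) (haV : Thru a V) :
    (symmDiff (U ∩ (A ∪ B)ᶜ) (V ∩ (A ∪ B)ᶜ)).Finite := by
  have hABc : A ⊆ Bᶜ := Set.disjoint_left.mp hAB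
  have hBAc : B ⊆ Aᶜ := fun x hx hx' => Set.disjoint_left.mp hAB hx' hx
  have ia : Ins a Bᶜ := hA.ins_of_disjoint hB hab hAB
  have ib : Ins b Aᶜ := hB.ins_of_disjoint hA hab.symm hAB.symm
  -- both ends of u and v leave the middle
  have gu : ∀ U V : Set π, Ins u (U ∩ V ∩ Aᶜ ∩ Bᶜ)ᶜ := fun U V =>
    ⟨hu.1.mono fun x hx h => h.2 hx, hu.2.mono fun x hx h => h.1.2 hx⟩
  have gv : ∀ U V : Set π, Ins v (U ∩ V ∩ Aᶜ ∩ Bᶜ)ᶜ := fun U V =>
    ⟨hv.1.mono fun x hx h => h.2 hx, hv.2.mono fun x hx h => h.1.2 hx⟩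
  have uB : Thru u B := ⟨hu.1, hu.2.mono hABc⟩
  have vB : Thru v B := ⟨hv.1, hv.2.mono hABc⟩
  have bU := cross_symm h1 hU hB hbu.symm (Or.inl uB)
  have bV := cross_symm h1 hV hB hbv.symm (Or.inl vB)
  -- the mismatch is impossible
  have mism : ∀ e : π, (e = b ∨ e = b⁻¹) → Thru e U → Thru e⁻¹ V → False := by
    intro e he h2 h3
    have he' : HS (Subgroup.zpowers e) B := by
      rcases he with rfl | rfl
      · exact hB
      · exact hB.inv_gen
    have hie : Ins e (U ∩ V ∩ Aᶜ ∩ Bᶜ)ᶜ := by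
      constructor
      · have := h3.2
        rw [inv_inv] at this
        exact this.mono fun x hx h => hx h.1.1.2
      · exact h2.2.mono fun x hx h => hx h.1.1.1
    refine halfLine h1 (A := Aᶜ) (X := U ∩ V ∩ Aᶜ ∩ Bᶜ) hA.compl ?_ ?_ ?_
    · intro s
      have f1 := cob_fin hU.cob (gu U V) s
      have f2 := cob_fin hV.cob (gv U V) s
      have f3 := cob_fin (cob_compl he'.cob) hie s
      refine ((hA.compl.cob s).union (CFin.of_finite ((f1.union f2).union f3))).mono ?_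
      intro x hx
      have h4 : x ∈ U ∩ V ∩ Aᶜ ∩ Bᶜ ∨ x * s ∈ U ∩ V ∩ Aᶜ ∩ Bᶜ := by
        by_contra h4
        push Not at h4
        exact hx ⟨fun h => absurd h h4.2, fun h => absurd h h4.1⟩
      by_cases e1 : x * s ∈ Aᶜ ↔ x ∈ Aᶜ
      · right
        by_cases e2 : x * s ∈ Bᶜ ↔ x ∈ Bᶜ
        · left
          by_cases e3 : x * s ∈ U ↔ x ∈ U
          · right
            refine ⟨fun e4 => hx ?_, h4⟩
            simp only [Set.mem_inter_iff, e1, e2, e3, e4]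
          · exact Or.inl ⟨e3, h4⟩
        · exact Or.inr ⟨e2, h4⟩
      · exact Or.inl e1
    · intro z
      filter_upwards [haU.1 z, haV.1 z, ia.1 z] with n h4 h5 h6
      exact ⟨fun h => h.1.2, fun h => ⟨⟨⟨h4, h5⟩, h⟩, h6⟩⟩
    · intro z
      filter_upwards [haU.2 z] with n h4
      exact fun h => h4 h.1.1.1
  have match' : ∃ e : π, (e = b ∨ e = b⁻¹) ∧ Thru e U ∧ Thru e V := by
    rcases bU with h2 | h2 <;> rcases bV with h3 | h3
    · exact ⟨b, Or.inl rfl, h2, h3⟩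
    · exact absurd (mism b (Or.inl rfl) h2 h3) id
    · exact absurd (mism b⁻¹ (Or.inr rfl) h2 (by rw [inv_inv]; exact h3)) id
    · exact ⟨b⁻¹, Or.inr rfl, h2, h3⟩
  obtain ⟨e, he, eU, eV⟩ := match'
  have he' : HS (Subgroup.zpowers e) B := by
    rcases he with rfl | rfl
    · exact hB
    · exact hB.inv_gen
  have fin1 : (U ∩ Vᶜ ∩ Aᶜ ∩ Bᶜ).Finite := by
    rcases four h1 (cob_compl hA.cob) (cob_compl he'.cob) hU.cob (cob_compl hV.cob)
      (U := U) (V := Vᶜ)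
      ⟨haV.1.mono fun x hx h => h.1.1.2 hx, haU.2.mono fun x hx h => hx h.1.1.1⟩
      ⟨eV.1.mono fun x hx h => h.1.1.2 hx, eU.2.mono fun x hx h => hx h.1.1.1⟩
      (gu U Vᶜ) (gv U Vᶜ) with h2 | h2
    · exact h2
    · exfalso
      apply hA.inf
      exact (CFin.of_finite h2).mono fun x hx h => h.1.2 hx
  have fin2 : (Uᶜ ∩ V ∩ Aᶜ ∩ Bᶜ).Finite := by
    rcases four h1 (cob_compl hA.cob) (cob_compl he'.cob) (cob_compl hU.cob) hV.cob
      (U := Uᶜ) (V := V)
      ⟨haU.1.mono fun x hx h => h.1.1.1 hx, haV.2.mono fun x hx h => hx h.1.1.2⟩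
      ⟨eU.1.mono fun x hx h => h.1.1.1 hx, eV.2.mono fun x hx h => hx h.1.1.2⟩
      (gu Uᶜ V) (gv Uᶜ V) with h2 | h2
    · exact h2
    · exfalso
      apply hA.inf
      exact (CFin.of_finite h2).mono fun x hx h => h.1.2 hx
  refine (fin1.union fin2).subset ?_
  intro x hx
  rw [Set.mem_symmDiff] at hx
  rcases hx with ⟨⟨h2, h3⟩, h4⟩ | ⟨⟨h2, h3⟩, h4⟩
  · left
    have h5 : x ∉ A := fun h => h3 (Or.inl h)
    have h6 : x ∉ B := fun h => h3 (Or.inr h)
    exact ⟨⟨⟨h2, fun h => h4 ⟨h, h3⟩⟩, h5⟩, h6⟩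
  · right
    have h5 : x ∉ A := fun h => h3 (Or.inl h)
    have h6 : x ∉ B := fun h => h3 (Or.inr h)
    exact ⟨⟨⟨fun h => h4 ⟨h, h3⟩, h2⟩, h5⟩, h6⟩

/-- PL: parallel lines have almost the same halfspaces in the middle. -/
theorem parallel (h1 : OneEnded π) {a b u v : π} {A B U V : Set π}
    (hA : HS (Subgroup.zpowers a) A) (hB : HS (Subgroup.zpowers b) B)
    (hU : HS (Subgroup.zpowers u) U) (hV : HS (Subgroup.zpowers v) V)
    (hau : Ind a u) (hav : Ind a v) (hbu : Ind b u) (hbv : Ind b v)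
    (hab : Ind a b) (hAB : Disjoint A B)
    (hu : Ev u B ∧ Ev u⁻¹ A) (hv : Ev v B ∧ Ev v⁻¹ A) :
    (symmDiff (U ∩ (A ∪ B)ᶜ) (V ∩ (A ∪ B)ᶜ)).Finite ∨
      (symmDiff (Uᶜ ∩ (A ∪ B)ᶜ) (V ∩ (A ∪ B)ᶜ)).Finite := by
  have hBAc : B ⊆ Aᶜ := fun x hx hx' => Set.disjoint_left.mp hAB hx' hx
  have uA : Thru u⁻¹ A := ⟨hu.2, by rw [inv_inv]; exact hu.1.mono hBAc⟩
  have vA : Thru v⁻¹ A := ⟨hv.2, by rw [inv_inv]; exact hv.1.mono hBAc⟩
  have aU := cross_symm h1 hU hA hau.symm (Or.inr uA)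
  have aV := cross_symm h1 hV hA hav.symm (Or.inr vA)
  rcases aU with h2 | h2 <;> rcases aV with h3 | h3
  · exact Or.inl (parallel_aux h1 hA hB hU hV hbu hbv hab hAB hu hv h2 h3)
  · right
    refine parallel_aux h1 hA.inv_gen hB hU.compl hV hbu hbv hab.inv_left hAB hu hv h2.compl h3
  · right
    have h4 := h2.compl
    rw [inv_inv] at h4
    exact parallel_aux h1 hA hB hU.compl hV hbu hbv hab hAB hu hv h4 h3
  · exact Or.inl (parallel_aux h1 hA.inv_gen hB hU hV hbu hbv hab.inv_left hAB hu hv h2 h3)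

/-- Fill -/
theorem fill {z o : π} {Z : Set π} (hZ : HS (Subgroup.zpowers z) Z) :
    ∃ γ, {n : ℤ | γ * o ^ n ∈ Z}.Infinite := by
  by_contra hcon
  simp only [not_exists, Set.not_infinite] at hcon
  obtain ⟨F, hF, h1⟩ := hZ.cob o
  apply hZ.inf
  refine ⟨⋃ f ∈ F, (fun n : ℤ => f * o ^ n) '' {n : ℤ | f * o ^ n ∈ Z},
    hF.biUnion fun f _ => (hcon f).image _, ?_⟩
  intro x hx
  -- the ray of x leaves Z
  have h2 : ∃ n : ℤ, x * o ^ n ∈ Z ∧ x * o ^ (n + 1) ∉ Z := by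
    by_contra h2
    push Not at h2
    apply Set.infinite_range_of_injective (Nat.cast_injective (R := ℤ))
    refine (hcon x).subset ?_
    rintro _ ⟨n, rfl⟩
    rw [Set.mem_setOf_eq]
    induction n with
    | zero => simpa using hx
    | succ n ih =>
      have := h2 _ ih
      push_cast
      exact this
  obtain ⟨n, hn1, hn2⟩ := h2
  have h3 : x * o ^ n ∈ {x | ¬ (x * o ∈ Z ↔ x ∈ Z)} := by
    rw [Set.mem_setOf_eq, mul_assoc, ← zpow_add_one]
    intro h; exact hn2 (h.mpr hn1)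
  obtain ⟨f, hf, h4⟩ := h1 _ h3
  obtain ⟨k, hk⟩ := Subgroup.mem_zpowers_iff.mp h4
  have e1 : x * o ^ n * f⁻¹ = z ^ k := hk.symm
  have e2 : f * o ^ (-n) = (z ^ k)⁻¹ * x := by
    rw [← e1]; group
  refine ⟨f * o ^ (-n), ?_, ?_⟩
  · apply Set.mem_biUnion hf
    refine ⟨-n, ?_, rfl⟩
    rw [Set.mem_setOf_eq, e2, ← zpow_neg]
    exact (hZ.inv _ (Subgroup.zpow_mem _ (Subgroup.mem_zpowers z) _) x).mpr hx
  · rw [e2]
    have e3 : x * ((z ^ k)⁻¹ * x)⁻¹ = z ^ k := by group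
    rw [e3]
    exact Subgroup.zpow_mem _ (Subgroup.mem_zpowers z) _

/-- finitely many double cosets of self-crossings -/
theorem exists_double (u : π) (h1 : OneEnded π) (hE : HasHS π) (hu : InfOrd u) :
    ∃ T : Finset π, ∀ h, Ind (h * u * h⁻¹) u → CrossEl (h * u * h⁻¹) u →
      ∃ i j : ℤ, ∃ k ∈ T, h = u ^ i * k * u ^ j := by
  obtain ⟨A, hA⟩ := hE u hu
  obtain ⟨F, hF, h2⟩ := hA.cob u
  refine ⟨hF.toFinset, fun h hi hc => ?_⟩
  have h3 := hc.thru h1 hE hi hA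
  have key : ∀ A : Set π, Thru (h * u * h⁻¹) A → ∃ n : ℤ, ¬ (h * u ^ n ∈ A) ∧ h * u ^ (n + 1) ∈ A := by
    intro A hA
    obtain ⟨N, hN⟩ := (hA.1 h).exists
    obtain ⟨M, hM⟩ := (hA.2 h).exists
    have e1 : (h * u * h⁻¹) ^ N * h = h * u ^ (N : ℤ) := by
      rw [conj_pow, zpow_natCast]; group
    have e2 : (h * u * h⁻¹)⁻¹ ^ M * h = h * u ^ (-(M : ℤ)) := by
      rw [inv_pow, conj_pow, zpow_neg, zpow_natCast]; group
    rw [e1] at hN
    rw [e2] at hM
    exact exists_step (P := fun n : ℤ => h * u ^ n ∈ A) (a := -(M : ℤ)) (b := N) (by omega) hM hN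
  have h4 : ∃ n : ℤ, h * u ^ n ∈ {x | ¬ (x * u ∈ A ↔ x ∈ A)} := by
    have e : ∀ n : ℤ, h * u ^ n * u = h * u ^ (n + 1) := fun n => by
      rw [mul_assoc, ← zpow_add_one]
    rcases h3 with h3 | h3
    · obtain ⟨n, hn1, hn2⟩ := key A h3
      refine ⟨n, ?_⟩
      rw [Set.mem_setOf_eq, e]
      intro h; exact hn1 (h.mp hn2)
    · have h5 := h3.compl
      rw [inv_inv] at h5
      obtain ⟨n, hn1, hn2⟩ := key Aᶜ h5
      refine ⟨n, ?_⟩
      rw [Set.mem_setOf_eq, e]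
      intro h
      rw [Set.mem_compl_iff, not_not] at hn1
      exact hn2 (h.mpr hn1)
  obtain ⟨n, hn⟩ := h4
  obtain ⟨f, hf, h5⟩ := h2 _ hn
  obtain ⟨k, hk⟩ := Subgroup.mem_zpowers_iff.mp h5
  refine ⟨k, -n, f, hF.mem_toFinset.mpr hf, ?_⟩
  rw [hk]; group

end Run7.h955
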