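import Pool.Agent.Run7.h955.A4

set_option autoImplicit false

/-!
# The splitting of the surface group along the last handle
-/

open Pointwise commutatorElement

namespace Run7.h955

theorem not_CFin_of_hom {π : Type*} [Group π] {u a : π} (χ : π →* Multiplicative ℤ)
    (hu : χ u = 1) (ha : χ a ≠ 1) {X : Set π} (hX : ∀ j : ℕ, a ^ j ∈ X) :
    ¬ CFin (Subgroup.zpowers u) X := by
  rintro ⟨F, hF, h⟩
  have hinj : Function.Injective fun j : ℕ => (χ a) ^ j := by
    intro i j hij
    have h1 : (i : ℤ) * Multiplicative.toAdd (χ a) = j * Multiplicative.toAdd (χ a) := by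
      have := congrArg Multiplicative.toAdd hij
      simpa [toAdd_pow] using this
    have h2 : Multiplicative.toAdd (χ a) ≠ 0 := by
      intro h0
      apply ha
      exact h0
    have := mul_right_cancel₀ h2 h1
    exact_mod_cast this
  refine (Set.infinite_of_injective_forall_mem hinj (s := χ '' F) ?_) (hF.image _)
  intro j
  obtain ⟨f, hf, h1⟩ := h _ (hX j)
  refine ⟨f, hf, ?_⟩
  obtain ⟨k, hk⟩ := Subgroup.mem_zpowers_iff.mp h1
  have h2 := congrArg χ hk
  rw [map_zpow, hu, one_zpow, map_mul, map_pow, map_inv] at h2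
  exact (mul_inv_eq_one.mp h2.symm).symm

open Classical in
/-- the hom which counts the exponent of a generator -/
theorem exists_count {g : ℕ} (i : Fin g × Bool) : ∃ χ : SG g →* Multiplicative ℤ,
    ∀ j, χ (PresentedGroup.of j) = if j = i then Multiplicative.ofAdd 1 else 1 :=
  exists_hom_comm _

theorem exists_split (n : ℕ) : ∃ S : Split (SG (n + 2)), S.t = gb (Fin.last (n + 1)) ∧
    S.w = ga (Fin.last (n + 1)) ∧ (∀ i, ga i ∈ S.F) ∧
    (∀ i, i ≠ Fin.last (n + 1) → gb i ∈ S.F) := by
  classical
  let L : Fin (n + 2) := Fin.last (n + 1)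
  let w : SG (n + 2) := ga L
  let t : SG (n + 2) := gb L
  have hRt : R (n + 2) L * w = t * w * t⁻¹ := by
    have h1 : R (n + 2) (L + 1) = R (n + 2) L * (w * t * w⁻¹ * t⁻¹) := R_succ L
    have h2 : ((L : Fin (n + 2)) : ℕ) + 1 = n + 2 := rfl
    rw [h2, R_all] at h1
    have h3 : R (n + 2) L = (w * t * w⁻¹ * t⁻¹)⁻¹ := eq_inv_of_mul_eq_one_left h1.symm
    rw [h3]; group
  let m : SG (n + 2) → Fin (n + 2) × Bool → ℤ := fun x i =>
    if i = (L, true) ∧ x * t ∈ Subgroup.zpowers w then 1 else 0
  have hm : ∀ p, dv m p = 0 := by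
    intro p
    unfold dv
    rw [Finset.sum_eq_single (L, true)]
    · have e1 : al (L, true) = t * w * t⁻¹ := hRt
      have e2 : be (L, true) = (1 : SG (n + 2)) := R_all
      rw [e1, e2, mul_one]
      have e3 : (p * (t * w * t⁻¹) * t ∈ Subgroup.zpowers w) = (p * t ∈ Subgroup.zpowers w) := by
        have : p * (t * w * t⁻¹) * t = p * t * w := by group
        rw [this, eq_iff_iff, Subgroup.mul_mem_cancel_right _ (Subgroup.mem_zpowers w)]
      simp only [m, e3, sub_self]
    · intro j _ hj
      simp only [m]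
      rw [if_neg (fun h => hj h.1), if_neg (fun h => hj h.1), sub_zero]
    · intro h; exact (h (Finset.mem_univ _)).elim
  obtain ⟨lam', hlam'⟩ := P1 m hm
  obtain ⟨lam, hlam, hlam1⟩ : ∃ lam : SG (n + 2) → ℤ,
      (∀ q i, lam (q * PresentedGroup.of i) - lam q = m q i) ∧ lam 1 = 1 := by
    refine ⟨fun q => lam' q - lam' 1 + 1, fun q i => ?_, by ring⟩
    have := hlam' q i
    beta_reduce
    omega
  let F : Subgroup (SG (n + 2)) := Subgroup.closure
    ((fun i => (PresentedGroup.of i : SG (n + 2))) '' {i | i ≠ (L, true)})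
  have hofF : ∀ i, i ≠ (L, true) → (PresentedGroup.of i : SG (n + 2)) ∈ F :=
    fun i hi => Subgroup.subset_closure ⟨i, hi, rfl⟩
  have hF : ∀ f ∈ F, ∀ x, lam (x * f) = lam x := by
    intro f hf
    refine Subgroup.closure_induction (p := fun f _ => ∀ x, lam (x * f) = lam x) ?_ ?_ ?_ ?_ hf
    · rintro _ ⟨i, hi, rfl⟩ x
      have h1 := hlam x i
      have h2 : m x i = 0 := if_neg fun h => hi h.1
      beta_reduce
      omega
    · intro x; rw [mul_one]
    · intro a b _ _ ha hb x
      rw [← mul_assoc, hb, ha]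
    · intro a _ ha x
      rw [← ha (x * a⁻¹), inv_mul_cancel_right]
  have ht : ∀ x, x * t ∈ Subgroup.zpowers w → lam (x * t) = lam x + 1 := by
    intro x hx
    have h1 := hlam x (L, true)
    have h2 : m x (L, true) = 1 := if_pos ⟨rfl, hx⟩
    have h3 : lam (x * t) - lam x = m x (L, true) := h1
    omega
  have ht' : ∀ x, x * t ∉ Subgroup.zpowers w → lam (x * t) = lam x := by
    intro x hx
    have h1 := hlam x (L, true)
    have h2 : m x (L, true) = 0 := if_neg fun h => hx h.2
    have h3 : lam (x * t) - lam x = m x (L, true) := h1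
    omega
  have hwF : w ∈ F := hofF (L, false) (by simp)
  have hw1 : ∀ x ∈ Subgroup.zpowers w, lam x = 1 := by
    intro x hx
    have h1 : Subgroup.zpowers w ≤ F := by
      rw [Subgroup.zpowers_le]; exact hwF
    have := hF x (h1 hx) 1
    rw [one_mul] at this
    rw [this, hlam1]
  have hRF : ∀ k, k ≤ n + 2 → k ≤ n + 1 → R (n + 2) k ∈ F := by
    apply fin_ind
    · intro _; rw [R_zero]; exact one_mem _
    · intro l hl hk
      have hne : ∀ b, ((l, b) : Fin (n + 2) × Bool) ≠ (L, true) := by
        intro b h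
        have h1 := congrArg (fun z : Fin (n + 2) × Bool => (z.1 : ℕ)) h
        have h2 : ((L : Fin (n + 2)) : ℕ) = n + 1 := rfl
        simp only [h2] at h1
        omega
      have e2 : R (n + 2) (l + 1) = R (n + 2) l * (ga l * gb l * (ga l)⁻¹ * (gb l)⁻¹) := R_succ l
      rw [e2]
      have ha : (ga l : SG (n + 2)) ∈ F := hofF _ (hne _)
      have hb : (gb l : SG (n + 2)) ∈ F := hofF _ (hne _)
      exact mul_mem (hl (by omega)) (mul_mem (mul_mem (mul_mem ha hb) (inv_mem ha)) (inv_mem hb))
  obtain ⟨τ, hτ⟩ := exists_count (g := n + 2) (L, true)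
  obtain ⟨σ, hσ⟩ := exists_count (g := n + 2) (L, false)
  obtain ⟨A, hA⟩ := exists_count (g := n + 2) (0, false)
  obtain ⟨B, hB⟩ := exists_count (g := n + 2) (0, true)
  have h0L : (0 : Fin (n + 2)) ≠ L := by
    intro h
    have := congrArg Fin.val h
    simp [L] at this
  have ha0 : (ga 0 : SG (n + 2)) ∈ F := hofF _ (by simp)
  have hb0 : (gb 0 : SG (n + 2)) ∈ F := hofF _ (by
    intro h; exact h0L (Prod.mk.inj h).1)
  refine ⟨{ F := F, t := t, w := w, H := {x | lam x = 1}, w_mem := hwF, twt := ?_, gen := ?_,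
            one_mem := hlam1, tinv := ?_, right := ?_, edge := ?_, τ := τ, τF := ?_,
            τt := ?_, σ := σ, σw := ?_, Fbig := ?_ }, rfl, rfl, ?_, ?_⟩
  · rw [← hRt]
    exact mul_mem (hRF _ (by omega) (by exact Nat.le_refl _)) hwF
  · rw [eq_top_iff, ← closure_gen, Subgroup.closure_le]
    rintro _ ⟨i, rfl⟩
    by_cases hi : i = (L, true)
    · subst hi
      exact Subgroup.subset_closure (Or.inr rfl)
    · exact Subgroup.subset_closure (Or.inl (hofF i hi))
  · intro h
    have h1 := ht t⁻¹ (by rw [inv_mul_cancel]; exact one_mem _)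
    rw [inv_mul_cancel, hlam1] at h1
    have h2 : lam t⁻¹ = 1 := h
    omega
  · intro x f hf
    rw [Set.mem_ofPred_eq, Set.mem_ofPred_eq, hF f hf]
  · intro x hx
    by_contra hcon
    apply hx
    rw [Set.mem_ofPred_eq, Set.mem_ofPred_eq, ht' x hcon]
  · intro f hf
    have : F ≤ τ.ker := by
      rw [Subgroup.closure_le]
      rintro _ ⟨i, hi, rfl⟩
      rw [SetLike.mem_coe, MonoidHom.mem_ker, hτ, if_neg hi]
    exact this hf
  · exact (hτ _).trans (if_pos rfl)
  · intro h
    have h1 : σ w = Multiplicative.ofAdd 1 := (hσ _).trans (if_pos rfl)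
    rw [h1] at h
    exact absurd (congrArg Multiplicative.toAdd h) (by simp)
  · intro u
    have hAa : A (ga 0) = Multiplicative.ofAdd 1 := (hA _).trans (if_pos rfl)
    have hBb : B (gb 0) = Multiplicative.ofAdd 1 := (hB _).trans (if_pos rfl)
    have hAb : A (gb 0) = 1 := (hA _).trans (if_neg (by simp))
    by_cases hu : A u = 1
    · refine not_CFin_of_hom A hu (a := ga 0) ?_ (fun j => pow_mem ha0 j)
      rw [hAa]
      intro h
      exact absurd (congrArg Multiplicative.toAdd h) (by simp)
    · refine not_CFin_of_hom (A ^ (Multiplicative.toAdd (B u)) * B ^ (-Multiplicative.toAdd (A u)))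
        ?_ (a := gb 0) ?_ (fun j => pow_mem hb0 j)
      · rw [MonoidHom.mul_apply]
        apply Multiplicative.toAdd.injective
        simp [mul_comm]
      · rw [MonoidHom.mul_apply]
        intro h
        apply hu
        have h1 := congrArg Multiplicative.toAdd h
        simp [hAb, hBb] at h1
        exact Multiplicative.toAdd.injective h1
  · intro i
    exact hofF _ (by simp)
  · intro i hi
    exact hofF _ (by
      intro h; exact hi (Prod.mk.inj h).1)

end Run7.h955
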