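import Pool.Agent.Run7.h955.B

set_option autoImplicit false

/-!
# Walls of a splitting
-/

open Pointwise

namespace Run7.h955

theorem infOrd_of_hom {π : Type*} [Group π] (χ : π →* Multiplicative ℤ) {u : π} (h : χ u ≠ 1) :
    InfOrd u := by
  intro n e
  have h1 : (χ u) ^ n = 1 := by rw [← map_zpow, e, map_one]
  have h2 : n * Multiplicative.toAdd (χ u) = 0 := by
    have := congrArg Multiplicative.toAdd h1
    simpa using this
  rcases mul_eq_zero.mp h2 with h3 | h3
  · exact h3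
  · exfalso
    apply h
    exact Multiplicative.toAdd.injective h3

theorem ind_of_hom {π : Type*} [Group π] (χ : π →* Multiplicative ℤ) {u v : π} (h : χ u ≠ 1)
    (hv : χ v = 1) (hv' : InfOrd v) : Ind u v := by
  intro m n e
  have h1 : (χ u) ^ m = 1 := by rw [← map_zpow, e, map_zpow, hv, one_zpow]
  have h2 : m * Multiplicative.toAdd (χ u) = 0 := by
    have := congrArg Multiplicative.toAdd h1
    simpa using this
  have hm : m = 0 := by
    rcases mul_eq_zero.mp h2 with h3 | h3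
    · exact h3
    · exfalso
      apply h
      exact Multiplicative.toAdd.injective h3
  refine ⟨hm, hv' n ?_⟩
  rw [← e, hm, zpow_zero]

namespace Split

variable {π : Type*} [Group π] (S : Split π)

lemma right_g (g x : π) {f : π} (hf : f ∈ S.F) : x * f ∈ g • S.H ↔ x ∈ g • S.H := by
  rw [mem_smul', mem_smul', ← mul_assoc]
  exact S.right _ f hf

lemma w_zpow (k : ℤ) : S.w ^ k ∈ S.F := S.F.zpow_mem S.w_mem k

lemma w_zpow_mem_H (k : ℤ) : S.w ^ k ∈ S.H := by
  have := (S.right 1 _ (S.w_zpow k)).mpr S.one_mem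
  rwa [one_mul] at this

lemma w_zpow_t (k : ℤ) : S.w ^ k * S.t⁻¹ = S.t⁻¹ * (S.t * S.w * S.t⁻¹) ^ k := by
  rw [conj_zpow]; group

lemma w_zpow_tinv (k : ℤ) : S.w ^ k * S.t⁻¹ ∉ S.H := by
  rw [S.w_zpow_t, S.right _ _ (S.F.zpow_mem S.twt k)]
  exact S.tinv

lemma edge_iff1 (x : π) : (x ∉ S.H ∧ x * S.t ∈ S.H) ↔ x * S.t ∈ Subgroup.zpowers S.w := by
  constructor
  · rintro ⟨h1, h2⟩
    exact S.edge x fun h => h1 (h.mp h2)
  · intro h
    obtain ⟨k, hk⟩ := Subgroup.mem_zpowers_iff.mp h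
    have e : x = S.w ^ k * S.t⁻¹ := by rw [hk]; group
    constructor
    · rw [e]; exact S.w_zpow_tinv k
    · rw [← hk]; exact S.w_zpow_mem_H k

lemma edge_out1 (x : π) (hx : x ∈ S.H) : x * S.t ∈ S.H := by
  by_contra h
  have h1 := S.edge x fun h' => h (h'.mpr hx)
  exact h ((S.edge_iff1 x).mpr h1).2

lemma not_iff_edge (x : π) : ¬ (x * S.t ∈ S.H ↔ x ∈ S.H) ↔ x * S.t ∈ Subgroup.zpowers S.w := by
  constructor
  · exact S.edge x
  · intro h h'
    have h1 := (S.edge_iff1 x).mpr h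
    exact h1.1 (h'.mp h1.2)

theorem edge_out (g x : π) (hx : x ∈ g • S.H) : x * S.t ∈ g • S.H := by
  rw [mem_smul'] at *
  rw [← mul_assoc]
  exact S.edge_out1 _ hx

theorem edge_iff (g x : π) :
    (x ∉ g • S.H ∧ x * S.t ∈ g • S.H) ↔ g⁻¹ * x * S.t ∈ Subgroup.zpowers S.w := by
  rw [mem_smul', mem_smul', ← mul_assoc]
  exact S.edge_iff1 _

lemma not_iff_edge_g (g x : π) :
    ¬ (x * S.t ∈ g • S.H ↔ x ∈ g • S.H) ↔ g⁻¹ * x * S.t ∈ Subgroup.zpowers S.w := by
  rw [mem_smul', mem_smul', ← mul_assoc]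
  exact S.not_iff_edge _

/-- connectedness of the Bass-Serre tree -/
theorem conn (M : Set π) (h : ∀ x, ∀ f ∈ S.F, x * f ∈ M ↔ x ∈ M)
    (h' : ∀ x, x * S.t ∈ M ↔ x ∈ M) (x y : π) : x ∈ M ↔ y ∈ M := by
  have key : ∀ s ∈ Subgroup.closure ((S.F : Set π) ∪ {S.t}), ∀ x, x * s ∈ M ↔ x ∈ M := by
    intro s hs
    induction hs using Subgroup.closure_induction with
    | mem s hs =>
      intro x
      rcases hs with hs | hs
      · exact h x s hs
      · rw [Set.mem_singleton_iff] at hs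
        subst hs
        exact h' x
    | one => intro x; rw [mul_one]
    | mul a b _ _ ha hb => intro x; rw [← mul_assoc, hb, ha]
    | inv a _ ha => intro x; rw [← ha (x * a⁻¹), inv_mul_cancel_right]
  have h1 := key (x⁻¹ * y) (by rw [S.gen]; trivial) x
  rw [mul_inv_cancel_left] at h1
  exact h1.symm

lemma smul_of_mem {g : π} (hg : g ∈ Subgroup.zpowers S.w) : g • S.H = S.H := by
  obtain ⟨k, rfl⟩ := Subgroup.mem_zpowers_iff.mp hg
  set M : Set π := {x | x ∈ S.w ^ k • S.H ↔ x ∈ S.H} with hM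
  have h1 : ∀ x y, x ∈ M ↔ y ∈ M := by
    apply S.conn
    · intro x f hf
      change (x * f ∈ S.w ^ k • S.H ↔ x * f ∈ S.H) ↔ (x ∈ S.w ^ k • S.H ↔ x ∈ S.H)
      rw [S.right_g _ x hf, S.right x f hf]
    · intro x
      change (x * S.t ∈ S.w ^ k • S.H ↔ x * S.t ∈ S.H) ↔ (x ∈ S.w ^ k • S.H ↔ x ∈ S.H)
      have h2 := S.not_iff_edge x
      have h3 := S.not_iff_edge_g (S.w ^ k) x
      have h4 : (S.w ^ k)⁻¹ * x * S.t ∈ Subgroup.zpowers S.w ↔ x * S.t ∈ Subgroup.zpowers S.w := by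
        rw [mul_assoc]
        exact Subgroup.mul_mem_cancel_left _ (Subgroup.inv_mem _
          (Subgroup.zpow_mem _ (Subgroup.mem_zpowers _) k))
      rw [h4, ← h2] at h3
      tauto
  have h2 : (1 : π) ∈ M := by
    change (1 : π) ∈ S.w ^ k • S.H ↔ (1 : π) ∈ S.H
    rw [mem_smul', mul_one, ← zpow_neg]
    exact ⟨fun _ => S.one_mem, fun _ => S.w_zpow_mem_H _⟩
  ext x
  exact (h1 x 1).mpr h2

theorem mem_stab (g : π) : g • S.H = S.H ↔ g ∈ Subgroup.zpowers S.w := by
  constructor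
  · intro h
    have h1 : g * S.t⁻¹ ∉ S.H ∧ g * S.t⁻¹ * S.t ∈ S.H := by
      constructor
      · intro h2
        rw [← h, mem_smul'] at h2
        rw [inv_mul_cancel_left] at h2
        exact S.tinv h2
      · rw [inv_mul_cancel_right, ← h, mem_smul', inv_mul_cancel]
        exact S.one_mem
    have := (S.edge_iff1 _).mp h1
    rwa [inv_mul_cancel_right] at this
  · exact S.smul_of_mem

/-- the side of a wall not containing another wall -/
lemma nest_aux {g : π} (hg : g ∉ Subgroup.zpowers S.w) (x : π) (hx : ¬ (x ∈ S.H ↔ g ∈ S.H)) :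
    x ∈ g • S.H ↔ (1 : π) ∈ g • S.H := by
  set M : Set π := {x | ((x ∈ S.H ↔ g ∈ S.H) ∧ (1 : π) ∈ g • S.H) ∨
    (¬ (x ∈ S.H ↔ g ∈ S.H) ∧ x ∈ g • S.H)} with hM
  have hginv : g⁻¹ ∉ Subgroup.zpowers S.w := fun h => hg (by simpa using Subgroup.inv_mem _ h)
  have h1 : ∀ x y, x ∈ M ↔ y ∈ M := by
    apply S.conn
    · intro x f hf
      change ((x * f ∈ S.H ↔ g ∈ S.H) ∧ (1 : π) ∈ g • S.H) ∨
        (¬ (x * f ∈ S.H ↔ g ∈ S.H) ∧ x * f ∈ g • S.H) ↔ ((x ∈ S.H ↔ g ∈ S.H) ∧
        (1 : π) ∈ g • S.H) ∨ (¬ (x ∈ S.H ↔ g ∈ S.H) ∧ x ∈ g • S.H)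
      rw [S.right_g _ x hf, S.right x f hf]
    · intro x
      change ((x * S.t ∈ S.H ↔ g ∈ S.H) ∧ (1 : π) ∈ g • S.H) ∨
        (¬ (x * S.t ∈ S.H ↔ g ∈ S.H) ∧ x * S.t ∈ g • S.H) ↔ ((x ∈ S.H ↔ g ∈ S.H) ∧
        (1 : π) ∈ g • S.H) ∨ (¬ (x ∈ S.H ↔ g ∈ S.H) ∧ x ∈ g • S.H)
      by_cases h2 : x * S.t ∈ Subgroup.zpowers S.w
      · -- the edge of H
        obtain ⟨k, hk⟩ := Subgroup.mem_zpowers_iff.mp h2
        have e : x = S.w ^ k * S.t⁻¹ := by rw [hk]; group
        have h3 := (S.edge_iff1 x).mpr h2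
        have e1 : x * S.t ∈ g • S.H ↔ (1 : π) ∈ g • S.H := by
          rw [← hk]
          have := S.right_g g 1 (S.w_zpow k)
          rwa [one_mul] at this
        have e2 : x ∈ g • S.H ↔ (1 : π) ∈ g • S.H := by
          rw [e, S.w_zpow_t, S.right_g g _ (S.F.zpow_mem S.twt k)]
          have h4 := S.not_iff_edge_g g S.t⁻¹
          rw [inv_mul_cancel, inv_mul_cancel_right] at h4
          tauto
        tauto
      · have h3 := S.not_iff_edge x
        by_cases h4 : g⁻¹ * x * S.t ∈ Subgroup.zpowers S.w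
        · -- the edge of g H : both end points on the side of g
          obtain ⟨k, hk⟩ := Subgroup.mem_zpowers_iff.mp h4
          have e : x * S.t = g * S.w ^ k := by rw [hk]; group
          have e1 : x * S.t ∈ S.H ↔ g ∈ S.H := by rw [e, S.right g _ (S.w_zpow k)]
          tauto
        · have h5 := S.not_iff_edge_g g x
          tauto
  have h2 : (1 : π) ∈ M ↔ (1 : π) ∈ g • S.H := by
    rw [hM, Set.mem_setOf_eq]; tauto
  have h3 := h1 x 1
  rw [h2] at h3
  rw [← h3, hM, Set.mem_setOf_eq]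
  tauto

lemma nest_union {g : π} (hg : g ∉ Subgroup.zpowers S.w) (h1 : g ∈ S.H)
    (h2 : (1 : π) ∈ g • S.H) : g • S.H ∪ S.H = Set.univ := by
  ext x
  simp only [Set.mem_union, Set.mem_univ, iff_true]
  by_cases h3 : x ∈ S.H
  · exact Or.inr h3
  · exact Or.inl ((S.nest_aux hg x (by tauto)).mpr h2)

lemma nest_sub {g : π} (hg : g ∉ Subgroup.zpowers S.w) (h1 : g ∈ S.H)
    (h2 : (1 : π) ∉ g • S.H) : g • S.H ⊆ S.H := by
  intro x hx
  by_contra h3
  exact h2 ((S.nest_aux hg x (by tauto)).mp hx)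

lemma nest_sup {g : π} (hg : g ∉ Subgroup.zpowers S.w) (h1 : g ∉ S.H)
    (h2 : (1 : π) ∈ g • S.H) : S.H ⊆ g • S.H := by
  intro x hx
  exact (S.nest_aux hg x (by tauto)).mpr h2

lemma nest_disj {g : π} (hg : g ∉ Subgroup.zpowers S.w) (h1 : g ∉ S.H)
    (h2 : (1 : π) ∉ g • S.H) : Disjoint (g • S.H) S.H := by
  rw [Set.disjoint_left]
  intro x hx hx'
  exact h2 ((S.nest_aux hg x (by tauto)).mp hx)

theorem nested (g : π) : g • S.H ⊆ S.H ∨ S.H ⊆ g • S.H ∨ Disjoint (g • S.H) S.H ∨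
    (g • S.H) ∪ S.H = Set.univ := by
  by_cases hg : g ∈ Subgroup.zpowers S.w
  · left; rw [S.smul_of_mem hg]
  by_cases h1 : g ∈ S.H <;> by_cases h2 : (1 : π) ∈ g • S.H
  · exact Or.inr (Or.inr (Or.inr (S.nest_union hg h1 h2)))
  · exact Or.inl (S.nest_sub hg h1 h2)
  · exact Or.inr (Or.inl (S.nest_sup hg h1 h2))
  · exact Or.inr (Or.inr (Or.inl (S.nest_disj hg h1 h2)))

/-- walls with both orientations -/
def Wall (B : Set π) : Prop := ∃ g : π, B = g • S.H ∨ B = (g • S.H)ᶜ

lemma Wall.smul {B : Set π} (h : S.Wall B) (g : π) : S.Wall (g • B) := by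
  obtain ⟨g', h | h⟩ := h
  · exact ⟨g * g', Or.inl (by rw [h, smul_smul])⟩
  · exact ⟨g * g', Or.inr (by rw [h, smul_compl', smul_smul])⟩

lemma Wall.compl {B : Set π} (h : S.Wall B) : S.Wall Bᶜ := by
  obtain ⟨g', h | h⟩ := h
  · exact ⟨g', Or.inr (by rw [h])⟩
  · exact ⟨g', Or.inl (by rw [h, compl_compl])⟩

lemma nested_walls {B B' : Set π} (h : S.Wall B) (h' : S.Wall B') :
    B ⊆ B' ∨ B' ⊆ B ∨ Disjoint B B' ∨ B ∪ B' = Set.univ := by
  have key : ∀ g g' : π, g • S.H ⊆ g' • S.H ∨ g' • S.H ⊆ g • S.H ∨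
      Disjoint (g • S.H) (g' • S.H) ∨ g • S.H ∪ g' • S.H = Set.univ := by
    intro g g'
    have e : ∀ x, (x ∈ g • S.H ↔ g'⁻¹ * x ∈ (g'⁻¹ * g) • S.H) ∧
        (x ∈ g' • S.H ↔ g'⁻¹ * x ∈ S.H) := by
      intro x
      constructor
      · rw [mem_smul', mem_smul']
        have : (g'⁻¹ * g)⁻¹ * (g'⁻¹ * x) = g⁻¹ * x := by group
        rw [this]
      · rw [mem_smul']
    rcases S.nested (g'⁻¹ * g) with h | h | h | h
    · left
      intro x hx
      rw [(e x).2]; exact h ((e x).1.mp hx)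
    · right; left
      intro x hx
      rw [(e x).1]; exact h ((e x).2.mp hx)
    · right; right; left
      rw [Set.disjoint_left] at h ⊢
      intro x hx hx'
      exact h ((e x).1.mp hx) ((e x).2.mp hx')
    · right; right; right
      ext x
      simp only [Set.mem_union, Set.mem_univ, iff_true]
      have : g'⁻¹ * x ∈ (g'⁻¹ * g) • S.H ∪ S.H := by rw [h]; trivial
      rcases this with h1 | h1
      · exact Or.inl ((e x).1.mpr h1)
      · exact Or.inr ((e x).2.mpr h1)
  obtain ⟨g, hg⟩ := h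
  obtain ⟨g', hg'⟩ := h'
  rcases hg with rfl | rfl <;> rcases hg' with rfl | rfl <;> rcases key g g' with h | h | h | h
  · exact Or.inl h
  · exact Or.inr (Or.inl h)
  · exact Or.inr (Or.inr (Or.inl h))
  · exact Or.inr (Or.inr (Or.inr h))
  · right; right; left
    rw [Set.disjoint_left]; intro x hx hx'; exact hx' (h hx)
  · right; right; right
    ext x; simp only [Set.mem_union, Set.mem_compl_iff, Set.mem_univ, iff_true]
    by_cases hx : x ∈ g' • S.H
    · exact Or.inl (h hx)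
    · exact Or.inr hx
  · left
    intro x hx hx'; exact Set.disjoint_left.mp h hx hx'
  · right; left
    intro x hx
    have : x ∈ g • S.H ∪ g' • S.H := by rw [h]; trivial
    rcases this with h1 | h1
    · exact h1
    · exact absurd h1 hx
  · right; right; right
    ext x; simp only [Set.mem_union, Set.mem_compl_iff, Set.mem_univ, iff_true]
    by_cases hx : x ∈ g • S.H
    · exact Or.inr (h hx)
    · exact Or.inl hx
  · right; right; left
    rw [Set.disjoint_left]; intro x hx hx'; exact hx (h hx')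
  · right; left
    intro x hx hx'; exact Set.disjoint_left.mp h hx' hx
  · left
    intro x hx
    have : x ∈ g • S.H ∪ g' • S.H := by rw [h]; trivial
    rcases this with h1 | h1
    · exact absurd h1 hx
    · exact h1
  · right; left
    exact Set.compl_subset_compl.mpr h
  · left
    exact Set.compl_subset_compl.mpr h
  · right; right; right
    ext x; simp only [Set.mem_union, Set.mem_compl_iff, Set.mem_univ, iff_true]
    by_cases hx : x ∈ g • S.H
    · right; exact fun hx' => Set.disjoint_left.mp h hx hx'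
    · exact Or.inl hx
  · right; right; left
    rw [Set.disjoint_left]
    intro x hx hx'
    have : x ∈ g • S.H ∪ g' • S.H := by rw [h]; trivial
    rcases this with h1 | h1
    · exact hx h1
    · exact hx' h1

/-- walls crossed by a line in the same direction are comparable -/
lemma comparable {u : π} {B B' : Set π} (h : S.Wall B) (h' : S.Wall B') (hu : Thru u B)
    (hu' : Thru u B') : B ⊆ B' ∨ B' ⊆ B := by
  rcases S.nested_walls h h' with h1 | h1 | h1 | h1
  · exact Or.inl h1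
  · exact Or.inr h1
  · exfalso
    obtain ⟨n, hn⟩ := ((hu.1 1).and (hu'.1 1)).exists
    exact Set.disjoint_left.mp h1 hn.1 hn.2
  · exfalso
    obtain ⟨n, hn⟩ := ((hu.2 1).and (hu'.2 1)).exists
    have : u⁻¹ ^ n * 1 ∈ B ∪ B' := by rw [h1]; trivial
    rcases this with h2 | h2
    · exact hn.1 h2
    · exact hn.2 h2

lemma τ_ft {f : π} (hf : f ∈ S.F) : S.τ (f * S.t) = Multiplicative.ofAdd 1 := by
  rw [map_mul, S.τF f hf, S.τt, one_mul]

lemma τ_ft_ne {f : π} (hf : f ∈ S.F) : S.τ (f * S.t) ≠ 1 := by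
  rw [S.τ_ft hf]
  intro h
  have := congrArg Multiplicative.toAdd h
  simp at this

lemma τ_w : S.τ S.w = 1 := S.τF _ S.w_mem

lemma not_mem_zpowers_of_τ {u : π} (hu : S.τ u ≠ 1) : u ∉ Subgroup.zpowers S.w := by
  intro h
  obtain ⟨k, rfl⟩ := Subgroup.mem_zpowers_iff.mp h
  apply hu
  rw [map_zpow, S.τ_w, one_zpow]

theorem step_subset {f : π} (hf : f ∈ S.F) : (f * S.t) • S.H ⊆ S.H := by
  apply S.nest_sub (S.not_mem_zpowers_of_τ (S.τ_ft_ne hf))
  · apply S.edge_out1
    have := (S.right 1 f hf).mpr S.one_mem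
    rwa [one_mul] at this
  · rw [mem_smul', mul_one, mul_inv_rev, S.right _ _ (S.F.inv_mem hf)]
    exact S.tinv

lemma one_not_mem_step {f : π} (hf : f ∈ S.F) : (1 : π) ∉ (f * S.t) • S.H := by
  rw [mem_smul', mul_one, mul_inv_rev, S.right _ _ (S.F.inv_mem hf)]
  exact S.tinv

theorem step_sub {f : π} (hf : f ∈ S.F) : (f * S.t) • S.H ⊂ S.H :=
  ⟨S.step_subset hf, fun h => S.one_not_mem_step hf (h S.one_mem)⟩

/-- no wall strictly between `H` and `f t H` -/
theorem step_min {f : π} (hf : f ∈ S.F) (B : Set π) (hB : S.Wall B)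
    (h1 : (f * S.t) • S.H ⊆ B) (h2 : B ⊆ S.H) : B = (f * S.t) • S.H ∨ B = S.H := by
  obtain ⟨h, hB⟩ := hB
  by_cases h3 : (1 : π) ∈ B
  · -- the edge of H crosses B
    have h4 : S.t⁻¹ ∉ B := fun h => S.tinv (h2 h)
    rcases hB with rfl | rfl
    · right
      have h5 := (S.edge_iff h S.t⁻¹).mp ⟨h4, by rw [inv_mul_cancel]; exact h3⟩
      rw [inv_mul_cancel_right] at h5
      exact S.smul_of_mem (by simpa using Subgroup.inv_mem _ h5)
    · exfalso
      rw [Set.mem_compl_iff, not_not] at h4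
      apply h3
      have := S.edge_out h _ h4
      rwa [inv_mul_cancel] at this
  · have h4 : f * S.t ∈ B := h1 (by rw [mem_smul', inv_mul_cancel]; exact S.one_mem)
    rcases hB with rfl | rfl
    · left
      have h6 : f ∉ h • S.H := by
        rw [← one_mul f, S.right_g h 1 hf]; exact h3
      have h5 := (S.edge_iff h f).mp ⟨h6, h4⟩
      have e : h • S.H = (f * S.t) • (h⁻¹ * f * S.t)⁻¹ • S.H := by
        rw [smul_smul]; congr 1; group
      rw [e, S.smul_of_mem (Subgroup.inv_mem _ h5)]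
    · exfalso
      rw [Set.mem_compl_iff, not_not] at h3
      apply h4
      apply S.edge_out
      rw [← one_mul f, S.right_g h 1 hf]; exact h3

/-- two points are separated by finitely many walls -/
theorem finite_walls (p s : π) :
    {B : Set π | (∃ g : π, B = g • S.H) ∧ ¬ (p * s ∈ B ↔ p ∈ B)}.Finite := by
  have key : ∀ s ∈ Subgroup.closure ((S.F : Set π) ∪ {S.t}), ∀ p,
      {B : Set π | (∃ g : π, B = g • S.H) ∧ ¬ (p * s ∈ B ↔ p ∈ B)}.Finite := by
    intro s hs
    induction hs using Subgroup.closure_induction with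
    | mem s hs =>
      intro p
      rcases hs with hs | hs
      · convert Set.finite_empty
        ext B
        simp only [Set.mem_setOf_eq, Set.mem_empty_iff_false, iff_false, not_and, not_not]
        rintro ⟨g, rfl⟩
        exact S.right_g g p hs
      · rw [Set.mem_singleton_iff] at hs
        subst hs
        refine (Set.finite_singleton ((p * S.t) • S.H)).subset ?_
        rintro B ⟨⟨g, rfl⟩, h⟩
        rw [S.not_iff_edge_g] at h
        rw [Set.mem_singleton_iff]
        have e : g • S.H = (p * S.t) • (g⁻¹ * p * S.t)⁻¹ • S.H := by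
          rw [smul_smul]; congr 1; group
        rw [e, S.smul_of_mem (Subgroup.inv_mem _ h)]
    | one =>
      intro p
      convert Set.finite_empty
      ext B
      simp
    | mul a b _ _ ha hb =>
      intro p
      refine ((ha p).union (hb (p * a))).subset ?_
      rintro B ⟨h1, h2⟩
      by_cases h3 : p * a ∈ B ↔ p ∈ B
      · right
        refine ⟨h1, fun h4 => h2 ?_⟩
        rw [← mul_assoc, h4, h3]
      · exact Or.inl ⟨h1, h3⟩
    | inv a _ ha =>
      intro p
      refine (ha (p * a⁻¹)).subset ?_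
      rintro B ⟨h1, h2⟩
      refine ⟨h1, ?_⟩
      rw [inv_mul_cancel_right]
      tauto
  exact key s (by rw [S.gen]; trivial) p

lemma strictAnti_ch {f : π} (hf : f ∈ S.F) : StrictAnti fun n : ℤ => (f * S.t) ^ n • S.H := by
  apply strictAnti_int_of_succ_lt
  intro n
  have h := S.step_sub hf
  have e : (f * S.t) ^ (n + 1) • S.H = (f * S.t) ^ n • (f * S.t) • S.H := by
    rw [smul_smul, zpow_add_one]
  constructor
  · rw [e]
    exact Set.smul_set_mono h.1
  · intro h2
    apply h.2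
    rw [e] at h2
    exact Set.smul_set_subset_smul_set_iff.mp h2

lemma ch_sub {f : π} (hf : f ∈ S.F) {m n : ℤ} (h : m ≤ n) :
    (f * S.t) ^ n • S.H ⊆ (f * S.t) ^ m • S.H := (S.strictAnti_ch hf).antitone h

lemma ch_inj {f : π} (hf : f ∈ S.F) {m n : ℤ} (h : (f * S.t) ^ n • S.H = (f * S.t) ^ m • S.H) :
    n = m := (S.strictAnti_ch hf).injective h

lemma wall_ch (y : π) : S.Wall (y • S.H) := ⟨y, Or.inl rfl⟩

/-- every point has a level -/
theorem exists_level {f : π} (hf : f ∈ S.F) (p : π) :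
    ∃ N : ℤ, ∀ n : ℤ, p ∈ (f * S.t) ^ n • S.H ↔ n ≤ N := by
  have h1 : ∃ n : ℤ, p ∈ (f * S.t) ^ n • S.H := by
    by_contra h
    push Not at h
    have hfin := S.finite_walls 1 p
    rw [one_mul] at hfin
    have hinf : Set.Infinite (Set.range fun n : ℕ => (f * S.t) ^ (-(n : ℤ)) • S.H) := by
      apply Set.infinite_range_of_injective
      intro a b hab
      have := S.ch_inj hf hab
      omega
    apply hinf
    refine hfin.subset ?_
    rintro _ ⟨n, rfl⟩
    refine ⟨⟨_, rfl⟩, ?_⟩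
    intro h2
    apply h (-(n : ℤ))
    rw [h2]
    apply S.ch_sub hf (m := -(n : ℤ)) (n := 0) (by omega)
    rw [zpow_zero, one_smul]
    exact S.one_mem
  have h2 : ∃ n : ℤ, p ∉ (f * S.t) ^ n • S.H := by
    by_contra h
    push Not at h
    have hfin := S.finite_walls 1 p
    rw [one_mul] at hfin
    have hinf : Set.Infinite (Set.range fun n : ℕ => (f * S.t) ^ ((n : ℤ) + 1) • S.H) := by
      apply Set.infinite_range_of_injective
      intro a b hab
      have := S.ch_inj hf hab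
      omega
    apply hinf
    refine hfin.subset ?_
    rintro _ ⟨n, rfl⟩
    refine ⟨⟨_, rfl⟩, ?_⟩
    intro h2
    have h3 := h2.mp (h _)
    have h4 := S.ch_sub hf (m := 1) (n := (n : ℤ) + 1) (by omega) h3
    rw [zpow_one] at h4
    exact S.one_not_mem_step hf h4
  obtain ⟨a, ha⟩ := h1
  obtain ⟨b, hb⟩ := h2
  obtain ⟨N, hN1, hN2⟩ := Int.exists_greatest_of_bdd (P := fun n => p ∈ (f * S.t) ^ n • S.H)
    ⟨b, fun z hz => by
      by_contra h
      exact hb (S.ch_sub hf (by omega) hz)⟩ ⟨a, ha⟩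
  exact ⟨N, fun n => ⟨fun h => hN2 n h, fun h => S.ch_sub hf h hN1⟩⟩

theorem hsH : HS (Subgroup.zpowers S.w) S.H where
  inv c hc x := by
    have h := S.smul_of_mem (Subgroup.inv_mem _ hc)
    have h2 : x ∈ c⁻¹ • S.H ↔ c * x ∈ S.H := by rw [mem_smul', inv_inv]
    rw [← h2, h]
  cob s := by
    have key : ∀ s ∈ Subgroup.closure ((S.F : Set π) ∪ {S.t}),
        CFin (Subgroup.zpowers S.w) {x | ¬ (x * s ∈ S.H ↔ x ∈ S.H)} := by
      intro s hs
      induction hs using Subgroup.closure_induction with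
      | mem s hs =>
        rcases hs with hs | hs
        · refine (CFin.of_finite Set.finite_empty).mono ?_
          intro x hx
          exact hx (S.right x s hs)
        · rw [Set.mem_singleton_iff] at hs
          subst hs
          refine ⟨{S.t⁻¹}, Set.finite_singleton _, fun x hx => ⟨S.t⁻¹, rfl, ?_⟩⟩
          rw [inv_inv]
          exact S.edge x hx
      | one =>
        refine (CFin.of_finite Set.finite_empty).mono ?_
        intro x hx
        apply hx
        rw [mul_one]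
      | mul a b _ _ ha hb =>
        refine (ha.union (hb.mul_right a)).mono ?_
        intro x hx
        by_cases h3 : x * a ∈ S.H ↔ x ∈ S.H
        · right
          intro h4
          apply hx
          rw [← mul_assoc, h4, h3]
        · exact Or.inl h3
      | inv a _ ha =>
        refine (ha.mul_right a⁻¹).mono ?_
        intro x hx
        change ¬ (x * a⁻¹ * a ∈ S.H ↔ x * a⁻¹ ∈ S.H)
        rw [inv_mul_cancel_right]
        rw [Set.mem_setOf_eq] at hx
        tauto
    exact key s (by rw [S.gen]; trivial)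
  inf h := by
    apply S.Fbig S.w
    refine h.mono ?_
    intro f hf
    have := (S.right 1 f hf).mpr S.one_mem
    rwa [one_mul] at this
  infc h := by
    apply S.Fbig (S.t * S.w * S.t⁻¹)
    have h1 := h.smul S.t
    rw [cj_zpowers] at h1
    refine h1.mono ?_
    intro f hf
    rw [mem_smul', Set.mem_compl_iff, S.right _ f hf]
    exact S.tinv

theorem infOrd_w : InfOrd S.w := infOrd_of_hom S.σ S.σw

theorem infOrd_ft {f : π} (hf : f ∈ S.F) : InfOrd (f * S.t) := infOrd_of_hom S.τ (S.τ_ft_ne hf)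

/-- `f t` crosses its walls -/
theorem thru_ch {f : π} (hf : f ∈ S.F) (k : ℤ) : Thru (f * S.t) ((f * S.t) ^ k • S.H) := by
  constructor
  · intro z
    obtain ⟨N, hN⟩ := S.exists_level hf z
    filter_upwards [Filter.eventually_ge_atTop (k - N).toNat] with n hn
    rw [mem_smul']
    have e : ((f * S.t) ^ k)⁻¹ * ((f * S.t) ^ n * z) = ((f * S.t) ^ (k - n))⁻¹ * z := by
      rw [← mul_assoc, ← zpow_natCast, ← zpow_neg, ← zpow_add, ← zpow_neg]
      congr 2; ring
    rw [e, ← mem_smul', hN]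
    omega
  · intro z
    obtain ⟨N, hN⟩ := S.exists_level hf z
    filter_upwards [Filter.eventually_ge_atTop (N - k + 1).toNat] with n hn
    rw [Set.mem_compl_iff, mem_smul']
    have e : ((f * S.t) ^ k)⁻¹ * ((f * S.t)⁻¹ ^ n * z) = ((f * S.t) ^ (k + n))⁻¹ * z := by
      rw [← mul_assoc, inv_pow, ← zpow_natCast, ← zpow_neg, ← zpow_neg, ← zpow_add, ← zpow_neg]
      congr 2; ring
    rw [e, ← mem_smul', hN]
    omega

theorem thru {f : π} (hf : f ∈ S.F) : Thru (f * S.t) S.H := by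
  have := S.thru_ch hf 0
  rwa [zpow_zero, one_smul] at this

/-- elements of non-zero `t`-exponent are independent of the edge groups -/
theorem ind_w (g u : π) (hu : S.τ u ≠ 1) : Ind u (g * S.w * g⁻¹) := by
  apply ind_of_hom S.τ hu
  · rw [map_mul, map_mul, S.τ_w, map_inv, mul_one, mul_inv_cancel]
  · exact S.infOrd_w.conj g

theorem pair_stab (h1 : OneEnded π) (hE : HasHS π) {f : π} (hf : f ∈ S.F) (g : π)
    (h : g • S.H = S.H) (h' : g • ((f * S.t) • S.H) = (f * S.t) • S.H) : g = 1 := by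
  by_contra hg1
  set y := f * S.t with hy
  have hgw : g ∈ Subgroup.zpowers S.w := (S.mem_stab g).mp h
  obtain ⟨k, hk⟩ := Subgroup.mem_zpowers_iff.mp hgw
  have hk0 : k ≠ 0 := by
    rintro rfl
    exact hg1 (by rw [← hk, zpow_zero])
  have hginf : InfOrd g := by
    intro n e
    rw [← hk, ← zpow_mul] at e
    have := S.infOrd_w _ e
    rcases mul_eq_zero.mp this with h2 | h2
    · exact absurd h2 hk0
    · exact h2
  have hgw' : y⁻¹ * g * y ∈ Subgroup.zpowers S.w := by
    rw [← S.mem_stab, mul_smul, mul_smul, h', ← mul_smul, inv_mul_cancel, one_smul]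
  obtain ⟨k', hk'⟩ := Subgroup.mem_zpowers_iff.mp hgw'
  have hk0' : k' ≠ 0 := by
    rintro rfl
    apply hg1
    rw [zpow_zero] at hk'
    have : g = y * (y⁻¹ * g * y) * y⁻¹ := by group
    rw [this, ← hk']; group
  -- the halfspaces of g
  have hsH : HS (Subgroup.zpowers g) S.H := by rw [← hk]; exact S.hsH.zpow k hk0
  have hsyH : HS (Subgroup.zpowers g) (y • S.H) := by
    have h2 := (S.hsH.zpow k' hk0').smul y
    rw [cj_zpowers, hk'] at h2
    have e : y * (y⁻¹ * g * y) * y⁻¹ = g := by group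
    rwa [e] at h2
  have hsQ : HS (Subgroup.zpowers g) (S.H \ (y • S.H)) :=
    { inv := by
        intro c hc x
        rw [Set.mem_diff, Set.mem_diff, hsH.inv c hc, hsyH.inv c hc]
      cob := by
        intro s
        refine ((hsH.cob s).union (hsyH.cob s)).mono ?_
        intro x hx
        rw [Set.mem_setOf_eq, Set.mem_diff, Set.mem_diff] at hx
        rw [Set.mem_union, Set.mem_setOf_eq, Set.mem_setOf_eq]
        tauto
      inf := by
        intro h2
        apply S.Fbig g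
        refine h2.mono ?_
        intro x hx
        constructor
        · have := (S.right 1 x hx).mpr S.one_mem
          rwa [one_mul] at this
        · intro h3
          rw [← one_mul x, S.right_g _ 1 hx] at h3
          exact S.one_not_mem_step hf h3
      infc := by
        intro h2
        apply hsH.infc
        refine h2.mono ?_
        intro x hx h3
        exact hx h3.1 }
  have hyQ : Ins y (S.H \ (y • S.H))ᶜ := by
    constructor
    · have := (S.thru_ch hf 1).1
      rw [zpow_one] at this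
      exact this.mono fun x hx h2 => h2.2 hx
    · exact (S.thru hf).2.mono fun x hx h2 => hx h2.1
  obtain ⟨B, hB⟩ := hE y (S.infOrd_ft hf)
  have hi : Ind y g := ind_of_hom S.τ (S.τ_ft_ne hf) (by rw [← hk, map_zpow, S.τ_w, one_zpow]) hginf
  have h2 := cross_symm h1 hB hsH hi (Or.inl (S.thru hf))
  exact not_thru' h1 hsQ hB (Or.inr hyQ) h2

lemma shift_eq (h1 : OneEnded π) (hE : HasHS π) {f : π} (hf : f ∈ S.F) {u : π} {j k : ℤ}
    (h : u • (f * S.t) ^ j • S.H = (f * S.t) ^ k • S.H)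
    (h' : u • (f * S.t) ^ (j + 1) • S.H = (f * S.t) ^ (k + 1) • S.H) : u = (f * S.t) ^ (k - j) := by
  set y := f * S.t with hy
  have h2 : (y ^ (-k) * u * y ^ j) = 1 := by
    apply S.pair_stab h1 hE hf
    · rw [mul_smul, mul_smul, h, smul_smul, ← zpow_add, neg_add_cancel, zpow_zero, one_smul]
    · rw [← hy, mul_smul, mul_smul]
      have e : y ^ j • y • S.H = y ^ (j + 1) • S.H := by rw [smul_smul, zpow_add_one]
      rw [e, h', smul_smul, ← zpow_add]
      have e2 : -k + (k + 1) = 1 := by ring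
      rw [e2, zpow_one]
  have e : u = y ^ k * (y ^ (-k) * u * y ^ j) * y ^ (-j) := by group
  rw [e, h2, mul_one, ← zpow_add]
  congr 1

lemma step_min' {f : π} (hf : f ∈ S.F) (B : Set π) (hB : S.Wall B) (k : ℤ)
    (h1 : (f * S.t) ^ (k + 1) • S.H ⊆ B) (h2 : B ⊆ (f * S.t) ^ k • S.H) :
    B = (f * S.t) ^ (k + 1) • S.H ∨ B = (f * S.t) ^ k • S.H := by
  set y := f * S.t with hy
  have e : y ^ (k + 1) • S.H = y ^ k • y • S.H := by rw [smul_smul, zpow_add_one]
  have h3 := S.step_min hf (y ^ (-k) • B) (Wall.smul S hB _)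
    (by
      rw [← hy]
      intro x hx
      rw [mem_smul']
      apply h1
      rw [e, mem_smul']
      have e2 : (y ^ k)⁻¹ * ((y ^ (-k))⁻¹ * x) = x := by group
      rw [e2]; exact hx)
    (by
      intro x hx
      rw [mem_smul'] at hx
      have := h2 hx
      rw [mem_smul'] at this
      have e2 : (y ^ k)⁻¹ * ((y ^ (-k))⁻¹ * x) = x := by group
      rwa [e2] at this)
  have e3 : B = y ^ k • (y ^ (-k) • B) := by
    rw [smul_smul, ← zpow_add, add_neg_cancel, zpow_zero, one_smul]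
  rcases h3 with h3 | h3
  · left; rw [e3, h3, e]
  · right; rw [e3, h3]

lemma shift_succ (h1 : OneEnded π) (hE : HasHS π) {f : π} (hf : f ∈ S.F) {u : π} {j k : ℤ}
    (h : u • (f * S.t) ^ j • S.H = (f * S.t) ^ k • S.H)
    (h' : u • (f * S.t) ^ (j + 1) • S.H ⊆ (f * S.t) ^ (k + 1) • S.H ∨
      (f * S.t) ^ (k + 1) • S.H ⊆ u • (f * S.t) ^ (j + 1) • S.H) : u = (f * S.t) ^ (k - j) := by
  apply S.shift_eq h1 hE hf h
  set y := f * S.t with hy
  have hlt1 : y ^ (k + 1) • S.H ⊆ y ^ k • S.H := S.ch_sub hf (by omega)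
  have hlt2 : y ^ (j + 1) • S.H ⊆ y ^ j • S.H := S.ch_sub hf (by omega)
  rcases h' with h' | h'
  · -- u ch (j+1) ⊆ ch (k+1)
    have h2 := S.step_min' hf (u⁻¹ • y ^ (k + 1) • S.H) (Wall.smul S (S.wall_ch _) _) j
      (by
        rw [Set.subset_smul_set_iff, inv_inv]
        exact h')
      (by
        rw [Set.smul_set_subset_iff_subset_inv_smul_set, inv_inv]
        rw [← hy, h]; exact hlt1)
    rcases h2 with h2 | h2
    · rw [← hy] at h2
      rw [← h2, smul_inv_smul]
    · exfalso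
      rw [← hy] at h2
      have h3 : y ^ (k + 1) • S.H = y ^ k • S.H := by
        rw [← h, ← h2, smul_inv_smul]
      have := S.ch_inj hf h3
      omega
  · have h2 := S.step_min' hf (u • y ^ (j + 1) • S.H) (Wall.smul S (S.wall_ch _) _) k h'
      (by rw [← hy, ← h]; exact Set.smul_set_mono hlt2)
    rcases h2 with h2 | h2
    · exact h2
    · exfalso
      rw [← hy, ← h] at h2
      have h3 := smul_left_cancel _ h2
      have := S.ch_inj hf h3
      omega

/-- walls between two walls of the chain -/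
lemma between {f : π} (hf : f ∈ S.F) {B : Set π} (hB : S.Wall B) {m n : ℤ} (hmn : n ≤ m)
    (h1 : (f * S.t) ^ m • S.H ⊆ B) (h2 : B ⊆ (f * S.t) ^ n • S.H)
    (hc : ∀ k, n ≤ k → k ≤ m → B ⊆ (f * S.t) ^ k • S.H ∨ (f * S.t) ^ k • S.H ⊆ B) :
    ∃ k, n ≤ k ∧ k ≤ m ∧ B = (f * S.t) ^ k • S.H := by
  obtain ⟨k, ⟨hk1, hk2⟩, hk3⟩ := Int.exists_greatest_of_bdd
    (P := fun k => k ≤ m ∧ B ⊆ (f * S.t) ^ k • S.H) ⟨m, fun z hz => hz.1⟩ ⟨n, hmn, h2⟩
  have hnk : n ≤ k := hk3 n ⟨hmn, h2⟩
  by_cases hkm : k = m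
  · subst hkm
    exact ⟨k, hnk, le_rfl, Set.Subset.antisymm hk2 h1⟩
  · have h3 : ¬ B ⊆ (f * S.t) ^ (k + 1) • S.H := fun h => by
      have := hk3 (k + 1) ⟨by omega, h⟩
      omega
    have h4 := (hc (k + 1) (by omega) (by omega)).resolve_left h3
    rcases S.step_min' hf B hB k h4 hk2 with h5 | h5
    · exact ⟨k + 1, by omega, by omega, h5⟩
    · exact ⟨k, hnk, hk1, h5⟩

lemma exists_sub {f : π} (hf : f ∈ S.F) {B : Set π} (hB : B.Nonempty) (n : ℤ)
    (hc : ∀ k, n ≤ k → B ⊆ (f * S.t) ^ k • S.H ∨ (f * S.t) ^ k • S.H ⊆ B) :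
    ∃ k, n ≤ k ∧ (f * S.t) ^ k • S.H ⊆ B := by
  obtain ⟨z, hz⟩ := hB
  obtain ⟨N, hN⟩ := S.exists_level hf z
  refine ⟨max n (N + 1), le_max_left _ _, ?_⟩
  refine (hc _ (le_max_left _ _)).resolve_left fun h => ?_
  have := (hN _).mp (h hz)
  have := le_max_right n (N + 1)
  omega

/-- NS, forward version -/
theorem ns_pos (h1 : OneEnded π) (hE : HasHS π) {f : π} (hf : f ∈ S.F) {u : π} (hu : InfOrd u)
    (h : ∀ j : ℤ, Ev u ((f * S.t) ^ j • S.H)) : u ∈ Subgroup.zpowers (f * S.t) := by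
  set y := f * S.t with hy
  have hsj : ∀ j : ℤ, HS (Subgroup.zpowers (y ^ j * S.w * (y ^ j)⁻¹)) (y ^ j • S.H) := by
    intro j
    have := S.hsH.smul (y ^ j)
    rwa [cj_zpowers] at this
  have hind : ∀ j : ℤ, Ind u (y ^ j * S.w * (y ^ j)⁻¹) := by
    intro j m n e
    have hm : m = 0 := by
      by_contra hm
      -- u ^ m stabilises the halfspace
      obtain ⟨z, hz⟩ := (hsj j).compl.nonempty
      have hst : ∀ i : ℤ, ∀ x, (u ^ m) ^ i * x ∈ y ^ j • S.H ↔ x ∈ y ^ j • S.H := by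
        intro i x
        rw [e, ← zpow_mul]
        exact (hsj j).inv _ (Subgroup.zpow_mem _ (Subgroup.mem_zpowers _) _) x
      have h3 := (h j).pow m.natAbs (by omega)
      obtain ⟨N, hN⟩ := (h3 z).exists
      apply hz
      rcases Int.natAbs_eq m with h4 | h4
      · rw [← hst N z, h4, zpow_natCast, zpow_natCast]
        simpa using hN
      · rw [← hst (-N) z]
        have e5 : (u ^ m) ^ (-(N : ℤ)) = (u ^ m.natAbs) ^ N := by
          rw [← zpow_natCast u, ← zpow_natCast, ← zpow_mul, ← zpow_mul]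
          congr 1
          rw [h4]; simp
        rw [e5]; exact hN
    refine ⟨hm, ?_⟩
    rw [hm, zpow_zero] at e
    exact (S.infOrd_w.conj _) n e.symm
  by_cases hcase : ∃ j0 : ℤ, Ev u⁻¹ (y ^ j0 • S.H)ᶜ
  · obtain ⟨j0, hj0⟩ := hcase
    have hthru : ∀ j, j0 ≤ j → Thru u (y ^ j • S.H) := fun j hj =>
      ⟨h j, hj0.mono (Set.compl_subset_compl.mpr (S.ch_sub hf hj))⟩
    set B := u • y ^ j0 • S.H with hB
    have hBw : S.Wall B := Wall.smul S (S.wall_ch _) u
    have hBt : Thru u B := by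
      have := (Thru.smul_iff (u := u) (A := y ^ j0 • S.H) u).mpr (hthru j0 le_rfl)
      have e : u * u * u⁻¹ = u := by group
      rwa [e] at this
    have hBn : B.Nonempty := by
      obtain ⟨n, hn⟩ := (hBt.1 1).exists
      exact ⟨_, hn⟩
    have hcomp : ∀ k, j0 ≤ k → B ⊆ y ^ k • S.H ∨ y ^ k • S.H ⊆ B := fun k hk =>
      S.comparable hBw (S.wall_ch _) hBt (hthru k hk)
    have hnot : ¬ y ^ j0 • S.H ⊆ B := by
      intro h2
      obtain ⟨z, hz⟩ := (hsj j0).nonempty
      have h3 : ∀ n : ℕ, u⁻¹ ^ n * z ∈ y ^ j0 • S.H := by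
        intro n
        induction n with
        | zero => simpa using hz
        | succ n ih =>
          have h4 := h2 ih
          rw [hB, mem_smul'] at h4
          rw [pow_succ', mul_assoc]
          exact h4
      obtain ⟨n, hn⟩ := (hj0 z).exists
      exact hn (h3 n)
    have hBsub : B ⊆ y ^ j0 • S.H := (hcomp j0 le_rfl).resolve_right hnot
    obtain ⟨m, hm1, hm2⟩ := S.exists_sub hf hBn j0 hcomp
    obtain ⟨k, hk1, hk2, hk3⟩ := S.between hf hBw hm1 hm2 hBsub (fun k hk _ => hcomp k hk)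
    have h2 : u = y ^ (k - j0) := by
      apply S.shift_succ h1 hE hf hk3
      apply S.comparable (Wall.smul S (S.wall_ch _) u) (S.wall_ch _) (u := u)
      · have := (Thru.smul_iff (u := u) (A := y ^ (j0 + 1) • S.H) u).mpr (hthru (j0 + 1) (by omega))
        have e : u * u * u⁻¹ = u := by group
        rwa [e] at this
      · exact hthru (k + 1) (by omega)
    rw [h2]
    exact Subgroup.zpow_mem _ (Subgroup.mem_zpowers _) _
  · exfalso
    push Not at hcase
    have hins : ∀ j : ℤ, Ins u (y ^ j • S.H) := fun j =>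
      ⟨h j, ((hsj j).ev_or (hind j).inv_left).resolve_right (hcase j)⟩
    obtain ⟨U, hU⟩ := hE u hu
    have hor : ∀ j : ℤ, (U \ (y ^ j • S.H)).Finite ∨ (Uᶜ \ (y ^ j • S.H)).Finite := by
      intro j
      have h2 := not_thru' h1 (hsj j) hU (Or.inl (hins j))
      rcases hU.cases (hind j).symm with h3 | h3 | h3 | h3
      · -- the wall is inside U, so the complement of U is almost inside
        right
        have h4 := nest h1 (hsj j).compl hU.compl (by rw [compl_compl]; exact hins j)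
          (by rw [compl_compl]; exact h3)
        rw [Set.diff_eq, Set.inter_comm]; exact h4
      · left
        have h4 := nest h1 (hsj j).compl hU (by rw [compl_compl]; exact hins j) h3
        rw [Set.diff_eq, Set.inter_comm]; exact h4
      · exact absurd (Or.inl h3) h2
      · exact absurd (Or.inr h3) h2
    -- one of the two alternatives holds for all j
    have hall : ∃ U', HS (Subgroup.zpowers u) U' ∧ ∀ j : ℤ, (U' \ (y ^ j • S.H)).Finite := by
      by_cases h2 : ∀ j : ℤ, (U \ (y ^ j • S.H)).Finite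
      · exact ⟨U, hU, h2⟩
      · refine ⟨Uᶜ, hU.compl, ?_⟩
        push Not at h2
        obtain ⟨j1, hj1⟩ := h2
        intro j
        have h3 : (Uᶜ \ (y ^ (max j j1) • S.H)).Finite := by
          refine (hor (max j j1)).resolve_left fun h4 => hj1 ?_
          refine h4.subset ?_
          exact Set.diff_subset_diff_right (S.ch_sub hf (le_max_right _ _))
        refine h3.subset ?_
        exact Set.diff_subset_diff_right (S.ch_sub hf (le_max_left _ _))
    obtain ⟨U', hU', hj⟩ := hall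
    obtain ⟨γ, hγ⟩ := fill (o := S.w) hU'
    have h3 : ∀ j : ℤ, γ ∈ y ^ j • S.H := by
      intro j
      have h4 : {n : ℤ | γ * S.w ^ n ∈ U' \ (y ^ j • S.H)}.Finite := by
        refine (hj j).preimage (f := fun n : ℤ => γ * S.w ^ n) ?_
        intro a _ b _ hab
        have h5 : S.w ^ a = S.w ^ b := mul_left_cancel hab
        have h6 : S.w ^ (a - b) = 1 := by rw [zpow_sub, h5, mul_inv_cancel]
        have := S.infOrd_w _ h6
        omega
      obtain ⟨n, hn1, hn2⟩ := (hγ.diff h4).nonempty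
      have h5 : γ * S.w ^ n ∈ y ^ j • S.H := by
        by_contra h6
        exact hn2 ⟨hn1, h6⟩
      rwa [S.right_g _ _ (S.w_zpow n)] at h5
    obtain ⟨N, hN⟩ := S.exists_level hf γ
    have := (hN (N + 1)).mp (h3 _)
    omega

/-- the reversed splitting -/
def rev : Split π where
  F := S.F
  t := S.t⁻¹
  w := S.t * S.w * S.t⁻¹
  H := (S.t • S.H)ᶜ
  w_mem := S.twt
  twt := by
    have e : S.t⁻¹ * (S.t * S.w * S.t⁻¹) * S.t⁻¹⁻¹ = S.w := by group
    rw [e]; exact S.w_mem
  gen := by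
    rw [eq_top_iff, ← S.gen, Subgroup.closure_le]
    rintro x (hx | hx)
    · exact Subgroup.subset_closure (Or.inl hx)
    · rw [Set.mem_singleton_iff] at hx
      subst hx
      have : S.t⁻¹ ∈ Subgroup.closure ((S.F : Set π) ∪ {S.t⁻¹}) :=
        Subgroup.subset_closure (Or.inr rfl)
      simpa using Subgroup.inv_mem _ this
  one_mem := by
    rw [Set.mem_compl_iff, mem_smul', mul_one]
    exact S.tinv
  tinv := by
    rw [inv_inv, Set.mem_compl_iff, not_not, mem_smul', inv_mul_cancel]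
    exact S.one_mem
  right := by
    intro x f hf
    rw [Set.mem_compl_iff, Set.mem_compl_iff, S.right_g _ x hf]
  edge := by
    intro x hx
    have h1 : ¬ (x * S.t⁻¹ * S.t ∈ S.t • S.H ↔ x * S.t⁻¹ ∈ S.t • S.H) := by
      intro h
      apply hx
      rw [Set.mem_compl_iff, Set.mem_compl_iff]
      rw [inv_mul_cancel_right] at h
      rw [h]
    rw [S.not_iff_edge_g] at h1
    obtain ⟨k, hk⟩ := Subgroup.mem_zpowers_iff.mp h1
    refine Subgroup.mem_zpowers_iff.mpr ⟨k, ?_⟩
    rw [conj_zpow, hk]; group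
  τ := S.τ⁻¹
  τF := by
    intro f hf
    rw [MonoidHom.inv_apply, S.τF f hf, inv_one]
  τt := by
    rw [MonoidHom.inv_apply, map_inv, inv_inv, S.τt]
  σ := S.σ
  σw := by
    rw [map_mul, map_mul, map_inv, mul_comm (S.σ S.t), mul_inv_cancel_right]
    exact S.σw
  Fbig := S.Fbig

/-- NS, backward version -/
theorem ns_neg (h1 : OneEnded π) (hE : HasHS π) {f : π} (hf : f ∈ S.F) {u : π} (hu : InfOrd u)
    (h : ∀ j : ℤ, Ev u ((f * S.t) ^ j • S.H)ᶜ) : u ∈ Subgroup.zpowers (f * S.t) := by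
  have h2 : S.t * u * S.t⁻¹ ∈ Subgroup.zpowers (f⁻¹ * S.rev.t) := by
    apply S.rev.ns_pos h1 hE (S.F.inv_mem hf) (hu.conj S.t)
    intro j
    have e : (f⁻¹ * S.rev.t) ^ j • S.rev.H = S.t • ((f * S.t) ^ (-j) • S.H)ᶜ := by
      change (f⁻¹ * S.t⁻¹) ^ j • (S.t • S.H)ᶜ = _
      rw [smul_compl', smul_compl', smul_smul, smul_smul]
      congr 2
      have e1 : f⁻¹ * S.t⁻¹ = S.t * (f * S.t)⁻¹ * S.t⁻¹ := by group
      rw [e1, conj_zpow, inv_zpow', inv_mul_cancel_right]
    rw [e]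
    exact (h (-j)).smul S.t
  obtain ⟨k, hk⟩ := Subgroup.mem_zpowers_iff.mp h2
  refine Subgroup.mem_zpowers_iff.mpr ⟨-k, ?_⟩
  have e1 : f⁻¹ * S.rev.t = S.t * (f * S.t)⁻¹ * S.t⁻¹ := by
    change f⁻¹ * S.t⁻¹ = _
    group
  rw [e1, conj_zpow, inv_zpow'] at hk
  exact mul_left_cancel (mul_right_cancel hk)

theorem root (h1 : OneEnded π) (hE : HasHS π) {f : π} (hf : f ∈ S.F) {u : π} {b : ℤ}
    (hb : b ≠ 0) (h : u * (f * S.t) ^ b = (f * S.t) ^ b * u) :
    u ∈ Subgroup.zpowers (f * S.t) := by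
  set y := f * S.t with hy
  have hbn : ∃ b : ℕ, 0 < b ∧ u * y ^ b = y ^ b * u := by
    refine ⟨b.natAbs, by omega, ?_⟩
    have hc : Commute u (y ^ b) := h
    rcases Int.natAbs_eq b with h2 | h2
    · rw [h2, zpow_natCast] at hc
      exact hc
    · rw [h2, zpow_neg, zpow_natCast] at hc
      have := hc.inv_right
      rw [inv_inv] at this
      exact this
  obtain ⟨b, hb, hcomm⟩ := hbn
  have hty : ∀ k : ℤ, Thru (y ^ b) (y ^ k • S.H) := fun k =>
    ⟨(S.thru_ch hf k).1.pow b hb, by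
      have := (S.thru_ch hf k).2.pow b hb
      rwa [inv_pow] at this⟩
  have htu : ∀ k : ℤ, Thru (y ^ b) (u • y ^ k • S.H) := fun k => by
    have := (Thru.smul_iff u).mpr (hty k)
    rw [hcomm, mul_inv_cancel_right] at this
    exact this
  have hcomp : ∀ j k : ℤ, u • y ^ j • S.H ⊆ y ^ k • S.H ∨ y ^ k • S.H ⊆ u • y ^ j • S.H :=
    fun j k => S.comparable (Wall.smul S (S.wall_ch _) u) (S.wall_ch _) (htu j) (hty k)
  have hne : (u • y ^ (0 : ℤ) • S.H).Nonempty := by
    obtain ⟨n, hn⟩ := ((htu 0).1 1).exists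
    exact ⟨_, hn⟩
  obtain ⟨m, hm0, hm⟩ := S.exists_sub hf hne 0 (fun k _ => hcomp 0 k)
  have hn : ∃ n : ℤ, n ≤ m ∧ u • y ^ (0 : ℤ) • S.H ⊆ y ^ n • S.H := by
    obtain ⟨z, hz⟩ : (u • y ^ (0 : ℤ) • S.H)ᶜ.Nonempty := by
      obtain ⟨n, hn⟩ := ((htu 0).2 1).exists
      exact ⟨_, hn⟩
    obtain ⟨N, hN⟩ := S.exists_level hf z
    refine ⟨min m N, min_le_left _ _, ?_⟩
    refine (hcomp 0 _).resolve_right fun h2 => hz ?_
    exact h2 ((hN _).mpr (min_le_right _ _))
  obtain ⟨n, hnm, hn⟩ := hn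
  obtain ⟨k, _, _, hk⟩ := S.between hf (Wall.smul S (S.wall_ch _) u) hnm hm hn
    (fun k _ _ => hcomp 0 k)
  have := S.shift_succ h1 hE hf hk (hcomp _ _)
  rw [this]
  exact Subgroup.zpow_mem _ (Subgroup.mem_zpowers _) _

end Split

end Run7.h955
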