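import Mathlib

set_option autoImplicit false

/-!
# Definitions for the project MP_e058c8_al

Halfspaces (almost invariant sets) of cyclic subgroups, rays, crossings, splittings, and the
standard presentation of the surface group.
-/

open Pointwise commutatorElement

namespace Run7.h955

/-! ## The surface group -/

/-- The product of commutators `[a_1,b_1]...[a_g,b_g]`; `(i,false)` is `a_i`, `(i,true)` is `b_i`. -/
def rel (g : ℕ) : FreeGroup (Fin g × Bool) :=
  (List.ofFn fun i : Fin g => ⁅FreeGroup.of (i, false), FreeGroup.of (i, true)⁆).prod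

/-- The fundamental group of the closed orientable surface of genus `g`. -/
abbrev SG (g : ℕ) : Type := PresentedGroup ({rel g} : Set (FreeGroup (Fin g × Bool)))

/-- The generator `a_i`. -/
def ga {g : ℕ} (i : Fin g) : SG g := PresentedGroup.of (i, false)

/-- The generator `b_i`. -/
def gb {g : ℕ} (i : Fin g) : SG g := PresentedGroup.of (i, true)

/-! ## Halfspaces -/

section

variable {π : Type*} [Group π]

/-- `X` is contained in finitely many right cosets `C f`. -/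
def CFin (C : Subgroup π) (X : Set π) : Prop :=
  ∃ F : Set π, F.Finite ∧ ∀ x ∈ X, ∃ f ∈ F, x * f⁻¹ ∈ C

/-- `A` is a halfspace of the subgroup `C`. -/
structure HS (C : Subgroup π) (A : Set π) : Prop where
  inv : ∀ c ∈ C, ∀ x, c * x ∈ A ↔ x ∈ A
  cob : ∀ s, CFin C {x | ¬ (x * s ∈ A ↔ x ∈ A)}
  inf : ¬ CFin C A
  infc : ¬ CFin C Aᶜ

/-- The ray `u ^ n` goes into `A`, from every base point. -/
def Ev (u : π) (A : Set π) : Prop := ∀ z, ∀ᶠ n : ℕ in Filter.atTop, u ^ n * z ∈ A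

/-- The line of `u` goes from the complement of `A` into `A`. -/
def Thru (u : π) (A : Set π) : Prop := Ev u A ∧ Ev u⁻¹ Aᶜ

/-- Both ends of the line of `u` are in `A`. -/
def Ins (u : π) (A : Set π) : Prop := Ev u A ∧ Ev u⁻¹ A

/-- `u` and `v` have infinite order and generate cyclic groups with trivial intersection. -/
def Ind (u v : π) : Prop := ∀ m n : ℤ, u ^ m = v ^ n → m = 0 ∧ n = 0

/-- `u` has infinite order. -/
def InfOrd (u : π) : Prop := ∀ n : ℤ, u ^ n = 1 → n = 0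

/-- The line of `u` crosses the line of `v`. -/
def CrossEl (u v : π) : Prop :=
  ∃ A, HS (Subgroup.zpowers v) A ∧ (Thru u A ∨ Thru u⁻¹ A)

/-- Crossing of cyclic subgroups. -/
def Cross (C D : Subgroup π) : Prop :=
  ∃ u v, C = Subgroup.zpowers u ∧ D = Subgroup.zpowers v ∧ CrossEl u v

end

/-- One-endedness: sets with finite coboundary are finite or cofinite. -/
def OneEnded (π : Type*) [Group π] : Prop :=
  ∀ D : Set π, (∀ s : π, {x | ¬ (x * s ∈ D ↔ x ∈ D)}.Finite) → D.Finite ∨ Dᶜ.Finite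

/-- Every element of infinite order has a halfspace. -/
def HasHS (π : Type*) [Group π] : Prop :=
  ∀ u : π, InfOrd u → ∃ A, HS (Subgroup.zpowers u) A

/-! ## Splittings -/

/-- An HNN splitting with cyclic edge group, given by its halfspace `H`; the vertex group is `F`,
the stable letter is `t`, and `t w t⁻¹ ∈ F`. -/
structure Split (π : Type*) [Group π] where
  F : Subgroup π
  t : π
  w : π
  H : Set π
  w_mem : w ∈ F
  twt : t * w * t⁻¹ ∈ F
  gen : Subgroup.closure ((F : Set π) ∪ {t}) = ⊤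
  one_mem : (1 : π) ∈ H
  tinv : t⁻¹ ∉ H
  right : ∀ x, ∀ f ∈ F, x * f ∈ H ↔ x ∈ H
  edge : ∀ x, ¬ (x * t ∈ H ↔ x ∈ H) → x * t ∈ Subgroup.zpowers w
  τ : π →* Multiplicative ℤ
  τF : ∀ f ∈ F, τ f = 1
  τt : τ t = Multiplicative.ofAdd 1
  /-- a homomorphism which does not kill the edge group -/
  σ : π →* Multiplicative ℤ
  σw : σ w ≠ 1
  Fbig : ∀ u : π, ¬ CFin (Subgroup.zpowers u) (F : Set π)

/-! ## Graphs of lines -/

/-- The crossing graph of a family of subgroups. -/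
def crossGraph {π : Type*} [Group π] (L : Set (Subgroup π)) : SimpleGraph L :=
  SimpleGraph.fromRel (fun C D => Cross (C : Subgroup π) (D : Subgroup π))

/-- The conjugate of a subgroup. -/
def cj {π : Type*} [Group π] (h : π) (C : Subgroup π) : Subgroup π :=
  C.map (MulAut.conj h).toMonoidHom

/-- The image of a subgroup under an automorphism. -/
def am {π : Type*} [Group π] (f : MulAut π) (C : Subgroup π) : Subgroup π :=
  C.map (f : π ≃* π).toMonoidHom

/-- A family of lines which contains the edge group of a splitting and the line of `x`. -/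
structure LineSys {π : Type*} [Group π] (S : Split π) (x : π) where
  L : Set (Subgroup π)
  cyc : ∀ C ∈ L, ∃ u, InfOrd u ∧ C = Subgroup.zpowers u
  aut : ∀ f : MulAut π, ∀ C ∈ L, am f C ∈ L
  disj : ∀ C ∈ L, ∀ D ∈ L, C ≠ D → C ⊓ D = ⊥
  fin : ∃ I : ℕ, ∀ C ∈ L, ∃ T : Finset π, T.card ≤ I ∧
    ∀ h, Cross (cj h C) C → ∃ c ∈ C, ∃ k ∈ T, ∃ c' ∈ C, h = c * k * c'
  w_mem : Subgroup.zpowers S.w ∈ L
  x_mem : Subgroup.zpowers x ∈ L

/-! ## Rotation systems -/

/-- The input of the abstract small cancellation theorem. -/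
structure RotSys (G V : Type*) [Group G] [MulAction G V] where
  gr : SimpleGraph V
  gr_smul : ∀ (g : G) p q, gr.Adj p q → gr.Adj (g • p) (g • q)
  conn : gr.Connected
  P : Subgroup G
  Pn : P.Normal
  x0 : V
  ρ : G
  ρP : ρ ∈ P
  ρx : ρ • x0 = x0
  κ : V → ℤ
  θ : ℤ
  Θ : ℤ
  A1 : ∀ p q, p ≠ x0 → q ≠ x0 → gr.Adj p q → |κ p - κ q| ≤ θ
  A2 : ∀ p, p ≠ x0 → κ (ρ • p) = κ p + 1
  B : ∀ p q, p ≠ x0 → q ≠ x0 → Θ ≤ |κ p - κ q| →
    gr.dist p q = gr.dist p x0 + gr.dist x0 q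
  A3 : ∀ s : G, s • x0 = x0 → ∃ ε : ℤ, (ε = 1 ∨ ε = -1) ∧ s * ρ * s⁻¹ = ρ ^ ε ∧
    ∃ c : ℤ, ∀ p, p ≠ x0 → |κ (s • p) - (ε * κ p + c)| ≤ θ
  r : ℕ
  rpos : 0 < r
  b : ℕ → G
  bper : ∀ i, b (i + r) = b i
  bne : ∀ i, b i • x0 ≠ b (i + 1) • x0
  F : ∀ s : G, (∀ i, s * (b i * ρ * (b i)⁻¹) = (b i * ρ * (b i)⁻¹) * s) → s = 1
  C : ℕ
  J : ∀ t : G, ∃ p ∈ P, gr.dist (b (r - 1) • x0) ((p * t) • (b 0 • x0)) ≤ C

end Run7.h955
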