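import Pool.Agent.Run7.h955.F1

set_option autoImplicit false

/-!
# A self-crossing element
-/

open Pointwise

namespace Run7.h955

variable {π : Type*} [Group π]

namespace Split

variable (S : Split π)

lemma strictAnti_of {y : π} (hy : y • S.H ⊂ S.H) : StrictAnti fun n : ℤ => y ^ n • S.H := by
  apply strictAnti_int_of_succ_lt
  intro n
  have e : y ^ (n + 1) • S.H = y ^ n • y • S.H := by
    rw [smul_smul, zpow_add_one]
  constructor
  · rw [e]
    exact Set.smul_set_mono hy.1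
  · intro h2
    apply hy.2
    rw [e] at h2
    exact Set.smul_set_subset_smul_set_iff.mp h2

theorem level_of {y : π} (hy : y • S.H ⊂ S.H) (p : π) :
    ∃ N : ℤ, ∀ n : ℤ, p ∈ y ^ n • S.H ↔ n ≤ N := by
  have hsa := S.strictAnti_of hy
  obtain ⟨q, hq1, hq2⟩ := Set.exists_of_ssubset hy
  have hq1' : q ∈ y ^ (0 : ℤ) • S.H := by rw [zpow_zero, one_smul]; exact hq1
  have hq2' : q ∉ y ^ (1 : ℤ) • S.H := by rw [zpow_one]; exact hq2
  have hfin := S.finite_walls q (q⁻¹ * p)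
  rw [mul_inv_cancel_left] at hfin
  have h1 : ∃ n : ℤ, p ∈ y ^ n • S.H := by
    by_contra h
    push Not at h
    have hinf : Set.Infinite (Set.range fun n : ℕ => y ^ (-(n : ℤ)) • S.H) := by
      apply Set.infinite_range_of_injective
      intro a b hab
      have := hsa.injective hab
      omega
    apply hinf
    refine hfin.subset ?_
    rintro _ ⟨n, rfl⟩
    refine ⟨⟨_, rfl⟩, ?_⟩
    intro h2
    apply h (-(n : ℤ))
    rw [h2]
    exact hsa.antitone (by omega : -(n : ℤ) ≤ 0) hq1'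
  have h2 : ∃ n : ℤ, p ∉ y ^ n • S.H := by
    by_contra h
    push Not at h
    have hinf : Set.Infinite (Set.range fun n : ℕ => y ^ ((n : ℤ) + 1) • S.H) := by
      apply Set.infinite_range_of_injective
      intro a b hab
      have := hsa.injective hab
      omega
    apply hinf
    refine hfin.subset ?_
    rintro _ ⟨n, rfl⟩
    refine ⟨⟨_, rfl⟩, ?_⟩
    intro h2
    have h3 := h2.mp (h _)
    exact hq2' (hsa.antitone (by omega : (1 : ℤ) ≤ (n : ℤ) + 1) h3)
  obtain ⟨a, ha⟩ := h1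
  obtain ⟨b, hb⟩ := h2
  obtain ⟨N, hN1, hN2⟩ := Int.exists_greatest_of_bdd (P := fun n => p ∈ y ^ n • S.H)
    ⟨b, fun z hz => by
      by_contra h
      exact hb (hsa.antitone (by omega : b ≤ z) hz)⟩ ⟨a, ha⟩
  exact ⟨N, fun n => ⟨fun h => hN2 n h, fun h => hsa.antitone h hN1⟩⟩

theorem thru_of {y : π} (hy : y • S.H ⊂ S.H) (k : ℤ) : Thru y (y ^ k • S.H) := by
  constructor
  · intro z
    obtain ⟨N, hN⟩ := S.level_of hy z
    filter_upwards [Filter.eventually_ge_atTop (k - N).toNat] with n hn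
    rw [mem_smul']
    have e : (y ^ k)⁻¹ * (y ^ n * z) = (y ^ (k - n))⁻¹ * z := by
      rw [← mul_assoc, ← zpow_natCast, ← zpow_neg, ← zpow_add, ← zpow_neg]
      congr 2; ring
    rw [e, ← mem_smul', hN]
    omega
  · intro z
    obtain ⟨N, hN⟩ := S.level_of hy z
    filter_upwards [Filter.eventually_ge_atTop (N - k + 1).toNat] with n hn
    rw [Set.mem_compl_iff, mem_smul']
    have e : (y ^ k)⁻¹ * (y⁻¹ ^ n * z) = (y ^ (k + n))⁻¹ * z := by
      rw [← mul_assoc, inv_pow, ← zpow_natCast, ← zpow_neg, ← zpow_neg, ← zpow_add, ← zpow_neg]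
      congr 2; ring
    rw [e, ← mem_smul', hN]
    omega

lemma ev_pos {y : π} (hy : y • S.H ⊂ S.H) : Ev y (y • S.H) := by
  have := (S.thru_of hy 1).1
  rwa [zpow_one] at this

lemma ev_neg {y : π} (hy : y • S.H ⊂ S.H) : Ev y⁻¹ (y⁻¹ • S.H)ᶜ := by
  have := (S.thru_of hy (-1)).2
  rwa [zpow_neg, zpow_one] at this

lemma smul_w (g : π) (j : ℤ) : (g * S.w ^ j) • S.H = g • S.H := by
  rw [mul_smul, S.smul_of_mem (Subgroup.zpow_mem _ (Subgroup.mem_zpowers _) j)]

lemma smul_w' (j : ℤ) : S.w ^ j • S.H = S.H :=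
  S.smul_of_mem (Subgroup.zpow_mem _ (Subgroup.mem_zpowers _) j)

/-- stabilisers of walls at distance two -/
lemma pair_stab2 (h1 : OneEnded π) (hE : HasHS π) {f : π} (hf : f ∈ S.F) (g : π)
    (h : g • S.t⁻¹ • S.H = S.t⁻¹ • S.H) (h' : g • ((f * S.t) • S.H) = (f * S.t) • S.H) :
    g = 1 := by
  have htH : S.H ⊆ S.t⁻¹ • S.H := by
    have := S.step_subset S.F.one_mem
    rw [one_mul] at this
    rw [Set.subset_smul_set_iff, inv_inv]; exact this
  have key : ∀ g : π, g • S.t⁻¹ • S.H = S.t⁻¹ • S.H → g • ((f * S.t) • S.H) = (f * S.t) • S.H →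
      g • S.H ⊆ S.H → g • S.H = S.H := by
    intro g h h' h2
    have h3 : (f * S.t) • S.H ⊆ g • S.H := by
      rw [← h']; exact Set.smul_set_mono (S.step_subset hf)
    rcases S.step_min hf (g • S.H) (S.wall_ch g) h3 h2 with h4 | h4
    · exfalso
      rw [← h'] at h4
      have h5 := smul_left_cancel _ h4
      exact (S.step_sub hf).2 (by rw [← h5])
    · exact h4
  have hgi : g⁻¹ • S.t⁻¹ • S.H = S.t⁻¹ • S.H := by
    rw [inv_smul_eq_iff]; exact h.symm
  have hgi' : g⁻¹ • ((f * S.t) • S.H) = (f * S.t) • S.H := by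
    rw [inv_smul_eq_iff]; exact h'.symm
  have hgH : g • S.H = S.H := by
    rcases S.nested g with h2 | h2 | h2 | h2
    · exact key g h h' h2
    · have h3 : g⁻¹ • S.H ⊆ S.H := by
        rw [Set.smul_set_subset_iff_subset_inv_smul_set, inv_inv]; exact h2
      have h4 := key g⁻¹ hgi hgi' h3
      rw [inv_smul_eq_iff] at h4
      exact h4.symm
    · exfalso
      have h3 : f * S.t ∈ (f * S.t) • S.H := by
        rw [mem_smul', inv_mul_cancel]; exact S.one_mem
      refine Set.disjoint_left.mp h2 ?_ (S.step_subset hf h3)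
      rw [← h'] at h3
      exact Set.smul_set_mono (S.step_subset hf) h3
    · exfalso
      obtain ⟨p, hp⟩ := S.hsH.smul S.t⁻¹ |>.compl.nonempty
      have h3 : p ∈ g • S.H ∪ S.H := by rw [h2]; trivial
      rcases h3 with h3 | h3
      · apply hp
        rw [← h]
        exact Set.smul_set_mono htH h3
      · exact hp (htH h3)
  exact S.pair_stab h1 hE hf g hgH h'

/-- independence of conjugate edge groups from trivial common stabilisers -/
lemma ind_of_stab (a b : π) (h : ∀ g : π, g • a • S.H = a • S.H → g • b • S.H = b • S.H → g = 1) :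
    Ind (a * S.w * a⁻¹) (b * S.w * b⁻¹) := by
  intro m n e
  have h2 : (a * S.w * a⁻¹) ^ m = 1 := by
    apply h
    · rw [conj_zpow, smul_smul, inv_mul_cancel_right, S.smul_w]
    · rw [e, conj_zpow, smul_smul, inv_mul_cancel_right, S.smul_w]
  refine ⟨S.infOrd_w.conj a m h2, ?_⟩
  rw [h2] at e
  exact S.infOrd_w.conj b n e.symm

/-- walls `w ^ j q H` are almost contained in the halfspace of a line crossing `w` -/
lemma claim (h1 : OneEnded π) {z : π} {Z : Set π} (hZ : HS (Subgroup.zpowers z) Z)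
    (hzi : Ind z S.w) (hwZ : Thru S.w Z) (q : π) (B : ℤ → Set π)
    (hB : ∀ j, HS (Subgroup.zpowers (S.w ^ j * q * S.w * (S.w ^ j * q)⁻¹)) (B j))
    (ha : ∀ j, Ins z (B j)ᶜ) (hτ : S.τ z ≠ 1)
    (hb : Ind S.w (q * S.w * q⁻¹))
    (hc : ∀ p : π, {l : ℤ | ∃ j n : ℤ, S.w ^ j * q * S.w ^ n = z ^ l * p}.Finite) :
    ∃ J : ℕ, ∀ j : ℤ, (J ≤ j → (B j \ Z).Finite) ∧ (j ≤ -J → (B j ∩ Z).Finite) := by
  obtain ⟨F, hF, hF1⟩ := hZ.cob S.w
  -- exceptional pairs
  have hexc : {jn : ℤ × ℤ | S.w ^ jn.1 * q * S.w ^ jn.2 ∈ {x | ¬ (x * S.w ∈ Z ↔ x ∈ Z)}}.Finite := by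
    have hsub : {jn : ℤ × ℤ | S.w ^ jn.1 * q * S.w ^ jn.2 ∈ {x | ¬ (x * S.w ∈ Z ↔ x ∈ Z)}} ⊆
        ⋃ f ∈ F, ⋃ l ∈ {l : ℤ | ∃ j n : ℤ, S.w ^ j * q * S.w ^ n = z ^ l * f},
          {jn : ℤ × ℤ | S.w ^ jn.1 * q * S.w ^ jn.2 = z ^ l * f} := by
      rintro ⟨j, n⟩ hjn
      obtain ⟨f, hf, h2⟩ := hF1 _ hjn
      obtain ⟨l, hl⟩ := Subgroup.mem_zpowers_iff.mp h2
      have e : S.w ^ j * q * S.w ^ n = z ^ l * f := by rw [hl]; group
      refine Set.mem_biUnion hf ?_
      exact Set.mem_biUnion (show l ∈ {l : ℤ | ∃ j n : ℤ, S.w ^ j * q * S.w ^ n = z ^ l * f}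
        from ⟨j, n, e⟩) e
    refine (hF.biUnion fun f _ => (hc f).biUnion fun l _ => ?_).subset hsub
    apply Set.Subsingleton.finite
    rintro ⟨j, n⟩ h2 ⟨j', n'⟩ h3
    rw [Set.mem_setOf_eq] at h2 h3
    simp only at h2 h3
    have h4 : S.w ^ (j' - j) = (q * S.w * q⁻¹) ^ (n - n') := by
      rw [conj_zpow, zpow_sub, zpow_sub]
      have h5 : S.w ^ j * q * S.w ^ n = S.w ^ j' * q * S.w ^ n' := by rw [h2, h3]
      have h6 : (S.w ^ j)⁻¹ * S.w ^ j' = q * (S.w ^ n * (S.w ^ n')⁻¹) * q⁻¹ := by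
        calc (S.w ^ j)⁻¹ * S.w ^ j' = (S.w ^ j)⁻¹ * (S.w ^ j' * q * S.w ^ n') *
              ((S.w ^ n')⁻¹ * q⁻¹) := by group
          _ = (S.w ^ j)⁻¹ * (S.w ^ j * q * S.w ^ n) * ((S.w ^ n')⁻¹ * q⁻¹) := by rw [h5]
          _ = _ := by group
      rw [← h6, ← zpow_neg, ← zpow_add, ← zpow_add, add_comm]
    obtain ⟨h5, h6⟩ := hb _ _ h4
    simp only [Prod.mk.injEq]
    constructor <;> omega
  obtain ⟨J1, hJ1⟩ : ∃ J1 : ℕ, ∀ j n : ℤ, (J1 : ℤ) ≤ |j| →
      (S.w ^ j * q * S.w ^ (n + 1) ∈ Z ↔ S.w ^ j * q * S.w ^ n ∈ Z) := by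
    have h2 := (hexc.image Prod.fst).image (fun j : ℤ => |j|)
    obtain ⟨M, hM⟩ := h2.bddAbove
    refine ⟨M.toNat + 1, fun j n hj => ?_⟩
    by_contra hcon
    have h3 : |j| ≤ M := hM ⟨j, ⟨(j, n), by
      change ¬ (S.w ^ j * q * S.w ^ n * S.w ∈ Z ↔ S.w ^ j * q * S.w ^ n ∈ Z)
      rw [mul_assoc (S.w ^ j * q), ← zpow_add_one]; exact hcon, rfl⟩, rfl⟩
    push_cast at hj
    omega
  have hall : ∀ j : ℤ, (J1 : ℤ) ≤ |j| → ∀ n : ℤ, S.w ^ j * q * S.w ^ n ∈ Z ↔ S.w ^ j * q ∈ Z := by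
    intro j hj n
    have h0 : ∀ n : ℕ, (S.w ^ j * q * S.w ^ (n : ℤ) ∈ Z ↔ S.w ^ j * q ∈ Z) ∧
        (S.w ^ j * q * S.w ^ (-(n : ℤ)) ∈ Z ↔ S.w ^ j * q ∈ Z) := by
      intro n
      induction n with
      | zero => simp
      | succ n ih =>
        push_cast
        constructor
        · rw [hJ1 j n hj]; exact ih.1
        · have h3 := hJ1 j (-((n : ℤ) + 1)) hj
          have e : -((n : ℤ) + 1) + 1 = -(n : ℤ) := by ring
          rw [e] at h3
          rw [← h3]; exact ih.2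
    rcases Int.eq_nat_or_neg n with ⟨k, rfl | rfl⟩
    · exact (h0 k).1
    · exact (h0 k).2
  obtain ⟨J2, hJ2⟩ := Filter.eventually_atTop.mp (hwZ.1 q)
  obtain ⟨J3, hJ3⟩ := Filter.eventually_atTop.mp (hwZ.2 q)
  refine ⟨J1 + J2 + J3, fun j => ?_⟩
  have hci : Ind (S.w ^ j * q * S.w * (S.w ^ j * q)⁻¹) z := (S.ind_w _ z hτ).symm
  have hpow : ∀ n : ℕ, (S.w ^ j * q * S.w * (S.w ^ j * q)⁻¹) ^ n * (S.w ^ j * q) =
      S.w ^ j * q * S.w ^ (n : ℤ) := by
    intro n
    rw [conj_pow, zpow_natCast]; group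
  have hpow' : ∀ n : ℕ, (S.w ^ j * q * S.w * (S.w ^ j * q)⁻¹)⁻¹ ^ n * (S.w ^ j * q) =
      S.w ^ j * q * S.w ^ (-(n : ℤ)) := by
    intro n
    rw [inv_pow, conj_pow, zpow_neg, zpow_natCast]; group
  constructor
  · intro hj
    push_cast at hj
    have hjabs : (J1 : ℤ) ≤ |j| := le_trans (by omega) (le_abs_self j)
    have hin : S.w ^ j * q ∈ Z := by
      have := hJ2 j.toNat (by omega)
      rwa [← zpow_natCast, Int.toNat_of_nonneg (by omega)] at this
    have h2 : Ins (S.w ^ j * q * S.w * (S.w ^ j * q)⁻¹) Z := by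
      constructor
      · refine hZ.ev_of_freq hci (S.w ^ j * q) (Filter.Eventually.frequently ?_)
        refine Filter.Eventually.of_forall fun n => ?_
        rw [hpow, hall j hjabs]; exact hin
      · refine hZ.ev_of_freq hci.inv_left (S.w ^ j * q) (Filter.Eventually.frequently ?_)
        refine Filter.Eventually.of_forall fun n => ?_
        rw [hpow', hall j hjabs]; exact hin
    have h3 := nest h1 (hB j) hZ.compl (ha j) (by rw [compl_compl]; exact h2)
    rw [Set.diff_eq]; exact h3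
  · intro hj
    push_cast at hj
    have hjabs : (J1 : ℤ) ≤ |j| := le_trans (by omega) (neg_le_abs j)
    have hin : S.w ^ j * q ∉ Z := by
      have := hJ3 (-j).toNat (by omega)
      rw [inv_pow, ← zpow_natCast, Int.toNat_of_nonneg (by omega), ← zpow_neg, neg_neg] at this
      exact this
    have h2 : Ins (S.w ^ j * q * S.w * (S.w ^ j * q)⁻¹) Zᶜ := by
      constructor
      · refine hZ.compl.ev_of_freq hci (S.w ^ j * q) (Filter.Eventually.frequently ?_)
        refine Filter.Eventually.of_forall fun n => ?_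
        rw [hpow, Set.mem_compl_iff, hall j hjabs]; exact hin
      · refine hZ.compl.ev_of_freq hci.inv_left (S.w ^ j * q) (Filter.Eventually.frequently ?_)
        refine Filter.Eventually.of_forall fun n => ?_
        rw [hpow', Set.mem_compl_iff, hall j hjabs]; exact hin
    exact nest h1 (hB j) hZ (ha j) h2

theorem self_cross (h1 : OneEnded π) (hE : HasHS π) {f1 : π} (hf : f1 ∈ S.F)
    (χ : π →* Multiplicative ℤ) (hχ : χ f1 ≠ 1) (hχw : χ S.w = 1) :
    ∃ K : ℕ, ∀ k : ℕ, K ≤ k → ∃ γ : π,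
      CrossEl (γ * (f1 * S.t * S.w ^ k * S.t) * γ⁻¹) (f1 * S.t * S.w ^ k * S.t) := by
  set w := S.w with hw
  set t := S.t with ht
  set p1 := f1 * t with hp1
  have hstep1 : p1 • S.H ⊆ S.H := S.step_subset hf
  have hstept : t • S.H ⊆ S.H := by
    have := S.step_subset S.F.one_mem
    rwa [one_mul] at this
  have hstept' : S.H ⊆ t⁻¹ • S.H := by rw [Set.subset_smul_set_iff, inv_inv]; exact hstept
  have hstep1' : S.H ⊆ p1⁻¹ • S.H := by rw [Set.subset_smul_set_iff, inv_inv]; exact hstep1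
  have hss1 : p1 • S.H ⊂ S.H := S.step_sub hf
  have hone1 : (1 : π) ∉ p1 • S.H := S.one_not_mem_step hf
  -- z
  set z := p1 * t with hz
  have hzsub : z • S.H ⊆ p1 • S.H := by
    rw [hz, mul_smul]; exact Set.smul_set_mono hstept
  have hzss : z • S.H ⊂ S.H := ⟨hzsub.trans hstep1, fun h => hone1 (hzsub (h S.one_mem))⟩
  have hzτ : S.τ z ≠ 1 := by
    rw [hz, map_mul, hp1, map_mul, S.τF f1 hf, one_mul, S.τt]
    intro h
    have := congrArg Multiplicative.toAdd h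
    simp at this
  have hzinf : InfOrd z := infOrd_of_hom S.τ hzτ
  have hzi : Ind z w := by
    have := S.ind_w 1 z hzτ
    rwa [one_mul, inv_one, mul_one] at this
  have hzp : Ev z (p1 • S.H) := (S.ev_pos hzss).mono hzsub
  have hzm : Ev z⁻¹ (t⁻¹ • S.H)ᶜ := by
    refine (S.ev_neg hzss).mono (Set.compl_subset_compl.mpr ?_)
    rw [hz, mul_inv_rev, mul_smul]
    exact Set.smul_set_mono hstep1'
  have hzH : Thru z S.H := ⟨hzp.mono hstep1, hzm.mono (Set.compl_subset_compl.mpr hstept')⟩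
  -- Z
  have hexZ : ∃ Z, HS (Subgroup.zpowers z) Z ∧ Thru w Z := by
    obtain ⟨Z0, hZ0⟩ := hE z hzinf
    rcases cross_symm h1 hZ0 S.hsH hzi (Or.inl hzH) with h | h
    · exact ⟨Z0, hZ0, h⟩
    · exact ⟨Z0ᶜ, hZ0.compl, by have := h.compl; rwa [inv_inv] at this⟩
  obtain ⟨Z, hZ, hwZ⟩ := hexZ
  -- Claim 1
  have hdisj : ∀ j : ℤ, Disjoint ((w ^ j * t) • S.H) (p1 • S.H) := by
    intro j
    have hmem : f1⁻¹ * w ^ j ∈ S.F := S.F.mul_mem (S.F.inv_mem hf) (S.w_zpow j)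
    set g := t⁻¹ * (f1⁻¹ * w ^ j) * t with hg
    have hgw : g ∉ Subgroup.zpowers w := by
      intro h
      obtain ⟨a, ha⟩ := Subgroup.mem_zpowers_iff.mp h
      have e : f1⁻¹ * w ^ j = t * w ^ a * t⁻¹ := by rw [ha, hg]; group
      have e2 := congrArg χ e
      rw [map_mul, map_inv, map_zpow, hχw, one_zpow, mul_one, map_mul, map_mul, map_inv,
        map_zpow, hχw, one_zpow, mul_one, mul_inv_cancel] at e2
      exact hχ (inv_eq_one.mp e2)
    have hgH : g ∉ S.H := by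
      intro h
      have h2 : t⁻¹ * (f1⁻¹ * w ^ j) ∉ S.H := by
        rw [S.right _ _ hmem]; exact S.tinv
      exact hgw ((S.edge_iff1 _).mp ⟨h2, h⟩)
    have hgH' : (1 : π) ∉ g • S.H := by
      rw [mem_smul', mul_one]
      have e : g⁻¹ = t⁻¹ * (f1⁻¹ * w ^ j)⁻¹ * t := by rw [hg]; group
      intro h
      have h2 : t⁻¹ * (f1⁻¹ * w ^ j)⁻¹ ∉ S.H := by
        rw [S.right _ _ (S.F.inv_mem hmem)]; exact S.tinv
      rw [e] at h
      have h3 := (S.edge_iff1 _).mp ⟨h2, h⟩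
      rw [← ht, ← e] at h3
      exact hgw (by simpa using Subgroup.inv_mem _ h3)
    have hd := S.nest_disj hgw hgH hgH'
    rw [Set.disjoint_left] at hd ⊢
    intro x hx hx'
    refine hd (a := p1⁻¹ * x) ?_ (mem_smul'.mp hx')
    rw [mem_smul'] at hx ⊢
    have e : g⁻¹ * (p1⁻¹ * x) = (w ^ j * t)⁻¹ * x := by rw [hg, hp1]; group
    rw [e]; exact hx
  have hwtsub : ∀ j : ℤ, (w ^ j * t) • S.H ⊆ S.H := by
    intro j q hq
    rw [mul_smul] at hq
    have := Set.smul_set_mono hstept hq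
    rwa [S.smul_w'] at this
  have hindt : Ind w (t * w * t⁻¹) := by
    have := S.ind_of_stab 1 t (fun g h h' => by
      rw [one_smul] at h
      apply S.pair_stab h1 hE S.F.one_mem g h
      rw [one_mul]; exact h')
    rwa [one_mul, inv_one, mul_one] at this
  obtain ⟨J1, hJ1⟩ := S.claim h1 hZ hzi hwZ t (fun j => (w ^ j * t) • S.H)
    (fun j => by
      have := S.hsH.smul (w ^ j * t)
      rwa [cj_zpowers] at this)
    (fun j => ⟨hzp.mono fun x hx hx' => Set.disjoint_left.mp (hdisj j) hx' hx,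
      hzm.mono fun x hx hx' => hx (hstept' (hwtsub j hx'))⟩)
    hzτ hindt
    (fun p => by
      have h2 := finite_of_ev (P := fun l => ¬ ∃ j n : ℤ, S.w ^ j * t * S.w ^ n = z ^ l * p)
        ((hzp p).mono fun l hl => by
          rintro ⟨j, n, e⟩
          rw [zpow_natCast, ] at e
          rw [← e, S.right_g _ _ (S.w_zpow n)] at hl
          refine Set.disjoint_left.mp (hdisj j) ?_ hl
          rw [mem_smul', ← hw, inv_mul_cancel]; exact S.one_mem)
        ((hzm p).mono fun l hl => by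
          rintro ⟨j, n, e⟩
          rw [zpow_neg, zpow_natCast, ← inv_pow] at e
          rw [← e, Set.mem_compl_iff, S.right_g _ _ (S.w_zpow n)] at hl
          apply hl
          apply hstept'
          apply hwtsub j
          rw [mem_smul', ← hw, inv_mul_cancel]; exact S.one_mem)
      simpa using h2)
  -- Claim 2
  have huniv : ∀ j : ℤ, (t⁻¹ • S.H) ∪ ((w ^ j * (t⁻¹ * f1⁻¹)) • S.H) = Set.univ := by
    intro j
    set g := (t * w * t⁻¹) ^ j * f1⁻¹ with hg
    have hgF : g ∈ S.F := S.F.mul_mem (S.F.zpow_mem S.twt j) (S.F.inv_mem hf)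
    have hgw : g ∉ Subgroup.zpowers w := by
      intro h
      obtain ⟨a, ha⟩ := Subgroup.mem_zpowers_iff.mp h
      have e2 := congrArg χ ha
      rw [hg, map_mul, map_inv, map_zpow, map_zpow, hχw, one_zpow, map_mul, map_mul, map_inv, hχw,
        mul_one, mul_inv_cancel, one_zpow, one_mul] at e2
      exact hχ (inv_eq_one.mp e2.symm)
    have hgH : g ∈ S.H := by
      have := (S.right 1 g hgF).mpr S.one_mem
      rwa [one_mul] at this
    have hgH' : (1 : π) ∈ g • S.H := by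
      rw [mem_smul', mul_one]
      have := (S.right 1 _ (S.F.inv_mem hgF)).mpr S.one_mem
      rwa [one_mul] at this
    have hu := S.nest_union hgw hgH hgH'
    ext x
    simp only [Set.mem_union, Set.mem_univ, iff_true]
    have h2 : t * x ∈ g • S.H ∪ S.H := by rw [hu]; trivial
    rcases h2 with h2 | h2
    · right
      rw [mem_smul'] at h2 ⊢
      have e : (w ^ j * (t⁻¹ * f1⁻¹))⁻¹ * x = g⁻¹ * (t * x) := by
        rw [hg, conj_zpow]; group
      rw [e]; exact h2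
    · left
      rw [mem_smul', inv_inv]; exact h2
  have hsup : ∀ j : ℤ, S.H ⊆ (w ^ j * (t⁻¹ * f1⁻¹)) • S.H := by
    intro j
    have e : t⁻¹ * f1⁻¹ = p1⁻¹ := by rw [hp1, mul_inv_rev]
    rw [e, mul_smul]
    intro x hx
    rw [← S.smul_w' j] at hx
    exact Set.smul_set_mono hstep1' hx
  have hindp : Ind w ((t⁻¹ * f1⁻¹) * w * (t⁻¹ * f1⁻¹)⁻¹) := by
    have h2 := S.ind_of_stab p1 1 (fun g h h' => by
      rw [one_smul] at h'
      exact S.pair_stab h1 hE hf g h' h)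
    rw [one_mul, inv_one, mul_one] at h2
    have h3 := (h2.conj p1⁻¹).symm
    have e1 : p1⁻¹ * (p1 * S.w * p1⁻¹) * p1⁻¹⁻¹ = w := by rw [hw]; group
    rw [e1] at h3
    have e : t⁻¹ * f1⁻¹ = p1⁻¹ := by rw [hp1, mul_inv_rev]
    rw [e]
    exact h3.symm
  obtain ⟨J2, hJ2⟩ := S.claim h1 hZ hzi hwZ (t⁻¹ * f1⁻¹)
    (fun j => ((w ^ j * (t⁻¹ * f1⁻¹)) • S.H)ᶜ)
    (fun j => by
      have := (S.hsH.smul (w ^ j * (t⁻¹ * f1⁻¹))).compl
      rwa [cj_zpowers] at this)
    (fun j => by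
      rw [compl_compl]
      refine ⟨hzp.mono (hstep1.trans (hsup j)), hzm.mono fun x hx => ?_⟩
      have h2 : x ∈ (t⁻¹ • S.H) ∪ ((w ^ j * (t⁻¹ * f1⁻¹)) • S.H) := by rw [huniv]; trivial
      exact h2.resolve_left hx)
    hzτ hindp
    (fun p => by
      have hmemt : ∀ j n : ℤ, ∃ f ∈ S.F, w ^ j * (t⁻¹ * f1⁻¹) * w ^ n = t⁻¹ * f := by
        intro j n
        refine ⟨(t * w * t⁻¹) ^ j * f1⁻¹ * w ^ n, S.F.mul_mem (S.F.mul_mem
          (S.F.zpow_mem S.twt j) (S.F.inv_mem hf)) (S.w_zpow n), ?_⟩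
        rw [conj_zpow]; group
      have h2 := finite_of_ev
        (P := fun l => ¬ ∃ j n : ℤ, S.w ^ j * (t⁻¹ * f1⁻¹) * S.w ^ n = z ^ l * p)
        ((hzp p).mono fun l hl => by
          rintro ⟨j, n, e⟩
          rw [zpow_natCast] at e
          obtain ⟨f, hfF, e2⟩ := hmemt j n
          rw [← e, ← hw, e2] at hl
          have h3 := hstep1 hl
          rw [S.right _ f hfF] at h3
          exact S.tinv h3)
        ((hzm p).mono fun l hl => by
          rintro ⟨j, n, e⟩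
          rw [zpow_neg, zpow_natCast, ← inv_pow] at e
          obtain ⟨f, hfF, e2⟩ := hmemt j n
          rw [← e, ← hw, e2] at hl
          apply hl
          rw [S.right_g _ _ hfF, mem_smul', inv_inv, ht, mul_inv_cancel]
          exact S.one_mem)
      simpa using h2)
  -- the conclusion
  refine ⟨2 * (J1 + J2), fun k hk => ?_⟩
  set J : ℤ := (J1 : ℤ) + J2 with hJ
  set x' := p1 * w ^ k * t with hx'
  have hwk : w ^ k = w ^ (k : ℤ) := (zpow_natCast w k).symm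
  set y := w ^ ((k : ℤ) - J) * t * p1 * w ^ J with hy
  refine ⟨w ^ (-J) * p1⁻¹, ?_⟩
  have hconj : w ^ (-J) * p1⁻¹ * x' * (w ^ (-J) * p1⁻¹)⁻¹ = y := by
    rw [hx', hy, hwk]
    have e : w ^ ((k : ℤ) - J) = w ^ (-J) * w ^ (k : ℤ) := by rw [← zpow_add]; congr 1; ring
    rw [e]; group
  change CrossEl (w ^ (-J) * p1⁻¹ * x' * (w ^ (-J) * p1⁻¹)⁻¹) x'
  rw [hconj]
  -- x'
  have hx'sub : x' • S.H ⊆ p1 • S.H := by
    rw [hx', hwk, mul_smul, mul_smul]
    have h2 : w ^ (k : ℤ) • t • S.H ⊆ S.H := by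
      rw [smul_smul]; exact hwtsub k
    exact Set.smul_set_mono h2
  have hx'ss : x' • S.H ⊂ S.H := ⟨hx'sub.trans hstep1, fun h => hone1 (hx'sub (h S.one_mem))⟩
  have hx'p : Ev x' (p1 • S.H) := (S.ev_pos hx'ss).mono hx'sub
  have hx'm : Ev x'⁻¹ (t⁻¹ • S.H)ᶜ := by
    refine (S.ev_neg hx'ss).mono (Set.compl_subset_compl.mpr ?_)
    have e : x'⁻¹ = t⁻¹ * (w ^ (-(k : ℤ)) * p1⁻¹) := by rw [hx', hwk]; group
    rw [e, mul_smul]
    apply Set.smul_set_mono
    rw [mul_smul]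
    intro q hq
    rw [← S.smul_w' (-(k : ℤ))] at hq
    exact Set.smul_set_mono hstep1' hq
  have hx'τ : S.τ x' ≠ 1 := by
    rw [hx', map_mul, map_mul, hp1, map_mul, S.τF f1 hf, one_mul, S.τt, map_pow, S.τ_w, one_pow,
      mul_one]
    intro h
    have := congrArg Multiplicative.toAdd h
    simp at this
  have hx'inf : InfOrd x' := infOrd_of_hom S.τ hx'τ
  -- y
  have hysub : y • S.H ⊆ (w ^ ((k : ℤ) - J) * t) • S.H := by
    rw [hy, S.smul_w, mul_smul]; exact Set.smul_set_mono hstep1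
  have hyss : y • S.H ⊂ S.H := by
    refine ⟨hysub.trans (hwtsub _), fun h => ?_⟩
    have h2 := hysub (h S.one_mem)
    rw [mem_smul', mul_one, mul_inv_rev] at h2
    have h3 : (w ^ ((k : ℤ) - J))⁻¹ ∈ S.F := S.F.inv_mem (S.w_zpow _)
    rw [S.right _ _ h3] at h2
    exact S.tinv h2
  have hyp : Ev y ((w ^ ((k : ℤ) - J) * t) • S.H) := (S.ev_pos hyss).mono hysub
  have hym : Ev y⁻¹ ((w ^ (-J) * (t⁻¹ * f1⁻¹)) • S.H)ᶜ := by
    refine (S.ev_neg hyss).mono (Set.compl_subset_compl.mpr ?_)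
    have e : y⁻¹ = w ^ (-J) * (t⁻¹ * f1⁻¹) * t⁻¹ * w ^ (-((k : ℤ) - J)) := by
      rw [hy, hp1]; group
    rw [e, S.smul_w, mul_smul _ t⁻¹]
    exact Set.smul_set_mono hstept'
  have hyinf : InfOrd y := by
    have h2 : S.τ y ≠ 1 := by
      rw [hy, map_mul, map_mul, map_mul, hp1, map_mul, S.τF f1 hf, one_mul, S.τt, map_zpow, S.τ_w,
        one_zpow, map_zpow, S.τ_w, one_zpow, one_mul, mul_one]
      intro h
      have := congrArg Multiplicative.toAdd h
      simp at this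
    exact infOrd_of_hom S.τ h2
  -- parallel
  have hinda : Ind (t⁻¹ * S.w * t⁻¹⁻¹) (p1 * S.w * p1⁻¹) :=
    S.ind_of_stab t⁻¹ p1 fun g h h' => S.pair_stab2 h1 hE hf g h h'
  obtain ⟨X0, hX0⟩ := hE x' hx'inf
  set R : Set π := ((t⁻¹ • S.H)ᶜ ∪ p1 • S.H)ᶜ with hR
  have hAHS : HS (Subgroup.zpowers (t⁻¹ * S.w * t⁻¹⁻¹)) (t⁻¹ • S.H)ᶜ := by
    have := (S.hsH.smul t⁻¹).compl
    rwa [cj_zpowers] at this
  have hBHS : HS (Subgroup.zpowers (p1 * S.w * p1⁻¹)) (p1 • S.H) := by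
    have := S.hsH.smul p1
    rwa [cj_zpowers] at this
  have hpar := parallel h1 hAHS hBHS hX0 hZ (S.ind_w _ x' hx'τ).symm (S.ind_w _ z hzτ).symm
    (S.ind_w _ x' hx'τ).symm (S.ind_w _ z hzτ).symm hinda
    (by
      rw [Set.disjoint_left]
      intro q hq hq'
      exact hq (hstept' (hstep1 hq')))
    ⟨hx'p, hx'm⟩ ⟨hzp, hzm⟩
  have hXex : ∃ X, HS (Subgroup.zpowers x') X ∧ (symmDiff (Z ∩ R) (X ∩ R)).Finite := by
    rcases hpar with h | h
    · exact ⟨X0, hX0, by rw [symmDiff_comm]; exact h⟩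
    · exact ⟨X0ᶜ, hX0.compl, by rw [symmDiff_comm]; exact h⟩
  obtain ⟨X, hX, hXZ⟩ := hXex
  have hyZ : Thru y Z := by
    constructor
    · exact hyp.almost hyinf ((hJ1 ((k : ℤ) - J)).1 (by push_cast at hk; omega))
    · have h3 := (hJ2 (-J)).2 (by omega)
      refine hym.almost hyinf.inv ?_
      rw [Set.diff_compl]; exact h3
  have hyR : Ins y R := by
    constructor
    · refine hyp.mono fun q hq => ?_
      simp only [hR, Set.mem_compl_iff, Set.mem_union, not_or, not_not]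
      exact ⟨hstept' (hwtsub _ hq), fun h => Set.disjoint_left.mp (hdisj _) hq h⟩
    · refine hym.mono fun q hq => ?_
      simp only [hR, Set.mem_compl_iff, Set.mem_union, not_or, not_not]
      constructor
      · have h2 : q ∈ (t⁻¹ • S.H) ∪ ((w ^ (-J) * (t⁻¹ * f1⁻¹)) • S.H) := by rw [huniv]; trivial
        exact h2.resolve_right hq
      · exact fun h => hq (hsup _ (hstep1 h))
  exact ⟨X, hX, Or.inl (transfer hyinf hyR hXZ hyZ)⟩

end Split

end Run7.h955
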