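import Pool.Agent.Run7.h955.D

set_option autoImplicit false

/-!
# Lines which are parallel to an axis for a long time
-/

open Pointwise

namespace Run7.h955

variable {π : Type*} [Group π]

theorem Ev.ind {u c : π} {A : Set π} (h : Ev u A) (hA : HS (Subgroup.zpowers c) A)
    (hc : InfOrd c) : Ind u c := by
  intro m n e
  have hm : m = 0 := by
    by_contra hm
    obtain ⟨z, hz⟩ := hA.compl.nonempty
    have hst : ∀ i : ℤ, ∀ x, (u ^ m) ^ i * x ∈ A ↔ x ∈ A := by
      intro i x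
      rw [e, ← zpow_mul]
      exact hA.inv _ (Subgroup.zpow_mem _ (Subgroup.mem_zpowers _) _) x
    have h3 := h.pow m.natAbs (by omega)
    obtain ⟨N, hN⟩ := (h3 z).exists
    apply hz
    rcases Int.natAbs_eq m with h4 | h4
    · rw [← hst N z, h4, zpow_natCast, zpow_natCast]
      simpa using hN
    · rw [← hst (-N) z]
      have e5 : (u ^ m) ^ (-(N : ℤ)) = (u ^ m.natAbs) ^ N := by
        rw [← zpow_natCast u, ← zpow_natCast, ← zpow_mul, ← zpow_mul]
        congr 1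
        rw [h4]; simp
      rw [e5]; exact hN
  refine ⟨hm, ?_⟩
  rw [hm, zpow_zero] at e
  exact hc n e.symm

theorem Thru.infOrd {u : π} {A : Set π} (h : Thru u A) : InfOrd u := by
  intro m e
  by_contra hm
  have h1 := h.1.pow m.natAbs (by omega)
  have h2 := h.2.pow m.natAbs (by omega)
  have e1 : u ^ m.natAbs = 1 := by
    rcases Int.natAbs_eq m with h4 | h4
    · rw [h4, zpow_natCast] at e; exact e
    · rw [h4, zpow_neg, zpow_natCast, inv_eq_one] at e; exact e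
  obtain ⟨n, hn⟩ := (h1 1).exists
  obtain ⟨k, hk⟩ := (h2 1).exists
  rw [e1] at hn
  rw [inv_pow, e1] at hk
  simp at hn hk
  exact hk hn

theorem transfer {u : π} {U V R : Set π} (hu : InfOrd u) (hR : Ins u R)
    (hsd : (symmDiff (U ∩ R) (V ∩ R)).Finite) (h : Thru u U) : Thru u V := by
  constructor
  · refine Ev.almost hu (h.1.inter hR.1) (hsd.subset ?_)
    rintro x ⟨hx, hx'⟩
    rw [Set.mem_symmDiff]
    exact Or.inl ⟨hx, fun h => hx' h.1⟩
  · refine Ev.almost hu.inv (h.2.inter hR.2) (hsd.subset ?_)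
    rintro x ⟨hx, hx'⟩
    rw [Set.mem_compl_iff, not_not] at hx'
    rw [Set.mem_symmDiff]
    exact Or.inr ⟨⟨hx', hx.2⟩, fun h => hx.1 h.1⟩

theorem transfer' {u : π} {U V R : Set π} (hu : InfOrd u) (hR : Ins u R)
    (hsd : (symmDiff (U ∩ R) (V ∩ R)).Finite) (h : Thru u U ∨ Thru u⁻¹ U) :
    Thru u V ∨ Thru u⁻¹ V := by
  rcases h with h | h
  · exact Or.inl (transfer hu hR hsd h)
  · exact Or.inr (transfer hu.inv hR.inv hsd h)

theorem gen_eq {u v : π} (hu : InfOrd u) (h : Subgroup.zpowers u = Subgroup.zpowers v) :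
    v = u ∨ v = u⁻¹ := by
  have h1 : v ∈ Subgroup.zpowers u := by rw [h]; exact Subgroup.mem_zpowers v
  have h2 : u ∈ Subgroup.zpowers v := by rw [← h]; exact Subgroup.mem_zpowers u
  obtain ⟨m, hm⟩ := Subgroup.mem_zpowers_iff.mp h1
  obtain ⟨n, hn⟩ := Subgroup.mem_zpowers_iff.mp h2
  have h3 : u ^ (m * n - 1) = 1 := by
    rw [zpow_sub, zpow_mul, hm, hn, zpow_one, mul_inv_cancel]
  have h4 := hu _ h3
  have h5 : m * n = 1 := by omega
  rcases Int.eq_one_or_neg_one_of_mul_eq_one h5 with rfl | rfl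
  · left; rw [← hm, zpow_one]
  · right; rw [← hm, zpow_neg, zpow_one]

theorem thru_union {u : π} {A : Set π} (h : Thru u A ∨ Thru u⁻¹ A) :
    Thru u⁻¹ A ∨ Thru u⁻¹⁻¹ A := by
  rw [inv_inv]; exact h.symm

/-- a line does not cross its own halfspaces -/
theorem not_thru_self {c u : π} {A : Set π} (hA : HS (Subgroup.zpowers c) A)
    (hu : u ∈ Subgroup.zpowers c) : ¬ Thru u A := by
  intro h
  obtain ⟨z, hz⟩ := hA.nonempty
  obtain ⟨n, hn⟩ := (h.2 z).exists
  apply hn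
  exact (hA.inv _ (Subgroup.pow_mem _ (Subgroup.inv_mem _ hu) n) z).mpr hz

namespace LineSys

variable {S : Split π} {x : π} (Λ : LineSys S x)

theorem ind {u v : π} (hu : InfOrd u) (hv : InfOrd v) (hul : Subgroup.zpowers u ∈ Λ.L)
    (hvl : Subgroup.zpowers v ∈ Λ.L) (h : Subgroup.zpowers u ≠ Subgroup.zpowers v) : Ind u v := by
  intro m n e
  have h1 : u ^ m ∈ Subgroup.zpowers u ⊓ Subgroup.zpowers v :=
    ⟨Subgroup.zpow_mem _ (Subgroup.mem_zpowers u) m, by
      change u ^ m ∈ Subgroup.zpowers v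
      rw [e]; exact Subgroup.zpow_mem _ (Subgroup.mem_zpowers v) n⟩
  rw [Λ.disj _ hul _ hvl h, Subgroup.mem_bot] at h1
  exact ⟨hu m h1, hv n (by rw [← e, h1])⟩

theorem conj_mem {u : π} (hul : Subgroup.zpowers u ∈ Λ.L) (g : π) :
    Subgroup.zpowers (g * u * g⁻¹) ∈ Λ.L := by
  have := Λ.aut (MulAut.conj g) _ hul
  rw [am_zpowers] at this
  exact this

theorem map_mem {u : π} (hul : Subgroup.zpowers u ∈ Λ.L) (s : MulAut π) :
    Subgroup.zpowers (s u) ∈ Λ.L := by
  have := Λ.aut s _ hul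
  rw [am_zpowers] at this
  exact this

end LineSys

namespace Split

variable (S : Split π)

/-- The chain of walls. -/
def hj (x : π) (j : ℤ) : Set π := x ^ j • S.H

/-- The generators of the edge groups of the chain. -/
def wj (x : π) (j : ℤ) : π := x ^ j * S.w * (x ^ j)⁻¹

lemma hs_hj (x : π) (j : ℤ) : HS (Subgroup.zpowers (S.wj x j)) (S.hj x j) := by
  have := S.hsH.smul (x ^ j)
  rwa [cj_zpowers] at this

lemma infOrd_wj (x : π) (j : ℤ) : InfOrd (S.wj x j) := S.infOrd_w.conj _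

lemma wall_hj (x : π) (j : ℤ) : S.Wall (S.hj x j) := S.wall_ch _

lemma hj_anti {f : π} (hf : f ∈ S.F) {m n : ℤ} (h : m ≤ n) :
    S.hj (f * S.t) n ⊆ S.hj (f * S.t) m := S.ch_sub hf h

lemma ind_wj_of_τ (x u : π) (hu : S.τ u ≠ 1) (j : ℤ) : Ind u (S.wj x j) := S.ind_w _ _ hu

lemma τ_conj (g u : π) : S.τ (g * u * g⁻¹) = S.τ u := by
  rw [map_mul, map_mul, map_inv, mul_comm (S.τ g), mul_inv_cancel_right]

lemma wj_ne (h1 : OneEnded π) (hE : HasHS π) {f : π} (hf : f ∈ S.F) {i j : ℤ} (hij : i ≠ j) :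
    Subgroup.zpowers (S.wj (f * S.t) i) ≠ Subgroup.zpowers (S.wj (f * S.t) j) := by
  intro h
  set x := f * S.t with hx
  have hσ : ∀ k, S.σ (S.wj x k) = S.σ S.w := by
    intro k
    unfold wj
    rw [map_mul, map_mul, map_inv, mul_comm (S.σ (x ^ k)), mul_inv_cancel_right]
  have heq : S.wj x j = S.wj x i := by
    rcases gen_eq (S.infOrd_wj x i) h with h2 | h2
    · exact h2
    · exfalso
      have h3 := congrArg S.σ h2
      rw [map_inv, hσ, hσ] at h3
      apply S.σw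
      have h4 := congrArg Multiplicative.toAdd h3
      rw [toAdd_inv] at h4
      apply Multiplicative.toAdd.injective
      rw [toAdd_one]
      omega
  have h3 : S.w * x ^ (j - i) = x ^ (j - i) * S.w := by
    unfold wj at heq
    have e1 : x ^ (j - i) * S.w * (x ^ (j - i))⁻¹ = S.w := by
      have : x ^ (j - i) * S.w * (x ^ (j - i))⁻¹ =
        (x ^ i)⁻¹ * (x ^ j * S.w * (x ^ j)⁻¹) * x ^ i := by group
      rw [this, heq]; group
    calc S.w * x ^ (j - i) = (x ^ (j - i) * S.w * (x ^ (j - i))⁻¹) * x ^ (j - i) := by rw [e1]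
      _ = x ^ (j - i) * S.w := by group
  have h4 := S.root h1 hE hf (b := j - i) (by omega) h3
  obtain ⟨k, hk⟩ := Subgroup.mem_zpowers_iff.mp h4
  have h5 := congrArg S.τ hk
  rw [map_zpow, S.τ_w, S.τ_ft hf] at h5
  have h6 := congrArg Multiplicative.toAdd h5
  simp at h6
  subst h6
  rw [zpow_zero] at hk
  exact S.σw (by rw [← hk, map_one])

/-- edge group elements do not cross walls -/
lemma not_thru_w (c g : π) : ¬ Thru (c * S.w * c⁻¹) (g • S.H) := by
  rintro ⟨h2, h3⟩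
  obtain ⟨n, hn⟩ := (h2 c).exists
  obtain ⟨m, hm⟩ := (h3 c).exists
  have e1 : (c * S.w * c⁻¹) ^ n * c = c * S.w ^ (n : ℤ) := by
    rw [conj_pow, zpow_natCast]; group
  have e2 : (c * S.w * c⁻¹)⁻¹ ^ m * c = c * S.w ^ (-(m : ℤ)) := by
    rw [inv_pow, conj_pow, zpow_neg, zpow_natCast]; group
  rw [e1, S.right_g g c (S.w_zpow _)] at hn
  rw [e2, Set.mem_compl_iff, S.right_g g c (S.w_zpow _)] at hm
  exact hm hn

lemma not_thru_w' {u : π} (c g : π)
    (h : Subgroup.zpowers u = Subgroup.zpowers (c * S.w * c⁻¹)) : ¬ Thru u (g • S.H) := by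
  rcases gen_eq (S.infOrd_w.conj c) h.symm with h2 | h2
  · rw [h2]; exact S.not_thru_w c g
  · rw [h2]
    intro h3
    have h4 := h3.compl
    rw [inv_inv] at h4
    obtain ⟨n, hn⟩ := (h4.1 c).exists
    obtain ⟨m, hm⟩ := (h4.2 c).exists
    have e1 : (c * S.w * c⁻¹) ^ n * c = c * S.w ^ (n : ℤ) := by
      rw [conj_pow, zpow_natCast]; group
    have e2 : (c * S.w * c⁻¹)⁻¹ ^ m * c = c * S.w ^ (-(m : ℤ)) := by
      rw [inv_pow, conj_pow, zpow_neg, zpow_natCast]; group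
    rw [e1, Set.mem_compl_iff, S.right_g g c (S.w_zpow _)] at hn
    rw [e2, Set.mem_compl_iff, Set.mem_compl_iff, not_not, S.right_g g c (S.w_zpow _)] at hm
    exact hn hm

/-- the ends of a line which is not the axis -/
lemma exists_ends (h1 : OneEnded π) (hE : HasHS π) {f : π} (hf : f ∈ S.F) {u : π}
    (hu : InfOrd u) (hux : u ∉ Subgroup.zpowers (f * S.t)) {J : ℤ}
    (hi : ∀ j : ℤ, J ≤ |j| → Ind u (S.wj (f * S.t) j)) :
    ∃ K : ℤ, 0 ≤ K ∧ ∀ k, K ≤ k → Ev u (S.hj (f * S.t) (-k)) ∧ Ev u (S.hj (f * S.t) k)ᶜ := by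
  have h2 : ∃ j : ℤ, ¬ Ev u (S.hj (f * S.t) j) := by
    by_contra h
    push Not at h
    exact hux (S.ns_pos h1 hE hf hu h)
  have h3 : ∃ j : ℤ, ¬ Ev u (S.hj (f * S.t) j)ᶜ := by
    by_contra h
    push Not at h
    exact hux (S.ns_neg h1 hE hf hu h)
  obtain ⟨a, ha⟩ := h2
  obtain ⟨b, hb⟩ := h3
  refine ⟨max (max |a| |b|) (max J 0), le_trans (le_max_right _ _) (le_max_right _ _), ?_⟩
  intro k hk
  have hk1 : |a| ≤ k := le_trans (le_trans (le_max_left _ _) (le_max_left _ _)) hk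
  have hk2 : |b| ≤ k := le_trans (le_trans (le_max_right _ _) (le_max_left _ _)) hk
  have hk3 : J ≤ k := le_trans (le_trans (le_max_left _ _) (le_max_right _ _)) hk
  have hk4 : 0 ≤ k := le_trans (le_trans (le_max_right _ _) (le_max_right _ _)) hk
  have ha' := le_abs_self a
  have hb' := neg_abs_le b
  constructor
  · refine ((S.hs_hj _ _).ev_or (hi (-k) ?_)).resolve_right fun h => hb ?_
    · rw [abs_neg, abs_of_nonneg hk4]; exact hk3
    · exact h.mono (Set.compl_subset_compl.mpr (S.hj_anti hf (by omega)))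
  · refine ((S.hs_hj _ _).ev_or (hi k ?_)).resolve_left fun h => ha ?_
    · rw [abs_of_nonneg hk4]; exact hk3
    · exact h.mono (S.hj_anti hf (by omega))

lemma exists_ins (h1 : OneEnded π) (hE : HasHS π) {f : π} (hf : f ∈ S.F) {u : π}
    (hu : InfOrd u) (hux : u ∉ Subgroup.zpowers (f * S.t)) {J : ℤ}
    (hi : ∀ j : ℤ, J ≤ |j| → Ind u (S.wj (f * S.t) j)) :
    ∃ K : ℤ, 0 ≤ K ∧ ∀ k, K ≤ k → Ins u (S.hj (f * S.t) (-k)) ∧ Ins u (S.hj (f * S.t) k)ᶜ := by
  obtain ⟨K, hK, hK1⟩ := S.exists_ends h1 hE hf hu hux hi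
  obtain ⟨K', hK', hK2⟩ := S.exists_ends h1 hE hf hu.inv
    (fun h => hux (by simpa using Subgroup.inv_mem _ h)) (fun j hj => (hi j hj).inv_left)
  refine ⟨max K K', le_trans hK (le_max_left _ _), fun k hk => ?_⟩
  have h3 := hK1 k (le_trans (le_max_left _ _) hk)
  have h4 := hK2 k (le_trans (le_max_right _ _) hk)
  exact ⟨⟨h3.1, h4.1⟩, ⟨h3.2, h4.2⟩⟩

/-- the half spaces far out along a line are inside -/
lemma exists_inside {f : π} (hf : f ∈ S.F) {u g : π}
    (hu : ∀ j : ℤ, Thru u (g • S.hj (f * S.t) j)) {B : Set π} (hB : S.Wall B) (hi : Ins u B)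
    (hBc : Bᶜ.Nonempty) :
    ∃ K : ℤ, ∀ j, K ≤ j → g • S.hj (f * S.t) j ⊆ B ∧ (g • S.hj (f * S.t) (-j))ᶜ ⊆ B := by
  obtain ⟨p, hp⟩ := hBc
  obtain ⟨N, hN⟩ := S.exists_level hf (g⁻¹ * p)
  have hN' : ∀ j, p ∈ g • S.hj (f * S.t) j ↔ j ≤ N := by
    intro j
    rw [mem_smul']
    exact hN j
  refine ⟨|N| + 1, fun j hj => ?_⟩
  have hw : ∀ j, S.Wall (g • S.hj (f * S.t) j) := fun j => Wall.smul S (S.wall_hj _ _) g
  have a1 := le_abs_self N
  have a2 := neg_abs_le N
  constructor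
  · rcases S.nested_walls (hw j) hB with h | h | h | h
    · exact h
    · exfalso
      obtain ⟨n, hn⟩ := (((hu j).2 1).and (hi.2 1)).exists
      exact hn.1 (h hn.2)
    · exfalso
      obtain ⟨n, hn⟩ := (((hu j).1 1).and (hi.1 1)).exists
      exact Set.disjoint_left.mp h hn.1 hn.2
    · exfalso
      have : p ∈ g • S.hj (f * S.t) j ∪ B := by rw [h]; trivial
      rcases this with h2 | h2
      · have := (hN' j).mp h2
        omega
      · exact hp h2
  · rcases S.nested_walls (Wall.compl S (hw (-j))) hB with h | h | h | h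
    · exact h
    · exfalso
      obtain ⟨n, hn⟩ := (((hu (-j)).1 1).and (hi.1 1)).exists
      exact h hn.2 hn.1
    · exfalso
      obtain ⟨n, hn⟩ := (((hu (-j)).2 1).and (hi.2 1)).exists
      exact Set.disjoint_left.mp h hn.1 hn.2
    · exfalso
      have : p ∈ (g • S.hj (f * S.t) (-j))ᶜ ∪ B := by rw [h]; trivial
      rcases this with h2 | h2
      · apply h2
        rw [hN']; omega
      · exact hp h2

lemma thru_hj {f : π} (hf : f ∈ S.F) (j : ℤ) : Thru (f * S.t) (S.hj (f * S.t) j) := S.thru_ch hf j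

lemma smul_hj (x : π) (i j : ℤ) : x ^ i • S.hj x j = S.hj x (i + j) := by
  unfold hj
  rw [smul_smul, zpow_add]

lemma thru_conj_hj {f : π} (hf : f ∈ S.F) (g : π) (j : ℤ) :
    Thru (g * (f * S.t) * g⁻¹) (g • S.hj (f * S.t) j) :=
  (Thru.smul_iff g).mpr (S.thru_hj hf j)

end Split

end Run7.h955
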