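import Pool.Agent.Run7.h955.C

set_option autoImplicit false

/-!
# Automorphisms of the surface group
-/

open Pointwise commutatorElement

namespace Run7.h955

theorem exists_aut {g : ℕ} (T T' : Fin g × Bool → SG g)
    (hT : ∀ l, ⁅T (l, false), T (l, true)⁆ = ⁅(ga l : SG g), gb l⁆)
    (hT' : ∀ l, ⁅T' (l, false), T' (l, true)⁆ = ⁅(ga l : SG g), gb l⁆)
    (h1 : ∀ Φ : SG g →* SG g, (∀ i, Φ (PresentedGroup.of i) = T i) →
      ∀ i, Φ (T' i) = PresentedGroup.of i)
    (h2 : ∀ Φ : SG g →* SG g, (∀ i, Φ (PresentedGroup.of i) = T' i) →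
      ∀ i, Φ (T i) = PresentedGroup.of i) :
    ∃ φ : MulAut (SG g), ∀ i, φ (PresentedGroup.of i) = T i := by
  obtain ⟨Φ, hΦ⟩ := exists_hom T (by
    have : (fun l => ⁅T (l, false), T (l, true)⁆) = fun l : Fin g => ⁅(ga l : SG g), gb l⁆ :=
      funext hT
    rw [this]; exact R_all)
  obtain ⟨Φ', hΦ'⟩ := exists_hom T' (by
    have : (fun l => ⁅T' (l, false), T' (l, true)⁆) = fun l : Fin g => ⁅(ga l : SG g), gb l⁆ :=
      funext hT'
    rw [this]; exact R_all)
  refine ⟨MonoidHom.toMulEquiv Φ Φ' ?_ ?_, hΦ⟩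
  · apply hom_ext
    intro i
    rw [MonoidHom.comp_apply, hΦ, h2 Φ' hΦ', MonoidHom.id_apply]
  · apply hom_ext
    intro i
    rw [MonoidHom.comp_apply, hΦ', h1 Φ hΦ, MonoidHom.id_apply]

/-- twist the last `b` -/
theorem exists_T1 (n : ℕ) : ∃ φ : MulAut (SG (n + 2)),
    φ (gb (Fin.last (n + 1))) = gb (Fin.last (n + 1)) * ga (Fin.last (n + 1)) ∧
    ∀ i, i ≠ (Fin.last (n + 1), true) → φ (PresentedGroup.of i) = PresentedGroup.of i := by
  classical
  set L : Fin (n + 2) := Fin.last (n + 1) with hL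
  obtain ⟨φ, hφ⟩ := exists_aut (g := n + 2)
    (fun i => if i = (L, true) then gb L * ga L else PresentedGroup.of i)
    (fun i => if i = (L, true) then gb L * (ga L)⁻¹ else PresentedGroup.of i)
    (by
      intro l
      rw [if_neg (by simp)]
      by_cases hl : l = L
      · subst hl
        rw [if_pos rfl, commutatorElement_def, commutatorElement_def]
        unfold ga gb
        group
      · rw [if_neg (fun h => hl (Prod.mk.inj h).1)]
        rfl)
    (by
      intro l
      rw [if_neg (by simp)]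
      by_cases hl : l = L
      · subst hl
        rw [if_pos rfl, commutatorElement_def, commutatorElement_def]
        unfold ga gb
        group
      · rw [if_neg (fun h => hl (Prod.mk.inj h).1)]
        rfl)
    (by
      intro Φ hΦ i
      by_cases hi : i = (L, true)
      · subst hi
        rw [if_pos rfl, map_mul, map_inv]
        have e1 : Φ (gb L) = gb L * ga L := (hΦ (L, true)).trans (if_pos rfl)
        have e2 : Φ (ga L) = ga L := (hΦ (L, false)).trans (if_neg (by simp))
        rw [e1, e2, mul_inv_cancel_right]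
        rfl
      · rw [if_neg hi, hΦ, if_neg hi])
    (by
      intro Φ hΦ i
      by_cases hi : i = (L, true)
      · subst hi
        rw [if_pos rfl, map_mul]
        have e1 : Φ (gb L) = gb L * (ga L)⁻¹ := (hΦ (L, true)).trans (if_pos rfl)
        have e2 : Φ (ga L) = ga L := (hΦ (L, false)).trans (if_neg (by simp))
        rw [e1, e2, inv_mul_cancel_right]
        rfl
      · rw [if_neg hi, hΦ, if_neg hi])
  refine ⟨φ, (hφ (L, true)).trans (if_pos rfl), fun i hi => ?_⟩
  rw [hφ, if_neg hi]

/-- twist the last `a` -/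
theorem exists_T2 (n : ℕ) : ∃ φ : MulAut (SG (n + 2)),
    φ (ga (Fin.last (n + 1))) = ga (Fin.last (n + 1)) * gb (Fin.last (n + 1)) ∧
    ∀ i, i ≠ (Fin.last (n + 1), false) → φ (PresentedGroup.of i) = PresentedGroup.of i := by
  classical
  set L : Fin (n + 2) := Fin.last (n + 1) with hL
  obtain ⟨φ, hφ⟩ := exists_aut (g := n + 2)
    (fun i => if i = (L, false) then ga L * gb L else PresentedGroup.of i)
    (fun i => if i = (L, false) then ga L * (gb L)⁻¹ else PresentedGroup.of i)
    (by
      intro l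
      rw [if_neg (c := ((l, true) : Fin (n + 2) × Bool) = (L, false)) (by simp)]
      by_cases hl : l = L
      · subst hl
        rw [if_pos rfl, commutatorElement_def, commutatorElement_def]
        unfold ga gb
        group
      · rw [if_neg (fun h => hl (Prod.mk.inj h).1)]
        rfl)
    (by
      intro l
      rw [if_neg (c := ((l, true) : Fin (n + 2) × Bool) = (L, false)) (by simp)]
      by_cases hl : l = L
      · subst hl
        rw [if_pos rfl, commutatorElement_def, commutatorElement_def]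
        unfold ga gb
        group
      · rw [if_neg (fun h => hl (Prod.mk.inj h).1)]
        rfl)
    (by
      intro Φ hΦ i
      by_cases hi : i = (L, false)
      · subst hi
        rw [if_pos rfl, map_mul, map_inv]
        have e1 : Φ (ga L) = ga L * gb L := (hΦ (L, false)).trans (if_pos rfl)
        have e2 : Φ (gb L) = gb L := (hΦ (L, true)).trans (if_neg (by simp))
        rw [e1, e2, mul_inv_cancel_right]
        rfl
      · rw [if_neg hi, hΦ, if_neg hi])
    (by
      intro Φ hΦ i
      by_cases hi : i = (L, false)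
      · subst hi
        rw [if_pos rfl, map_mul]
        have e1 : Φ (ga L) = ga L * (gb L)⁻¹ := (hΦ (L, false)).trans (if_pos rfl)
        have e2 : Φ (gb L) = gb L := (hΦ (L, true)).trans (if_neg (by simp))
        rw [e1, e2, inv_mul_cancel_right]
        rfl
      · rw [if_neg hi, hΦ, if_neg hi])
  refine ⟨φ, (hφ (L, false)).trans (if_pos rfl), fun i hi => ?_⟩
  rw [hφ, if_neg hi]

theorem last_add_one' (n : ℕ) : (Fin.last (n + 1) : Fin (n + 2)) + 1 = 0 := by
  ext
  simp

/-- reduction modulo `n + 2` -/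
def sh (n k : ℕ) : Fin (n + 2) := ⟨k % (n + 2), Nat.mod_lt _ (by omega)⟩

theorem sh_zero (n : ℕ) : sh n 0 = 0 := by
  ext; simp [sh]

theorem sh_succ (n k : ℕ) : sh n (k + 1) = sh n k + 1 := by
  ext
  simp [sh, Fin.val_add]

theorem sh_val (n : ℕ) (i : Fin (n + 2)) : sh n i = i := by
  ext
  simp [sh, Nat.mod_eq_of_lt i.2]

theorem sh_all (n : ℕ) : sh n (n + 2) = 0 := by
  ext
  simp [sh]

/-- the rotation -/
theorem exists_rot (n : ℕ) : ∃ ρ : MulAut (SG (n + 2)),
    (∀ l b, ρ (PresentedGroup.of (l, b)) = PresentedGroup.of (l + 1, b)) ∧ ρ ^ (n + 2) = 1 := by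
  let c : Fin (n + 2) → SG (n + 2) := fun l => ⁅ga l, gb l⁆
  have hR : ∀ l : Fin (n + 2), R (n + 2) (l + 1) = R (n + 2) l * c l := fun l => R_succ l
  have hP : ∀ k, k ≤ n + 1 → Pf (fun l : Fin (n + 2) => c (l + 1)) k =
      (c 0)⁻¹ * R (n + 2) (k + 1) := by
    intro k
    induction k with
    | zero =>
      intro _
      have h1 := hR 0
      rw [Fin.val_zero, R_zero, one_mul] at h1
      rw [Pf_zero, h1, inv_mul_cancel]
    | succ k ih =>
      intro hk
      have h1 : k < n + 2 := by omega
      have h2 : k + 1 < n + 2 := by omega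
      have h3 := Pf_succ (fun l : Fin (n + 2) => c (l + 1)) ⟨k, h1⟩
      have h4 : (⟨k, h1⟩ : Fin (n + 2)) + 1 = ⟨k + 1, h2⟩ := by
        ext
        simp [Fin.val_add, Nat.mod_eq_of_lt h2]
      have h5 := hR ⟨k + 1, h2⟩
      simp only at h3 h5
      rw [h3, h4, ih (by omega), h5, mul_assoc]
  obtain ⟨Φ, hΦ⟩ := exists_hom (g := n + 2)
    (fun i => (PresentedGroup.of (i.1 + 1, i.2) : SG (n + 2))) (by
    have h1 := Pf_succ (fun l : Fin (n + 2) => c (l + 1)) (Fin.last (n + 1))
    rw [last_add_one', Fin.val_last, hP _ le_rfl, R_all, mul_one, inv_mul_cancel] at h1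
    exact h1)
  have hit : ∀ k : ℕ, ∀ l b, (Φ^[k]) (PresentedGroup.of (l, b)) =
      PresentedGroup.of (l + sh n k, b) := by
    intro k
    induction k with
    | zero => intro l b; simp [sh_zero]
    | succ k ih =>
      intro l b
      rw [Function.iterate_succ_apply', ih, hΦ, sh_succ, add_assoc]
  have hitm : ∀ k : ℕ, ∃ Ψ : SG (n + 2) →* SG (n + 2), ∀ x, Ψ x = Φ^[k] x := by
    intro k
    induction k with
    | zero => exact ⟨MonoidHom.id _, fun _ => rfl⟩
    | succ k ih =>
      obtain ⟨Ψ, hΨ⟩ := ih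
      refine ⟨Φ.comp Ψ, fun x => ?_⟩
      rw [Function.iterate_succ_apply', MonoidHom.comp_apply, hΨ]
  have hper : ∀ x, Φ^[n + 2] x = x := by
    obtain ⟨Ψ, hΨ⟩ := hitm (n + 2)
    have : Ψ = MonoidHom.id _ := by
      apply hom_ext
      rintro ⟨l, b⟩
      rw [hΨ, hit, MonoidHom.id_apply]
      rw [sh_all, add_zero]
    intro x
    rw [← hΨ, this]; rfl
  have hbij : Function.Bijective Φ := by
    constructor
    · intro x y hxy
      have h1 : Φ^[n + 1] (Φ x) = Φ^[n + 1] (Φ y) := by rw [hxy]
      rw [← Function.iterate_succ_apply, ← Function.iterate_succ_apply] at h1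
      exact (hper x).symm.trans (h1.trans (hper y))
    · intro y
      refine ⟨Φ^[n + 1] y, ?_⟩
      rw [← Function.iterate_succ_apply' Φ, hper]
  refine ⟨MulEquiv.ofBijective Φ hbij, fun l b => hΦ (l, b), ?_⟩
  have hpow : ∀ k : ℕ, ∀ x, ((MulEquiv.ofBijective Φ hbij : MulAut (SG (n + 2))) ^ k) x =
      Φ^[k] x := by
    intro k
    induction k with
    | zero => intro x; rfl
    | succ k ih =>
      intro x
      rw [pow_succ', MulAut.mul_apply, ih, Function.iterate_succ_apply']
      rfl
  ext x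
  rw [hpow, hper]
  rfl

theorem rot_pow {n : ℕ} {ρ : MulAut (SG (n + 2))}
    (h : ∀ l b, ρ (PresentedGroup.of (l, b)) = PresentedGroup.of (l + 1, b)) (k : ℕ) (l : Fin (n + 2))
    (b : Bool) : (ρ ^ k) (PresentedGroup.of (l, b)) =
      PresentedGroup.of (l + sh n k, b) := by
  induction k with
  | zero => simp [sh_zero]
  | succ k ih =>
    rw [pow_succ', MulAut.mul_apply, ih, h, sh_succ, add_assoc]

end Run7.h955
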