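import Pool.Agent.Run7.h955.G1
import Pool.Agent.Run7.h955.E
import Pool.Agent.Run7.h955.F3

set_option autoImplicit false

/-!
# The system of lines in the surface group
-/

open Pointwise commutatorElement

namespace Run7.h955

section

variable {π : Type*} [Group π]

theorem cross_iff {u v : π} (hu : InfOrd u) (hv : InfOrd v) :
    Cross (Subgroup.zpowers u) (Subgroup.zpowers v) ↔ CrossEl u v := by
  constructor
  · rintro ⟨u', v', h1, h2, h3⟩
    rcases gen_eq hu h1 with rfl | rfl <;> rcases gen_eq hv h2 with rfl | rfl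
    · exact h3
    · have := h3.inv_right; rwa [inv_inv] at this
    · have := h3.inv_left; rwa [inv_inv] at this
    · have := h3.inv_left.inv_right; rwa [inv_inv, inv_inv] at this
  · intro h
    exact ⟨u, v, rfl, rfl, h⟩

theorem InfOrd.map {u : π} (hu : InfOrd u) (φ : MulAut π) : InfOrd (φ u) := by
  intro n h
  apply hu n
  rw [← map_zpow] at h
  exact φ.injective (h.trans (map_one φ).symm)

theorem ind_of_inf {u v : π} (hu : InfOrd u) (hv : InfOrd v)
    (h : Subgroup.zpowers u ⊓ Subgroup.zpowers v = ⊥) : Ind u v := by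
  intro m n e
  have h1 : u ^ m ∈ Subgroup.zpowers u ⊓ Subgroup.zpowers v :=
    ⟨Subgroup.zpow_mem _ (Subgroup.mem_zpowers u) m, by
      change u ^ m ∈ Subgroup.zpowers v
      rw [e]; exact Subgroup.zpow_mem _ (Subgroup.mem_zpowers v) n⟩
  rw [h, Subgroup.mem_bot] at h1
  exact ⟨hu m h1, hv n (e.symm.trans h1)⟩

end

/-- the last but one index -/
def pv (n : ℕ) : Fin (n + 2) := ⟨n, by omega⟩

/-- the seeds -/
def sd (n k : ℕ) : Fin 4 → SG (n + 2) :=
  ![gb 0 * ga 0 ^ k * gb 0, ga (Fin.last (n + 1)), 1, gb (pv n)]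

/-- the lines -/
def LL (n k : ℕ) : Set (Subgroup (SG (n + 2))) :=
  {C | ∃ (φ : MulAut (SG (n + 2))) (j : Fin 4),
    C = Subgroup.zpowers (φ (sd n k j * gb (Fin.last (n + 1))))}

section

variable {n : ℕ} (k : ℕ) {S : Split (SG (n + 2))} (hSt : S.t = gb (Fin.last (n + 1)))
  (hSw : S.w = ga (Fin.last (n + 1))) (hSa : ∀ i, ga i ∈ S.F)
  (hSb : ∀ i, i ≠ Fin.last (n + 1) → gb i ∈ S.F)

include hSa hSb in
theorem sd_mem (j : Fin 4) : sd n k j ∈ S.F := by
  have h0 : (0 : Fin (n + 2)) ≠ Fin.last (n + 1) := by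
    intro h
    have := congrArg Fin.val h
    simp at this
  have h1 : pv n ≠ Fin.last (n + 1) := by
    intro h
    have := congrArg Fin.val h
    simp [pv] at this
  fin_cases j
  · exact mul_mem (mul_mem (hSb 0 h0) (pow_mem (hSa 0) k)) (hSb 0 h0)
  · exact hSa _
  · exact one_mem _
  · exact hSb _ h1

include hSt hSa hSb in
theorem exists_lineSys (hSw : S.w = ga (Fin.last (n + 1))) :
    ∃ Λ : LineSys S ((gb 0 * ga 0 ^ k * gb 0) * S.t), Λ.L = LL n k := by
  classical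
  have h1 := oneEnded_SG (n + 2)
  have hE := hasHS_SG (n + 2)
  have hF := sd_mem k hSa hSb
  have hinf0 : ∀ j, InfOrd (sd n k j * gb (Fin.last (n + 1))) := by
    intro j
    rw [← hSt]
    exact S.infOrd_ft (hF j)
  have hroot : ∀ (φ : MulAut (SG (n + 2))) (j : Fin 4) (u : SG (n + 2)) (b : ℤ), b ≠ 0 →
      u * (φ (sd n k j * gb (Fin.last (n + 1)))) ^ b =
        (φ (sd n k j * gb (Fin.last (n + 1)))) ^ b * u →
      u ∈ Subgroup.zpowers (φ (sd n k j * gb (Fin.last (n + 1)))) := by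
    intro φ j u b hb h
    have h2 : φ⁻¹ u * (sd n k j * gb (Fin.last (n + 1))) ^ b =
        (sd n k j * gb (Fin.last (n + 1))) ^ b * φ⁻¹ u := by
      have := congrArg (φ⁻¹ : MulAut (SG (n + 2))) h
      simpa only [map_mul, map_zpow, MulAut.inv_apply_self] using this
    rw [← hSt] at h2
    have h3 := S.root h1 hE (hF j) hb h2
    obtain ⟨i, hi⟩ := Subgroup.mem_zpowers_iff.mp h3
    refine Subgroup.mem_zpowers_iff.mpr ⟨i, ?_⟩
    rw [← map_zpow, ← hSt, hi, MulAut.apply_inv_self]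
  have hdisj : ∀ C ∈ LL n k, ∀ D ∈ LL n k, C ≠ D → C ⊓ D = ⊥ := by
    rintro C ⟨φ, j, rfl⟩ D ⟨ψ, j', rfl⟩ hne
    rw [Subgroup.eq_bot_iff_forall]
    rintro x ⟨hx1, hx2⟩
    by_contra hx
    obtain ⟨a, ha⟩ := Subgroup.mem_zpowers_iff.mp hx1
    obtain ⟨b, hb⟩ := Subgroup.mem_zpowers_iff.mp hx2
    have ha0 : a ≠ 0 := by
      rintro rfl
      rw [zpow_zero] at ha
      exact hx ha.symm
    have hb0 : b ≠ 0 := by
      rintro rfl
      rw [zpow_zero] at hb
      exact hx hb.symm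
    apply hne
    apply le_antisymm
    · rw [Subgroup.zpowers_le]
      apply hroot ψ j' _ b hb0
      rw [hb, ← ha]
      exact ((Commute.refl _).zpow_right _).eq
    · rw [Subgroup.zpowers_le]
      apply hroot φ j _ a ha0
      rw [ha, ← hb]
      exact ((Commute.refl _).zpow_right _).eq
  have hT : ∀ j, ∃ T : Finset (SG (n + 2)), ∀ h,
      Ind (h * (sd n k j * gb (Fin.last (n + 1))) * h⁻¹) (sd n k j * gb (Fin.last (n + 1))) →
      CrossEl (h * (sd n k j * gb (Fin.last (n + 1))) * h⁻¹) (sd n k j * gb (Fin.last (n + 1))) →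
      ∃ i i' : ℤ, ∃ z ∈ T, h = (sd n k j * gb (Fin.last (n + 1))) ^ i * z *
        (sd n k j * gb (Fin.last (n + 1))) ^ i' := fun j => exists_double _ h1 hE (hinf0 j)
  choose T hT using hT
  have hx : Subgroup.zpowers ((gb 0 * ga 0 ^ k * gb 0) * S.t) ∈ LL n k := by
    refine ⟨1, 0, ?_⟩
    rw [hSt]
    rfl
  have hw : Subgroup.zpowers S.w ∈ LL n k := by
    obtain ⟨φ, hφ, -⟩ := exists_T2 n
    refine ⟨φ⁻¹, 1, ?_⟩
    have e : sd n k 1 * gb (Fin.last (n + 1)) = φ (ga (Fin.last (n + 1))) := hφ.symm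
    rw [e, MulAut.inv_apply_self, hSw]
  refine ⟨{ L := LL n k, cyc := ?_, aut := ?_, disj := hdisj, fin := ?_, w_mem := hw,
            x_mem := hx }, rfl⟩
  · rintro C ⟨φ, j, rfl⟩
    exact ⟨_, (hinf0 j).map φ, rfl⟩
  · rintro f C ⟨φ, j, rfl⟩
    exact ⟨f * φ, j, am_zpowers _ _⟩
  · refine ⟨∑ j, (T j).card, ?_⟩
    rintro C ⟨φ, j, rfl⟩
    refine ⟨(T j).image φ, ?_, ?_⟩
    · exact Finset.card_image_le.trans
        (Finset.single_le_sum (f := fun j => (T j).card) (fun _ _ => Nat.zero_le _)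
          (Finset.mem_univ j))
    · intro h hcr
      have hs := hinf0 j
      set s := sd n k j * gb (Fin.last (n + 1)) with hsdef
      rw [cj_zpowers, cross_iff ((hs.map φ).conj h) (hs.map φ)] at hcr
      have h2 : CrossEl (φ⁻¹ h * s * (φ⁻¹ h)⁻¹) s := by
        have := hcr.map φ⁻¹
        rw [map_mul, map_mul, map_inv, MulAut.inv_apply_self] at this
        exact this
      have hne := LineSys.cross_ne hs h2
      have hd := hdisj (Subgroup.zpowers (φ⁻¹ h * s * (φ⁻¹ h)⁻¹)) ⟨MulAut.conj (φ⁻¹ h), j, rfl⟩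
        (Subgroup.zpowers s) ⟨1, j, rfl⟩ hne
      obtain ⟨i, i', z, hz, e⟩ := hT j (φ⁻¹ h) (ind_of_inf (hs.conj _) hs hd) h2
      refine ⟨φ s ^ i, Subgroup.zpow_mem _ (Subgroup.mem_zpowers _) _, φ z,
        Finset.mem_image_of_mem _ hz, φ s ^ i', Subgroup.zpow_mem _ (Subgroup.mem_zpowers _) _, ?_⟩
      have := congrArg φ e
      rw [MulAut.apply_inv_self, map_mul, map_mul, map_zpow, map_zpow] at this
      exact this

end

end Run7.h955
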