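import Pool.Agent.Run7.h955.G2

set_option autoImplicit false

/-!
# Connectedness of the system of lines in the surface group
-/

open Pointwise commutatorElement

namespace Run7.h955

section

variable {π : Type*} [Group π]

theorem cj_cj (p q : π) (C : Subgroup π) : cj p (cj q C) = cj (p * q) C := by
  ext x
  rw [mem_cj, mem_cj, mem_cj]
  have : q⁻¹ * (p⁻¹ * x * p) * q = (p * q)⁻¹ * x * (p * q) := by group
  rw [this]

theorem cj_one' (C : Subgroup π) : cj 1 C = C := by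
  ext x
  rw [mem_cj]
  simp

theorem Cross.cj {C D : Subgroup π} (h : Cross C D) (p : π) : Cross (cj p C) (cj p D) := by
  obtain ⟨u, v, rfl, rfl, h⟩ := h
  exact ⟨_, _, cj_zpowers p u, cj_zpowers p v, h.map (MulAut.conj p)⟩

theorem cj_self (u : π) : Run7.h955.cj u (Subgroup.zpowers u) = Subgroup.zpowers u := by
  rw [cj_zpowers, mul_inv_cancel_right]

end

section

variable (n : ℕ)

/-- the basic lines and their conjugates -/
def TT : Set (Subgroup (SG (n + 2))) :=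
  {C | ∃ p i, C = cj p (Subgroup.zpowers (ga i)) ∨ C = cj p (Subgroup.zpowers (gb i)) ∨
    C = cj p (Subgroup.zpowers (gb i * gb (i + 1)))}

/-- adjacency of the basic lines -/
def EE (C D : Subgroup (SG (n + 2))) : Prop := C ∈ TT n ∧ D ∈ TT n ∧ (Cross C D ∨ Cross D C)

variable {n}

theorem TT_cj {C : Subgroup (SG (n + 2))} (h : C ∈ TT n) (p : SG (n + 2)) : cj p C ∈ TT n := by
  obtain ⟨q, i, h | h | h⟩ := h
  · exact ⟨p * q, i, Or.inl (by rw [h, cj_cj])⟩
  · exact ⟨p * q, i, Or.inr (Or.inl (by rw [h, cj_cj]))⟩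
  · exact ⟨p * q, i, Or.inr (Or.inr (by rw [h, cj_cj]))⟩

theorem EE_cj {C D : Subgroup (SG (n + 2))} (h : EE n C D) (p : SG (n + 2)) :
    EE n (cj p C) (cj p D) :=
  ⟨TT_cj h.1 p, TT_cj h.2.1 p, h.2.2.imp (fun h => h.cj p) (fun h => h.cj p)⟩

theorem EE_symm {C D : Subgroup (SG (n + 2))} (h : EE n C D) : EE n D C :=
  ⟨h.2.1, h.1, h.2.2.symm⟩

/-- reachability -/
def RR (n : ℕ) : Subgroup (SG (n + 2)) → Subgroup (SG (n + 2)) → Prop :=
  Relation.ReflTransGen (EE n)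

theorem RR_symm {C D : Subgroup (SG (n + 2))} (h : RR n C D) : RR n D C := by
  induction h with
  | refl => exact Relation.ReflTransGen.refl
  | tail _ hbc ih => exact Relation.ReflTransGen.head (EE_symm hbc) ih

theorem RR_trans {C D E : Subgroup (SG (n + 2))} (h : RR n C D) (h' : RR n D E) : RR n C E :=
  Relation.ReflTransGen.trans h h'

theorem RR_cj {C D : Subgroup (SG (n + 2))} (h : RR n C D) (p : SG (n + 2)) :
    RR n (cj p C) (cj p D) := by
  induction h with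
  | refl => exact Relation.ReflTransGen.refl
  | tail _ hbc ih => exact Relation.ReflTransGen.tail ih (EE_cj hbc p)

theorem exists_rho (i : Fin (n + 2)) : ∃ ρ : MulAut (SG (n + 2)), ∀ j b,
    ρ (PresentedGroup.of (Fin.last (n + 1) + j, b)) = PresentedGroup.of (i + j, b) := by
  obtain ⟨ρ, hρ, -⟩ := exists_rot n
  refine ⟨ρ ^ ((i : ℕ) + 1), fun j b => ?_⟩
  rw [rot_pow hρ, sh_succ, sh_val]
  have h2 : ∀ a : Fin (n + 2), a + 1 = 0 → a + j + (i + 1) = i + j := by
    intro a ha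
    have h3 : a + j + (i + 1) = (a + 1) + (i + j) := by
      rw [add_assoc, add_assoc]
      congr 1
      rw [← add_assoc, add_comm j i, add_comm 1 (i + j)]
    rw [h3, ha, zero_add]
  rw [h2 _ (last_add_one' n)]

theorem pv_add (n : ℕ) : pv n + 1 = Fin.last (n + 1) := by
  ext
  simp [pv, Fin.val_add]

variable {S : Split (SG (n + 2))} (hSt : S.t = gb (Fin.last (n + 1)))
  (hSw : S.w = ga (Fin.last (n + 1))) (hSa : ∀ i, ga i ∈ S.F)
  (hSb : ∀ i, i ≠ Fin.last (n + 1) → gb i ∈ S.F)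

include hSt hSw in
theorem cr0 {f : SG (n + 2)} (hf : f ∈ S.F) :
    CrossEl (f * gb (Fin.last (n + 1))) (ga (Fin.last (n + 1))) := by
  rw [← hSt, ← hSw]
  exact ⟨S.H, S.hsH, Or.inl (S.thru hf)⟩

include hSt hSw in
theorem crB (i : Fin (n + 2)) : CrossEl (gb i : SG (n + 2)) (ga i) := by
  obtain ⟨ρ, hρ⟩ := exists_rho i
  have h1 := (cr0 hSt hSw (one_mem _)).map ρ
  have e1 := hρ 0 true
  have e2 := hρ 0 false
  rw [add_zero, add_zero] at e1 e2
  rw [one_mul] at h1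
  unfold ga gb at h1 ⊢
  rwa [e1, e2] at h1

include hSt hSw hSb in
theorem crU (i : Fin (n + 2)) : CrossEl (gb i * gb (i + 1) : SG (n + 2)) (ga (i + 1)) := by
  obtain ⟨ρ, hρ⟩ := exists_rho (i + 1)
  have hne : pv n ≠ Fin.last (n + 1) := by
    intro h
    have := congrArg Fin.val h
    simp [pv] at this
  have h1 := (cr0 hSt hSw (hSb _ hne)).map ρ
  have e1 := hρ 0 true
  have e2 := hρ 0 false
  rw [add_zero, add_zero] at e1 e2
  have e3 := hρ (-1) true
  have e4 : Fin.last (n + 1) + -1 = pv n := by rw [← pv_add n, add_neg_cancel_right]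
  rw [e4, add_neg_cancel_right] at e3
  rw [map_mul] at h1
  unfold ga gb at h1 ⊢
  rwa [e1, e2, e3] at h1

include hSt hSw hSb in
theorem crV (i : Fin (n + 2)) : CrossEl (gb i * gb (i + 1) : SG (n + 2))
    ((gb (i + 1))⁻¹ * ga i * gb (i + 1)) := by
  obtain ⟨ρ, hρ⟩ := exists_rho i
  have hne : (0 : Fin (n + 2)) ≠ Fin.last (n + 1) := by
    intro h
    have := congrArg Fin.val h
    simp at this
  have h1 := (cr0 hSt hSw (hSb _ hne)).map ρ
  have e1 := hρ 0 true
  have e2 := hρ 0 false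
  rw [add_zero, add_zero] at e1 e2
  have e3 := hρ 1 true
  rw [last_add_one'] at e3
  rw [map_mul] at h1
  unfold ga gb at h1
  rw [e1, e2, e3] at h1
  have h2 := h1.map (MulAut.conj (gb (i + 1) : SG (n + 2))⁻¹)
  rw [MulAut.conj_apply, MulAut.conj_apply, inv_inv] at h2
  have e5 : (gb (i + 1) : SG (n + 2))⁻¹ * (PresentedGroup.of (i + 1, true) *
      PresentedGroup.of (i, true)) * gb (i + 1) = gb i * gb (i + 1) := by
    unfold gb; group
  rw [e5] at h2
  exact h2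

theorem TT_a (i : Fin (n + 2)) : Subgroup.zpowers (ga i : SG (n + 2)) ∈ TT n :=
  ⟨1, i, Or.inl (cj_one' _).symm⟩

theorem TT_b (i : Fin (n + 2)) : Subgroup.zpowers (gb i : SG (n + 2)) ∈ TT n :=
  ⟨1, i, Or.inr (Or.inl (cj_one' _).symm)⟩

theorem TT_u (i : Fin (n + 2)) : Subgroup.zpowers (gb i * gb (i + 1) : SG (n + 2)) ∈ TT n :=
  ⟨1, i, Or.inr (Or.inr (cj_one' _).symm)⟩

include hSt hSw in
theorem rB (i : Fin (n + 2)) : RR n (Subgroup.zpowers (ga i)) (Subgroup.zpowers (gb i)) :=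
  Relation.ReflTransGen.single ⟨TT_a i, TT_b i, Or.inr ⟨_, _, rfl, rfl, crB hSt hSw i⟩⟩

include hSt hSw hSb in
theorem rU (i : Fin (n + 2)) : RR n (Subgroup.zpowers (ga (i + 1)))
    (Subgroup.zpowers (gb i * gb (i + 1))) :=
  Relation.ReflTransGen.single ⟨TT_a _, TT_u i, Or.inr ⟨_, _, rfl, rfl, crU hSt hSw hSb i⟩⟩

include hSt hSw hSb in
theorem rV (i : Fin (n + 2)) : RR n (cj (gb (i + 1))⁻¹ (Subgroup.zpowers (ga i)))
    (Subgroup.zpowers (gb i * gb (i + 1))) :=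
  Relation.ReflTransGen.single ⟨TT_cj (TT_a _) _, TT_u i, Or.inr ⟨_, _, rfl, by
    rw [cj_zpowers, inv_inv], crV hSt hSw hSb i⟩⟩

include hSt hSw in
theorem s1 (i : Fin (n + 2)) (b : Bool) :
    RR n (cj (PresentedGroup.of (i, b)) (Subgroup.zpowers (ga i))) (Subgroup.zpowers (ga i)) := by
  cases b
  · have : cj (PresentedGroup.of (i, false)) (Subgroup.zpowers (ga i : SG (n + 2))) =
        Subgroup.zpowers (ga i) := cj_self _
    rw [this]
    exact Relation.ReflTransGen.refl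
  · have h1 := RR_cj (rB hSt hSw i) (gb i)
    rw [cj_self] at h1
    exact RR_trans h1 (RR_symm (rB hSt hSw i))

include hSt hSw hSb in
theorem s2 (i : Fin (n + 2)) :
    RR n (Subgroup.zpowers (ga i)) (Subgroup.zpowers (ga (i + 1))) := by
  have h1 := RR_cj (RR_trans (rV hSt hSw hSb i) (RR_symm (rU hSt hSw hSb i))) (gb (i + 1))
  rw [cj_cj, mul_inv_cancel, cj_one'] at h1
  exact RR_trans h1 (s1 hSt hSw (i + 1) true)

include hSt hSw hSb in
theorem s3 (i : Fin (n + 2)) :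
    RR n (Subgroup.zpowers (ga i)) (Subgroup.zpowers (ga 0)) := by
  have h : ∀ k : ℕ, RR n (Subgroup.zpowers (ga 0)) (Subgroup.zpowers (ga (sh n k))) := by
    intro k
    induction k with
    | zero => rw [sh_zero]; exact Relation.ReflTransGen.refl
    | succ k ih =>
      rw [sh_succ]
      exact RR_trans ih (s2 hSt hSw hSb _)
  have := h i
  rw [sh_val] at this
  exact RR_symm this

include hSt hSw hSb in
theorem s4 (p : SG (n + 2)) :
    RR n (cj p (Subgroup.zpowers (ga 0))) (Subgroup.zpowers (ga 0)) := by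
  have h1 : ∀ i b, RR n (cj (PresentedGroup.of (i, b)) (Subgroup.zpowers (ga 0)))
      (Subgroup.zpowers (ga 0)) := by
    intro i b
    have h2 := RR_cj (s3 hSt hSw hSb i) (PresentedGroup.of (i, b))
    exact RR_trans (RR_symm h2) (RR_trans (s1 hSt hSw i b) (s3 hSt hSw hSb i))
  refine gen_ind (P := fun p => RR n (cj p (Subgroup.zpowers (ga 0))) (Subgroup.zpowers (ga 0)))
    ?_ ?_ ?_ p
  · rw [cj_one']; exact Relation.ReflTransGen.refl
  · rintro q ⟨i, b⟩ hq
    have h2 := RR_cj (h1 i b) q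
    rw [cj_cj] at h2
    exact RR_trans h2 hq
  · rintro q ⟨i, b⟩ hq
    have h2 := RR_cj (h1 i b) (q * (PresentedGroup.of (i, b))⁻¹)
    rw [cj_cj, inv_mul_cancel_right] at h2
    exact RR_trans (RR_symm h2) hq

include hSt hSw hSb in
theorem s5 {C : Subgroup (SG (n + 2))} (hC : C ∈ TT n) : RR n C (Subgroup.zpowers (ga 0)) := by
  have h1 : ∀ p i, RR n (cj p (Subgroup.zpowers (ga i))) (Subgroup.zpowers (ga 0)) := by
    intro p i
    exact RR_trans (RR_cj (s3 hSt hSw hSb i) p) (s4 hSt hSw hSb p)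
  obtain ⟨p, i, rfl | rfl | rfl⟩ := hC
  · exact h1 p i
  · exact RR_trans (RR_cj (RR_symm (rB hSt hSw i)) p) (h1 p i)
  · exact RR_trans (RR_cj (RR_symm (rU hSt hSw hSb i)) p) (h1 p (i + 1))

/-! ### membership -/

variable (k : ℕ)

theorem LL_map {C : Subgroup (SG (n + 2))} (hC : C ∈ LL n k) (φ : MulAut (SG (n + 2))) :
    am φ C ∈ LL n k := by
  obtain ⟨ψ, j, rfl⟩ := hC
  exact ⟨φ * ψ, j, am_zpowers _ _⟩

theorem LL_map' {u : SG (n + 2)} (hC : Subgroup.zpowers u ∈ LL n k) (φ : MulAut (SG (n + 2))) :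
    Subgroup.zpowers (φ u) ∈ LL n k := by
  have := LL_map k hC φ
  rwa [am_zpowers] at this

theorem LL_a (i : Fin (n + 2)) : Subgroup.zpowers (ga i : SG (n + 2)) ∈ LL n k := by
  obtain ⟨φ, hφ, -⟩ := exists_T2 n
  have h1 : Subgroup.zpowers (ga (Fin.last (n + 1)) : SG (n + 2)) ∈ LL n k := by
    refine ⟨φ⁻¹, 1, ?_⟩
    have e : sd n k 1 * gb (Fin.last (n + 1)) = φ (ga (Fin.last (n + 1))) := hφ.symm
    rw [e, MulAut.inv_apply_self]
  obtain ⟨ρ, hρ⟩ := exists_rho i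
  have h2 := LL_map' k h1 ρ
  have e2 := hρ 0 false
  rw [add_zero, add_zero] at e2
  unfold ga at h2 ⊢
  rwa [e2] at h2

theorem LL_b (i : Fin (n + 2)) : Subgroup.zpowers (gb i : SG (n + 2)) ∈ LL n k := by
  have h1 : Subgroup.zpowers (gb (Fin.last (n + 1)) : SG (n + 2)) ∈ LL n k := by
    refine ⟨1, 2, ?_⟩
    have e : sd n k 2 * gb (Fin.last (n + 1)) = gb (Fin.last (n + 1)) := one_mul _
    rw [e]
    rfl
  obtain ⟨ρ, hρ⟩ := exists_rho i
  have h2 := LL_map' k h1 ρ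
  have e2 := hρ 0 true
  rw [add_zero, add_zero] at e2
  unfold gb at h2 ⊢
  rwa [e2] at h2

theorem LL_u (i : Fin (n + 2)) : Subgroup.zpowers (gb i * gb (i + 1) : SG (n + 2)) ∈ LL n k := by
  have h1 : Subgroup.zpowers (gb (pv n) * gb (Fin.last (n + 1)) : SG (n + 2)) ∈ LL n k :=
    ⟨1, 3, rfl⟩
  obtain ⟨ρ, hρ⟩ := exists_rho (i + 1)
  have h2 := LL_map' k h1 ρ
  have e2 := hρ 0 true
  rw [add_zero, add_zero] at e2
  have e3 := hρ (-1) true
  have e4 : Fin.last (n + 1) + -1 = pv n := by rw [← pv_add n, add_neg_cancel_right]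
  rw [e4, add_neg_cancel_right] at e3
  rw [map_mul] at h2
  unfold gb at h2 ⊢
  rwa [e2, e3] at h2

theorem TT_LL {C : Subgroup (SG (n + 2))} (hC : C ∈ TT n) : C ∈ LL n k := by
  obtain ⟨p, i, rfl | rfl | rfl⟩ := hC
  · exact LL_map k (LL_a k i) (MulAut.conj p)
  · exact LL_map k (LL_b k i) (MulAut.conj p)
  · exact LL_map k (LL_u k i) (MulAut.conj p)

end

end Run7.h955
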