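import Pool.Agent.Run7.h955.G3

set_option autoImplicit false

/-!
# Connectedness of the system of lines in the surface group, second part
-/

open Pointwise commutatorElement

namespace Run7.h955

variable {n k : ℕ} {S : Split (SG (n + 2))} {x : SG (n + 2)} (Λ : LineSys S x)
  (hΛ : Λ.L = LL n k) (hSt : S.t = gb (Fin.last (n + 1)))
  (hSw : S.w = ga (Fin.last (n + 1))) (hSb : ∀ i, i ≠ Fin.last (n + 1) → gb i ∈ S.F)

include hΛ hSt hSw hSb in
/-- every line meets a basic line -/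
theorem touch {z : SG (n + 2)} (hz : Subgroup.zpowers z ∈ Λ.L) :
    ∃ C ∈ TT n, C = Subgroup.zpowers z ∨ Cross C (Subgroup.zpowers z) ∨
      Cross (Subgroup.zpowers z) C := by
  by_contra hcon
  have h1 := oneEnded_SG (n + 2)
  have hE := hasHS_SG (n + 2)
  have hzi := Λ.infOrd_of_mem hz
  obtain ⟨Z, hZ⟩ := hE z hzi
  have hTL : ∀ C ∈ TT n, C ∈ Λ.L := fun C hC => by rw [hΛ]; exact TT_LL k hC
  have hside : ∀ u, Subgroup.zpowers u ∈ TT n → Ind u z ∧ (Ins u Z ∨ Ins u Zᶜ) := by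
    intro u hu
    have hui := Λ.infOrd_of_mem (hTL _ hu)
    have hne : Subgroup.zpowers u ≠ Subgroup.zpowers z := by
      intro h
      exact hcon ⟨_, hu, Or.inl h⟩
    have hi := Λ.ind hui hzi (hTL _ hu) hz hne
    refine ⟨hi, ?_⟩
    rcases hZ.cases hi with h | h | h | h
    · exact Or.inl h
    · exact Or.inr h
    · exact absurd ⟨_, hu, Or.inr (Or.inl ⟨u, z, rfl, rfl, Z, hZ, Or.inl h⟩)⟩ hcon
    · exact absurd ⟨_, hu, Or.inr (Or.inl ⟨u, z, rfl, rfl, Z, hZ, Or.inr h⟩)⟩ hcon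
  have hstep : ∀ C D, EE n C D → SIn C Z → SIn D Z := by
    rintro C D ⟨hC, hD, hcr⟩ ⟨u, rfl, hu⟩
    obtain ⟨v, hv, rfl⟩ := Λ.cyc _ (hTL _ hD)
    have hui := Λ.infOrd_of_mem (hTL _ hC)
    rcases (hside v hD).2 with h | h
    · exact ⟨v, rfl, h⟩
    · exfalso
      have hne : Subgroup.zpowers u ≠ Subgroup.zpowers v := by
        rcases hcr with hcr | hcr
        · rw [cross_iff hui hv] at hcr
          exact LineSys.cross_ne hv hcr
        · rw [cross_iff hv hui] at hcr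
          exact (LineSys.cross_ne hui hcr).symm
      have hi := Λ.ind hui hv (hTL _ hC) (hTL _ hD) hne
      have hsep := sep h1 hE hZ (hside u hC).1.symm hi hu h
      rcases hcr with hcr | hcr
      · rw [cross_iff hui hv] at hcr
        exact hsep hcr
      · rw [cross_iff hv hui] at hcr
        exact hsep (hcr.symm h1 hE hi.symm)
  have hR : ∀ C D, RR n C D → SIn C Z → SIn D Z := by
    intro C D h hC
    induction h with
    | refl => exact hC
    | tail _ hbc ih => exact hstep _ _ hbc ih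
  have hmem : ∀ γ : SG (n + 2), Subgroup.zpowers (γ * ga 0 * γ⁻¹) ∈ TT n := fun γ =>
    ⟨γ, 0, Or.inl (cj_zpowers _ _).symm⟩
  have hpow : ∀ (γ : SG (n + 2)) (m : ℤ), (γ * ga 0 * γ⁻¹) ^ m * γ = γ * ga 0 ^ m := by
    intro γ m
    rw [conj_zpow]; group
  obtain ⟨γ, hγ⟩ := fill (o := (ga 0 : SG (n + 2))) hZ
  obtain ⟨γ', hγ'⟩ := fill (o := (ga 0 : SG (n + 2))) hZ.compl
  have h2 : Ins (γ * ga 0 * γ⁻¹) Z := by
    rcases (hside _ (hmem γ)).2 with h | h
    · exact h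
    · exfalso
      apply hγ
      have := h.finite γ
      simp only [hpow] at this
      exact this
  have h3 : Ins (γ' * ga 0 * γ'⁻¹) Zᶜ := by
    rcases (hside _ (hmem γ')).2 with h | h
    · exfalso
      apply hγ'
      rw [← compl_compl Z] at h
      have := h.finite γ'
      simp only [hpow] at this
      exact this
    · exact h
  have h4 := RR_trans (s5 hSt hSw hSb (hmem γ)) (RR_symm (s5 hSt hSw hSb (hmem γ')))
  have h5 := hR _ _ h4 ⟨_, rfl, h2⟩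
  rw [sIn_iff (Λ.infOrd_of_mem (hTL _ (hmem γ')))] at h5
  exact h5.1.compl_not h3.1

theorem adj_of {C D : Λ.L} (h : Cross (C : Subgroup (SG (n + 2))) D ∨
    Cross (D : Subgroup (SG (n + 2))) C) : (crossGraph Λ.L).Reachable C D := by
  by_cases hne : C = D
  · rw [hne]
  · exact SimpleGraph.Adj.reachable ((SimpleGraph.fromRel_adj _ _ _).mpr ⟨hne, h⟩)

theorem dist_le_one {C D : Λ.L} (h : Cross (C : Subgroup (SG (n + 2))) D ∨
    Cross (D : Subgroup (SG (n + 2))) C) : (crossGraph Λ.L).dist C D ≤ 1 := by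
  by_cases hne : C = D
  · rw [hne, SimpleGraph.dist_self]; omega
  · have : (crossGraph Λ.L).Adj C D := (SimpleGraph.fromRel_adj _ _ _).mpr ⟨hne, h⟩
    rw [SimpleGraph.dist_eq_one_iff_adj.mpr this]

include hΛ in
theorem reach_of {C D : Subgroup (SG (n + 2))} (h : RR n C D) :
    ∀ (hC : C ∈ Λ.L) (hD : D ∈ Λ.L), (crossGraph Λ.L).Reachable ⟨C, hC⟩ ⟨D, hD⟩ := by
  induction h with
  | refl => intro hC hD; exact SimpleGraph.Reachable.refl _
  | @tail b c _ hbc ih =>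
    intro hC hD
    have hb : b ∈ Λ.L := by rw [hΛ]; exact TT_LL k hbc.1
    exact (ih hC hb).trans (adj_of Λ hbc.2.2)

include hΛ hSt hSw hSb in
theorem lines_conn : (crossGraph Λ.L).Connected := by
  have h0 : Subgroup.zpowers (ga 0 : SG (n + 2)) ∈ Λ.L := by rw [hΛ]; exact LL_a k 0
  have key : ∀ D : Λ.L, (crossGraph Λ.L).Reachable D ⟨_, h0⟩ := by
    rintro ⟨D, hD⟩
    obtain ⟨z, hz, rfl⟩ := Λ.cyc _ hD
    obtain ⟨C, hC, h⟩ := touch Λ hΛ hSt hSw hSb hD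
    have hCL : C ∈ Λ.L := by rw [hΛ]; exact TT_LL k hC
    have h2 := reach_of Λ hΛ (s5 hSt hSw hSb hC) hCL h0
    rcases h with h | h | h
    · subst h
      exact h2
    · exact (adj_of Λ (C := ⟨_, hD⟩) (D := ⟨C, hCL⟩) (Or.inr h)).trans h2
    · exact (adj_of Λ (C := ⟨_, hD⟩) (D := ⟨C, hCL⟩) (Or.inl h)).trans h2
  have : Nonempty Λ.L := ⟨⟨_, h0⟩⟩
  exact SimpleGraph.Connected.mk fun C D => (key C).trans (key D).symm

include hΛ hSt hSw hSb in
theorem lines_C0 (X : Λ.L) : ∃ C0 : ℕ, ∀ C : Λ.L, ∃ p : SG (n + 2), ∃ D : Λ.L,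
    (D : Subgroup (SG (n + 2))) = cj p (C : Subgroup (SG (n + 2))) ∧
    (crossGraph Λ.L).dist D X ≤ C0 := by
  have hconn := lines_conn Λ hΛ hSt hSw hSb
  have hA : ∀ i, Subgroup.zpowers (ga i : SG (n + 2)) ∈ Λ.L := fun i => by
    rw [hΛ]; exact LL_a k i
  have hB : ∀ i, Subgroup.zpowers (gb i : SG (n + 2)) ∈ Λ.L := fun i => by
    rw [hΛ]; exact LL_b k i
  have hU : ∀ i, Subgroup.zpowers (gb i * gb (i + 1) : SG (n + 2)) ∈ Λ.L := fun i => by
    rw [hΛ]; exact LL_u k i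
  let M0 : ℕ := ∑ i, ((crossGraph Λ.L).dist ⟨_, hA i⟩ X + (crossGraph Λ.L).dist ⟨_, hB i⟩ X +
    (crossGraph Λ.L).dist ⟨_, hU i⟩ X)
  refine ⟨1 + M0, ?_⟩
  have hle : ∀ i, (crossGraph Λ.L).dist ⟨_, hA i⟩ X + (crossGraph Λ.L).dist ⟨_, hB i⟩ X +
    (crossGraph Λ.L).dist ⟨_, hU i⟩ X ≤ M0 := fun i =>
    Finset.single_le_sum (f := fun i => (crossGraph Λ.L).dist ⟨_, hA i⟩ X +
      (crossGraph Λ.L).dist ⟨_, hB i⟩ X + (crossGraph Λ.L).dist ⟨_, hU i⟩ X)
      (fun _ _ => Nat.zero_le _) (Finset.mem_univ i)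
  rintro ⟨Z, hZ⟩
  obtain ⟨z, hz, rfl⟩ := Λ.cyc _ hZ
  obtain ⟨C, hC, h⟩ := touch Λ hΛ hSt hSw hSb hZ
  obtain ⟨p, C', hC', hCC', hd⟩ : ∃ (p : SG (n + 2)) (C' : Subgroup (SG (n + 2)))
      (hC' : C' ∈ Λ.L), C = cj p C' ∧ (crossGraph Λ.L).dist ⟨C', hC'⟩ X ≤ M0 := by
    obtain ⟨p, i, h | h | h⟩ := hC
    · exact ⟨p, _, hA i, h, by have := hle i; omega⟩
    · exact ⟨p, _, hB i, h, by have := hle i; omega⟩
    · exact ⟨p, _, hU i, h, by have := hle i; omega⟩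
  have hD : cj p⁻¹ (Subgroup.zpowers z) ∈ Λ.L := Λ.aut (MulAut.conj p⁻¹) _ hZ
  refine ⟨p⁻¹, ⟨_, hD⟩, rfl, ?_⟩
  have hC2 : cj p⁻¹ C = C' := by
    rw [hCC', cj_cj, inv_mul_cancel, cj_one']
  have hle1 : (crossGraph Λ.L).dist ⟨_, hD⟩ ⟨C', hC'⟩ ≤ 1 := by
    rcases h with h | h | h
    · have : (⟨_, hD⟩ : Λ.L) = ⟨C', hC'⟩ := by
        apply Subtype.ext
        change cj p⁻¹ (Subgroup.zpowers z) = C'
        rw [← h, hC2]
      rw [this, SimpleGraph.dist_self]; omega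
    · apply dist_le_one
      right
      have := h.cj p⁻¹
      rw [hC2] at this
      exact this
    · apply dist_le_one
      left
      have := h.cj p⁻¹
      rw [hC2] at this
      exact this
  exact (hconn.dist_triangle (v := ⟨C', hC'⟩)).trans (by omega)

end Run7.h955
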