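import Pool.Agent.Run7.h955.G4

set_option autoImplicit false

/-!
# The special line of the surface group, its self-crossing, and its images
-/

open Pointwise commutatorElement

namespace Run7.h955

/-- the word `b_0 a_0 ^ k b_0 b_L` -/
def xk (n k : ℕ) : SG (n + 2) := gb 0 * ga 0 ^ k * gb 0 * gb (Fin.last (n + 1))

theorem zero_ne_last (n : ℕ) : (0 : Fin (n + 2)) ≠ Fin.last (n + 1) := by
  intro h
  have := congrArg Fin.val h
  simp at this

theorem pv_ne_last (n : ℕ) : pv n ≠ Fin.last (n + 1) := by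
  intro h
  have := congrArg Fin.val h
  simp [pv] at this

theorem self_x (n : ℕ) {S : Split (SG (n + 2))} (hSt : S.t = gb (Fin.last (n + 1)))
    (hSw : S.w = ga (Fin.last (n + 1))) (hSb : ∀ i, i ≠ Fin.last (n + 1) → gb i ∈ S.F) :
    ∃ K : ℕ, ∀ k, K ≤ k → ∃ γ, CrossEl (γ * xk n k * γ⁻¹) (xk n k) := by
  obtain ⟨χ, hχ⟩ := exists_count (g := n + 2) (pv n, true)
  obtain ⟨K, hK⟩ := S.self_cross (oneEnded_SG _) (hasHS_SG _) (hSb _ (pv_ne_last n)) χ (by
    have : χ (gb (pv n)) = Multiplicative.ofAdd 1 := (hχ _).trans (if_pos rfl)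
    rw [this]
    intro h
    exact absurd (congrArg Multiplicative.toAdd h) (by simp)) (by
    rw [hSw]
    exact (hχ _).trans (if_neg (by simp)))
  refine ⟨K, fun k hk => ?_⟩
  obtain ⟨γ, hγ⟩ := hK k hk
  rw [hSt, hSw] at hγ
  obtain ⟨ρ, hρ, -⟩ := exists_rot n
  have h1 : ρ (gb (pv n)) = gb (Fin.last (n + 1)) := by
    have := hρ (pv n) true
    rw [pv_add] at this
    exact this
  have h2 : ρ (gb (Fin.last (n + 1))) = gb 0 := by
    have := hρ (Fin.last (n + 1)) true
    rw [last_add_one'] at this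
    exact this
  have h3 : ρ (ga (Fin.last (n + 1))) = ga 0 := by
    have := hρ (Fin.last (n + 1)) false
    rw [last_add_one'] at this
    exact this
  let φ : MulAut (SG (n + 2)) := MulAut.conj (gb (Fin.last (n + 1)))⁻¹ * ρ
  have h4 : φ (gb (pv n) * gb (Fin.last (n + 1)) * ga (Fin.last (n + 1)) ^ k *
      gb (Fin.last (n + 1))) = xk n k := by
    change MulAut.conj (gb (Fin.last (n + 1)))⁻¹ (ρ _) = _
    rw [map_mul ρ, map_mul ρ, map_mul ρ, map_pow ρ, h1, h2, h3, MulAut.conj_apply]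
    unfold xk
    group
  refine ⟨φ γ, ?_⟩
  have h5 := hγ.map φ
  rw [map_mul, map_mul, map_inv, h4] at h5
  exact h5

theorem exists_fixers (n k : ℕ) (hk : 1 ≤ k) :
    ∃ r : ℕ, 0 < r ∧ ∃ b : ℕ → MulAut (SG (n + 2)), (∀ i, b (i + r) = b i) ∧
      (∀ i, am (b i) (Subgroup.zpowers (xk n k)) ≠ am (b (i + 1)) (Subgroup.zpowers (xk n k))) ∧
      Subgroup.closure (Set.range fun i => b i (xk n k)) = ⊤ := by
  obtain ⟨ρ, hρ, hρn⟩ := exists_rot n
  obtain ⟨T1, hT1, hT1'⟩ := exists_T1 n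
  obtain ⟨T2, hT2, hT2'⟩ := exists_T2 n
  set L : Fin (n + 2) := Fin.last (n + 1) with hL
  have h0L : (0 : Fin (n + 2)) ≠ L := zero_ne_last n
  set x := xk n k with hx
  have hxe : x = gb 0 * ga 0 ^ k * gb 0 * gb L := rfl
  have h1 : T1 x = x * ga L := by
    have e1 : T1 (gb 0) = gb 0 := hT1' _ (fun h => h0L (Prod.mk.inj h).1)
    have e2 : T1 (ga 0) = ga 0 := hT1' _ (by simp)
    rw [hxe, map_mul, map_mul, map_mul, map_pow, e1, e2, hT1]
    simp only [mul_assoc]
  have h2 : T2 (x * ga L) = x * (ga L * gb L) := by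
    have e1 : T2 (gb 0) = gb 0 := hT2' _ (by simp)
    have e2 : T2 (ga 0) = ga 0 := hT2' _ (fun h => h0L (Prod.mk.inj h).1)
    have e3 : T2 (gb L) = gb L := hT2' _ (by simp)
    have e4 : T2 x = x := by
      rw [hxe, map_mul, map_mul, map_mul, map_pow, e1, e2, e3]
    rw [map_mul, e4, hT2]
  let ψ : ℕ → MulAut (SG (n + 2)) := fun c => if c = 0 then 1 else if c = 1 then T1 else T2 * T1
  have hψ0 : ψ 0 x = x := rfl
  have hψ1 : ψ 1 x = x * ga L := h1
  have hψ2 : ψ 2 x = x * (ga L * gb L) := by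
    change T2 (T1 x) = _
    rw [h1, h2]
  let b : ℕ → MulAut (SG (n + 2)) := fun i => ρ ^ (i / 3) * ψ (i % 3)
  have hb : ∀ q c, c < 3 → b (3 * q + c) = ρ ^ q * ψ c := by
    intro q c hc
    have e1 : (3 * q + c) / 3 = q := by omega
    have e2 : (3 * q + c) % 3 = c := by omega
    simp only [b, e1, e2]
  have hbx : ∀ q c, c < 3 → b (3 * q + c) x = (ρ ^ q) (ψ c x) := by
    intro q c hc
    rw [hb q c hc]; rfl
  refine ⟨3 * (n + 2), by omega, b, ?_, ?_, ?_⟩
  · intro i
    have e1 : (i + 3 * (n + 2)) / 3 = i / 3 + (n + 2) := by omega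
    have e2 : (i + 3 * (n + 2)) % 3 = i % 3 := by omega
    simp only [b, e1, e2, pow_add ρ (i / 3) (n + 2), hρn, mul_one]
  · intro i heq
    obtain ⟨q, c, hc, rfl⟩ : ∃ q c, c < 3 ∧ i = 3 * q + c := ⟨i / 3, i % 3, by omega, by omega⟩
    rw [am_zpowers, am_zpowers] at heq
    obtain ⟨α, hα⟩ := exists_count (g := n + 2) (L, false)
    obtain ⟨β, hβ⟩ := exists_count (g := n + 2) (L, true)
    obtain ⟨δ, hδ⟩ := exists_count (g := n + 2) (0, false)
    have hα1 : α (gb 0) = 1 := (hα _).trans (if_neg (by simp))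
    have hα2 : α (ga 0) = 1 := (hα _).trans (if_neg (fun h => h0L (Prod.mk.inj h).1))
    have hα3 : α (gb L) = 1 := (hα _).trans (if_neg (by simp))
    have hα4 : α (ga L) = Multiplicative.ofAdd 1 := (hα _).trans (if_pos rfl)
    have hαx : α x = 1 := by
      rw [hxe, map_mul, map_mul, map_mul, map_pow, hα1, hα2, hα3]; simp
    have hβ1 : β (gb 0) = 1 := (hβ _).trans (if_neg (fun h => h0L (Prod.mk.inj h).1))
    have hβ2 : β (ga 0) = 1 := (hβ _).trans (if_neg (by simp))
    have hβ3 : β (gb L) = Multiplicative.ofAdd 1 := (hβ _).trans (if_pos rfl)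
    have hβ4 : β (ga L) = 1 := (hβ _).trans (if_neg (by simp))
    have hβx : β x = Multiplicative.ofAdd 1 := by
      rw [hxe, map_mul, map_mul, map_mul, map_pow, hβ1, hβ2, hβ3]; simp
    have hδ1 : δ (gb 0) = 1 := (hδ _).trans (if_neg (by simp))
    have hδ2 : δ (ga 0) = Multiplicative.ofAdd 1 := (hδ _).trans (if_pos rfl)
    have hδ3 : δ (gb L) = 1 := (hδ _).trans (if_neg (by simp))
    have hδ4 : δ (ga L) = 1 := (hδ _).trans (if_neg (fun h => h0L (Prod.mk.inj h).1.symm))
    have hδx : δ x = Multiplicative.ofAdd (k : ℤ) := by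
      rw [hxe, map_mul, map_mul, map_mul, map_pow, hδ1, hδ2, hδ3]
      simp [← ofAdd_nsmul]
    have key : ∀ u v : SG (n + 2), Subgroup.zpowers ((ρ ^ q) u) = Subgroup.zpowers ((ρ ^ q) v) →
        ∃ m : ℤ, v ^ m = u := by
      intro u v h
      have h3 : (ρ ^ q) u ∈ Subgroup.zpowers ((ρ ^ q) v) := by
        rw [← h]; exact Subgroup.mem_zpowers _
      obtain ⟨m, hm⟩ := Subgroup.mem_zpowers_iff.mp h3
      refine ⟨m, (ρ ^ q).injective ?_⟩
      rw [map_zpow, hm]
    have hc3 : c = 0 ∨ c = 1 ∨ c = 2 := by omega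
    rcases hc3 with rfl | rfl | rfl
    · rw [hbx q 0 (by omega), show 3 * q + 0 + 1 = 3 * q + 1 by ring, hbx q 1 (by omega), hψ0,
        hψ1] at heq
      obtain ⟨m, hm⟩ := key _ _ heq.symm
      have := congrArg α hm
      rw [map_zpow, map_mul, hαx, hα4, one_zpow, one_mul] at this
      exact absurd (congrArg Multiplicative.toAdd this) (by simp)
    · rw [hbx q 1 (by omega), show 3 * q + 1 + 1 = 3 * q + 2 by ring, hbx q 2 (by omega), hψ1,
        hψ2] at heq
      obtain ⟨m, hm⟩ := key _ _ heq.symm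
      have e1 := congrArg α hm
      have e2 := congrArg β hm
      rw [map_zpow, map_mul, map_mul, map_mul, hαx, hα4, hα3] at e1
      rw [map_zpow, map_mul, map_mul, map_mul, hβx, hβ4, hβ3] at e2
      have e3 := congrArg Multiplicative.toAdd e1
      have e4 := congrArg Multiplicative.toAdd e2
      simp at e3 e4
      omega
    · rw [hbx q 2 (by omega), show 3 * q + 2 + 1 = 3 * (q + 1) + 0 by ring,
        hbx (q + 1) 0 (by omega), hψ2, hψ0, pow_succ, MulAut.mul_apply] at heq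
      obtain ⟨m, hm⟩ := key _ _ heq
      have e0 : δ (ρ x) = 1 := by
        have a1 : ρ (gb 0) = gb 1 := by
          have := hρ 0 true
          rw [zero_add] at this
          exact this
        have a2 : ρ (ga 0) = ga 1 := by
          have := hρ 0 false
          rw [zero_add] at this
          exact this
        have a3 : ρ (gb L) = gb 0 := by
          have := hρ L true
          rw [last_add_one'] at this
          exact this
        have b1 : δ (gb 1) = 1 := (hδ _).trans (if_neg (by simp))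
        have b2 : δ (ga 1) = 1 := (hδ _).trans (if_neg (by simp))
        rw [hxe, map_mul ρ, map_mul ρ, map_mul ρ, map_pow ρ, a1, a2, a3, map_mul δ, map_mul δ,
          map_mul δ, map_pow δ, b1, b2, hδ1]
        simp
      have e1 := congrArg δ hm
      rw [map_zpow, e0, map_mul, map_mul, hδx, hδ4, hδ3, one_zpow] at e1
      have e3 := congrArg Multiplicative.toAdd e1
      simp at e3
      omega
  · rw [eq_top_iff, ← closure_gen, Subgroup.closure_le]
    set K := Subgroup.closure (Set.range fun i => b i x) with hK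
    have hmem : ∀ q c, c < 3 → (ρ ^ q) (ψ c x) ∈ K := by
      intro q c hc
      rw [← hbx q c hc]
      exact Subgroup.subset_closure ⟨_, rfl⟩
    have ha : ∀ q, (ρ ^ q) (ga L) ∈ K := by
      intro q
      have e0 := hmem q 0 (by omega)
      have e1 := hmem q 1 (by omega)
      rw [hψ0] at e0
      rw [hψ1, map_mul] at e1
      exact (Subgroup.mul_mem_cancel_left _ e0).mp e1
    have hbb : ∀ q, (ρ ^ q) (gb L) ∈ K := by
      intro q
      have e0 := hmem q 0 (by omega)
      have e1 := hmem q 2 (by omega)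
      rw [hψ0] at e0
      rw [hψ2, map_mul, map_mul] at e1
      exact (Subgroup.mul_mem_cancel_left _ (ha q)).mp ((Subgroup.mul_mem_cancel_left _ e0).mp e1)
    have hLi : ∀ i : Fin (n + 2), L + sh n ((i : ℕ) + 1) = i := by
      intro i
      rw [sh_succ, sh_val, add_comm i 1, ← add_assoc, last_add_one', zero_add]
    rintro _ ⟨⟨i, c⟩, rfl⟩
    rw [SetLike.mem_coe]
    cases c
    · have := ha ((i : ℕ) + 1)
      unfold ga at this
      rw [rot_pow hρ, hLi] at this
      exact this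
    · have := hbb ((i : ℕ) + 1)
      unfold gb at this
      rw [rot_pow hρ, hLi] at this
      exact this

theorem exists_lines (n : ℕ) (S : Split (SG (n + 2))) (hSt : S.t = gb (Fin.last (n + 1)))
    (hSw : S.w = ga (Fin.last (n + 1))) (hSa : ∀ i, ga i ∈ S.F)
    (hSb : ∀ i, i ≠ Fin.last (n + 1) → gb i ∈ S.F) :
    ∃ k : ℕ, ∃ Λ : LineSys S ((gb 0 * ga 0 ^ k * gb 0) * S.t),
      (∃ γ, CrossEl (γ * xk n k * γ⁻¹) (xk n k)) ∧ (crossGraph Λ.L).Connected ∧
      (∃ C0 : ℕ, ∀ C : Λ.L, ∃ p : SG (n + 2), ∃ D : Λ.L,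
        (D : Subgroup (SG (n + 2))) = cj p (C : Subgroup (SG (n + 2))) ∧
        (crossGraph Λ.L).dist D ⟨_, Λ.x_mem⟩ ≤ C0) ∧
      (∃ r : ℕ, 0 < r ∧ ∃ b : ℕ → MulAut (SG (n + 2)), (∀ i, b (i + r) = b i) ∧
        (∀ i, am (b i) (Subgroup.zpowers (xk n k)) ≠ am (b (i + 1)) (Subgroup.zpowers (xk n k))) ∧
        Subgroup.closure (Set.range fun i => b i (xk n k)) = ⊤) := by
  obtain ⟨K, hK⟩ := self_x n hSt hSw hSb
  obtain ⟨Λ, hΛ⟩ := exists_lineSys (K + 1) hSt hSa hSb hSw
  exact ⟨K + 1, Λ, hK _ (by omega), lines_conn Λ hΛ hSt hSw hSb,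
    lines_C0 Λ hΛ hSt hSw hSb _, exists_fixers n (K + 1) (by omega)⟩

end Run7.h955
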