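import Pool.Agent.Run7.h955.Defs

set_option autoImplicit false

/-!
# Rotation systems: coordinates, axes, positions
-/

namespace Run7.h955

namespace RotSys

variable {G V : Type*} [Group G] [MulAction G V] (R : RotSys G V)

/-- The distance. -/
noncomputable def d (p q : V) : ℤ := (R.gr.dist p q : ℤ)

/-- The coordinate at the special vertex `g • x0`. -/
def k (g : G) (p : V) : ℤ := R.κ (g⁻¹ • p)

/-- The constant. -/
def T : ℤ := max (max R.θ R.Θ) 1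

lemma T_pos : 1 ≤ R.T := le_max_right _ _

lemma θ_le : R.θ ≤ R.T := le_trans (le_max_left _ _) (le_max_left _ _)

lemma Θ_le : R.Θ ≤ R.T := le_trans (le_max_right _ _) (le_max_left _ _)

lemma d_comm (p q : V) : R.d p q = R.d q p := by
  unfold d; rw [SimpleGraph.dist_comm]

lemma d_nonneg (p q : V) : 0 ≤ R.d p q := Int.natCast_nonneg _

lemma d_self (p : V) : R.d p p = 0 := by
  unfold d; simp

lemma d_tri (p q s : V) : R.d p s ≤ R.d p q + R.d q s := by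
  unfold d
  have := R.conn.dist_triangle (u := p) (v := q) (w := s)
  exact_mod_cast this

lemma eq_of_d {p q : V} (h : R.d p q ≤ 0) : p = q := by
  unfold d at h
  have h0 : R.gr.dist p q = 0 := by omega
  exact (R.conn.dist_eq_zero_iff).mp h0

lemma d_pos {p q : V} (h : p ≠ q) : 1 ≤ R.d p q := by
  by_contra h'
  exact h (R.eq_of_d (by omega))

lemma dist_smul_le (g : G) (p q : V) : R.gr.dist (g • p) (g • q) ≤ R.gr.dist p q := by
  obtain ⟨w, hw⟩ := R.conn.exists_walk_length_eq_dist p q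
  rw [← hw]
  let f : R.gr →g R.gr := ⟨fun v => g • v, fun {a b} h => R.gr_smul g a b h⟩
  have := SimpleGraph.dist_le (w.map f)
  rw [SimpleGraph.Walk.length_map] at this
  exact this

lemma d_smul (g : G) (p q : V) : R.d (g • p) (g • q) = R.d p q := by
  unfold d
  have h1 := R.dist_smul_le g p q
  have h2 := R.dist_smul_le g⁻¹ (g • p) (g • q)
  rw [inv_smul_smul, inv_smul_smul] at h2
  have := le_antisymm h1 h2
  exact_mod_cast this

lemma d_smul_inv (g : G) (p q : V) : R.d (g⁻¹ • p) q = R.d p (g • q) := by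
  rw [← R.d_smul g (g⁻¹ • p) q, smul_inv_smul]

lemma k_smul (h g : G) (p : V) : R.k (h * g) (h • p) = R.k g p := by
  unfold k
  rw [mul_inv_rev, mul_smul, inv_smul_smul]

lemma k_smul' (h g : G) (p : V) : R.k g (h • p) = R.k (h⁻¹ * g) p := by
  unfold k
  rw [mul_inv_rev, inv_inv, mul_smul]

lemma ne_inv {g : G} {p : V} (h : p ≠ g • R.x0) : g⁻¹ • p ≠ R.x0 := by
  intro h'
  apply h
  rw [← h', smul_inv_smul]

lemma k_A1 {g : G} {p q : V} (hp : p ≠ g • R.x0) (hq : q ≠ g • R.x0) (h : R.gr.Adj p q) :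
    |R.k g p - R.k g q| ≤ R.T :=
  le_trans (R.A1 _ _ (ne_inv R hp) (ne_inv R hq) (R.gr_smul _ _ _ h)) R.θ_le

lemma k_B {g : G} {p q : V} (hp : p ≠ g • R.x0) (hq : q ≠ g • R.x0)
    (h : R.T ≤ |R.k g p - R.k g q|) : R.d p q = R.d p (g • R.x0) + R.d (g • R.x0) q := by
  have := R.B _ _ (ne_inv R hp) (ne_inv R hq) (le_trans R.Θ_le h)
  have h1 : R.d (g⁻¹ • p) (g⁻¹ • q) = R.d (g⁻¹ • p) R.x0 + R.d R.x0 (g⁻¹ • q) := by
    unfold d; exact_mod_cast this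
  rw [R.d_smul] at h1
  rw [h1, R.d_smul_inv, R.d_comm R.x0, R.d_smul_inv, R.d_comm q]

lemma k_A3 {g g' : G} (h : g • R.x0 = g' • R.x0) : ∃ ε : ℤ, (ε = 1 ∨ ε = -1) ∧
    g' * R.ρ * g'⁻¹ = g * R.ρ ^ ε * g⁻¹ ∧
    ∃ c : ℤ, ∀ p, p ≠ g • R.x0 → |R.k g' p - (ε * R.k g p + c)| ≤ R.T := by
  have hs : (g⁻¹ * g') • R.x0 = R.x0 := by rw [mul_smul, ← h, inv_smul_smul]
  have hs' : (g'⁻¹ * g) • R.x0 = R.x0 := by rw [mul_smul, h, inv_smul_smul]
  obtain ⟨ε, hε, h1, c, h2⟩ := R.A3 (g'⁻¹ * g) hs'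
  refine ⟨ε, hε, ?_, c, ?_⟩
  · have h3 : g'⁻¹ * g * (R.ρ ^ ε) * (g'⁻¹ * g)⁻¹ = R.ρ := by
      have h4 : (g'⁻¹ * g * R.ρ * (g'⁻¹ * g)⁻¹) ^ ε = (R.ρ ^ ε) ^ ε := by rw [h1]
      rw [conj_zpow, ← zpow_mul] at h4
      rw [h4]
      rcases hε with rfl | rfl <;> simp
    calc g' * R.ρ * g'⁻¹ = g' * (g'⁻¹ * g * (R.ρ ^ ε) * (g'⁻¹ * g)⁻¹) * g'⁻¹ := by rw [h3]
      _ = g * R.ρ ^ ε * g⁻¹ := by group
  · intro p hp
    have h3 := h2 (g⁻¹ • p) (ne_inv R hp)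
    have e : (g'⁻¹ * g) • g⁻¹ • p = g'⁻¹ • p := by rw [mul_smul, smul_inv_smul]
    rw [e] at h3
    exact le_trans h3 R.θ_le

lemma κ_ρ_nat (n : ℕ) (p : V) (hp : p ≠ R.x0) :
    (R.ρ ^ n) • p ≠ R.x0 ∧ R.κ ((R.ρ ^ n) • p) = R.κ p + n := by
  induction n with
  | zero => simp [hp]
  | succ n ih =>
    obtain ⟨h1, h2⟩ := ih
    rw [pow_succ', mul_smul]
    refine ⟨?_, ?_⟩
    · intro h
      apply h1
      have := congrArg (fun z => R.ρ⁻¹ • z) h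
      simp only [inv_smul_smul] at this
      rw [this]
      rw [inv_smul_eq_iff]
      exact R.ρx.symm
    · rw [R.A2 _ h1, h2]; push_cast; ring

lemma ρ_zpow_x0 (n : ℤ) : (R.ρ ^ n) • R.x0 = R.x0 := by
  have h : R.ρ ∈ MulAction.stabilizer G R.x0 := R.ρx
  exact (MulAction.stabilizer G R.x0).zpow_mem h n

lemma κ_ρ (n : ℤ) (p : V) (hp : p ≠ R.x0) : R.κ ((R.ρ ^ n) • p) = R.κ p + n := by
  rcases Int.eq_nat_or_neg n with ⟨m, rfl | rfl⟩
  · rw [zpow_natCast]; exact (R.κ_ρ_nat m p hp).2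
  · have hq : (R.ρ ^ (-(m : ℤ))) • p ≠ R.x0 := by
      intro h
      apply hp
      have := congrArg (fun z => R.ρ ^ (m : ℤ) • z) h
      simp only [smul_smul, ← zpow_add] at this
      rw [add_neg_cancel, zpow_zero, one_smul, R.ρ_zpow_x0] at this
      exact this
    have h1 := (R.κ_ρ_nat m _ hq).2
    rw [← zpow_natCast, smul_smul, ← zpow_add, add_neg_cancel, zpow_zero, one_smul] at h1
    omega

/-- the rotation at `g • x0` -/
lemma k_rot (g : G) (n : ℤ) (p : V) (hp : p ≠ g • R.x0) :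
    R.k g ((g * R.ρ ^ n * g⁻¹) • p) = R.k g p + n := by
  unfold k
  rw [smul_smul]
  have e : g⁻¹ * (g * R.ρ ^ n * g⁻¹) = R.ρ ^ n * g⁻¹ := by group
  rw [e, mul_smul]
  exact R.κ_ρ n _ (ne_inv R hp)

lemma rot_fix (g : G) (n : ℤ) : (g * R.ρ ^ n * g⁻¹) • (g • R.x0) = g • R.x0 := by
  rw [smul_smul]
  have e : g * R.ρ ^ n * g⁻¹ * g = g * R.ρ ^ n := by group
  rw [e, mul_smul, R.ρ_zpow_x0]

lemma rot_ne (g : G) (n : ℤ) {p : V} (hp : p ≠ g • R.x0) :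
    (g * R.ρ ^ n * g⁻¹) • p ≠ g • R.x0 := by
  intro h
  apply hp
  rw [← R.rot_fix g n] at h
  exact smul_left_cancel _ h

/-! ## Axes -/

/-- An axis: special vertices with large rotations. -/
structure Ax where
  γ : ℤ → G
  ne : ∀ i, γ (i + 1) • R.x0 ≠ γ i • R.x0
  rot : ∀ i, 8 * R.T ≤ |R.k (γ i) (γ (i + 1) • R.x0) - R.k (γ i) (γ (i - 1) • R.x0)|

namespace Ax

variable {R} (ξ : R.Ax)

/-- The vertices of the axis. -/
def x (i : ℤ) : V := ξ.γ i • R.x0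

lemma x_ne (i : ℤ) : ξ.x (i + 1) ≠ ξ.x i := ξ.ne i

lemma x_ne' (i : ℤ) : ξ.x (i - 1) ≠ ξ.x i := by
  have := ξ.ne (i - 1)
  rw [sub_add_cancel] at this
  exact this.symm

lemma rot' (i : ℤ) : 8 * R.T ≤ |R.k (ξ.γ i) (ξ.x (i + 1)) - R.k (ξ.γ i) (ξ.x (i - 1))| := ξ.rot i

/-- `p` is in the positive direction at `i` -/
def Rt (p : V) (i : ℤ) : Prop := p ≠ ξ.x i ∧ |R.k (ξ.γ i) p - R.k (ξ.γ i) (ξ.x (i + 1))| < R.T

/-- `p` is in the negative direction at `i` -/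
def Lt (p : V) (i : ℤ) : Prop := p ≠ ξ.x i ∧ |R.k (ξ.γ i) p - R.k (ξ.γ i) (ξ.x (i - 1))| < R.T

lemma not_both {p : V} {i : ℤ} (h1 : ξ.Rt p i) (h2 : ξ.Lt p i) : False := by
  have h := ξ.rot' i
  have hT := R.T_pos
  have h3 := h1.2
  have h4 := h2.2
  rw [abs_lt] at h3 h4
  rcases abs_cases (R.k (ξ.γ i) (ξ.x (i + 1)) - R.k (ξ.γ i) (ξ.x (i - 1))) with h5 | h5 <;> omega

/-- (B) at a vertex of the axis -/
lemma B {p q : V} {i : ℤ} (hp : p ≠ ξ.x i) (hq : q ≠ ξ.x i)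
    (h : R.T ≤ |R.k (ξ.γ i) p - R.k (ξ.γ i) q|) :
    R.d p q = R.d p (ξ.x i) + R.d (ξ.x i) q := R.k_B hp hq h

lemma B_RL {p q : V} {i : ℤ} (hp : ξ.Rt p i) (hq : ξ.Lt q i) :
    R.d p q = R.d p (ξ.x i) + R.d (ξ.x i) q := by
  apply ξ.B hp.1 hq.1
  have h := ξ.rot' i
  have hT := R.T_pos
  have h3 := hp.2
  have h4 := hq.2
  rw [abs_lt] at h3 h4
  rcases abs_cases (R.k (ξ.γ i) (ξ.x (i + 1)) - R.k (ξ.γ i) (ξ.x (i - 1))) with h5 | h5
  · apply le_trans _ (le_abs_self _); omega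
  · apply le_trans _ (neg_le_abs _); omega

lemma B_notR {p : V} {i : ℤ} (hp : ¬ ξ.Rt p i) :
    R.d p (ξ.x (i + 1)) = R.d p (ξ.x i) + R.d (ξ.x i) (ξ.x (i + 1)) := by
  by_cases h : p = ξ.x i
  · subst h; rw [R.d_self]; ring
  · apply ξ.B h (ξ.x_ne i)
    by_contra h'
    exact hp ⟨h, not_le.mp h'⟩

lemma B_notL {p : V} {i : ℤ} (hp : ¬ ξ.Lt p i) :
    R.d p (ξ.x (i - 1)) = R.d p (ξ.x i) + R.d (ξ.x i) (ξ.x (i - 1)) := by
  by_cases h : p = ξ.x i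
  · subst h; rw [R.d_self]; ring
  · apply ξ.B h (ξ.x_ne' i)
    by_contra h'
    exact hp ⟨h, not_le.mp h'⟩

lemma L_of_notR {p : V} {i : ℤ} (hp : ¬ ξ.Rt p i) : ξ.Lt p (i + 1) := by
  have h1 := ξ.B_notR hp
  have h2 : 1 ≤ R.d (ξ.x i) (ξ.x (i + 1)) := R.d_pos (ξ.x_ne i).symm
  by_contra h
  have h3 := ξ.B_notL h
  rw [add_sub_cancel_right] at h3
  have h4 := R.d_comm (ξ.x i) (ξ.x (i + 1))
  have h5 := R.d_nonneg p (ξ.x i)
  omega

lemma R_of_notL {p : V} {i : ℤ} (hp : ¬ ξ.Lt p i) : ξ.Rt p (i - 1) := by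
  have h1 := ξ.B_notL hp
  have h2 : 1 ≤ R.d (ξ.x i) (ξ.x (i - 1)) := R.d_pos (ξ.x_ne' i).symm
  by_contra h
  have h3 := ξ.B_notR h
  rw [sub_add_cancel] at h3
  have h4 := R.d_comm (ξ.x i) (ξ.x (i - 1))
  have h5 := R.d_nonneg p (ξ.x i)
  omega

lemma notR_succ {p : V} {i : ℤ} (hp : ¬ ξ.Rt p i) : ¬ ξ.Rt p (i + 1) := fun h =>
  ξ.not_both h (ξ.L_of_notR hp)

lemma R_pred {p : V} {i : ℤ} (hp : ξ.Rt p i) : ξ.Rt p (i - 1) := by
  by_contra h
  have := ξ.notR_succ h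
  rw [sub_add_cancel] at this
  exact this hp

lemma R_mono {p : V} {i j : ℤ} (hij : j ≤ i) (hp : ξ.Rt p i) : ξ.Rt p j := by
  obtain ⟨n, rfl⟩ : ∃ n : ℕ, i = j + n := ⟨(i - j).toNat, by omega⟩
  induction n with
  | zero => simpa using hp
  | succ n ih =>
    apply ih (by omega)
    have := ξ.R_pred hp
    have e : j + ((n + 1 : ℕ) : ℤ) - 1 = j + n := by push_cast; ring
    rwa [e] at this

/-- distance descent in the positive direction -/
lemma desc_R (p : V) (i : ℤ) (n : ℕ) (h : ξ.Rt p (i + n)) : R.d p (ξ.x (i + n)) + n ≤ R.d p (ξ.x i) := by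
  induction n with
  | zero => simp
  | succ n ih =>
    have e : i + ((n + 1 : ℕ) : ℤ) - 1 = i + n := by push_cast; ring
    have h1 := ξ.R_pred h
    rw [e] at h1
    have h2 := ih h1
    have h3 : ¬ ξ.Lt p (i + ((n + 1 : ℕ) : ℤ)) := fun h' => ξ.not_both h h'
    have h4 := ξ.B_notL h3
    rw [e] at h4
    have h5 : 1 ≤ R.d (ξ.x (i + ((n + 1 : ℕ) : ℤ))) (ξ.x (i + n)) := by
      have := R.d_pos (ξ.x_ne (i + n))
      have e2 : i + (n : ℤ) + 1 = i + ((n + 1 : ℕ) : ℤ) := by push_cast; ring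
      rwa [e2] at this
    push_cast at *
    omega

lemma L_pred_or {p : V} {i : ℤ} (hp : ξ.Lt p i) : ¬ ξ.Rt p i := fun h => ξ.not_both h hp

lemma desc_L (p : V) (i : ℤ) (n : ℕ) (h : ¬ ξ.Rt p (i - n)) :
    R.d p (ξ.x (i - n)) + n ≤ R.d p (ξ.x i) := by
  induction n with
  | zero => simp
  | succ n ih =>
    have e : i - ((n + 1 : ℕ) : ℤ) + 1 = i - n := by push_cast; ring
    have h1 := ξ.notR_succ h
    rw [e] at h1
    have h2 := ih h1
    have h4 := ξ.B_notR h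
    rw [e] at h4
    have h5 : 1 ≤ R.d (ξ.x (i - ((n + 1 : ℕ) : ℤ))) (ξ.x (i - n)) := by
      have := R.d_pos (ξ.x_ne (i - ((n + 1 : ℕ) : ℤ))).symm
      rwa [e] at this
    push_cast at *
    omega

lemma exists_pos (p : V) : ∃ c : ℤ, ∀ i, ξ.Rt p i ↔ i < c := by
  have h1 : ∃ n : ℕ, ¬ ξ.Rt p (0 + n) := by
    by_contra h
    push Not at h
    have h2 := ξ.desc_R p 0 ((R.d p (ξ.x 0)).toNat + 1) (h _)
    have h3 := R.d_nonneg p (ξ.x (0 + ((R.d p (ξ.x 0)).toNat + 1 : ℕ)))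
    have h4 := R.d_nonneg p (ξ.x 0)
    push_cast at *
    omega
  have h2 : ∃ n : ℕ, ξ.Rt p (0 - n) := by
    by_contra h
    push Not at h
    have h2 := ξ.desc_L p 0 ((R.d p (ξ.x 0)).toNat + 1) (h _)
    have h3 := R.d_nonneg p (ξ.x (0 - ((R.d p (ξ.x 0)).toNat + 1 : ℕ)))
    have h4 := R.d_nonneg p (ξ.x 0)
    push_cast at *
    omega
  obtain ⟨n, hn⟩ := h1
  obtain ⟨m, hm⟩ := h2
  obtain ⟨c, hc1, hc2⟩ := Int.exists_least_of_bdd (P := fun i => ¬ ξ.Rt p i)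
    ⟨0 - m, fun z hz => by
      by_contra h
      exact hz (ξ.R_mono (by omega) hm)⟩ ⟨_, hn⟩
  refine ⟨c, fun i => ⟨fun h => ?_, fun h => ?_⟩⟩
  · by_contra h'
    exact hc1 (ξ.R_mono (by omega) h)
  · by_contra h'
    have := hc2 i h'
    omega

/-- The position of a vertex along the axis. -/
noncomputable def pos (p : V) : ℤ := (ξ.exists_pos p).choose

lemma R_iff (p : V) (i : ℤ) : ξ.Rt p i ↔ i < ξ.pos p := (ξ.exists_pos p).choose_spec i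

lemma pos_unique {p : V} {c : ℤ} (h : ∀ i, ξ.Rt p i ↔ i < c) : ξ.pos p = c := by
  have h1 := ξ.R_iff p
  have h2 := (h (ξ.pos p)).not
  have h3 := (h1 c).not
  have h4 := (h1 (ξ.pos p)).not
  have h5 := (h c).not
  have : ¬ ξ.Rt p (ξ.pos p) := h4.mpr (lt_irrefl _)
  have h6 := h2.mp this
  have : ¬ ξ.Rt p c := h5.mpr (lt_irrefl _)
  have h7 := h3.mp this
  omega

lemma L_of_lt {p : V} {i : ℤ} (h : ξ.pos p < i) : ξ.Lt p i := by
  have h1 : ¬ ξ.Rt p (i - 1) := by rw [ξ.R_iff]; omega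
  have := ξ.L_of_notR h1
  rwa [sub_add_cancel] at this

lemma pos_x (i : ℤ) : ξ.pos (ξ.x i) = i := by
  apply ξ.pos_unique
  intro j
  have h0 : ∀ n : ℕ, ξ.Rt (ξ.x i) (i - 1 - n) := by
    intro n
    induction n with
    | zero =>
      have h : ¬ ξ.Lt (ξ.x i) i := fun h => h.1 rfl
      simpa using ξ.R_of_notL h
    | succ n ih =>
      have := ξ.R_pred ih
      have e : i - 1 - (n : ℤ) - 1 = i - 1 - ((n + 1 : ℕ) : ℤ) := by push_cast; ring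
      rwa [e] at this
  constructor
  · intro h
    by_contra h'
    have := ξ.R_mono (p := ξ.x i) (i := j) (j := i) (by omega) h
    exact this.1 rfl
  · intro h
    have := h0 (i - 1 - j).toNat
    have e : i - 1 - (((i - 1 - j).toNat : ℕ) : ℤ) = j := by omega
    rwa [e] at this

lemma x_inj {i j : ℤ} (h : ξ.x i = ξ.x j) : i = j := by
  have := congrArg ξ.pos h
  rwa [ξ.pos_x, ξ.pos_x] at this

lemma R_x {i j : ℤ} (h : i < j) : ξ.Rt (ξ.x j) i := by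
  rw [ξ.R_iff, ξ.pos_x]; exact h

lemma L_x {i j : ℤ} (h : j < i) : ξ.Lt (ξ.x j) i := ξ.L_of_lt (by rw [ξ.pos_x]; exact h)

/-- additivity of distances -/
lemma d_add {p q : V} {i : ℤ} (hp : ξ.pos p < i) (hq : i < ξ.pos q) :
    R.d p q = R.d p (ξ.x i) + R.d (ξ.x i) q := by
  have := ξ.B_RL ((ξ.R_iff q i).mpr hq) (ξ.L_of_lt hp)
  rw [R.d_comm, this, R.d_comm q, R.d_comm p]; ring

lemma d_x {i j l : ℤ} (h1 : i ≤ j) (h2 : j ≤ l) :
    R.d (ξ.x i) (ξ.x l) = R.d (ξ.x i) (ξ.x j) + R.d (ξ.x j) (ξ.x l) := by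
  rcases h1.eq_or_lt with rfl | h1
  · rw [R.d_self]; ring
  rcases h2.eq_or_lt with rfl | h2
  · rw [R.d_self]; ring
  exact ξ.d_add (by rwa [ξ.pos_x]) (by rwa [ξ.pos_x])

lemma pos_adj {p q : V} (h : R.gr.Adj p q) : |ξ.pos p - ξ.pos q| ≤ 1 := by
  have key : ∀ p q : V, R.gr.Adj p q → ξ.pos q ≤ ξ.pos p + 1 := by
    intro p q h
    by_contra h'
    push Not at h'
    have h1 := ξ.L_of_lt (p := p) (i := ξ.pos p + 1) (by omega)
    have h2 := (ξ.R_iff q (ξ.pos p + 1)).mpr (by omega)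
    have h3 := R.k_A1 (g := ξ.γ (ξ.pos p + 1)) h1.1 h2.1 h
    have h4 := ξ.rot' (ξ.pos p + 1)
    have h5 := h1.2
    have h6 := h2.2
    have hT := R.T_pos
    rw [abs_lt] at h5 h6
    rw [abs_le] at h3
    rcases abs_cases (R.k (ξ.γ (ξ.pos p + 1)) (ξ.x (ξ.pos p + 1 + 1)) -
      R.k (ξ.γ (ξ.pos p + 1)) (ξ.x (ξ.pos p + 1 - 1))) with h7 | h7 <;> omega
  rw [abs_le]
  have h1 := key p q h
  have h2 := key q p h.symm
  constructor <;> omega

lemma pos_lip (p q : V) : |ξ.pos p - ξ.pos q| ≤ R.d p q := by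
  obtain ⟨w, hw⟩ := R.conn.exists_walk_length_eq_dist p q
  unfold RotSys.d
  rw [← hw]
  clear hw
  induction w with
  | nil => simp
  | cons h w ih =>
    rw [SimpleGraph.Walk.length_cons]
    have h1 := ξ.pos_adj h
    rw [abs_le] at *
    push_cast
    constructor <;> omega

end Ax

end RotSys

end Run7.h955
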