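import Pool.Agent.Run7.h955.H1

set_option autoImplicit false

/-!
# Rotation systems: comparison of two axes
-/

namespace Run7.h955

namespace RotSys

variable {G V : Type*} [Group G] [MulAction G V] {R : RotSys G V}

namespace Ax

variable (ξ η : R.Ax)

/-- The projection to an axis factors through a gate. -/
lemma gate {p q : V} (h1 : ∀ j, q ≠ η.x j) (h2 : ∀ j, p ≠ η.x j)
    (h3 : ∀ j, R.d p (η.x j) = R.d p q + R.d q (η.x j)) : |η.pos p - η.pos q| ≤ 1 := by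
  have hT := R.T_pos
  have hk : ∀ j, |R.k (η.γ j) p - R.k (η.γ j) q| < R.T := by
    intro j
    by_contra h
    have h4 := η.B (h2 j) (h1 j) (not_lt.mp h)
    have h5 := h3 j
    have h6 := R.d_pos (h1 j)
    have h7 := R.d_comm q (η.x j)
    omega
  rw [abs_le]
  constructor
  · have h4 := (η.R_iff q (η.pos q - 1)).mpr (by omega)
    have h5 : ¬ η.Lt p (η.pos q - 1) := by
      intro h
      have h6 := h4.2
      have h7 := h.2
      have h8 := hk (η.pos q - 1)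
      have h9 := η.rot' (η.pos q - 1)
      rw [abs_lt] at h6 h7 h8
      rcases abs_cases (R.k (η.γ (η.pos q - 1)) (η.x (η.pos q - 1 + 1)) -
        R.k (η.γ (η.pos q - 1)) (η.x (η.pos q - 1 - 1))) with h10 | h10 <;> omega
    have h6 := (η.R_iff p _).mp (η.R_of_notL h5)
    omega
  · have h4 := η.L_of_lt (p := q) (i := η.pos q + 1) (by omega)
    have h5 : ¬ η.Rt p (η.pos q + 1) := by
      intro h
      have h6 := h4.2
      have h7 := h.2
      have h8 := hk (η.pos q + 1)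
      have h9 := η.rot' (η.pos q + 1)
      rw [abs_lt] at h6 h7 h8
      rcases abs_cases (R.k (η.γ (η.pos q + 1)) (η.x (η.pos q + 1 + 1)) -
        R.k (η.γ (η.pos q + 1)) (η.x (η.pos q + 1 - 1))) with h10 | h10 <;> omega
    rw [η.R_iff] at h5
    omega

lemma dich_hi {α : ℤ} (hα : ∀ j, ξ.pos (η.x j) ≤ α) {p : V} (hp : α + 2 ≤ ξ.pos p) :
    |η.pos p - η.pos (ξ.x (α + 1))| ≤ 1 := by
  apply η.gate
  · intro j h
    have h1 := hα j
    rw [← h, ξ.pos_x] at h1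
    omega
  · intro j h
    have h1 := hα j
    rw [← h] at h1
    omega
  · intro j
    have h1 := hα j
    have h2 := ξ.d_add (p := η.x j) (q := p) (i := α + 1) (by omega) (by omega)
    rw [R.d_comm, h2, R.d_comm p, R.d_comm (η.x j)]; ring

lemma dich_lo {α : ℤ} (hα : ∀ j, α ≤ ξ.pos (η.x j)) {p : V} (hp : ξ.pos p ≤ α - 2) :
    |η.pos p - η.pos (ξ.x (α - 1))| ≤ 1 := by
  apply η.gate
  · intro j h
    have h1 := hα j
    rw [← h, ξ.pos_x] at h1
    omega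
  · intro j h
    have h1 := hα j
    rw [← h] at h1
    omega
  · intro j
    have h1 := hα j
    exact ξ.d_add (p := p) (q := η.x j) (i := α - 1) (by omega) (by omega)

lemma exists_minmax (N : ℤ) (f : ℤ → ℤ) (h : ∀ j l, |f j - f l| ≤ N) :
    ∃ a b, (∀ j, a ≤ f j ∧ f j ≤ b) ∧ b - a ≤ N := by
  obtain ⟨a, ⟨j1, ha1⟩, ha2⟩ := Int.exists_least_of_bdd (P := fun z => ∃ j, f j = z)
    ⟨f 0 - N, fun z ⟨j, hz⟩ => by have := h j 0; rw [abs_le] at this; omega⟩ ⟨f 0, 0, rfl⟩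
  obtain ⟨b, ⟨j2, hb1⟩, hb2⟩ := Int.exists_greatest_of_bdd (P := fun z => ∃ j, f j = z)
    ⟨f 0 + N, fun z ⟨j, hz⟩ => by have := h j 0; rw [abs_le] at this; omega⟩ ⟨f 0, 0, rfl⟩
  refine ⟨a, b, fun j => ⟨ha2 _ ⟨j, rfl⟩, hb2 _ ⟨j, rfl⟩⟩, ?_⟩
  have := h j1 j2
  rw [abs_le] at this
  omega

/-- The dichotomy of Behrstock type. -/
theorem dich {N : ℤ} (h1 : ∀ j l, |ξ.pos (η.x j) - ξ.pos (η.x l)| ≤ N)
    (h2 : ∀ j l, |η.pos (ξ.x j) - η.pos (ξ.x l)| ≤ N) :
    ∃ A B : Set ℤ, (∀ p, ξ.pos p ∈ A ∨ η.pos p ∈ B) ∧ (∀ a ∈ A, ∀ a' ∈ A, |a - a'| ≤ N + 2) ∧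
      (∀ b ∈ B, ∀ b' ∈ B, |b - b'| ≤ N + 2) := by
  obtain ⟨a, a', ha, haN⟩ := exists_minmax N (fun j => ξ.pos (η.x j)) h1
  obtain ⟨b, b', hb, hbN⟩ := exists_minmax N (fun j => η.pos (ξ.x j)) h2
  refine ⟨{z | a - 1 ≤ z ∧ z ≤ a' + 1}, {z | b - 1 ≤ z ∧ z ≤ b' + 1}, ?_, ?_, ?_⟩
  · intro p
    by_cases h3 : ξ.pos p ≤ a' + 1
    · by_cases h4 : a - 1 ≤ ξ.pos p
      · exact Or.inl ⟨h4, h3⟩
      · right
        have h5 := ξ.dich_lo η (α := a) (fun j => (ha j).1) (p := p) (by omega)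
        have h6 := hb (a - 1)
        rw [abs_le] at h5
        simp only [Set.mem_setOf_eq] at *
        constructor <;> omega
    · right
      have h5 := ξ.dich_hi η (α := a') (fun j => (ha j).2) (p := p) (by omega)
      have h6 := hb (a' + 1)
      rw [abs_le] at h5
      simp only [Set.mem_setOf_eq] at *
      constructor <;> omega
  · rintro z ⟨h3, h4⟩ z' ⟨h5, h6⟩
    rw [abs_le]; constructor <;> omega
  · rintro z ⟨h3, h4⟩ z' ⟨h5, h6⟩
    rw [abs_le]; constructor <;> omega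

/-- consecutive vertices have nearby coordinates at all other special vertices -/
def Tame (C : ℤ) : Prop := ∀ (g : G) (s : ℤ), η.x s ≠ g • R.x0 → η.x (s + 1) ≠ g • R.x0 →
  |R.k g (η.x s) - R.k g (η.x (s + 1))| ≤ C

/-- the rotation -/
def rt (i : ℤ) : ℤ := R.k (ξ.γ i) (ξ.x (i + 1)) - R.k (ξ.γ i) (ξ.x (i - 1))

/-- large rotations -/
def Big (D : ℤ) : Prop := ∀ i, D ≤ |ξ.rt i|

lemma ivt (f : ℤ → ℤ) {C T j : ℤ} (n : ℕ) (hT : 1 ≤ T)
    (h : ∀ s, j ≤ s → s < j + n → |f s - f (s + 1)| ≤ C) (h2 : C + 2 * T ≤ |f j - f (j + n)|)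
    (hC : 0 ≤ C) :
    ∃ s, j ≤ s ∧ s ≤ j + n ∧ T ≤ |f s - f j| ∧ T ≤ |f s - f (j + n)| := by
  obtain ⟨s, ⟨hs1, hs2⟩, hs3⟩ := Int.exists_least_of_bdd
    (P := fun s => j ≤ s ∧ T ≤ |f s - f j|) ⟨j, fun z hz => hz.1⟩
    ⟨j + n, by omega, by rw [abs_sub_comm]; omega⟩
  have h3 : s ≤ j + n := hs3 _ ⟨by omega, by rw [abs_sub_comm]; omega⟩
  have h4 : s ≠ j := by rintro rfl; simp at hs2; omega
  have h5 : |f (s - 1) - f j| < T := by
    by_contra h5
    have := hs3 (s - 1) ⟨by omega, not_lt.mp h5⟩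
    omega
  have h6 := h (s - 1) (by omega) (by omega)
  rw [sub_add_cancel] at h6
  refine ⟨s, hs1, h3, hs2, ?_⟩
  rw [abs_lt] at h5
  rw [abs_le] at h6
  rcases abs_cases (f j - f (j + n)) with h7 | h7
  · apply le_trans _ (le_abs_self _); omega
  · apply le_trans _ (neg_le_abs _); omega

lemma mem_of_far {C : ℤ} (hC : 0 ≤ C) (hη : η.Tame C) {i j l : ℤ} (hjl : j ≤ l)
    (hj : η.x j ≠ ξ.x i) (hl : η.x l ≠ ξ.x i)
    (h : C + 2 * R.T ≤ |R.k (ξ.γ i) (η.x j) - R.k (ξ.γ i) (η.x l)|) :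
    ∃ s, j ≤ s ∧ s ≤ l ∧ η.x s = ξ.x i := by
  by_contra hcon
  push Not at hcon
  obtain ⟨n, rfl⟩ : ∃ n : ℕ, l = j + n := ⟨(l - j).toNat, by omega⟩
  have hT := R.T_pos
  obtain ⟨s, hs1, hs2, hs3, hs4⟩ := ivt (fun s => R.k (ξ.γ i) (η.x s)) (C := C) (T := R.T) (j := j)
    n hT (fun s h1 h2 => hη _ s (hcon s h1 (by omega)) (hcon (s + 1) (by omega) (by omega))) h hC
  have hs5 := hcon s hs1 hs2
  have e1 := ξ.B hs5 hj hs3
  have e2 := ξ.B hs5 hl hs4
  have e3 := ξ.B hj hl (le_trans (by omega) h)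
  have e4 := η.d_x hs1 hs2
  have e5 := R.d_pos hs5
  rw [R.d_comm (η.x s) (η.x j)] at e1
  have e6 := R.d_comm (ξ.x i) (η.x j)
  omega

lemma mem_of_between {C : ℤ} (hC : 0 ≤ C) (hη : η.Tame C) (hξ : ξ.Big (C + 8 * R.T)) {i j l : ℤ}
    (hjl : j ≤ l) (h : (ξ.Lt (η.x j) i ∧ ξ.Rt (η.x l) i) ∨ (ξ.Rt (η.x j) i ∧ ξ.Lt (η.x l) i)) :
    ∃ s, j ≤ s ∧ s ≤ l ∧ η.x s = ξ.x i := by
  have hT := R.T_pos
  have h1 := hξ i
  unfold rt at h1
  rcases h with ⟨h2, h3⟩ | ⟨h3, h2⟩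
  · apply ξ.mem_of_far η hC hη hjl h2.1 h3.1
    have h4 := h2.2
    have h5 := h3.2
    rw [abs_lt] at h4 h5
    rcases abs_cases (R.k (ξ.γ i) (ξ.x (i + 1)) - R.k (ξ.γ i) (ξ.x (i - 1))) with h6 | h6
    · apply le_trans _ (neg_le_abs _); omega
    · apply le_trans _ (le_abs_self _); omega
  · apply ξ.mem_of_far η hC hη hjl h3.1 h2.1
    have h4 := h2.2
    have h5 := h3.2
    rw [abs_lt] at h4 h5
    rcases abs_cases (R.k (ξ.γ i) (ξ.x (i + 1)) - R.k (ξ.γ i) (ξ.x (i - 1))) with h6 | h6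
    · apply le_trans _ (le_abs_self _); omega
    · apply le_trans _ (neg_le_abs _); omega

/-- Long overlaps are matched vertex by vertex. -/
theorem exists_match {C : ℤ} (hC : 0 ≤ C) (hη : η.Tame C) (hξ : ξ.Big (C + 8 * R.T))
    (hξ' : ξ.Tame C) (hη' : η.Big (C + 8 * R.T)) {α β j l : ℤ} (hα : ξ.pos (η.x j) = α)
    (hβ : ξ.pos (η.x l) = β) :
    ∃ ε c : ℤ, (ε = 1 ∨ ε = -1) ∧ ∀ i, α < i → i < β → η.x (c + ε * i) = ξ.x i := by
  have hex : ∀ i, ∃ s, α < i → i < β → η.x s = ξ.x i := by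
    intro i
    by_cases h : α < i ∧ i < β
    · have h1 := ξ.L_of_lt (p := η.x j) (i := i) (by omega)
      have h2 := (ξ.R_iff (η.x l) i).mpr (by omega)
      rcases le_total j l with hjl | hjl
      · obtain ⟨s, _, _, h3⟩ := ξ.mem_of_between η hC hη hξ hjl (Or.inl ⟨h1, h2⟩)
        exact ⟨s, fun _ _ => h3⟩
      · obtain ⟨s, _, _, h3⟩ := ξ.mem_of_between η hC hη hξ hjl (Or.inr ⟨h2, h1⟩)
        exact ⟨s, fun _ _ => h3⟩
    · exact ⟨0, fun h1 h2 => absurd ⟨h1, h2⟩ h⟩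
  choose s hs using hex
  have hstep : ∀ i, α < i → i + 1 < β → s (i + 1) = s i + 1 ∨ s (i + 1) = s i - 1 := by
    intro i h1 h2
    have e1 := hs i h1 (by omega)
    have e2 := hs (i + 1) (by omega) h2
    have hne : s (i + 1) ≠ s i := by
      intro h
      rw [h, e1] at e2
      exact ξ.x_ne i e2.symm
    by_contra hcon
    push Not at hcon
    have p1 : η.pos (ξ.x i) = s i := by rw [← e1, η.pos_x]
    have p2 : η.pos (ξ.x (i + 1)) = s (i + 1) := by rw [← e2, η.pos_x]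
    rcases lt_or_gt_of_ne hne with h | h
    · -- s (i+1) < s i
      obtain ⟨i', h3, h4, h5⟩ := η.mem_of_between ξ hC hξ' hη' (i := s i - 1) (j := i)
        (l := i + 1) (by omega) (Or.inr ⟨(η.R_iff _ _).mpr (by omega), η.L_of_lt (by omega)⟩)
      have h6 : i' = i ∨ i' = i + 1 := by omega
      rcases h6 with rfl | rfl
      · have := congrArg η.pos h5; rw [p1, η.pos_x] at this; omega
      · have := congrArg η.pos h5; rw [p2, η.pos_x] at this; omega
    · obtain ⟨i', h3, h4, h5⟩ := η.mem_of_between ξ hC hξ' hη' (i := s i + 1) (j := i)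
        (l := i + 1) (by omega) (Or.inl ⟨η.L_of_lt (by omega), (η.R_iff _ _).mpr (by omega)⟩)
      have h6 : i' = i ∨ i' = i + 1 := by omega
      rcases h6 with rfl | rfl
      · have := congrArg η.pos h5; rw [p1, η.pos_x] at this; omega
      · have := congrArg η.pos h5; rw [p2, η.pos_x] at this; omega
  by_cases hab : α + 2 < β
  · have h0 := hstep (α + 1) (by omega) (by omega)
    obtain ⟨ε, hε, h1⟩ : ∃ ε : ℤ, (ε = 1 ∨ ε = -1) ∧ s (α + 1 + 1) = s (α + 1) + ε := by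
      rcases h0 with h0 | h0
      · exact ⟨1, Or.inl rfl, h0⟩
      · exact ⟨-1, Or.inr rfl, by omega⟩
    have key : ∀ n : ℕ, α + 1 + n < β → α + 1 + (n + 1) < β →
        s (α + 1 + n) = s (α + 1) + ε * n ∧ s (α + 1 + (n + 1)) = s (α + 1) + ε * (n + 1) := by
      intro n
      induction n with
      | zero =>
        intro _ _
        simp only [Nat.cast_zero, add_zero, mul_zero, zero_add, mul_one, true_and]
        exact h1
      | succ n ih =>
        intro h2 h3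
        push_cast at h2 h3
        obtain ⟨h4, h5⟩ := ih (by omega) (by omega)
        push_cast
        refine ⟨h5, ?_⟩
        have h6 := hstep (α + 1 + (n + 1)) (by omega) (by omega)
        have e : α + 1 + ((n : ℤ) + 1) + 1 = α + 1 + (n + 1 + 1) := by ring
        rw [e] at h6
        have h7 : s (α + 1 + ((n : ℤ) + 1 + 1)) ≠ s (α + 1 + n) := by
          intro h
          have e1 := hs (α + 1 + ((n : ℤ) + 1 + 1)) (by omega) h3
          have e2 := hs (α + 1 + (n : ℤ)) (by omega) (by omega)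
          rw [h, e2] at e1
          have := ξ.x_inj e1
          omega
        rw [h4] at h7
        rw [h5] at h6
        rcases hε with rfl | rfl
        · rcases h6 with h6 | h6
          · rw [h6]; ring
          · exfalso; apply h7; rw [h6]; ring
        · rcases h6 with h6 | h6
          · exfalso; apply h7; rw [h6]; ring
          · rw [h6]; ring
    refine ⟨ε, s (α + 1) - ε * (α + 1), hε, ?_⟩
    intro i h2 h3
    have hi := hs i h2 h3
    have : s i = s (α + 1) - ε * (α + 1) + ε * i := by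
      obtain ⟨n, rfl⟩ : ∃ n : ℕ, i = α + 1 + n := ⟨(i - α - 1).toNat, by omega⟩
      by_cases h4 : α + 1 + ((n : ℤ) + 1) < β
      · rw [(key n h3 h4).1]; ring
      · cases n with
        | zero => simp
        | succ n =>
          push_cast at h3 ⊢
          rw [(key n (by omega) h3).2]; ring
    rw [← this]; exact hi
  · refine ⟨1, s (α + 1) - (α + 1), Or.inl rfl, ?_⟩
    intro i h2 h3
    have : i = α + 1 := by omega
    subst this
    have := hs (α + 1) h2 h3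
    rw [one_mul, sub_add_cancel]
    exact this

/-- Rotation numbers agree at matched vertices. -/
lemma rt_match {ε c i : ℤ} (hε : ε = 1 ∨ ε = -1) (h0 : η.x (c + ε * i) = ξ.x i)
    (h1 : η.x (c + ε * (i + 1)) = ξ.x (i + 1)) (h2 : η.x (c + ε * (i - 1)) = ξ.x (i - 1)) :
    ∃ δ : ℤ, (δ = 1 ∨ δ = -1) ∧ |η.rt (c + ε * i) - ε * δ * ξ.rt i| ≤ 2 * R.T ∧
      η.γ (c + ε * i) * R.ρ * (η.γ (c + ε * i))⁻¹ = ξ.γ i * R.ρ ^ δ * (ξ.γ i)⁻¹ := by
  have h : ξ.γ i • R.x0 = η.γ (c + ε * i) • R.x0 := h0.symm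
  obtain ⟨δ, hδ, e1, b, e2⟩ := R.k_A3 h
  refine ⟨δ, hδ, ?_, e1⟩
  have p1 := e2 (ξ.x (i + 1)) (ξ.x_ne i)
  have p2 := e2 (ξ.x (i - 1)) (ξ.x_ne' i)
  unfold rt
  rcases hε with rfl | rfl
  · have q1 : η.x (c + 1 * i + 1) = ξ.x (i + 1) := by rw [← h1]; congr 1; ring
    have q2 : η.x (c + 1 * i - 1) = ξ.x (i - 1) := by rw [← h2]; congr 1; ring
    rw [q1, q2]
    rw [abs_le] at *
    rcases hδ with rfl | rfl <;> constructor <;> linarith
  · have q1 : η.x (c + -1 * i + 1) = ξ.x (i - 1) := by rw [← h2]; congr 1; ring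
    have q2 : η.x (c + -1 * i - 1) = ξ.x (i + 1) := by rw [← h1]; congr 1; ring
    rw [q1, q2]
    rw [abs_le] at *
    rcases hδ with rfl | rfl <;> constructor <;> linarith

end Ax

end RotSys

end Run7.h955
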