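import Pool.Agent.Run7.h955.H2
import Pool.Agent.H17R2.Windmill

set_option autoImplicit false

/-!
# Rotation systems: relators and their axes
-/

namespace Run7.h955

namespace RotSys

variable {G V : Type*} [Group G] [MulAction G V] {R : RotSys G V}

namespace Ax

lemma pos_transfer (ξ η : R.Ax) (u : G) (c : ℤ) (h : ∀ i, η.γ i = u * ξ.γ (i + c)) (p : V) :
    η.pos (u • p) = ξ.pos p - c := by
  have hx : ∀ i, η.x i = u • ξ.x (i + c) := fun i => by
    unfold x; rw [h, mul_smul]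
  apply η.pos_unique
  intro i
  have h1 : η.Rt (u • p) i ↔ ξ.Rt p (i + c) := by
    unfold Rt
    rw [hx, hx, h, R.k_smul, R.k_smul, (MulAction.injective u).ne_iff]
    have e : i + 1 + c = i + c + 1 := by ring
    rw [e]
  rw [h1, ξ.R_iff]
  omega

end Ax

/-- A system of relators. -/
structure Sys (R : RotSys G V) (A : Type*) where
  m : ℕ
  M : ℕ
  hm : m = R.r * M
  three : 3 ≤ m
  e : A → ℕ → ℤ
  t : A → G
  C : ℤ
  hC : 0 ≤ C
  E : ℤ
  hE : 0 ≤ E
  D : ℤ
  big : ∀ a j, j < m → C + 8 * R.T + 2 * E ≤ e a j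
  gap : ∀ a a' j j', j < m → j' < m → |e a j - e a' j'| ≤ 4 * E + 2 * R.T → a = a' ∧ j = j'
  j1 : ∀ a, t a • R.b 0 • R.x0 ≠ R.b (m - 1) • R.x0
  j2 : ∀ a, |R.κ ((R.b (m - 1))⁻¹ • t a • R.b 0 • R.x0)| ≤ E
  j3 : ∀ a, |R.κ ((R.b 0)⁻¹ • (t a)⁻¹ • R.b (m - 1) • R.x0)| ≤ E
  j4 : ∀ a g, R.b (m - 1) • R.x0 ≠ g • R.x0 → t a • R.b 0 • R.x0 ≠ g • R.x0 →
    |R.k g (R.b (m - 1) • R.x0) - R.k g (t a • R.b 0 • R.x0)| ≤ C
  j5 : ∀ a, R.d (R.b (m - 1) • R.x0) (t a • R.b 0 • R.x0) ≤ D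
  i1 : ∀ j, |R.κ ((R.b j)⁻¹ • R.b (j + 1) • R.x0)| ≤ E
  i2 : ∀ j, |R.κ ((R.b (j + 1))⁻¹ • R.b j • R.x0)| ≤ E
  i4 : ∀ j g, R.b j • R.x0 ≠ g • R.x0 → R.b (j + 1) • R.x0 ≠ g • R.x0 →
    |R.k g (R.b j • R.x0) - R.k g (R.b (j + 1) • R.x0)| ≤ C
  i5 : ∀ j, R.d (R.b j • R.x0) (R.b (j + 1) • R.x0) ≤ D

namespace Sys

variable {A : Type*} (S : R.Sys A)

/-- the partial products -/
def z (a : A) : ℕ → G
  | 0 => 1
  | j + 1 => z a j * (R.b j * R.ρ ^ S.e a j * (R.b j)⁻¹)

/-- the relator -/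
def h (a : A) : G := S.z a S.m * S.t a

/-- representatives of the vertices of the axis -/
def γ (a : A) (g : G) (i : ℤ) : G :=
  g * S.h a ^ (i / (S.m : ℤ)) * S.z a (i % (S.m : ℤ)).toNat * R.b (i % (S.m : ℤ)).toNat

lemma mpos : (0 : ℤ) < S.m := by have := S.three; omega

lemma γ_eq (a : A) (g : G) (q : ℤ) (j : ℕ) (hj : j < S.m) :
    S.γ a g (q * S.m + j) = g * S.h a ^ q * S.z a j * R.b j := by
  have h1 := (Int.ediv_emod_unique S.mpos (a := q * S.m + j) (r := (j : ℤ)) (q := q)).mpr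
    ⟨by ring, by omega, by omega⟩
  unfold γ
  rw [h1.1, h1.2, Int.toNat_natCast]

lemma exists_rep (i : ℤ) : ∃ (q : ℤ) (j : ℕ), j < S.m ∧ i = q * S.m + j := by
  refine ⟨i / S.m, (i % S.m).toNat, ?_, ?_⟩
  · have h1 := Int.emod_lt_of_pos i S.mpos
    have h2 := Int.emod_nonneg i S.mpos.ne'
    omega
  · have h2 := Int.emod_nonneg i S.mpos.ne'
    rw [Int.toNat_of_nonneg h2]
    have := Int.mul_ediv_add_emod i S.m
    linarith

lemma γ_shift (a : A) (g : G) (i q : ℤ) :
    S.γ a g (i + q * S.m) = (g * S.h a ^ q * g⁻¹) * S.γ a g i := by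
  obtain ⟨q', j, hj, rfl⟩ := S.exists_rep i
  have e : q' * S.m + j + q * S.m = (q' + q) * S.m + j := by ring
  rw [e, S.γ_eq a g _ j hj, S.γ_eq a g _ j hj, add_comm q' q, zpow_add]
  group

lemma γ_mul (a : A) (g u : G) (i : ℤ) : S.γ a (u * g) i = u * S.γ a g i := by
  unfold γ; group

/-- the next base vertex -/
def nb (a : A) (j : ℕ) : V := if j + 1 < S.m then R.b (j + 1) • R.x0 else S.t a • R.b 0 • R.x0

/-- the previous base vertex -/
def pb (a : A) (j : ℕ) : V := if j = 0 then (S.t a)⁻¹ • R.b (S.m - 1) • R.x0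
  else R.b (j - 1) • R.x0

/-- the rotation at a base vertex -/
def ro (a : A) (j : ℕ) : G := R.b j * R.ρ ^ S.e a j * (R.b j)⁻¹

lemma z_succ (a : A) (j : ℕ) : S.z a (j + 1) = S.z a j * S.ro a j := rfl

lemma x_succ (a : A) (g : G) (q : ℤ) (j : ℕ) (hj : j < S.m) :
    S.γ a g (q * S.m + j + 1) • R.x0 = (g * S.h a ^ q * S.z a j * S.ro a j) • S.nb a j := by
  unfold nb
  split_ifs with h
  · have e : q * (S.m : ℤ) + j + 1 = q * S.m + ((j + 1 : ℕ) : ℤ) := by push_cast; ring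
    rw [e, S.γ_eq a g q (j + 1) h, S.z_succ, smul_smul]
    congr 1
    group
  · have hj' : j + 1 = S.m := by omega
    have e : q * (S.m : ℤ) + j + 1 = (q + 1) * S.m + ((0 : ℕ) : ℤ) := by
      rw [← hj']; push_cast; ring
    rw [e, S.γ_eq a g (q + 1) 0 (by omega), smul_smul, smul_smul]
    congr 1
    have e2 : S.z a j * S.ro a j = S.h a * (S.t a)⁻¹ := by
      rw [← S.z_succ, hj']; unfold Sys.h; group
    have e3 : S.z a 0 = 1 := rfl
    rw [mul_assoc (g * S.h a ^ q), e2, zpow_add_one, e3]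
    group

lemma x_pred (a : A) (g : G) (q : ℤ) (j : ℕ) (hj : j < S.m) :
    S.γ a g (q * S.m + j - 1) • R.x0 = (g * S.h a ^ q * S.z a j) • S.pb a j := by
  unfold pb
  split_ifs with h
  · subst h
    have e : q * (S.m : ℤ) + ((0 : ℕ) : ℤ) - 1 = (q - 1) * S.m + ((S.m - 1 : ℕ) : ℤ) := by
      rw [Nat.cast_sub (by omega)]; push_cast; ring
    rw [e, S.γ_eq a g (q - 1) (S.m - 1) (by omega)]
    have e2 : S.z a (S.m - 1) * S.ro a (S.m - 1) = S.h a * (S.t a)⁻¹ := by
      rw [← S.z_succ]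
      have : S.m - 1 + 1 = S.m := by omega
      rw [this]; unfold Sys.h; group
    have e3 : S.z a (S.m - 1) = S.h a * (S.t a)⁻¹ * (S.ro a (S.m - 1))⁻¹ := by
      rw [← e2]; group
    have e0 : S.z a 0 = 1 := rfl
    rw [e3, e0, zpow_sub_one]
    have e4 : g * (S.h a ^ q * (S.h a)⁻¹) * (S.h a * (S.t a)⁻¹ * (S.ro a (S.m - 1))⁻¹) *
        R.b (S.m - 1) = (g * S.h a ^ q * 1) * ((S.t a)⁻¹ * (R.b (S.m - 1) *
        R.ρ ^ (-(S.e a (S.m - 1))))) := by
      unfold ro; group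
    rw [e4, mul_smul (g * S.h a ^ q * 1), mul_smul (S.t a)⁻¹, mul_smul (R.b (S.m - 1)),
      R.ρ_zpow_x0]
  · have e : q * (S.m : ℤ) + j - 1 = q * S.m + ((j - 1 : ℕ) : ℤ) := by
      rw [Nat.cast_sub (by omega)]; push_cast; ring
    rw [e, S.γ_eq a g q (j - 1) (by omega)]
    have e2 : S.z a j = S.z a (j - 1) * S.ro a (j - 1) := by
      rw [← S.z_succ]
      have : j - 1 + 1 = j := by omega
      rw [this]
    rw [e2]
    have e4 : g * S.h a ^ q * (S.z a (j - 1) * S.ro a (j - 1)) * (R.b (j - 1)) =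
      g * S.h a ^ q * S.z a (j - 1) * (R.b (j - 1)) * R.ρ ^ S.e a (j - 1) := by
      unfold ro; group
    rw [smul_smul, e4, mul_smul _ (R.ρ ^ S.e a (j - 1)), R.ρ_zpow_x0]

lemma nb_ne (a : A) (j : ℕ) (hj : j < S.m) : S.nb a j ≠ R.b j • R.x0 := by
  unfold nb
  split_ifs with h
  · exact (R.bne j).symm
  · have : j = S.m - 1 := by omega
    rw [this]; exact S.j1 a

lemma b_last : R.b (S.m - 1 + 1) = R.b 0 := by
  have e : S.m - 1 + 1 = R.r * S.M := by have := S.three; rw [← S.hm]; omega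
  rw [e]
  have : ∀ n : ℕ, R.b (R.r * n) = R.b 0 := by
    intro n
    induction n with
    | zero => simp
    | succ n ih => rw [Nat.mul_succ, R.bper, ih]
  exact this _

lemma pb_ne (a : A) (j : ℕ) : S.pb a j ≠ R.b j • R.x0 := by
  unfold pb
  split_ifs with h
  · subst h
    intro h
    rw [inv_smul_eq_iff] at h
    exact S.j1 a h.symm
  · have := R.bne (j - 1)
    have e : j - 1 + 1 = j := by omega
    rwa [e] at this

lemma κ_nb (a : A) (j : ℕ) (hj : j < S.m) : |R.κ ((R.b j)⁻¹ • S.nb a j)| ≤ S.E := by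
  unfold nb
  split_ifs with h
  · exact S.i1 j
  · have : j = S.m - 1 := by omega
    rw [this]; exact S.j2 a

lemma κ_pb (a : A) (j : ℕ) : |R.κ ((R.b j)⁻¹ • S.pb a j)| ≤ S.E := by
  unfold pb
  split_ifs with h
  · subst h; exact S.j3 a
  · have := S.i2 (j - 1)
    have e : j - 1 + 1 = j := by omega
    rwa [e] at this

lemma tame_nb (a : A) (j : ℕ) (hj : j < S.m) (g : G) (h1 : R.b j • R.x0 ≠ g • R.x0)
    (h2 : S.nb a j ≠ g • R.x0) : |R.k g (R.b j • R.x0) - R.k g (S.nb a j)| ≤ S.C := by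
  unfold nb at *
  split_ifs at * with h
  · exact S.i4 j g h1 h2
  · have : j = S.m - 1 := by omega
    subst this
    exact S.j4 a g h1 h2

lemma d_nb (a : A) (j : ℕ) (hj : j < S.m) : R.d (R.b j • R.x0) (S.nb a j) ≤ S.D := by
  unfold nb
  split_ifs with h
  · exact S.i5 j
  · have : j = S.m - 1 := by omega
    subst this
    exact S.j5 a

lemma ro_fix (a : A) (j : ℕ) : S.ro a j • R.b j • R.x0 = R.b j • R.x0 := R.rot_fix _ _

lemma k_succ (a : A) (g : G) (q : ℤ) (j : ℕ) (hj : j < S.m) :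
    |R.k (S.γ a g (q * S.m + j)) (S.γ a g (q * S.m + j + 1) • R.x0) - S.e a j| ≤ S.E := by
  rw [S.x_succ a g q j hj, S.γ_eq a g q j hj, mul_smul, R.k_smul]
  have h1 := R.k_rot (R.b j) (S.e a j) (S.nb a j) (S.nb_ne a j hj)
  have h2 : R.k (R.b j) (S.ro a j • S.nb a j) = R.k (R.b j) (S.nb a j) + S.e a j := h1
  rw [h2]
  have h3 := S.κ_nb a j hj
  unfold RotSys.k
  have e : ∀ x y : ℤ, x + y - y = x := fun x y => by ring
  rw [e]
  exact h3

lemma k_pred (a : A) (g : G) (q : ℤ) (j : ℕ) (hj : j < S.m) :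
    |R.k (S.γ a g (q * S.m + j)) (S.γ a g (q * S.m + j - 1) • R.x0)| ≤ S.E := by
  rw [S.x_pred a g q j hj, S.γ_eq a g q j hj, R.k_smul]
  exact S.κ_pb a j

lemma rt_aux (a : A) (g : G) (q : ℤ) (j : ℕ) (hj : j < S.m) :
    |R.k (S.γ a g (q * S.m + j)) (S.γ a g (q * S.m + j + 1) • R.x0) -
      R.k (S.γ a g (q * S.m + j)) (S.γ a g (q * S.m + j - 1) • R.x0) - S.e a j| ≤ 2 * S.E := by
  have h1 := S.k_succ a g q j hj
  have h2 := S.k_pred a g q j hj
  rw [abs_le] at *
  constructor <;> linarith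

lemma x_ne_aux (a : A) (g : G) (q : ℤ) (j : ℕ) (hj : j < S.m) :
    S.γ a g (q * S.m + j + 1) • R.x0 ≠ S.γ a g (q * S.m + j) • R.x0 := by
  rw [S.x_succ a g q j hj, S.γ_eq a g q j hj, mul_smul _ (R.b j), mul_smul _ (S.ro a j)]
  intro h
  exact R.rot_ne (R.b j) (S.e a j) (S.nb_ne a j hj) (smul_left_cancel _ h)

/-- The axis of the conjugate by `g` of the relator `h a`. -/
def ax (a : A) (g : G) : R.Ax where
  γ := S.γ a g
  ne := by
    intro i
    obtain ⟨q, j, hj, rfl⟩ := S.exists_rep i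
    exact S.x_ne_aux a g q j hj
  rot := by
    intro i
    obtain ⟨q, j, hj, rfl⟩ := S.exists_rep i
    have h1 := S.rt_aux a g q j hj
    have h2 := S.big a j hj
    have h3 := S.hC
    have h4 := S.hE
    have hT := R.T_pos
    apply le_trans _ (le_abs_self _)
    rw [abs_le] at h1
    linarith

lemma rt_ax (a : A) (g : G) (q : ℤ) (j : ℕ) (hj : j < S.m) :
    |(S.ax a g).rt (q * S.m + j) - S.e a j| ≤ 2 * S.E := S.rt_aux a g q j hj

lemma rt_pos (a : A) (g : G) (i : ℤ) : S.C + 8 * R.T ≤ (S.ax a g).rt i := by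
  obtain ⟨q, j, hj, rfl⟩ := S.exists_rep i
  have h1 := S.rt_ax a g q j hj
  have h2 := S.big a j hj
  rw [abs_le] at h1
  linarith

lemma big_ax (a : A) (g : G) : (S.ax a g).Big (S.C + 8 * R.T) := fun i =>
  le_trans (S.rt_pos a g i) (le_abs_self _)

lemma tame_ax (a : A) (g : G) : (S.ax a g).Tame S.C := by
  intro g' s h1 h2
  obtain ⟨q, j, hj, rfl⟩ := S.exists_rep s
  have e1 : (S.ax a g).x (q * S.m + j) = (g * S.h a ^ q * S.z a j * S.ro a j) • R.b j • R.x0 := by
    change S.γ a g (q * S.m + j) • R.x0 = _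
    rw [S.γ_eq a g q j hj, mul_smul _ (S.ro a j), S.ro_fix, mul_smul]
  have e2 : (S.ax a g).x (q * S.m + j + 1) = (g * S.h a ^ q * S.z a j * S.ro a j) • S.nb a j :=
    S.x_succ a g q j hj
  rw [e1] at h1 ⊢
  rw [e2] at h2 ⊢
  rw [R.k_smul' _ _ (R.b j • R.x0), R.k_smul' _ _ (S.nb a j)]
  apply S.tame_nb a j hj
  · intro h
    apply h1
    rw [h, smul_smul, mul_inv_cancel_left]
  · intro h
    apply h2
    rw [h, smul_smul, mul_inv_cancel_left]

lemma d_ax (a : A) (g : G) (i : ℤ) : R.d ((S.ax a g).x i) ((S.ax a g).x (i + 1)) ≤ S.D := by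
  obtain ⟨q, j, hj, rfl⟩ := S.exists_rep i
  have e1 : (S.ax a g).x (q * S.m + j) = (g * S.h a ^ q * S.z a j * S.ro a j) • R.b j • R.x0 := by
    change S.γ a g (q * S.m + j) • R.x0 = _
    rw [S.γ_eq a g q j hj, mul_smul _ (S.ro a j), S.ro_fix, mul_smul]
  have e2 : (S.ax a g).x (q * S.m + j + 1) = (g * S.h a ^ q * S.z a j * S.ro a j) • S.nb a j :=
    S.x_succ a g q j hj
  rw [e1, e2, R.d_smul]
  exact S.d_nb a j hj

lemma pos_smul (a : A) (g u : G) (p : V) : (S.ax a (u * g)).pos (u • p) = (S.ax a g).pos p := by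
  have := Ax.pos_transfer (S.ax a g) (S.ax a (u * g)) u 0 (fun i => by
    rw [add_zero]; exact S.γ_mul a g u i) p
  rw [this, sub_zero]

lemma pos_zpow (a : A) (g : G) (q : ℤ) (p : V) :
    (S.ax a g).pos ((g * S.h a ^ q * g⁻¹) • p) = (S.ax a g).pos p + q * S.m := by
  have := Ax.pos_transfer (S.ax a g) (S.ax a g) (g * S.h a ^ q * g⁻¹) (-(q * S.m)) (fun i => by
    have h1 := S.γ_shift a g (i + -(q * S.m)) q
    have e : i + -(q * S.m) + q * S.m = i := by ring
    rw [e] at h1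
    exact h1) p
  rw [this]; ring

lemma exists_l (j1 i : ℕ) : ∃ l, l < R.r ∧ R.b i = R.b (j1 + l) := by
  have hmod : ∀ i, R.b i = R.b (i % R.r) := by
    intro i
    have : ∀ n c : ℕ, R.b (c + R.r * n) = R.b c := by
      intro n c
      induction n with
      | zero => simp
      | succ n ih => rw [Nat.mul_succ, ← add_assoc, R.bper, ih]
    conv_lhs => rw [← Nat.mod_add_div i R.r]
    exact this _ _
  refine ⟨(i + (R.r - 1) * j1) % R.r, Nat.mod_lt _ R.rpos, ?_⟩
  rw [hmod i, hmod (j1 + _)]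
  congr 1
  have h1 : (j1 + (i + (R.r - 1) * j1) % R.r) % R.r = (j1 + (i + (R.r - 1) * j1)) % R.r := by
    rw [Nat.add_mod_mod]
  rw [h1]
  have h2 : j1 + (i + (R.r - 1) * j1) = i + R.r * j1 := by
    have := R.rpos
    obtain ⟨r', hr'⟩ : ∃ r', R.r = r' + 1 := ⟨R.r - 1, by omega⟩
    rw [hr']; simp; ring
  rw [h2, Nat.add_mul_mod_self_left]

/-- an element which commutes with all rotations along a long piece of an axis is trivial -/
lemma eq_one_of_commute (a : A) (g u : G) (q : ℤ) (j : ℕ) (hj : j + R.r ≤ S.m)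
    (h : ∀ l : ℕ, l < R.r → u * (S.γ a g (q * S.m + (j + l : ℕ)) * R.ρ *
      (S.γ a g (q * S.m + (j + l : ℕ)))⁻¹) = (S.γ a g (q * S.m + (j + l : ℕ)) * R.ρ *
      (S.γ a g (q * S.m + (j + l : ℕ)))⁻¹) * u) : u = 1 := by
  set s : G := (g * S.h a ^ q * S.z a j)⁻¹ * u * (g * S.h a ^ q * S.z a j) with hs
  have key : ∀ l : ℕ, l < R.r → (g * S.h a ^ q * S.z a (j + l))⁻¹ * u *
      (g * S.h a ^ q * S.z a (j + l)) = s ∧
      s * (R.b (j + l) * R.ρ * (R.b (j + l))⁻¹) = (R.b (j + l) * R.ρ * (R.b (j + l))⁻¹) * s := by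
    have hcomm : ∀ l : ℕ, l < R.r → (g * S.h a ^ q * S.z a (j + l))⁻¹ * u *
      (g * S.h a ^ q * S.z a (j + l)) = s →
      s * (R.b (j + l) * R.ρ * (R.b (j + l))⁻¹) = (R.b (j + l) * R.ρ * (R.b (j + l))⁻¹) * s := by
      intro l hl h1
      have h2 := h l hl
      rw [S.γ_eq a g q (j + l) (by omega)] at h2
      rw [← h1]
      set v := g * S.h a ^ q * S.z a (j + l)
      calc v⁻¹ * u * v * (R.b (j + l) * R.ρ * (R.b (j + l))⁻¹)
          = v⁻¹ * (u * (v * R.b (j + l) * R.ρ * (v * R.b (j + l))⁻¹)) * v := by group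
        _ = v⁻¹ * ((v * R.b (j + l) * R.ρ * (v * R.b (j + l))⁻¹) * u) * v := by rw [h2]
        _ = _ := by group
    intro l
    induction l with
    | zero => intro hl; exact ⟨rfl, hcomm 0 hl rfl⟩
    | succ l ih =>
      intro hl
      obtain ⟨h1, h2⟩ := ih (by omega)
      have h3 : (g * S.h a ^ q * S.z a (j + (l + 1)))⁻¹ * u *
          (g * S.h a ^ q * S.z a (j + (l + 1))) = s := by
        have e : S.z a (j + (l + 1)) = S.z a (j + l) * S.ro a (j + l) := rfl
        have h4 : Commute s (R.b (j + l) * R.ρ * (R.b (j + l))⁻¹) := h2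
        have h5 : S.ro a (j + l) = (R.b (j + l) * R.ρ * (R.b (j + l))⁻¹) ^ S.e a (j + l) := by
          unfold ro; rw [conj_zpow]
        have h6 : Commute s (S.ro a (j + l)) := by rw [h5]; exact h4.zpow_right _
        rw [e]
        calc (g * S.h a ^ q * (S.z a (j + l) * S.ro a (j + l)))⁻¹ * u *
            (g * S.h a ^ q * (S.z a (j + l) * S.ro a (j + l)))
            = (S.ro a (j + l))⁻¹ * ((g * S.h a ^ q * S.z a (j + l))⁻¹ * u *
              (g * S.h a ^ q * S.z a (j + l))) * S.ro a (j + l) := by group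
          _ = (S.ro a (j + l))⁻¹ * (s * S.ro a (j + l)) := by rw [h1, mul_assoc]
          _ = s := by rw [h6.eq]; group
      exact ⟨h3, hcomm (l + 1) hl h3⟩
  have hs1 : s = 1 := by
    apply R.F
    intro i
    obtain ⟨l, hl, e⟩ := exists_l (R := R) j i
    rw [e]
    exact (key l hl).2
  rw [hs] at hs1
  have : u = (g * S.h a ^ q * S.z a j) * ((g * S.h a ^ q * S.z a j)⁻¹ * u *
    (g * S.h a ^ q * S.z a j)) * (g * S.h a ^ q * S.z a j)⁻¹ := by group
  rw [this, hs1]; group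

/-- Axes with a long overlap are equal. -/
theorem same_of_overlap (a a' : A) (g g' : G) {j l : ℤ}
    (h : 2 * (R.r : ℤ) + 6 < (S.ax a g).pos ((S.ax a' g').x l) - (S.ax a g).pos ((S.ax a' g').x j)) :
    a = a' ∧ ∃ q : ℤ, g = g' * S.h a' ^ q := by
  set ξ := S.ax a g with hξ
  set η := S.ax a' g' with hη
  set α := ξ.pos (η.x j) with hα
  set β := ξ.pos (η.x l) with hβ
  have hr := R.rpos
  have hT := R.T_pos
  have hm3 := S.three
  obtain ⟨ε, c, hε, hmatch⟩ := ξ.exists_match η S.hC (S.tame_ax a' g') (S.big_ax a g)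
    (S.tame_ax a g) (S.big_ax a' g') hα.symm hβ.symm
  -- rotation numbers
  have hrot : ∀ i, α + 1 < i → i < β - 1 → a = a' ∧ (∃ k : ℤ, c + ε * i = i + k * S.m) ∧
      η.γ (c + ε * i) * R.ρ * (η.γ (c + ε * i))⁻¹ = ξ.γ i * R.ρ * (ξ.γ i)⁻¹ := by
    intro i h1 h2
    obtain ⟨δ, hδ, h3, h4⟩ := ξ.rt_match η (ε := ε) (c := c) (i := i) hε
      (hmatch i (by omega) (by omega)) (hmatch (i + 1) (by omega) (by omega))
      (hmatch (i - 1) (by omega) (by omega))
    have r1 := S.rt_pos a g i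
    have r2 := S.rt_pos a' g' (c + ε * i)
    have hC := S.hC
    have hεδ : ε * δ = 1 := by
      rcases hε with rfl | rfl <;> rcases hδ with rfl | rfl
      · norm_num
      · exfalso
        rw [abs_le] at h3
        have h5 := h3.2
        have : ξ.rt i = (S.ax a g).rt i := rfl
        have : η.rt (c + 1 * i) = (S.ax a' g').rt (c + 1 * i) := rfl
        linarith
      · exfalso
        rw [abs_le] at h3
        have h5 := h3.2
        have : ξ.rt i = (S.ax a g).rt i := rfl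
        have : η.rt (c + -1 * i) = (S.ax a' g').rt (c + -1 * i) := rfl
        linarith
      · norm_num
    rw [hεδ, one_mul] at h3
    obtain ⟨q, jj, hjj, e1⟩ := S.exists_rep i
    obtain ⟨q', jj', hjj', e2⟩ := S.exists_rep (c + ε * i)
    have p1 := S.rt_ax a g q jj hjj
    have p2 := S.rt_ax a' g' q' jj' hjj'
    rw [← e1] at p1
    rw [← e2] at p2
    have hg := S.gap a' a jj' jj hjj' hjj (by
      rw [abs_le] at *
      have : ξ.rt i = (S.ax a g).rt i := rfl
      have : η.rt (c + ε * i) = (S.ax a' g').rt (c + ε * i) := rfl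
      constructor <;> linarith)
    refine ⟨hg.1.symm, ⟨q' - q, ?_⟩, ?_⟩
    · rw [hg.2] at e2
      rw [e2]
      conv_rhs => rw [e1]
      ring
    · have hδε : δ = ε := by
        rcases hε with rfl | rfl <;> rcases hδ with rfl | rfl <;> simp at hεδ ⊢
      -- ε = 1
      have hrest : δ = 1 → η.γ (c + ε * i) * R.ρ * (η.γ (c + ε * i))⁻¹ =
          ξ.γ i * R.ρ * (ξ.γ i)⁻¹ := by
        intro hδ1
        rw [h4, hδ1, zpow_one]
      rcases hδ with h5 | h5
      · exact hrest h5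
      · exfalso
        -- ε = -1 is impossible
        have hεm : ε = -1 := by rw [← hδε, h5]
        have hother : ∃ i', (i' = i + 1 ∨ i' = i - 1) ∧ α + 1 < i' ∧ i' < β - 1 := by
          by_cases h6 : i + 1 < β - 1
          · exact ⟨i + 1, Or.inl rfl, by omega, h6⟩
          · exact ⟨i - 1, Or.inr rfl, by omega, by omega⟩
        obtain ⟨i', hi', h6, h7⟩ := hother
        obtain ⟨δ', hδ', h3', h4'⟩ := ξ.rt_match η (ε := ε) (c := c) (i := i') hε
          (hmatch i' (by omega) (by omega)) (hmatch (i' + 1) (by omega) (by omega))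
          (hmatch (i' - 1) (by omega) (by omega))
        have r1' := S.rt_pos a g i'
        have r2' := S.rt_pos a' g' (c + ε * i')
        have hεδ' : ε * δ' = 1 := by
          rw [hεm] at h3' r2' ⊢
          rcases hδ' with rfl | rfl
          · exfalso
            rw [abs_le] at h3'
            have h5 := h3'.2
            have : ξ.rt i' = (S.ax a g).rt i' := rfl
            have : η.rt (c + -1 * i') = (S.ax a' g').rt (c + -1 * i') := rfl
            linarith
          · norm_num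
        rw [hεδ', one_mul] at h3'
        obtain ⟨q2, jj2, hjj2, e3⟩ := S.exists_rep i'
        obtain ⟨q2', jj2', hjj2', e4⟩ := S.exists_rep (c + ε * i')
        have p3 := S.rt_ax a g q2 jj2 hjj2
        have p4 := S.rt_ax a' g' q2' jj2' hjj2'
        rw [← e3] at p3
        rw [← e4] at p4
        have hg2 := S.gap a' a jj2' jj2 hjj2' hjj2 (by
          rw [abs_le] at *
          have : ξ.rt i' = (S.ax a g).rt i' := rfl
          have : η.rt (c + ε * i') = (S.ax a' g').rt (c + ε * i') := rfl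
          constructor <;> linarith)
        rw [hg.2] at e2
        rw [hg2.2] at e4
        -- c - i ≡ i, c - i' ≡ i' mod m
        have hd : ∃ k : ℤ, 2 * (i' - i) = k * S.m := by
          refine ⟨(q2 - q2') - (q - q'), ?_⟩
          rw [hεm] at e2 e4
          linear_combination e3 - e4 - e1 + e2
        obtain ⟨k, hk⟩ := hd
        have hk0 : k ≠ 0 := by rintro rfl; omega
        have hk1 : (S.m : ℤ) ≤ |k * S.m| := by
          rw [abs_mul, Nat.abs_cast]
          have : 1 ≤ |k| := Int.one_le_abs hk0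
          nlinarith
        rw [← hk] at hk1
        have : |2 * (i' - i)| = 2 := by
          rcases hi' with rfl | rfl
          · norm_num
          · norm_num
        omega
  -- a block without junction
  obtain ⟨q1, j1, hj1, e1⟩ := S.exists_rep (α + 2)
  have hblock : ∃ (q : ℤ) (jj : ℕ), jj + R.r ≤ S.m ∧ α + 1 < q * S.m + jj ∧
      q * S.m + jj + R.r ≤ β - 1 := by
    by_cases h5 : j1 + R.r ≤ S.m
    · exact ⟨q1, j1, h5, by omega, by omega⟩
    · have hMpos : R.r ≤ S.m := by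
        rw [S.hm]
        have : 0 < S.M := by
          rcases Nat.eq_zero_or_pos S.M with h0 | h0
          · have := S.hm; rw [h0] at this; omega
          · exact h0
        exact Nat.le_mul_of_pos_right _ this
      refine ⟨q1 + 1, 0, by omega, ?_, ?_⟩
      · have : (q1 + 1) * (S.m : ℤ) + ((0 : ℕ) : ℤ) = q1 * S.m + S.m := by push_cast; ring
        rw [this]; omega
      · have : (q1 + 1) * (S.m : ℤ) + ((0 : ℕ) : ℤ) = q1 * S.m + S.m := by push_cast; ring
        rw [this]; omega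
  obtain ⟨q, jj, hjj, hb1, hb2⟩ := hblock
  have h0 := hrot (q * S.m + jj) hb1 (by omega)
  have ha : a = a' := h0.1
  refine ⟨ha, ?_⟩
  -- ε = 1 and c is a multiple of m
  obtain ⟨k1, hk1⟩ := (hrot (α + 2) (by omega) (by omega)).2.1
  obtain ⟨k2, hk2⟩ := (hrot (α + 3) (by omega) (by omega)).2.1
  have hε1 : ε = 1 := by
    rcases hε with h5 | h5
    · exact h5
    · exfalso
      rw [h5] at hk1 hk2
      have hd : (-2 : ℤ) = (k2 - k1) * S.m := by linear_combination hk2 - hk1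
      have hk0 : k2 - k1 ≠ 0 := by intro h6; rw [h6] at hd; omega
      have hk3 : (S.m : ℤ) ≤ |(k2 - k1) * S.m| := by
        rw [abs_mul, Nat.abs_cast]
        have : 1 ≤ |k2 - k1| := Int.one_le_abs hk0
        nlinarith
      rw [← hd] at hk3
      norm_num at hk3
      omega
  subst hε1
  have hc : c = k1 * S.m := by linear_combination hk1
  subst ha
  -- the comparing element
  set u : G := g' * S.h a ^ k1 * g⁻¹ with hu
  have hγ : ∀ i, η.γ (c + 1 * i) = u * ξ.γ i := by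
    intro i
    have e2 : c + 1 * i = i + k1 * S.m := by rw [hc]; ring
    rw [e2]
    have e3 : η.γ (i + k1 * S.m) = S.γ a g' (i + k1 * S.m) := rfl
    have e4 : ξ.γ i = S.γ a g i := rfl
    rw [e3, e4, S.γ_shift]
    have e5 : S.γ a g' i = g' * g⁻¹ * S.γ a g i := by
      rw [← S.γ_mul]; congr 1; group
    rw [e5, hu]; group
  have hu1 : u = 1 := by
    apply S.eq_one_of_commute a g u q jj hjj
    intro l' hl'
    have h5 := (hrot (q * S.m + (jj + l' : ℕ)) (by push_cast; omega) (by push_cast; omega)).2.2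
    rw [hγ] at h5
    have e4 : ξ.γ (q * S.m + (jj + l' : ℕ)) = S.γ a g (q * S.m + (jj + l' : ℕ)) := rfl
    rw [e4] at h5
    set v := S.γ a g (q * S.m + (jj + l' : ℕ))
    calc u * (v * R.ρ * v⁻¹) = (u * v * R.ρ * (u * v)⁻¹) * u := by group
      _ = _ := by rw [h5]
  refine ⟨k1, ?_⟩
  rw [hu] at hu1
  have : g' * S.h a ^ k1 = (g' * S.h a ^ k1 * g⁻¹) * g := by group
  rw [this, hu1, one_mul]

end Sys

end RotSys

end Run7.h955
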