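import Pool.Agent.Run7.h955.H3

set_option autoImplicit false

/-!
# Rotation systems: the windmill and the centraliser property
-/

namespace Run7.h955

namespace RotSys

variable {G V : Type*} [Group G] [MulAction G V] {R : RotSys G V}

namespace Sys

/-- Indices of lines. -/
structure Idx (A G : Type*) where
  a : A
  g : G

instance {A : Type*} : MulAction G (Idx A G) where
  smul u i := ⟨i.a, u * i.g⟩
  one_smul i := by
    change (⟨i.a, 1 * i.g⟩ : Idx A G) = i
    rw [one_mul]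
  mul_smul u v i := by
    change (⟨i.a, u * v * i.g⟩ : Idx A G) = ⟨i.a, u * (v * i.g)⟩
    rw [mul_assoc]

lemma smul_a {A : Type*} (u : G) (i : Idx A G) : (u • i).a = i.a := rfl

lemma smul_g {A : Type*} (u : G) (i : Idx A G) : (u • i).g = u * i.g := rfl

variable {A : Type*} (S : R.Sys A)

/-- the cyclic group of a line -/
def Hg (i : Idx A G) : Subgroup G := Subgroup.zpowers (i.g * S.h i.a * i.g⁻¹)

/-- The position function of a line. -/
noncomputable def cf (i : Idx A G) (p : V) : ℤ := (S.ax i.a i.g).pos p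

lemma same_lines {i j : Idx A G} (h : i.a = j.a ∧ ∃ q : ℤ, i.g = j.g * S.h j.a ^ q) :
    S.Hg i = S.Hg j ∧ (S.m : ℤ) = S.m ∧ ∀ p q, |S.cf i p - S.cf i q| = |S.cf j p - S.cf j q| := by
  obtain ⟨ha, q, hq⟩ := h
  obtain ⟨a, g⟩ := i
  obtain ⟨a', g'⟩ := j
  simp only at ha hq
  subst ha
  subst hq
  refine ⟨?_, rfl, ?_⟩
  · unfold Hg
    simp only
    congr 1
    group
  · intro p q'
    have hpos : ∀ p, S.cf ⟨a, g' * S.h a ^ q⟩ p = S.cf ⟨a, g'⟩ p - q * S.m := by
      intro p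
      unfold cf
      have := Ax.pos_transfer (S.ax a g') (S.ax a (g' * S.h a ^ q)) 1 (q * S.m) (fun i => by
        change S.γ a (g' * S.h a ^ q) i = 1 * S.γ a g' (i + q * S.m)
        rw [S.γ_shift]
        have e5 : S.γ a (g' * S.h a ^ q) i = (g' * S.h a ^ q * g'⁻¹) * S.γ a g' i := by
          rw [← S.γ_mul]; congr 1; group
        rw [e5, one_mul]) p
      rw [one_smul] at this
      exact this
    rw [hpos, hpos]
    congr 1
    ring

lemma cf_smul (u : G) (i : Idx A G) (p : V) : S.cf (u • i) (u • p) = S.cf i p :=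
  S.pos_smul i.a i.g u p

lemma cf_zpow (i : Idx A G) (q : ℤ) (p : V) :
    S.cf i ((i.g * S.h i.a * i.g⁻¹) ^ q • p) = S.cf i p + q * S.m := by
  rw [conj_zpow]
  exact S.pos_zpow i.a i.g q p

lemma cf_lip (i : Idx A G) (p q : V) : |S.cf i p - S.cf i q| ≤ R.d p q :=
  (S.ax i.a i.g).pos_lip p q

/-- The lines as an instance of the windmill machine. -/
noncomputable def lines (K : ℤ) (hK : 20 ≤ K) (hKm : K * (2 * R.r + 8) < S.m) (v0 : V) :
    Pool.Agent.H17R2.Lines G V (Idx A G) where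
  d := R.d
  c := S.cf
  L := fun _ => S.m
  H := S.Hg
  K := K
  v0 := v0
  hK := hK
  d_self := R.d_self
  d_smul := R.d_smul
  d_zero := fun q h => (R.eq_of_d h).symm
  d_step := by
    intro n q h
    by_cases h0 : v0 = q
    · subst h0
      exact ⟨v0, by rw [R.d_self]; positivity, by rw [R.d_self]; norm_num⟩
    · obtain ⟨w, hw⟩ := R.conn.exists_walk_length_eq_dist v0 q
      have hlen : 0 < w.length := by
        rcases Nat.eq_zero_or_pos w.length with h1 | h1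
        · exact absurd (SimpleGraph.Walk.eq_of_length_eq_zero h1) h0
        · exact h1
      refine ⟨w.penultimate, ?_, ?_⟩
      · have h1 := SimpleGraph.dist_le w.dropLast
        have h2 : w.dropLast.length + 1 = w.length := by
          rw [SimpleGraph.Walk.length_dropLast]
          omega
        unfold RotSys.d at *
        omega
      · have hadj : R.gr.Adj w.penultimate q := w.adj_penultimate (by
          intro hn
          rw [← SimpleGraph.Walk.length_eq_zero_iff] at hn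
          omega)
        unfold RotSys.d
        rw [SimpleGraph.dist_eq_one_iff_adj.mpr hadj]
        norm_num
  c_smul := S.cf_smul
  c_lip := S.cf_lip
  c_unb := by
    intro i
    refine ⟨(S.ax i.a i.g).x S.m, (S.ax i.a i.g).x 0, ?_⟩
    unfold cf
    rw [Ax.pos_x, Ax.pos_x, sub_zero, abs_of_nonneg (Int.natCast_nonneg _)]
    nlinarith [S.mpos]
  L_smul := fun _ _ => rfl
  H_smul := by
    intro g i h hh
    obtain ⟨q, rfl⟩ := Subgroup.mem_zpowers_iff.mp hh
    refine Subgroup.mem_zpowers_iff.mpr ⟨q, ?_⟩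
    rw [smul_a, smul_g, ← conj_zpow]
    congr 1
    group
  hKL := by
    intro i
    have h1 : 0 ≤ (R.r : ℤ) := Int.natCast_nonneg _
    nlinarith
  htau := by
    intro i h hh h1
    obtain ⟨q, rfl⟩ := Subgroup.mem_zpowers_iff.mp hh
    refine ⟨q * S.m, ?_, fun p => S.cf_zpow i q p⟩
    have hq : q ≠ 0 := by
      rintro rfl
      exact h1 (zpow_zero _)
    rw [abs_mul, Nat.abs_cast]
    have := Int.one_le_abs hq
    nlinarith [S.mpos]
  dich := by
    intro i j
    by_cases h1 : ∃ s l, 2 * (R.r : ℤ) + 6 < (S.ax i.a i.g).pos ((S.ax j.a j.g).x l) -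
        (S.ax i.a i.g).pos ((S.ax j.a j.g).x s)
    · obtain ⟨s, l, h⟩ := h1
      have h2 := S.same_of_overlap i.a j.a i.g j.g h
      exact Or.inl (S.same_lines h2)
    · by_cases h2 : ∃ s l, 2 * (R.r : ℤ) + 6 < (S.ax j.a j.g).pos ((S.ax i.a i.g).x l) -
        (S.ax j.a j.g).pos ((S.ax i.a i.g).x s)
      · obtain ⟨s, l, h⟩ := h2
        have h3 := S.same_of_overlap j.a i.a j.g i.g h
        obtain ⟨h4, h5, h6⟩ := S.same_lines h3
        exact Or.inl ⟨h4.symm, h5.symm, fun p q => (h6 p q).symm⟩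
      · push Not at h1 h2
        obtain ⟨X, Y, h3, h4, h5⟩ := (S.ax i.a i.g).dich (S.ax j.a j.g)
          (N := 2 * (R.r : ℤ) + 6)
          (fun s l => by
            have := h1 s l
            have := h1 l s
            rw [abs_le]; constructor <;> linarith)
          (fun s l => by
            have := h2 s l
            have := h2 l s
            rw [abs_le]; constructor <;> linarith)
        refine Or.inr ⟨X, Y, h3, ?_, ?_⟩
        · intro a ha a' ha'
          have := h4 a ha a' ha'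
          nlinarith
        · intro a ha a' ha'
          have := h5 a ha a' ha'
          nlinarith

/-- The normal subgroup generated by the relators. -/
def Mg : Subgroup G := ⨆ i : Idx A G, S.Hg i

lemma h_mem (i : Idx A G) (q : ℤ) : (i.g * S.h i.a * i.g⁻¹) ^ q ∈ S.Mg :=
  (le_iSup S.Hg i) (Subgroup.zpow_mem _ (Subgroup.mem_zpowers _) q)

lemma Mg_normal : S.Mg.Normal := by
  constructor
  intro x hx g
  unfold Mg at hx
  induction hx using Subgroup.iSup_induction' with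
  | hp i y hy =>
    obtain ⟨q, rfl⟩ := Subgroup.mem_zpowers_iff.mp hy
    have := S.h_mem (g • i) q
    rw [smul_a, smul_g] at this
    rw [← conj_zpow]
    have e : g * (i.g * S.h i.a * i.g⁻¹) * g⁻¹ = g * i.g * S.h i.a * (g * i.g)⁻¹ := by group
    rw [e]
    exact this
  | h1 => simpa using S.Mg.one_mem
  | hmul x y _ _ hx hy =>
    have e : g * (x * y) * g⁻¹ = (g * x * g⁻¹) * (g * y * g⁻¹) := by group
    rw [e]
    exact S.Mg.mul_mem hx hy

lemma windmill' {K : ℤ} (hK : 20 ≤ K) (hKm : K * (2 * R.r + 8) < S.m) (v0 : V) (h : G)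
    (hh : h ∈ S.Mg) (h1 : h ≠ 1) : ∃ i : Idx A G,
    (K - 6) * S.m ≤ K * |S.cf i v0 - S.cf i (h • v0)| :=
  (S.lines K hK hKm v0).windmill h hh h1

end Sys

/-- A special vertex at which a large rotation takes place is not in the middle of an axis. -/
lemma Ax.mid (ξ : R.Ax) {C : ℤ} (hξ : ξ.Tame C) {g : G} {y q : V} (hy : y ≠ g • R.x0)
    (hq : q ≠ g • R.x0) (hC : 0 ≤ C) (hn : C + 2 * R.T < |R.k g y - R.k g q|)
    (hr : ∀ i, 4 * R.T < |(|R.k g y - R.k g q| - |ξ.rt i|)|)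
    (h1 : ξ.pos y + 1 < ξ.pos (g • R.x0)) (h2 : ξ.pos (g • R.x0) < ξ.pos q - 1) : False := by
  have hT := R.T_pos
  have hB := R.k_B hy hq (by omega)
  set i := ξ.pos (g • R.x0) with hi
  have Ly := ξ.L_of_lt (p := y) (i := i) (by omega)
  have Rq := (ξ.R_iff q i).mpr (by omega)
  have hrot := ξ.rot' i
  have hdq := ξ.d_add (p := y) (q := q) (i := i) (by omega) (by omega)
  by_cases hx : g • R.x0 = ξ.x i
  · -- the vertex is on the axis
    obtain ⟨ε, hε, _, c, h3⟩ := R.k_A3 (g := g) (g' := ξ.γ i) hx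
    have h4 := h3 y hy
    have h5 := h3 q hq
    have h6 := hr i
    have h7 := Ly.2
    have h8 := Rq.2
    unfold Ax.rt at h6
    rw [abs_le] at h4 h5
    rw [abs_lt] at h7 h8
    revert h6
    rw [imp_false, not_lt, abs_le]
    rcases hε with rfl | rfl <;>
    rcases abs_cases (R.k g y - R.k g q) with h9 | h9 <;>
    rcases abs_cases (R.k (ξ.γ i) (ξ.x (i + 1)) - R.k (ξ.γ i) (ξ.x (i - 1))) with h10 | h10 <;>
    constructor <;> linarith
  · by_cases h3 : |R.k (ξ.γ i) (g • R.x0) - R.k (ξ.γ i) q| < R.T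
    · -- between x i and x (i+1)
      have h4 : R.T ≤ |R.k (ξ.γ i) y - R.k (ξ.γ i) (g • R.x0)| := by
        have h7 := Ly.2
        have h8 := Rq.2
        rw [abs_lt] at h3 h7 h8
        rcases abs_cases (R.k (ξ.γ i) (ξ.x (i + 1)) - R.k (ξ.γ i) (ξ.x (i - 1))) with h10 | h10
        · apply le_trans _ (neg_le_abs _); omega
        · apply le_trans _ (le_abs_self _); omega
      have h5 := ξ.B Ly.1 hx h4
      have h6 := ξ.d_add (p := g • R.x0) (q := q) (i := i + 1) (by omega) (by omega)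
      have hx1 : ξ.x (i + 1) ≠ g • R.x0 := by
        intro h
        have := ξ.pos_x (i + 1)
        rw [h] at this
        omega
      have h7 : |R.k g y - R.k g (ξ.x i)| < R.T := by
        by_contra h8
        have h9 := R.k_B hy (fun h => hx h.symm) (not_lt.mp h8)
        have h10 := R.d_pos (fun h => hx h.symm : ξ.x i ≠ g • R.x0)
        have h11 := R.d_comm (ξ.x i) (g • R.x0)
        omega
      have h8 : |R.k g q - R.k g (ξ.x (i + 1))| < R.T := by
        by_contra h8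
        have h9 := R.k_B hq hx1 (not_lt.mp h8)
        have h10 := R.d_pos hx1
        have h11 := R.d_comm (ξ.x (i + 1)) (g • R.x0)
        have h12 := R.d_comm q (g • R.x0)
        have h13 := R.d_comm q (ξ.x (i + 1))
        omega
      have h9 := hξ g i (fun h => hx h.symm) hx1
      rw [abs_lt] at h7 h8
      rw [abs_le] at h9
      rcases abs_cases (R.k g y - R.k g q) with h10 | h10 <;> omega
    · by_cases h4 : |R.k (ξ.γ i) (g • R.x0) - R.k (ξ.γ i) y| < R.T
      · -- between x (i-1) and x i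
        have h5 := ξ.B hx Rq.1 (not_lt.mp h3)
        have h6 := ξ.d_add (p := y) (q := g • R.x0) (i := i - 1) (by omega) (by omega)
        have hx1 : ξ.x (i - 1) ≠ g • R.x0 := by
          intro h
          have := ξ.pos_x (i - 1)
          rw [h] at this
          omega
        have h7 : |R.k g y - R.k g (ξ.x (i - 1))| < R.T := by
          by_contra h8
          have h9 := R.k_B hy hx1 (not_lt.mp h8)
          have h10 := R.d_pos hx1
          have h11 := R.d_comm (ξ.x (i - 1)) (g • R.x0)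
          omega
        have h8 : |R.k g q - R.k g (ξ.x i)| < R.T := by
          by_contra h8
          have h9 := R.k_B hq (fun h => hx h.symm) (not_lt.mp h8)
          have h10 := R.d_pos (fun h => hx h.symm : ξ.x i ≠ g • R.x0)
          have h11 := R.d_comm (ξ.x i) (g • R.x0)
          have h12 := R.d_comm q (g • R.x0)
          have h13 := R.d_comm q (ξ.x i)
          omega
        have h9 := hξ g (i - 1) hx1 (by rw [sub_add_cancel]; exact fun h => hx h.symm)
        rw [sub_add_cancel] at h9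
        rw [abs_lt] at h7 h8
        rw [abs_le] at h9
        rcases abs_cases (R.k g y - R.k g q) with h10 | h10 <;> omega
      · -- far from both
        have h5 := ξ.B hx Rq.1 (not_lt.mp h3)
        have h6 := ξ.B hx Ly.1 (not_lt.mp h4)
        have h7 := R.d_pos hx
        have h8 := R.d_comm (g • R.x0) y
        have h9 := R.d_comm (ξ.x i) y
        omega

namespace Sys

variable {A : Type*} (S : R.Sys A)

/-- (★) -/
lemma star {K : ℤ} (hK : 20 ≤ K) (hKm : K * (2 * R.r + 8) < S.m) {n : ℤ}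
    (hn : S.C + 2 * R.T < n) (hgap : ∀ a j, j < S.m → 4 * R.T + 2 * S.E < |S.e a j - n|)
    {g : G} (hg : ∀ p ∈ R.P, g * p * g⁻¹ * p⁻¹ ∈ S.Mg) (u : G)
    (hne : g • u • R.x0 ≠ u • R.x0) :
    ∃ i : Idx A G, (K - 6) * S.m ≤ K * (|S.cf i (u • R.x0) - S.cf i (g • u • R.x0)| + 1) := by
  have hT := R.T_pos
  have hC := S.hC
  have hP : R.P.Normal := R.Pn
  have hpP : u * R.ρ ^ n * u⁻¹ ∈ R.P := hP.conj_mem _ (R.P.zpow_mem R.ρP n) u
  have ha := hg _ hpP
  set y := u • R.x0 with hy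
  set p := u * R.ρ ^ n * u⁻¹ with hp
  have hpy : p⁻¹ • y = y := by
    rw [inv_smul_eq_iff, hp, hy, R.rot_fix]
  have hgu : g • y = (g * u) • R.x0 := by rw [hy, mul_smul]
  have hrot : g * p * g⁻¹ = (g * u) * R.ρ ^ n * (g * u)⁻¹ := by rw [hp]; group
  have hay : (g * p * g⁻¹ * p⁻¹) • y = ((g * u) * R.ρ ^ n * (g * u)⁻¹) • y := by
    rw [mul_smul, hpy, hrot]
  have hyne : y ≠ (g * u) • R.x0 := by rw [← hgu]; exact hne.symm
  have hk := R.k_rot (g * u) n y hyne
  set q := ((g * u) * R.ρ ^ n * (g * u)⁻¹) • y with hq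
  have hqne : q ≠ (g * u) • R.x0 := R.rot_ne _ _ hyne
  have ha1 : g * p * g⁻¹ * p⁻¹ ≠ 1 := by
    intro h
    rw [h, one_smul] at hay
    rw [← hay] at hk
    omega
  obtain ⟨i, hi⟩ := S.windmill' hK hKm y _ ha ha1
  rw [hay] at hi
  have habs : |R.k (g * u) y - R.k (g * u) q| = n := by
    rw [hk]
    have : R.k (g * u) y - (R.k (g * u) y + n) = -n := by ring
    rw [this, abs_neg, abs_of_nonneg (by omega)]
  have hrt : ∀ l, 4 * R.T < |(n - |(S.ax i.a i.g).rt l|)| := by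
    intro l
    have h1 := S.rt_pos i.a i.g l
    rw [abs_of_nonneg (by omega : 0 ≤ (S.ax i.a i.g).rt l)]
    obtain ⟨q', j, hj, rfl⟩ := S.exists_rep l
    have h2 := S.rt_ax i.a i.g q' j hj
    have h3 := hgap i.a j hj
    rw [abs_le] at h2
    rcases abs_cases (S.e i.a j - n) with h4 | h4
    · apply lt_of_lt_of_le _ (neg_le_abs _); linarith
    · apply lt_of_lt_of_le _ (le_abs_self _); linarith
  have hmid1 : ¬ (S.cf i y + 1 < S.cf i (g • y) ∧ S.cf i (g • y) < S.cf i q - 1) := by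
    rintro ⟨h1, h2⟩
    rw [hgu] at h1 h2
    exact (S.ax i.a i.g).mid (S.tame_ax i.a i.g) hyne hqne hC (by rw [habs]; exact hn)
      (by rw [habs]; exact hrt) h1 h2
  have hmid2 : ¬ (S.cf i q + 1 < S.cf i (g • y) ∧ S.cf i (g • y) < S.cf i y - 1) := by
    rintro ⟨h1, h2⟩
    rw [hgu] at h1 h2
    rw [abs_sub_comm] at habs
    exact (S.ax i.a i.g).mid (S.tame_ax i.a i.g) hqne hyne hC (by rw [habs]; exact hn)
      (by rw [habs]; exact hrt) h1 h2
  have hcase : |S.cf i y - S.cf i q| ≤ |S.cf i y - S.cf i (g • y)| + 1 ∨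
      |S.cf i y - S.cf i q| ≤ |S.cf i q - S.cf i (g • y)| + 1 := by
    rcases abs_cases (S.cf i y - S.cf i q) with h1 | h1 <;>
    rcases abs_cases (S.cf i y - S.cf i (g • y)) with h2 | h2 <;>
    rcases abs_cases (S.cf i q - S.cf i (g • y)) with h3 | h3 <;> omega
  rcases hcase with h | h
  · exact ⟨i, by nlinarith⟩
  · refine ⟨((g * u) * R.ρ ^ n * (g * u)⁻¹)⁻¹ • i, ?_⟩
    have e1 : S.cf (((g * u) * R.ρ ^ n * (g * u)⁻¹)⁻¹ • i) y = S.cf i q := by
      rw [← S.cf_smul ((g * u) * R.ρ ^ n * (g * u)⁻¹) _ y, smul_inv_smul]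
    have e2 : S.cf (((g * u) * R.ρ ^ n * (g * u)⁻¹)⁻¹ • i) (g • y) = S.cf i (g • y) := by
      rw [← S.cf_smul ((g * u) * R.ρ ^ n * (g * u)⁻¹) _ (g • y), smul_inv_smul, hgu, R.rot_fix]
    rw [e1, e2]
    nlinarith

lemma d_ax_le (a : A) (g : G) (i : ℤ) (n : ℕ) :
    R.d ((S.ax a g).x i) ((S.ax a g).x (i + n)) ≤ n * S.D := by
  induction n with
  | zero => simp [R.d_self]
  | succ n ih =>
    have h1 := S.d_ax a g (i + n)
    have h2 := R.d_tri ((S.ax a g).x i) ((S.ax a g).x (i + n)) ((S.ax a g).x (i + n + 1))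
    have e : i + ((n + 1 : ℕ) : ℤ) = i + n + 1 := by push_cast; ring
    rw [e]
    push_cast
    linarith

lemma le_d_ax (ξ : R.Ax) (i : ℤ) (n : ℕ) : (n : ℤ) ≤ R.d (ξ.x i) (ξ.x (i + n)) := by
  have := ξ.pos_lip (ξ.x (i + n)) (ξ.x i)
  rw [ξ.pos_x, ξ.pos_x, R.d_comm] at this
  have e : i + (n : ℤ) - i = n := by ring
  rw [e, Nat.abs_cast] at this
  exact this

lemma shorten_aux {K : ℤ} (hK : 20 ≤ K) (hKm : K * (2 * R.r + 8) < S.m)
    (hs : 6 * S.m * S.D + 3 * K * S.D + 3 * K < (K - 6) * S.m) (y y' : V) (i : Idx A G)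
    (h : (K - 6) * S.m ≤ K * (|S.cf i y - S.cf i y'| + 1)) (hlt : S.cf i y < S.cf i y') :
    R.d y ((i.g * S.h i.a * i.g⁻¹) ^ (-1 : ℤ) • y') < R.d y y' := by
  set ξ := S.ax i.a i.g with hξ
  set D := S.cf i y' - S.cf i y with hD
  have hm := S.mpos
  have hr : 0 ≤ (R.r : ℤ) := Int.natCast_nonneg _
  have hm2 : 8 * K < S.m := by nlinarith
  have habs : |S.cf i y - S.cf i y'| = D := by
    rw [abs_sub_comm, abs_of_nonneg (by omega)]
  rw [habs] at h
  have hD0 : 0 ≤ S.D := by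
    have := S.d_ax i.a i.g 0
    have h2 := R.d_nonneg ((S.ax i.a i.g).x 0) ((S.ax i.a i.g).x (0 + 1))
    omega
  have hD3 : 3 ≤ D := by nlinarith
  set a := S.cf i y + 1 with ha
  set b := S.cf i y' - 1 with hb
  have hpy : ξ.pos y = S.cf i y := rfl
  have hpy' : ξ.pos y' = S.cf i y' := rfl
  have e1 := ξ.d_add (p := y) (q := y') (i := a) (by omega) (by omega)
  have e2 := ξ.d_add (p := ξ.x a) (q := y') (i := b) (by rw [ξ.pos_x]; omega) (by omega)
  have hγb : (i.g * S.h i.a * i.g⁻¹) ^ (-1 : ℤ) • ξ.x b = ξ.x (b - S.m) := by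
    change _ • (S.γ i.a i.g b • R.x0) = S.γ i.a i.g (b - S.m) • R.x0
    have h3 := S.γ_shift i.a i.g b (-1)
    have e : b + -1 * (S.m : ℤ) = b - S.m := by ring
    rw [e] at h3
    rw [h3, smul_smul, conj_zpow]
  set w := (i.g * S.h i.a * i.g⁻¹) ^ (-1 : ℤ) with hw
  have e3 : R.d (ξ.x (b - S.m)) (w • y') = R.d (ξ.x b) y' := by
    rw [← hγb, R.d_smul]
  have t1 := R.d_tri y (ξ.x a) (w • y')
  have t2 := R.d_tri (ξ.x a) (ξ.x (b - S.m)) (w • y')
  have key : R.d (ξ.x a) (ξ.x (b - S.m)) < R.d (ξ.x a) (ξ.x b) := by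
    by_cases hc : a ≤ b - S.m
    · have e4 := ξ.d_x hc (by omega : b - S.m ≤ b)
      have e5 := R.d_pos (p := ξ.x (b - S.m)) (q := ξ.x b) (fun h => by
        have := ξ.x_inj h; omega)
      omega
    · obtain ⟨n1, hn1⟩ : ∃ n1 : ℕ, a = b - S.m + n1 := ⟨(a - (b - S.m)).toNat, by omega⟩
      obtain ⟨n2, hn2⟩ : ∃ n2 : ℕ, b = a + n2 := ⟨(b - a).toNat, by omega⟩
      have e4 := S.d_ax_le i.a i.g (b - S.m) n1
      rw [← hn1] at e4
      have e5 := le_d_ax ξ a n2
      rw [← hn2] at e5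
      rw [R.d_comm]
      have h5 : (n1 : ℤ) = S.m - D + 2 := by omega
      have h6 : (n2 : ℤ) = D - 2 := by omega
      have h7 : K * (n1 : ℤ) ≤ 6 * S.m + 3 * K := by rw [h5]; nlinarith
      have h8 : K * (n1 : ℤ) * S.D ≤ (6 * S.m + 3 * K) * S.D :=
        mul_le_mul_of_nonneg_right h7 hD0
      have h9 : (K - 6) * S.m - 3 * K ≤ K * (n2 : ℤ) := by rw [h6]; nlinarith
      have h10 : K * ((n1 : ℤ) * S.D) < K * (n2 : ℤ) := by nlinarith
      have h11 : (n1 : ℤ) * S.D < n2 := lt_of_mul_lt_mul_left h10 (by omega)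
      have e4' : R.d (ξ.x (b - S.m)) (ξ.x a) ≤ n1 * S.D := e4
      omega
  omega

/-- elements commuting with `P` modulo `M` can be moved into the stabiliser of a special vertex -/
lemma exists_fix {K : ℤ} (hK : 20 ≤ K) (hKm : K * (2 * R.r + 8) < S.m)
    (hs : 6 * S.m * S.D + 3 * K * S.D + 3 * K < (K - 6) * S.m) {n : ℤ}
    (hn : S.C + 2 * R.T < n) (hgap : ∀ a j, j < S.m → 4 * R.T + 2 * S.E < |S.e a j - n|)
    {g : G} (hg : ∀ p ∈ R.P, g * p * g⁻¹ * p⁻¹ ∈ S.Mg) (u : G) :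
    ∃ h ∈ S.Mg, (h * g) • u • R.x0 = u • R.x0 := by
  have hMn := S.Mg_normal
  have hg' : ∀ h ∈ S.Mg, ∀ p ∈ R.P, (h * g) * p * (h * g)⁻¹ * p⁻¹ ∈ S.Mg := by
    intro h hh p hp
    have e : (h * g) * p * (h * g)⁻¹ * p⁻¹ = h * (g * p * g⁻¹ * p⁻¹) * (p * h⁻¹ * p⁻¹) := by group
    rw [e]
    exact S.Mg.mul_mem (S.Mg.mul_mem hh (hg p hp)) (hMn.conj_mem _ (S.Mg.inv_mem hh) p)
  -- minimal distance
  have hex2 : ∃ h ∈ S.Mg, ∀ h' ∈ S.Mg, R.d (u • R.x0) ((h * g) • u • R.x0) ≤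
      R.d (u • R.x0) ((h' * g) • u • R.x0) := by
    have hex : ∃ N : ℕ, ∃ h ∈ S.Mg, (R.d (u • R.x0) ((h * g) • u • R.x0)).toNat = N :=
      ⟨_, 1, S.Mg.one_mem, rfl⟩
    classical
    obtain ⟨h, hh, hN⟩ := Nat.find_spec hex
    refine ⟨h, hh, fun h' hh' => ?_⟩
    have := Nat.find_min' hex (m := (R.d (u • R.x0) ((h' * g) • u • R.x0)).toNat) ⟨h', hh', rfl⟩
    have h0 := R.d_nonneg (u • R.x0) ((h' * g) • u • R.x0)
    have h00 := R.d_nonneg (u • R.x0) ((h * g) • u • R.x0)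
    omega
  obtain ⟨h, hh, hmin⟩ := hex2
  refine ⟨h, hh, ?_⟩
  by_contra hne
  obtain ⟨i, hi⟩ := S.star hK hKm hn hgap (hg' h hh) u hne
  set y := u • R.x0 with hy
  set y' := (h * g) • y with hy'
  have hshort : ∃ w ∈ S.Mg, R.d y (w • y') < R.d y y' := by
    rcases lt_trichotomy (S.cf i y) (S.cf i y') with h1 | h1 | h1
    · exact ⟨_, S.h_mem i (-1), S.shorten_aux hK hKm hs y y' i hi h1⟩
    · exfalso
      rw [h1, sub_self, abs_zero] at hi
      have hr : 0 ≤ (R.r : ℤ) := Int.natCast_nonneg _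
      nlinarith
    · rw [abs_sub_comm] at hi
      have h2 := S.shorten_aux hK hKm hs y' y i hi h1
      refine ⟨((i.g * S.h i.a * i.g⁻¹) ^ (-1 : ℤ))⁻¹, S.Mg.inv_mem (S.h_mem i (-1)), ?_⟩
      rw [R.d_comm, R.d_smul_inv, R.d_comm y y']
      exact h2
  obtain ⟨w, hw, hlt⟩ := hshort
  have hm2 := hmin (w * h) (S.Mg.mul_mem hw hh)
  have e : (w * h * g) • y = w • y' := by rw [hy', smul_smul w, mul_assoc]
  rw [e] at hm2
  omega

/-- The centraliser property. -/
theorem centr {K : ℤ} (hK : 20 ≤ K) (hKm : K * (2 * R.r + 8) < S.m)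
    (hs : 6 * S.m * S.D + 3 * K * S.D + 3 * K < (K - 6) * S.m) {n : ℤ}
    (hn : S.C + 2 * R.T < n) (hgap : ∀ a j, j < S.m → 4 * R.T + 2 * S.E < |S.e a j - n|)
    (hr1 : ∀ j, K * (2 * R.d (R.b 0 • R.x0) (R.b j • R.x0) + 1) < (K - 6) * S.m)
    (hr2 : ∀ j, K * (2 * R.d (R.b 0 • R.x0)
      ((R.b j * R.ρ ^ (R.T + 1) * (R.b j)⁻¹) • R.b (j + 1) • R.x0) + 1) < (K - 6) * S.m)
    {g : G} (hg : ∀ p ∈ R.P, g * p * g⁻¹ * p⁻¹ ∈ S.Mg) : g ∈ S.Mg := by
  have hMn := S.Mg_normal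
  have hT := R.T_pos
  obtain ⟨h, hh, hfix⟩ := S.exists_fix hK hKm hs hn hgap hg (R.b 0)
  have hg' : ∀ p ∈ R.P, (h * g) * p * (h * g)⁻¹ * p⁻¹ ∈ S.Mg := by
    intro p hp
    have e : (h * g) * p * (h * g)⁻¹ * p⁻¹ = h * (g * p * g⁻¹ * p⁻¹) * (p * h⁻¹ * p⁻¹) := by group
    rw [e]
    exact S.Mg.mul_mem (S.Mg.mul_mem hh (hg p hp)) (hMn.conj_mem _ (S.Mg.inv_mem hh) p)
  set f := h * g with hf
  have hfixall : ∀ u : G, K * (2 * R.d (R.b 0 • R.x0) (u • R.x0) + 1) < (K - 6) * S.m →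
      f • u • R.x0 = u • R.x0 := by
    intro u hu
    by_contra hne
    obtain ⟨i, hi⟩ := S.star hK hKm hn hgap hg' u hne
    have h1 := S.cf_lip i (u • R.x0) (f • u • R.x0)
    have h2 := R.d_tri (u • R.x0) (R.b 0 • R.x0) (f • u • R.x0)
    have h3 : R.d (R.b 0 • R.x0) (f • u • R.x0) = R.d (R.b 0 • R.x0) (u • R.x0) := by
      conv_lhs => rw [← hfix]
      rw [R.d_smul]
    have h4 := R.d_comm (u • R.x0) (R.b 0 • R.x0)
    nlinarith
  have hf1 : f = 1 := by
    apply R.F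
    intro j
    have e1 := hfixall (R.b j) (hr1 j)
    have e2 := hfixall (R.b (j + 1)) (hr1 (j + 1))
    have e3 := hfixall ((R.b j * R.ρ ^ (R.T + 1) * (R.b j)⁻¹) * R.b (j + 1)) (by
      rw [mul_smul]; exact hr2 j)
    rw [mul_smul _ (R.b (j + 1))] at e3
    have hx : (f * R.b j) • R.x0 = R.b j • R.x0 := by rw [mul_smul, e1]
    obtain ⟨ε, hε, h1, c, h2⟩ := R.k_A3 hx
    have hp1 : R.b (j + 1) • R.x0 ≠ R.b j • R.x0 := (R.bne j).symm
    have hp2 := R.rot_ne (R.b j) (R.T + 1) hp1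
    have h3 := h2 (R.b (j + 1) • R.x0) (by rw [hx]; exact hp1)
    have h4 := h2 ((R.b j * R.ρ ^ (R.T + 1) * (R.b j)⁻¹) • R.b (j + 1) • R.x0) (by
      rw [hx]; exact hp2)
    have e4 : R.k (f * R.b j) (R.b (j + 1) • R.x0) = R.k (R.b j) (R.b (j + 1) • R.x0) := by
      conv_lhs => rw [← e2]
      rw [R.k_smul]
    have e5 : R.k (f * R.b j) ((R.b j * R.ρ ^ (R.T + 1) * (R.b j)⁻¹) • R.b (j + 1) • R.x0) =
        R.k (R.b j) ((R.b j * R.ρ ^ (R.T + 1) * (R.b j)⁻¹) • R.b (j + 1) • R.x0) := by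
      conv_lhs => rw [← e3]
      rw [R.k_smul]
    rw [e4] at h3
    rw [e5, R.k_rot _ _ _ hp1] at h4
    rcases hε with rfl | rfl
    · rw [zpow_one] at h1
      calc f * (R.b j * R.ρ * (R.b j)⁻¹) = (f * R.b j * R.ρ * (f * R.b j)⁻¹) * f := by group
        _ = _ := by rw [← h1]
    · exfalso
      rw [abs_le] at h3 h4
      linarith
  have : g = h⁻¹ * f := by rw [hf]; group
  rw [this, hf1, mul_one]
  exact S.Mg.inv_mem hh

end Sys

end RotSys

end Run7.h955
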